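import Pool.Agent.Helper77.Robin.Slopes

set_option autoImplicit false
set_option linter.unusedSectionVars false

open Filter Topology Set
open scoped RealInnerProductSpace

namespace Pool.Agent.Helper77.Robin

variable {n : ℕ} {α lam : ℝ} {u : EuclideanSpace ℝ (Fin (n + 1 + 1)) → ℝ}

theorem exists_upper (S : Setup n α lam u) : ∃ M, ∀ x ∈ dom n, Real.log (u x) ≤ M := by
  obtain ⟨p, hp⟩ := exists_supergradient isOpen_dom S.conc (basePt_mem (n := n))
  obtain ⟨R, hR⟩ := isBounded_iff_forall_norm_le.1 (isBounded_dom (n := n))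
  refine ⟨Real.log (u (basePt n)) + ‖p‖ * (R + R), fun x hx => (hp x hx).trans ?_⟩
  gcongr
  refine (real_inner_le_norm _ _).trans ?_
  gcongr
  exact (norm_sub_le _ _).trans (add_le_add (hR x hx) (hR _ basePt_mem))

/-- a compact part of the domain -/
def Kset (n : ℕ) : Set (EuclideanSpace ℝ (Fin (n + 1 + 1))) :=
  {y | 1 / 16 ≤ y 0} ∩ {y | y 1 ≤ 3 / 4} ∩
    (⋂ k : ℕ, {y | 2 * ak k * y 0 - ak k ^ 2 + 1 / 8 ≤ y 1}) ∩
    ⋂ i : Fin (n + 1 + 1), {x | i ≠ 0 → i ≠ 1 → 1 / 8 ≤ x i ∧ x i ≤ 7 / 8}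

theorem Kset_subset : Kset n ⊆ dom n := by
  rintro y ⟨⟨⟨h0, h1⟩, h2⟩, h3⟩
  simp only [mem_iInter] at h2 h3
  have h0 : 1 / 16 ≤ y 0 := h0
  have h1 : y 1 ≤ 3 / 4 := h1
  rw [mem_dom]
  refine ⟨by linarith, by linarith, fun k => ?_, fun i hi0 hi1 => ?_⟩
  · have : 2 * ak k * y 0 - ak k ^ 2 + 1 / 8 ≤ y 1 := h2 k
    linarith
  · have := h3 i hi0 hi1
    exact ⟨by linarith [this.1], by linarith [this.2]⟩

theorem isCompact_Kset : IsCompact (Kset n) := by
  apply Metric.isCompact_of_isClosed_isBounded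
  · refine IsClosed.inter (IsClosed.inter (IsClosed.inter ?_ ?_) (isClosed_iInter fun k => ?_))
      (isClosed_iInter fun i => ?_)
    · exact isClosed_le (by fun_prop) (by fun_prop)
    · exact isClosed_le (by fun_prop) (by fun_prop)
    · exact isClosed_le (by fun_prop) (by fun_prop)
    · by_cases h0 : i = 0
      · simp [h0]
      by_cases h1 : i = 1
      · simp [h1]
      simp only [ne_eq, h0, not_false_eq_true, h1, forall_const]
      refine IsClosed.and ?_ ?_
      · exact isClosed_le (by fun_prop) (by fun_prop)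
      · exact isClosed_le (by fun_prop) (by fun_prop)
  · exact isBounded_dom.subset Kset_subset

theorem exists_lower (S : Setup n α lam u) : ∃ M, ∀ x ∈ dom n, x 1 < 1 / 2 →
    (∀ i, i ≠ 0 → i ≠ 1 → 1 / 8 < x i ∧ x i < 7 / 8) → -M ≤ Real.log (u x) := by
  obtain ⟨C, hC⟩ := (isCompact_Kset (n := n)).exists_bound_of_continuousOn
    ((continuousOn_log S).mono Kset_subset)
  refine ⟨C + 2 * α, fun x hx hx1 hi => ?_⟩
  have hα := S.hα
  obtain ⟨h0, h1, h2, h3⟩ := mem_dom.1 hx
  have hx34 : x 0 < 3 / 4 := by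
    have := h2 0
    simp only [ak, pow_zero] at this
    linarith
  set y := x + (1 / 4 : ℝ) • e1 with hy
  have y0 : y 0 = x 0 := by simp [hy, e1_zero]
  have y1 : y 1 = x 1 + 1 / 4 := by simp [hy, e1_one]
  have yi : ∀ i, i ≠ 1 → y i = x i := by
    intro i hi
    simp [hy, e1_ne hi]
  have hyd : y ∈ dom n := by
    rw [mem_dom, y0, y1]
    refine ⟨h0, by linarith, fun k => by linarith [h2 k], fun i hi0 hi1 => ?_⟩
    rw [yi i hi1]
    exact h3 i hi0 hi1
  set z := y + (1 / 16 : ℝ) • e0 with hz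
  have z0 : z 0 = x 0 + 1 / 16 := by rw [← y0]; simp [hz, e0_zero]
  have z1 : z 1 = x 1 + 1 / 4 := by rw [← y1]; simp [hz, e0_one]
  have zi : ∀ i, i ≠ 0 → i ≠ 1 → z i = x i := by
    intro i hi0 hi1
    rw [← yi i hi1]
    simp [hz, e0_ne hi0]
  have hzK : z ∈ Kset n := by
    refine ⟨⟨⟨?_, ?_⟩, ?_⟩, ?_⟩
    · show 1 / 16 ≤ z 0
      rw [z0]; linarith
    · show z 1 ≤ 3 / 4
      rw [z1]; linarith
    · simp only [mem_iInter]
      intro k
      show 2 * ak k * z 0 - ak k ^ 2 + 1 / 8 ≤ z 1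
      rw [z0, z1]
      have a1 := ak_le_one k
      have a2 := h2 k
      linarith
    · simp only [mem_iInter]
      intro i hi0 hi1
      rw [zi i hi0 hi1]
      exact ⟨(hi i hi0 hi1).1.le, (hi i hi0 hi1).2.le⟩
  have s1 := slope_e1 S hx hx34.le (t := 1 / 4) (by norm_num) hyd
  have s2 := slope_e0 S hyd (t := 1 / 16) (by norm_num) (Kset_subset hzK)
  have s3 := hC z hzK
  rw [Real.norm_eq_abs] at s3
  have s4 := (abs_le.1 s3).1
  rw [← hy] at s1
  rw [← hz] at s2
  linarith

theorem exists_supergrad_bound (S : Setup n α lam u)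
    {p : EuclideanSpace ℝ (Fin (n + 1 + 1)) → EuclideanSpace ℝ (Fin (n + 1 + 1))}
    (hp : ∀ x ∈ dom n, ∀ y ∈ dom n, Real.log (u y) ≤ Real.log (u x) + ⟪p x, y - x⟫) :
    ∃ L, 0 < L ∧ ∀ z ∈ Wreg n, ‖p z‖ ≤ L := by
  obtain ⟨M, hM⟩ := exists_upper S
  obtain ⟨M', hM'⟩ := exists_lower S
  have hα := S.hα
  set B := |M| + |M'| with hB
  have hB0 : 0 ≤ B := by positivity
  have hBM : M + M' ≤ B := add_le_add (le_abs_self _) (le_abs_self _)
  refine ⟨(n + 2) * (32 * B + 20 * α), by positivity, fun z hz => ?_⟩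
  apply norm_le_of_coord (by positivity)
  have hzd : z ∈ dom n := hz.1
  obtain ⟨h0, h1, h2, h3⟩ := mem_dom.1 hzd
  obtain ⟨v1, v2⟩ := mem_Vreg.1 hz.2
  have hz0 : z 0 ≤ 3 / 4 := by
    have := h2 0
    simp only [ak, pow_zero] at this
    linarith
  have hfz := hM z hzd
  -- the vertical component
  set y := z + (1 / 8 : ℝ) • e1 with hy
  have y0 : y 0 = z 0 := by simp [hy, e1_zero]
  have y1 : y 1 = z 1 + 1 / 8 := by simp [hy, e1_one]
  have yi : ∀ i, i ≠ 1 → y i = z i := by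
    intro i hi
    simp [hy, e1_ne hi]
  have hyd : y ∈ dom n := by
    rw [mem_dom, y0, y1]
    refine ⟨h0, by linarith, fun k => by linarith [h2 k], fun i hi0 hi1 => ?_⟩
    rw [yi i hi1]
    exact h3 i hi0 hi1
  have hyl := hM' y hyd (by rw [y1]; linarith) (fun i hi0 hi1 => by
    rw [yi i hi1]
    have := v2 i hi0 hi1
    exact ⟨by linarith [this.1], by linarith [this.2]⟩)
  have hpy := hp z hzd y hyd
  rw [hy, add_sub_cancel_left, inner_smul_right, inner_e1, ← hy] at hpy
  have p1low : -(8 * B) ≤ p z 1 := by linarith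
  have p1up : p z 1 ≤ 5 * α := by
    have hcont : Continuous (fun t : ℝ => z - t • (e1 : EuclideanSpace ℝ (Fin (n + 1 + 1)))) := by
      fun_prop
    have e0' : z - (0:ℝ) • (e1 : EuclideanSpace ℝ (Fin (n + 1 + 1))) = z := by simp
    have h2 : ∀ᶠ t in 𝓝 (0:ℝ), z - t • e1 ∈ dom n := by
      apply hcont.continuousAt.eventually_mem
      rw [e0']
      exact isOpen_dom.mem_nhds hzd
    have h4 : ∀ᶠ t in 𝓝[>] (0:ℝ), z - t • e1 ∈ dom n := nhdsWithin_le_nhds h2
    obtain ⟨t, h5, ht⟩ := (h4.and self_mem_nhdsWithin).exists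
    have ht : 0 < t := ht
    have c0 : (z - t • e1 : EuclideanSpace ℝ (Fin (n + 1 + 1))) 0 = z 0 := by simp [e1_zero]
    have h7 := slope_e1 S h5 (by rw [c0]; exact hz0) ht.le (by rw [sub_add_cancel]; exact hzd)
    rw [sub_add_cancel] at h7
    have h8 := hp z hzd _ h5
    rw [sub_sub_cancel_left, inner_neg_right, inner_smul_right, inner_e1] at h8
    have h9 : t * p z 1 ≤ t * (5 * α) := by linarith
    exact le_of_mul_le_mul_left h9 ht
  -- the horizontal component
  have p0up : p z 0 ≤ α := by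
    have h5 := dom_sub_e0 hzd (s := z 0 / 2) (by positivity) (by linarith)
    have h7 := slope_e0 S h5 (t := z 0 / 2) (by positivity) (by rw [sub_add_cancel]; exact hzd)
    rw [sub_add_cancel] at h7
    have h8 := hp z hzd _ h5
    rw [sub_sub_cancel_left, inner_neg_right, inner_smul_right, inner_e0] at h8
    have h9 : z 0 / 2 * p z 0 ≤ z 0 / 2 * α := by linarith
    exact le_of_mul_le_mul_left h9 (by positivity)
  set w := y + (1 / 32 : ℝ) • e0 with hw
  have w0 : w 0 = z 0 + 1 / 32 := by rw [← y0]; simp [hw, e0_zero]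
  have w1 : w 1 = z 1 + 1 / 8 := by rw [← y1]; simp [hw, e0_one]
  have wi : ∀ i, i ≠ 0 → i ≠ 1 → w i = z i := by
    intro i hi0 hi1
    rw [← yi i hi1]
    simp [hw, e0_ne hi0]
  have hwd : w ∈ dom n := by
    rw [mem_dom, w0, w1]
    refine ⟨by linarith, by linarith, fun k => ?_, fun i hi0 hi1 => ?_⟩
    · have a1 := ak_le_one k
      have a2 := h2 k
      linarith
    · rw [wi i hi0 hi1]
      exact h3 i hi0 hi1
  have hwl := hM' w hwd (by rw [w1]; linarith) (fun i hi0 hi1 => by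
    rw [wi i hi0 hi1]
    have := v2 i hi0 hi1
    exact ⟨by linarith [this.1], by linarith [this.2]⟩)
  have hpw := hp z hzd w hwd
  have ew : w - z = (1 / 8 : ℝ) • e1 + (1 / 32 : ℝ) • e0 := by
    rw [hw, hy]; abel
  rw [ew, inner_add_right, inner_smul_right, inner_smul_right, inner_e1, inner_e0] at hpw
  have p0low : -(32 * B + 20 * α) ≤ p z 0 := by linarith
  intro i
  by_cases hi0 : i = 0
  · rw [hi0, abs_le]
    exact ⟨p0low, by linarith⟩
  by_cases hi1 : i = 1
  · rw [hi1, abs_le]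
    exact ⟨by linarith, by linarith⟩
  -- the other components
  have hcomp : ∀ c : ℝ, |c| ≤ 1 / 8 → -(M' + M) ≤ c * p z i := by
    intro c hc
    set q := z + c • EuclideanSpace.single i (1:ℝ) with hq
    have q0 : q 0 = z 0 := by
      have : (0 : Fin (n + 1 + 1)) ≠ i := fun h => hi0 h.symm
      simp [hq, this]
    have q1 : q 1 = z 1 := by
      have : (1 : Fin (n + 1 + 1)) ≠ i := fun h => hi1 h.symm
      simp [hq, this]
    have qi : q i = z i + c := by simp [hq]
    have qj : ∀ j, j ≠ i → q j = z j := by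
      intro j hj
      simp [hq, hj]
    rw [abs_le] at hc
    have hqc : ∀ j, j ≠ 0 → j ≠ 1 → 1 / 8 < q j ∧ q j < 7 / 8 := by
      intro j hj0 hj1
      have hv := v2 j hj0 hj1
      by_cases hji : j = i
      · rw [hji] at hv ⊢
        rw [qi]
        exact ⟨by linarith [hv.1, hc.1], by linarith [hv.2, hc.2]⟩
      · rw [qj j hji]
        exact ⟨by linarith [hv.1], by linarith [hv.2]⟩
    have hqd : q ∈ dom n := by
      rw [mem_dom, q0, q1]
      refine ⟨h0, h1, h2, fun j hj0 hj1 => ?_⟩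
      have := hqc j hj0 hj1
      exact ⟨by linarith [this.1], by linarith [this.2]⟩
    have hql := hM' q hqd (by rw [q1]; linarith) hqc
    have hpq := hp z hzd q hqd
    rw [hq, add_sub_cancel_left, inner_smul_right, EuclideanSpace.inner_single_right, ← hq] at hpq
    simp only [one_mul, conj_trivial] at hpq
    linarith
  have c1 := hcomp (1 / 8) (by rw [abs_of_pos] <;> norm_num)
  have c2 := hcomp (-(1 / 8)) (by rw [abs_neg, abs_of_pos] <;> norm_num)
  rw [abs_le]
  constructor <;> linarith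

end Pool.Agent.Helper77.Robin
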