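import Mathlib

set_option autoImplicit false

open MeasureTheory Filter Topology Set

namespace Pool.Agent.Helper77.Robin

/-- positive part cubed -/
noncomputable def pc (x : ℝ) : ℝ := (max x 0) ^ 3

theorem hasDerivAt_max_pow (k : ℕ) (x : ℝ) :
    HasDerivAt (fun x : ℝ => (max x 0) ^ (k + 2)) ((k + 2) * (max x 0) ^ (k + 1)) x := by
  rcases lt_trichotomy x 0 with hx | hx | hx
  · have h : (fun x : ℝ => (max x 0) ^ (k + 2)) =ᶠ[𝓝 x] fun _ => 0 := by
      filter_upwards [Iio_mem_nhds hx] with y hy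
      rw [max_eq_right (le_of_lt hy)]; simp
    rw [max_eq_right hx.le]
    simpa using (hasDerivAt_const x (0:ℝ)).congr_of_eventuallyEq h
  · subst hx
    simp only [max_self, ne_eq, Nat.add_eq_zero_iff, one_ne_zero, and_false, not_false_eq_true,
      zero_pow, mul_zero]
    rw [hasDerivAt_iff_isLittleO]
    simp only [max_self, ne_eq, Nat.add_eq_zero_iff, OfNat.ofNat_ne_zero, and_false,
      not_false_eq_true, zero_pow, sub_zero, smul_zero]
    rw [Asymptotics.isLittleO_iff]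
    intro c hc
    have : ∀ᶠ y : ℝ in 𝓝 0, |y| < min c 1 := by
      have := Metric.ball_mem_nhds (0:ℝ) (lt_min hc one_pos)
      filter_upwards [this] with y hy
      simpa using hy
    filter_upwards [this] with y hy
    have h1 : |y| < c := lt_of_lt_of_le hy (min_le_left _ _)
    have h2 : |y| < 1 := lt_of_lt_of_le hy (min_le_right _ _)
    have h3 : |max y 0| ≤ |y| := by
      rcases le_total y 0 with h | h
      · rw [max_eq_right h]; simp
      · rw [max_eq_left h]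
    rw [Real.norm_eq_abs, Real.norm_eq_abs, abs_pow]
    calc |max y 0| ^ (k + 2) ≤ |y| ^ (k + 2) := pow_le_pow_left₀ (abs_nonneg _) h3 _
      _ = |y| ^ k * |y| * |y| := by ring
      _ ≤ 1 * c * |y| := by
        have h4 : |y| ^ k ≤ 1 := pow_le_one₀ (abs_nonneg _) h2.le
        have h5 : |y| ^ k * |y| ≤ 1 * c := mul_le_mul h4 h1.le (abs_nonneg _) zero_le_one
        exact mul_le_mul_of_nonneg_right h5 (abs_nonneg _)
      _ = c * |y| := by ring
  · have h : (fun x : ℝ => (max x 0) ^ (k + 2)) =ᶠ[𝓝 x] fun x => x ^ (k + 2) := by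
      filter_upwards [Ioi_mem_nhds hx] with y hy
      rw [max_eq_left (le_of_lt hy)]
    rw [max_eq_left hx.le]
    have := (hasDerivAt_pow (k + 2) x).congr_of_eventuallyEq h
    refine this.congr_deriv ?_
    push_cast
    rfl

theorem hasDerivAt_pc (x : ℝ) : HasDerivAt pc (3 * (max x 0) ^ 2) x := by
  have := hasDerivAt_max_pow 1 x
  norm_num at this
  exact this

theorem deriv_pc : deriv pc = fun x => 3 * (max x 0) ^ 2 := by
  ext x
  exact (hasDerivAt_pc x).deriv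

theorem hasDerivAt_deriv_pc (x : ℝ) :
    HasDerivAt (fun x : ℝ => 3 * (max x 0) ^ 2) (6 * max x 0) x := by
  have := (hasDerivAt_max_pow 0 x).const_mul 3
  norm_num at this
  refine this.congr_deriv ?_
  ring

theorem contDiff_pc : ContDiff ℝ 2 pc := by
  rw [show (2 : WithTop ℕ∞) = 1 + 1 by norm_num, contDiff_succ_iff_deriv]
  refine ⟨fun x => (hasDerivAt_pc x).differentiableAt, by simp, ?_⟩
  rw [deriv_pc, show (1 : WithTop ℕ∞) = 0 + 1 by norm_num, contDiff_succ_iff_deriv]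
  refine ⟨fun x => (hasDerivAt_deriv_pc x).differentiableAt, by simp, ?_⟩
  have : deriv (fun x : ℝ => 3 * (max x 0) ^ 2) = fun x => 6 * max x 0 := by
    ext x
    exact (hasDerivAt_deriv_pc x).deriv
  rw [this, contDiff_zero]
  fun_prop

theorem pc_nonneg (x : ℝ) : 0 ≤ pc x := by
  unfold pc
  positivity

theorem pc_of_nonpos {x : ℝ} (hx : x ≤ 0) : pc x = 0 := by
  unfold pc
  rw [max_eq_right hx]
  simp

theorem pc_of_nonneg {x : ℝ} (hx : 0 ≤ x) : pc x = x ^ 3 := by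
  unfold pc
  rw [max_eq_left hx]

/-- The polynomial profile on `[0, ε]`. -/
noncomputable def X (a ε s : ℝ) : ℝ := (1 - s / ε) ^ 3 * (1 + (a + 3 / ε) * s)
/-- its derivative -/
noncomputable def X1 (a ε s : ℝ) : ℝ :=
  -(3 / ε) * (1 - s / ε) ^ 2 * (1 + (a + 3 / ε) * s) + (a + 3 / ε) * (1 - s / ε) ^ 3
/-- its second derivative -/
noncomputable def X2 (a ε s : ℝ) : ℝ :=
  (6 / ε ^ 2) * (1 - s / ε) * (1 + (a + 3 / ε) * s) - (6 * (a + 3 / ε) / ε) * (1 - s / ε) ^ 2

theorem hasDerivAt_X (a ε s : ℝ) : HasDerivAt (X a ε) (X1 a ε s) s := by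
  have h1 : HasDerivAt (fun s : ℝ => 1 - s / ε) (-(1 / ε)) s := by
    have := ((hasDerivAt_id s).div_const ε).const_sub 1
    simpa using this
  have h2 : HasDerivAt (fun s : ℝ => 1 + (a + 3 / ε) * s) (a + 3 / ε) s := by
    have := ((hasDerivAt_id s).const_mul (a + 3 / ε)).const_add 1
    simpa using this
  have h3 := (h1.pow 3).mul h2
  refine h3.congr_deriv ?_
  unfold X1
  simp
  ring

theorem hasDerivAt_X1 (a ε s : ℝ) : HasDerivAt (X1 a ε) (X2 a ε s) s := by
  have h1 : HasDerivAt (fun s : ℝ => 1 - s / ε) (-(1 / ε)) s := by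
    have := ((hasDerivAt_id s).div_const ε).const_sub 1
    simpa using this
  have h2 : HasDerivAt (fun s : ℝ => 1 + (a + 3 / ε) * s) (a + 3 / ε) s := by
    have := ((hasDerivAt_id s).const_mul (a + 3 / ε)).const_add 1
    simpa using this
  have h3 := (((h1.pow 2).const_mul (-(3 / ε))).mul h2).add ((h1.pow 3).const_mul (a + 3 / ε))
  refine h3.congr_deriv ?_
  unfold X2
  simp
  ring

theorem exists_profile {a ε : ℝ} (hε : 0 < ε) :
    ∃ ξ : ℝ → ℝ, ContDiff ℝ 2 ξ ∧ (∀ s, ε ≤ |s| → ξ s = 0) ∧ ξ 0 = 1 ∧ deriv ξ 0 = a ∧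
      (∀ s ∈ Ioo 0 ε, ξ s = X a ε s) ∧ ∀ s ∈ Ioo 0 ε, deriv (deriv ξ) s = X2 a ε s := by
  let θ : ℝ → ℝ := fun s => Real.smoothTransition (2 + 2 * s / ε)
  let Y : ℝ → ℝ := fun s => pc (1 - s / ε) * (1 + (a + 3 / ε) * s)
  have hθ1 : ∀ s, -(ε / 2) ≤ s → θ s = 1 := by
    intro s hs
    apply Real.smoothTransition.one_of_one_le
    have : -1 ≤ 2 * s / ε := by
      rw [le_div_iff₀ hε]; linarith
    linarith
  have hθ0 : ∀ s, s ≤ -ε → θ s = 0 := by
    intro s hs
    apply Real.smoothTransition.zero_of_nonpos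
    have : 2 * s / ε ≤ -2 := by
      rw [div_le_iff₀ hε]; linarith
    linarith
  have hθc : ContDiff ℝ 2 θ := by
    have : ContDiff ℝ 2 Real.smoothTransition := Real.smoothTransition.contDiff
    exact this.comp (by fun_prop)
  have hYc : ContDiff ℝ 2 Y := (contDiff_pc.comp (by fun_prop)).mul (by fun_prop)
  have hev : ∀ s, 0 ≤ s → s < ε → (fun s => θ s * Y s) =ᶠ[𝓝 s] X a ε := by
    intro s hs0 hs1
    have : Ioo (-(ε / 2)) ε ∈ 𝓝 s := Ioo_mem_nhds (by linarith) hs1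
    filter_upwards [this] with y hy
    rw [hθ1 y hy.1.le, one_mul]
    have h1 : 0 ≤ 1 - y / ε := by
      rw [sub_nonneg, div_le_one hε]; exact hy.2.le
    simp only [Y]
    rw [pc_of_nonneg h1, X]
  refine ⟨fun s => θ s * Y s, hθc.mul hYc, ?_, ?_, ?_, ?_, ?_⟩
  · intro s hs
    rcases le_abs.mp hs with h | h
    · have : 1 - s / ε ≤ 0 := by
        rw [sub_nonpos, one_le_div hε]; exact h
      simp [Y, pc_of_nonpos this]
    · simp only
      rw [hθ0 s (by linarith), zero_mul]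
  · exact ((hev 0 le_rfl hε).eq_of_nhds).trans (by simp [X])
  · rw [(hev 0 le_rfl hε).deriv_eq, (hasDerivAt_X a ε 0).deriv, X1]
    ring
  · intro s hs
    exact (hev s hs.1.le hs.2).eq_of_nhds
  · intro s hs
    have h1 := (hev s hs.1.le hs.2).deriv
    rw [h1.deriv_eq]
    have h2 : deriv (X a ε) = X1 a ε := by
      ext s
      exact (hasDerivAt_X a ε s).deriv
    rw [h2, (hasDerivAt_X1 a ε s).deriv]

/-- the sign function of `X'' - C X` in the rescaled variable. -/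
noncomputable def Gs (b c σ : ℝ) : ℝ := 6 * (1 - b) + 12 * b * σ - c * ((1 - σ) ^ 2 * (1 + b * σ))

theorem X2_sub (a C : ℝ) {ε : ℝ} (hε : 0 < ε) (s : ℝ) :
    X2 a ε s - C * X a ε s
      = (1 / ε ^ 2) * (1 - s / ε) * Gs (a * ε + 3) (C * ε ^ 2) (s / ε) := by
  unfold X2 X Gs
  field_simp
  ring

theorem Gs_mono {b c : ℝ} (hb : 3 ≤ b) (hc0 : 0 ≤ c) (hc : c ≤ 12) {x y : ℝ} (hx : 0 ≤ x)
    (hxy : x ≤ y) (hy : y ≤ 1) : Gs b c x ≤ Gs b c y := by
  have key : 0 ≤ 2 - (1 - 2 * b) * (x + y) - b * (x ^ 2 + x * y + y ^ 2) := by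
    have h1 : x ^ 2 ≤ x := by nlinarith
    have h2 : y ^ 2 ≤ y := by nlinarith
    have h3 : x * y ≤ (x + y) / 2 := by nlinarith
    have h4 : x ^ 2 + x * y + y ^ 2 ≤ 3 / 2 * (x + y) := by linarith
    have h5 : b * (x ^ 2 + x * y + y ^ 2) ≤ b * (3 / 2 * (x + y)) :=
      mul_le_mul_of_nonneg_left h4 (by linarith)
    nlinarith
  have e : Gs b c y - Gs b c x
      = (y - x) * ((12 - c) * b + c * (2 - (1 - 2 * b) * (x + y) - b * (x ^ 2 + x * y + y ^ 2))) := by
    unfold Gs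
    ring
  have h1 : 0 ≤ (12 - c) * b := mul_nonneg (by linarith) (by linarith)
  have h2 : 0 ≤ (y - x) * ((12 - c) * b
      + c * (2 - (1 - 2 * b) * (x + y) - b * (x ^ 2 + x * y + y ^ 2))) :=
    mul_nonneg (by linarith) (add_nonneg h1 (mul_nonneg hc0 key))
  linarith

/-- single crossing -/
theorem exists_crossing {a C ε : ℝ} (ha : 0 ≤ a) (hC : 0 ≤ C) (hε : 0 < ε)
    (hCε : C * ε ^ 2 ≤ 12) :
    ∃ s₀ ∈ Ioo 0 ε, (∀ s ∈ Ioo 0 ε, s ≤ s₀ → X2 a ε s - C * X a ε s ≤ 0) ∧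
      ∀ s ∈ Ioo 0 ε, s₀ ≤ s → 0 ≤ X2 a ε s - C * X a ε s := by
  set b := a * ε + 3 with hb
  set c := C * ε ^ 2 with hc
  have hb3 : 3 ≤ b := by
    have : 0 ≤ a * ε := by positivity
    linarith
  have hc0 : 0 ≤ c := by positivity
  have g0 : Gs b c 0 < 0 := by
    unfold Gs
    nlinarith
  have g1 : 0 < Gs b c 1 := by
    unfold Gs
    nlinarith
  have hcont : ContinuousOn (Gs b c) (Icc 0 1) := by
    unfold Gs
    fun_prop
  obtain ⟨σ, hσ, hσ0⟩ : (0:ℝ) ∈ Gs b c '' Icc 0 1 :=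
    intermediate_value_Icc zero_le_one hcont ⟨g0.le, g1.le⟩
  have hσ1 : 0 < σ := by
    rcases hσ.1.eq_or_lt with h | h
    · rw [← h] at hσ0; linarith
    · exact h
  have hσ2 : σ < 1 := by
    rcases hσ.2.eq_or_lt with h | h
    · rw [h] at hσ0; linarith
    · exact h
  refine ⟨σ * ε, ⟨by positivity, by nlinarith⟩, ?_, ?_⟩
  · intro s hs hs'
    have h1 : s / ε ≤ σ := by rw [div_le_iff₀ hε]; exact hs'
    have h2 : 0 ≤ s / ε := div_nonneg hs.1.le hε.le
    have h3 := Gs_mono hb3 hc0 hCε h2 h1 hσ2.le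
    rw [hσ0] at h3
    rw [X2_sub a C hε]
    have h4 : 0 ≤ 1 / ε ^ 2 * (1 - s / ε) := by
      have : 0 ≤ 1 - s / ε := by linarith
      positivity
    exact mul_nonpos_of_nonneg_of_nonpos h4 h3
  · intro s hs hs'
    have h1 : σ ≤ s / ε := by rw [le_div_iff₀ hε]; exact hs'
    have h2 : s / ε ≤ 1 := by rw [div_le_one hε]; exact hs.2.le
    have h3 := Gs_mono hb3 hc0 hCε hσ1.le h1 h2
    rw [hσ0] at h3
    rw [X2_sub a C hε]
    have h4 : 0 ≤ 1 / ε ^ 2 * (1 - s / ε) := by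
      have : 0 ≤ 1 - s / ε := by linarith
      positivity
    exact mul_nonneg h4 h3

theorem X_nonneg {a ε : ℝ} (ha : 0 ≤ a) (hε : 0 < ε) {s : ℝ} (hs : s ∈ Icc 0 ε) :
    0 ≤ X a ε s := by
  unfold X
  have h1 : 0 ≤ 1 - s / ε := by rw [sub_nonneg, div_le_one hε]; exact hs.2
  have h2 := hs.1
  positivity

theorem X_le {a ε : ℝ} (ha : 0 ≤ a) (hε : 0 < ε) (haε : a * ε ≤ 1) {s : ℝ} (hs : s ∈ Icc 0 ε) :
    X a ε s ≤ 5 := by
  unfold X
  have h1 : 0 ≤ 1 - s / ε := by rw [sub_nonneg, div_le_one hε]; exact hs.2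
  have h0 : 0 ≤ s / ε := div_nonneg hs.1 hε.le
  have h2 : (1 - s / ε) ^ 3 ≤ 1 := pow_le_one₀ h1 (by linarith)
  have h3 : 1 + (a + 3 / ε) * s ≤ 5 := by
    have e : (a + 3 / ε) * s = (a * ε + 3) * (s / ε) := by field_simp
    rw [e]
    have : s / ε ≤ 1 := by linarith
    nlinarith [mul_nonneg ha hε.le]
  have h4 : 0 ≤ 1 + (a + 3 / ε) * s := by
    have := hs.1
    positivity
  calc (1 - s / ε) ^ 3 * (1 + (a + 3 / ε) * s) ≤ 1 * 5 :=
        mul_le_mul h2 h3 h4 zero_le_one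
    _ = 5 := by ring

theorem continuous_X (a ε : ℝ) : Continuous (X a ε) := by unfold X; fun_prop
theorem continuous_X1 (a ε : ℝ) : Continuous (X1 a ε) := by unfold X1; fun_prop
theorem continuous_X2 (a ε : ℝ) : Continuous (X2 a ε) := by unfold X2; fun_prop

theorem integral_profile {a β ε : ℝ} (hε : 0 < ε) :
    ∫ s in Ioo 0 ε, Real.exp (β * s) * (X2 a ε s - β ^ 2 * X a ε s) = β - a := by
  rw [← integral_Ioc_eq_integral_Ioo, ← intervalIntegral.integral_of_le hε.le]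
  have hd : ∀ s ∈ uIcc 0 ε, HasDerivAt (fun s => Real.exp (β * s) * (X1 a ε s - β * X a ε s))
      (Real.exp (β * s) * (X2 a ε s - β ^ 2 * X a ε s)) s := by
    intro s _
    have h1 : HasDerivAt (fun s : ℝ => Real.exp (β * s)) (Real.exp (β * s) * β) s := by
      have := ((hasDerivAt_id s).const_mul β).exp
      simpa using this
    have h2 := h1.mul ((hasDerivAt_X1 a ε s).sub ((hasDerivAt_X a ε s).const_mul β))
    refine h2.congr_deriv ?_
    simp
    ring
  rw [intervalIntegral.integral_eq_sub_of_hasDerivAt hd]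
  · have e1 : X1 a ε ε = 0 := by
      unfold X1
      rw [div_self hε.ne']
      ring
    have e2 : X a ε ε = 0 := by
      unfold X
      rw [div_self hε.ne']
      ring
    have e3 : X1 a ε 0 = a := by unfold X1; ring
    have e4 : X a ε 0 = 1 := by unfold X; simp
    rw [e1, e2, e3, e4]
    simp
  · apply Continuous.intervalIntegrable
    have := continuous_X a ε
    have := continuous_X2 a ε
    fun_prop

theorem integral_profile_approx {a β C ε : ℝ} (ha : 0 ≤ a) (hε : 0 < ε) (haε : a * ε ≤ 1) :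
    |(∫ s in Ioo 0 ε, Real.exp (β * s) * (X2 a ε s - C * X a ε s)) - (β - a)|
      ≤ |β ^ 2 - C| * (5 * Real.exp (|β| * ε) * ε) := by
  have c1 : Continuous (fun s => Real.exp (β * s) * (X2 a ε s - β ^ 2 * X a ε s)) := by
    have := continuous_X a ε
    have := continuous_X2 a ε
    fun_prop
  have c2 : Continuous (fun s => Real.exp (β * s) * X a ε s) := by
    have := continuous_X a ε
    fun_prop
  have i1 : IntegrableOn (fun s => Real.exp (β * s) * (X2 a ε s - β ^ 2 * X a ε s)) (Ioo 0 ε) :=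
    (c1.integrableOn_Icc).mono_set Ioo_subset_Icc_self
  have i2 : IntegrableOn (fun s => Real.exp (β * s) * X a ε s) (Ioo 0 ε) :=
    (c2.integrableOn_Icc).mono_set Ioo_subset_Icc_self
  have e : ∀ s, Real.exp (β * s) * (X2 a ε s - C * X a ε s)
      = Real.exp (β * s) * (X2 a ε s - β ^ 2 * X a ε s)
        + (β ^ 2 - C) * (Real.exp (β * s) * X a ε s) := fun s => by ring
  simp_rw [e]
  rw [integral_add i1 (i2.const_mul _), integral_const_mul, integral_profile hε,
    add_sub_cancel_left, abs_mul]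
  refine mul_le_mul_of_nonneg_left ?_ (abs_nonneg _)
  have hb : ∀ s ∈ Ioo 0 ε, ‖Real.exp (β * s) * X a ε s‖ ≤ 5 * Real.exp (|β| * ε) := by
    intro s hs
    have h1 := X_nonneg ha hε (Ioo_subset_Icc_self hs)
    have h2 := X_le ha hε haε (Ioo_subset_Icc_self hs)
    have h3 : Real.exp (β * s) ≤ Real.exp (|β| * ε) := by
      apply Real.exp_le_exp.mpr
      calc β * s ≤ |β| * s := mul_le_mul_of_nonneg_right (le_abs_self _) hs.1.le
        _ ≤ |β| * ε := mul_le_mul_of_nonneg_left hs.2.le (abs_nonneg _)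
    rw [Real.norm_eq_abs, abs_of_nonneg (mul_nonneg (Real.exp_pos _).le h1)]
    calc Real.exp (β * s) * X a ε s ≤ Real.exp (|β| * ε) * 5 :=
          mul_le_mul h3 h2 h1 (Real.exp_pos _).le
      _ = 5 * Real.exp (|β| * ε) := by ring
  have := norm_setIntegral_le_of_norm_le_const (μ := volume) (s := Ioo 0 ε)
    (f := fun s => Real.exp (β * s) * X a ε s) (by simp) hb
  rw [Real.norm_eq_abs] at this
  refine this.trans (le_of_eq ?_)
  simp [hε.le]

end Pool.Agent.Helper77.Robin
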