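import Pool.Agent.Helper77.Robin.GreenFlat
import Pool.Agent.Helper77.Robin.Profile

set_option autoImplicit false
set_option linter.unusedSectionVars false

open MeasureTheory Filter Topology Set
open scoped RealInnerProductSpace

namespace Pool.Agent.Helper77.Robin

variable {F ι : Type*} [NormedAddCommGroup F] [InnerProductSpace ℝ F] [Fintype ι]

/-- tangential bump -/
noncomputable def bump (r : ℝ) (τ₁ : F) (τ : F) : ℝ := pc (r ^ 2 - ‖τ - τ₁‖ ^ 2)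

/-- positive part `(r² - ‖τ - τ₁‖²)₊` -/
noncomputable def rho (r : ℝ) (τ₁ : F) (τ : F) : ℝ := max (r ^ 2 - ‖τ - τ₁‖ ^ 2) 0

theorem contDiff_bump (r : ℝ) (τ₁ : F) : ContDiff ℝ 2 (bump r τ₁) := by
  unfold bump
  refine contDiff_pc.comp (contDiff_const.sub ?_)
  exact (contDiff_id.sub contDiff_const).norm_sq ℝ

theorem bump_nonneg (r : ℝ) (τ₁ τ : F) : 0 ≤ bump r τ₁ τ := pc_nonneg _

theorem bump_eq_zero {r : ℝ} (hr : 0 ≤ r) {τ₁ τ : F} (h : r ≤ ‖τ - τ₁‖) : bump r τ₁ τ = 0 := by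
  apply pc_of_nonpos
  nlinarith [norm_nonneg (τ - τ₁)]

theorem bump_eq_rho (r : ℝ) (τ₁ τ : F) : bump r τ₁ τ = rho r τ₁ τ ^ 3 := rfl

theorem rho_nonneg (r : ℝ) (τ₁ τ : F) : 0 ≤ rho r τ₁ τ := le_max_right _ _

theorem bump_pos {r : ℝ} {τ₁ τ : F} (h : ‖τ - τ₁‖ < r) : 0 < bump r τ₁ τ := by
  have h1 : 0 < r ^ 2 - ‖τ - τ₁‖ ^ 2 := by nlinarith [norm_nonneg (τ - τ₁)]
  rw [bump, pc_of_nonneg h1.le]
  positivity

theorem hasFDerivAt_sq (r : ℝ) (τ₁ τ : F) :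
    HasFDerivAt (fun τ : F => r ^ 2 - ‖τ - τ₁‖ ^ 2) (-(2 • innerSL ℝ (τ - τ₁))) τ := by
  have h1 : HasFDerivAt (fun τ : F => τ - τ₁) (ContinuousLinearMap.id ℝ F) τ :=
    (hasFDerivAt_id τ).sub_const τ₁
  have h2 := (h1.norm_sq).const_sub (r ^ 2)
  exact h2

theorem fderiv_bump (r : ℝ) (τ₁ τ η : F) :
    fderiv ℝ (bump r τ₁) τ η = -6 * (rho r τ₁ τ ^ 2 * ⟪τ - τ₁, η⟫) := by
  have h := (hasDerivAt_pc (r ^ 2 - ‖τ - τ₁‖ ^ 2)).comp_hasFDerivAt τ (hasFDerivAt_sq r τ₁ τ)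
  have h' : HasFDerivAt (bump r τ₁) _ τ := h
  rw [h'.fderiv]
  simp [rho, inner_sub_left]
  ring

theorem fderiv_fderiv_bump (r : ℝ) (τ₁ τ η : F) :
    fderiv ℝ (fun τ => fderiv ℝ (bump r τ₁) τ η) τ η
      = 24 * rho r τ₁ τ * ⟪τ - τ₁, η⟫ ^ 2 - 6 * rho r τ₁ τ ^ 2 * ‖η‖ ^ 2 := by
  simp_rw [fderiv_bump]
  have h1 : HasDerivAt (fun x : ℝ => (max x 0) ^ 2) (2 * max (r ^ 2 - ‖τ - τ₁‖ ^ 2) 0)
      (r ^ 2 - ‖τ - τ₁‖ ^ 2) := by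
    have := hasDerivAt_max_pow 0 (r ^ 2 - ‖τ - τ₁‖ ^ 2)
    simpa using this
  have h2 := h1.comp_hasFDerivAt τ (hasFDerivAt_sq r τ₁ τ)
  have h3 : HasFDerivAt (fun τ : F => ⟪τ - τ₁, η⟫) (innerSL ℝ η) τ := by
    have e : (fun τ : F => ⟪τ - τ₁, η⟫) = fun τ => innerSL ℝ η τ - ⟪τ₁, η⟫ := by
      ext τ
      rw [inner_sub_left, innerSL_apply_apply, real_inner_comm]
    rw [e]
    exact (innerSL ℝ η).hasFDerivAt.sub_const _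
  have h4 := ((h2.mul h3).const_mul (-6 : ℝ))
  have h5 : HasFDerivAt (fun τ : F => -6 * (rho r τ₁ τ ^ 2 * ⟪τ - τ₁, η⟫)) _ τ := h4
  rw [h5.fderiv]
  simp [rho, inner_sub_left]
  ring

theorem lapl_bump (b : OrthonormalBasis ι ℝ F) (r : ℝ) (τ₁ τ : F) :
    lapl b (bump r τ₁) τ
      = 24 * rho r τ₁ τ * ‖τ - τ₁‖ ^ 2 - 6 * (Fintype.card ι) * rho r τ₁ τ ^ 2 := by
  unfold lapl
  simp_rw [fderiv_fderiv_bump]
  rw [Finset.sum_sub_distrib, ← Finset.mul_sum]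
  have h1 : ∑ i, ⟪τ - τ₁, b i⟫ ^ 2 = ‖τ - τ₁‖ ^ 2 := by
    have := b.sum_sq_norm_inner_left (τ - τ₁)
    simpa [sq_abs] using this
  rw [h1]
  simp
  ring

theorem lapl_bump_ge (b : OrthonormalBasis ι ℝ F) {r : ℝ} (hr : 0 < r) (τ₁ τ : F) :
    -((24 + 6 * (Fintype.card ι : ℝ)) ^ 2 / (96 * r ^ 2)) * bump r τ₁ τ
      ≤ lapl b (bump r τ₁) τ := by
  rw [lapl_bump, bump_eq_rho]
  set ρ := rho r τ₁ τ with hρ
  set k : ℝ := (Fintype.card ι : ℝ) with hk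
  have hρ0 : 0 ≤ ρ := rho_nonneg _ _ _
  rcases hρ0.eq_or_lt with h | h
  · rw [← h]; simp
  · have hq : ‖τ - τ₁‖ ^ 2 = r ^ 2 - ρ := by
      have : ρ = r ^ 2 - ‖τ - τ₁‖ ^ 2 := by
        rw [hρ, rho] at h ⊢
        rcases le_total (r ^ 2 - ‖τ - τ₁‖ ^ 2) 0 with h0 | h0
        · rw [max_eq_right h0] at h; exact absurd h (lt_irrefl _)
        · rw [max_eq_left h0]
      linarith
    rw [hq]
    have key : 0 ≤ 24 * r ^ 2 - (24 + 6 * k) * ρ + (24 + 6 * k) ^ 2 / (96 * r ^ 2) * ρ ^ 2 := by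
      have e : 24 * r ^ 2 - (24 + 6 * k) * ρ + (24 + 6 * k) ^ 2 / (96 * r ^ 2) * ρ ^ 2
          = 24 * (r - (24 + 6 * k) * ρ / (48 * r)) ^ 2 := by
        field_simp
        ring
      rw [e]
      positivity
    have : 0 ≤ ρ * (24 * r ^ 2 - (24 + 6 * k) * ρ + (24 + 6 * k) ^ 2 / (96 * r ^ 2) * ρ ^ 2) :=
      mul_nonneg hρ0 key
    nlinarith [this]

theorem rho_le (r : ℝ) (τ₁ τ : F) : rho r τ₁ τ ≤ r ^ 2 := by
  unfold rho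
  apply max_le
  · nlinarith [sq_nonneg ‖τ - τ₁‖]
  · positivity

theorem lapl_bump_eq_zero (b : OrthonormalBasis ι ℝ F) {r : ℝ} (hr : 0 ≤ r) {τ₁ τ : F}
    (h : r ≤ ‖τ - τ₁‖) : lapl b (bump r τ₁) τ = 0 := by
  have h1 : rho r τ₁ τ = 0 := by
    unfold rho
    apply max_eq_right
    nlinarith [norm_nonneg (τ - τ₁)]
  rw [lapl_bump, h1]
  simp

end Pool.Agent.Helper77.Robin
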