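import Pool.Agent.Helper77.Robin.Defs

set_option autoImplicit false

open MeasureTheory Filter Topology
open scoped RealInnerProductSpace

namespace Pool.Agent.Helper77.Robin

section general

variable {X : Type*} [MeasurableSpace X] {μ : Measure X}
variable {V : Type*} [NormedAddCommGroup V] [InnerProductSpace ℝ V]

theorem memLp_two_integrable_inner {f g : X → V} (hf : MemLp f 2 μ) (hg : MemLp g 2 μ) :
    Integrable (fun x => ⟪f x, g x⟫) μ := by
  have h1 : Integrable (fun x => ‖f x‖ * ‖g x‖) μ := by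
    have := hf.norm.integrable_mul hg.norm
    simpa [Pi.mul_def] using this
  refine h1.mono (hf.aestronglyMeasurable.inner hg.aestronglyMeasurable) ?_
  filter_upwards with x
  rw [Real.norm_eq_abs, Real.norm_eq_abs, abs_of_nonneg (mul_nonneg (norm_nonneg _) (norm_nonneg _))]
  exact abs_real_inner_le_norm _ _

theorem memLp_two_integrable_mul {f g : X → ℝ} (hf : MemLp f 2 μ) (hg : MemLp g 2 μ) :
    Integrable (fun x => f x * g x) μ := by
  have := hf.integrable_mul hg
  simpa [Pi.mul_def] using this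

theorem memLp_two_integrable_norm_sq {f : X → V} (hf : MemLp f 2 μ) :
    Integrable (fun x => ‖f x‖ ^ 2) μ := by
  have := memLp_two_integrable_inner hf hf
  simpa [real_inner_self_eq_norm_sq] using this

theorem eventually_memLp_of_tendsto {W : Type*} [NormedAddCommGroup W] {v : ℕ → X → W} {f : X → W}
    (hv : ∀ n, AEStronglyMeasurable (v n) μ) (hf : MemLp f 2 μ)
    (h : Tendsto (fun n => eLpNorm (fun x => v n x - f x) 2 μ) atTop (𝓝 0)) :
    ∀ᶠ n in atTop, MemLp (v n) 2 μ := by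
  have h1 : ∀ᶠ n in atTop, eLpNorm (fun x => v n x - f x) 2 μ < ⊤ :=
    h.eventually_lt_const (by simp)
  filter_upwards [h1] with n hn
  have h2 : MemLp (fun x => v n x - f x) 2 μ := ⟨(hv n).sub hf.aestronglyMeasurable, hn⟩
  have h3 := h2.add hf
  refine h3.ae_eq ?_
  filter_upwards with x
  simp

theorem tendsto_integral_inner_of_L2 {v : ℕ → X → V} {f g : X → V}
    (hv : ∀ n, AEStronglyMeasurable (v n) μ) (hf : MemLp f 2 μ) (hg : MemLp g 2 μ)
    (h : Tendsto (fun n => eLpNorm (fun x => v n x - f x) 2 μ) atTop (𝓝 0)) :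
    Tendsto (fun n => ∫ x, ⟪v n x, g x⟫ ∂μ) atTop (𝓝 (∫ x, ⟪f x, g x⟫ ∂μ)) := by
  refine tendsto_integral_of_L1' _ (memLp_two_integrable_inner hf hg).aestronglyMeasurable
    ((eventually_memLp_of_tendsto hv hf h).mono fun n hn => memLp_two_integrable_inner hn hg) ?_
  have hb : ∀ n, eLpNorm ((fun x => ⟪v n x, g x⟫) - fun x => ⟪f x, g x⟫) 1 μ
      ≤ eLpNorm (fun x => v n x - f x) 2 μ * eLpNorm g 2 μ := by
    intro n
    have := eLpNorm_le_eLpNorm_mul_eLpNorm_of_nnnorm (p := 2) (q := 2) (r := 1) (μ := μ)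
      (f := fun x => v n x - f x) (g := g)
      ((hv n).sub hf.aestronglyMeasurable) hg.aestronglyMeasurable
      (fun a b => ⟪a, b⟫) 1 (Eventually.of_forall fun x => by
        have := norm_inner_le_norm (𝕜 := ℝ) (v n x - f x) (g x)
        rw [one_mul]
        exact_mod_cast this)
    rw [ENNReal.coe_one, one_mul] at this
    refine le_trans (le_of_eq ?_) this
    congr 1
    ext x
    simp [inner_sub_left]
  have h0 : Tendsto (fun n => eLpNorm (fun x => v n x - f x) 2 μ * eLpNorm g 2 μ) atTop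
      (𝓝 (0 * eLpNorm g 2 μ)) :=
    ENNReal.Tendsto.mul_const h (Or.inr hg.eLpNorm_ne_top)
  rw [zero_mul] at h0
  exact tendsto_of_tendsto_of_tendsto_of_le_of_le tendsto_const_nhds h0 (fun _ => zero_le) hb

theorem tendsto_integral_mul_of_L2 {v : ℕ → X → ℝ} {f g : X → ℝ}
    (hv : ∀ n, AEStronglyMeasurable (v n) μ) (hf : MemLp f 2 μ) (hg : MemLp g 2 μ)
    (h : Tendsto (fun n => eLpNorm (fun x => v n x - f x) 2 μ) atTop (𝓝 0)) :
    Tendsto (fun n => ∫ x, v n x * g x ∂μ) atTop (𝓝 (∫ x, f x * g x ∂μ)) := by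
  have := tendsto_integral_inner_of_L2 (V := ℝ) hv hf hg h
  simpa [mul_comm] using this

end general

/-- if `0 ≤ p s + q s²` for all `s` then `p = 0`. -/
theorem linear_coeff_zero {p q : ℝ} (h : ∀ s : ℝ, 0 ≤ p * s + q * s ^ 2) : p = 0 := by
  by_contra hp
  have hq : 0 ≤ |q| := abs_nonneg q
  have h1 := h (-p / (1 + |q|))
  have hpos : 0 < 1 + |q| := by positivity
  have e1 : p * (-p / (1 + |q|)) + q * (-p / (1 + |q|)) ^ 2
      = p ^ 2 / (1 + |q|) ^ 2 * (q - (1 + |q|)) := by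
    field_simp
    ring
  rw [e1] at h1
  have h2 : q - (1 + |q|) < 0 := by linarith [le_abs_self q]
  have h3 : 0 < p ^ 2 / (1 + |q|) ^ 2 := by positivity
  nlinarith


variable {d : ℕ} {Ω : Set (EuclideanSpace ℝ (Fin d))}

theorem IsSobolev.add_smul {u : EuclideanSpace ℝ (Fin d) → ℝ}
    {g : EuclideanSpace ℝ (Fin d) → EuclideanSpace ℝ (Fin d)}
    {t : EuclideanSpace ℝ (Fin d) → ℝ} (hu : IsSobolev Ω u g t)
    {φ : EuclideanSpace ℝ (Fin d) → ℝ} (hφ : ContDiff ℝ 1 φ)
    (h1 : MemLp φ 2 (volume.restrict Ω)) (h2 : MemLp (gradient φ) 2 (volume.restrict Ω))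
    (h3 : MemLp φ 2 (surfaceMeasure Ω)) (s : ℝ) :
    IsSobolev Ω (fun x => u x + s * φ x) (fun x => g x + s • gradient φ x)
      (fun x => t x + s * φ x) := by
  obtain ⟨v, hv, hv1, hv2, hv3⟩ := hu.exists_approx
  refine ⟨hu.memLp_u.add (h1.const_mul s), hu.memLp_g.add (h2.const_smul s),
    hu.memLp_t.add (h3.const_mul s), fun n x => v n x + s * φ x, fun n => ?_, ?_, ?_, ?_⟩
  · exact (hv n).add (contDiff_const.mul hφ)
  · refine hv1.congr fun n => ?_
    congr 1
    ext x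
    ring
  · refine hv2.congr fun n => ?_
    congr 1
    ext1 x
    have hd : DifferentiableAt ℝ (v n) x := (hv n).differentiable (by norm_num) x
    have hd2 : DifferentiableAt ℝ φ x := hφ.differentiable (by norm_num) x
    have e : gradient (fun x => v n x + s * φ x) x = gradient (v n) x + s • gradient φ x := by
      apply ext_inner_right ℝ
      intro w
      rw [inner_gradient_left, inner_add_left, inner_smul_left, inner_gradient_left,
        inner_gradient_left, fderiv_fun_add hd (hd2.const_mul s), fderiv_const_mul hd2]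
      simp
    rw [e]
    abel
  · refine hv3.congr fun n => ?_
    congr 1
    ext x
    ring

theorem euler_lagrange_min {α : ℝ} (hα : 0 ≤ α)
    {u : EuclideanSpace ℝ (Fin d) → ℝ}
    {g : EuclideanSpace ℝ (Fin d) → EuclideanSpace ℝ (Fin d)}
    {t : EuclideanSpace ℝ (Fin d) → ℝ} (hS : IsSobolev Ω u g t)
    (hbu : 0 < ∫ x in Ω, u x ^ 2)
    (hmin : ∀ (v : EuclideanSpace ℝ (Fin d) → ℝ)
      (h : EuclideanSpace ℝ (Fin d) → EuclideanSpace ℝ (Fin d))
      (s : EuclideanSpace ℝ (Fin d) → ℝ), IsSobolev Ω v h s → (∫ x in Ω, v x ^ 2) ≠ 0 →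
      robinEnergy Ω α g t / (∫ x in Ω, u x ^ 2) ≤ robinEnergy Ω α h s / (∫ x in Ω, v x ^ 2)) :
    0 ≤ robinEnergy Ω α g t / (∫ x in Ω, u x ^ 2) ∧
    ∀ φ : EuclideanSpace ℝ (Fin d) → ℝ, ContDiff ℝ 1 φ → MemLp φ 2 (volume.restrict Ω) →
      MemLp (gradient φ) 2 (volume.restrict Ω) → MemLp φ 2 (surfaceMeasure Ω) →
      (∫ x in Ω, ⟪g x, gradient φ x⟫) + α * ∫ x, t x * φ x ∂(surfaceMeasure Ω)
        = robinEnergy Ω α g t / (∫ x in Ω, u x ^ 2) * ∫ x in Ω, u x * φ x := by
  set b := ∫ x in Ω, u x ^ 2 with hb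
  set E := robinEnergy Ω α g t with hE
  have hEnn : 0 ≤ E := by
    rw [hE, robinEnergy]
    have h1 : 0 ≤ ∫ x in Ω, ‖g x‖ ^ 2 := integral_nonneg fun x => by positivity
    have h2 : 0 ≤ ∫ x, t x ^ 2 ∂(surfaceMeasure Ω) := integral_nonneg fun x => by positivity
    positivity
  refine ⟨div_nonneg hEnn hbu.le, ?_⟩
  intro φ hφ h1 h2 h3
  -- quadratic expansions
  have ib : ∀ s : ℝ, ∫ x in Ω, (u x + s * φ x) ^ 2
      = b + 2 * s * (∫ x in Ω, u x * φ x) + s ^ 2 * ∫ x in Ω, φ x ^ 2 := by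
    intro s
    have e : (fun x => (u x + s * φ x) ^ 2)
        = fun x => (u x ^ 2 + (2 * s) * (u x * φ x)) + s ^ 2 * φ x ^ 2 := by
      ext x; ring
    rw [e, integral_add, integral_add, integral_const_mul, integral_const_mul]
    · exact hS.memLp_u.integrable_sq
    · exact (memLp_two_integrable_mul hS.memLp_u h1).const_mul _
    · exact hS.memLp_u.integrable_sq.add ((memLp_two_integrable_mul hS.memLp_u h1).const_mul _)
    · exact h1.integrable_sq.const_mul _
  have ig : ∀ s : ℝ, ∫ x in Ω, ‖g x + s • gradient φ x‖ ^ 2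
      = (∫ x in Ω, ‖g x‖ ^ 2) + 2 * s * (∫ x in Ω, ⟪g x, gradient φ x⟫)
        + s ^ 2 * ∫ x in Ω, ‖gradient φ x‖ ^ 2 := by
    intro s
    have e : (fun x => ‖g x + s • gradient φ x‖ ^ 2)
        = fun x => (‖g x‖ ^ 2 + (2 * s) * ⟪g x, gradient φ x⟫) + s ^ 2 * ‖gradient φ x‖ ^ 2 := by
      ext x
      rw [norm_add_sq_real, inner_smul_right, norm_smul, mul_pow, Real.norm_eq_abs, sq_abs]
      ring
    rw [e, integral_add, integral_add, integral_const_mul, integral_const_mul]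
    · exact memLp_two_integrable_norm_sq hS.memLp_g
    · exact (memLp_two_integrable_inner hS.memLp_g h2).const_mul _
    · exact (memLp_two_integrable_norm_sq hS.memLp_g).add
        ((memLp_two_integrable_inner hS.memLp_g h2).const_mul _)
    · exact (memLp_two_integrable_norm_sq h2).const_mul _
  have it : ∀ s : ℝ, ∫ x, (t x + s * φ x) ^ 2 ∂(surfaceMeasure Ω)
      = (∫ x, t x ^ 2 ∂(surfaceMeasure Ω)) + 2 * s * (∫ x, t x * φ x ∂(surfaceMeasure Ω))
        + s ^ 2 * ∫ x, φ x ^ 2 ∂(surfaceMeasure Ω) := by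
    intro s
    have e : (fun x => (t x + s * φ x) ^ 2)
        = fun x => (t x ^ 2 + (2 * s) * (t x * φ x)) + s ^ 2 * φ x ^ 2 := by
      ext x; ring
    rw [e, integral_add, integral_add, integral_const_mul, integral_const_mul]
    · exact hS.memLp_t.integrable_sq
    · exact (memLp_two_integrable_mul hS.memLp_t h3).const_mul _
    · exact hS.memLp_t.integrable_sq.add ((memLp_two_integrable_mul hS.memLp_t h3).const_mul _)
    · exact h3.integrable_sq.const_mul _
  have key : ∀ s : ℝ, E * (∫ x in Ω, (u x + s * φ x) ^ 2)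
      ≤ robinEnergy Ω α (fun x => g x + s • gradient φ x) (fun x => t x + s * φ x) * b := by
    intro s
    have hnn : 0 ≤ ∫ x in Ω, (u x + s * φ x) ^ 2 := integral_nonneg fun x => by positivity
    have hEs : 0 ≤ robinEnergy Ω α (fun x => g x + s • gradient φ x)
        (fun x => t x + s * φ x) := by
      rw [robinEnergy]
      have h1 : 0 ≤ ∫ x in Ω, ‖g x + s • gradient φ x‖ ^ 2 :=
        integral_nonneg fun x => by positivity
      have h2 : 0 ≤ ∫ x, (t x + s * φ x) ^ 2 ∂(surfaceMeasure Ω) :=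
        integral_nonneg fun x => by positivity
      positivity
    rcases hnn.eq_or_lt with h0 | h0
    · rw [← h0, mul_zero]
      positivity
    · have := hmin _ _ _ (hS.add_smul hφ h1 h2 h3 s) h0.ne'
      rw [div_le_div_iff₀ hbu h0] at this
      exact this
  have key2 : ∀ s : ℝ, 0 ≤ (2 * (((∫ x in Ω, ⟪g x, gradient φ x⟫)
        + α * ∫ x, t x * φ x ∂(surfaceMeasure Ω)) * b - E * ∫ x in Ω, u x * φ x)) * s
      + (((∫ x in Ω, ‖gradient φ x‖ ^ 2) + α * ∫ x, φ x ^ 2 ∂(surfaceMeasure Ω)) * b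
        - E * ∫ x in Ω, φ x ^ 2) * s ^ 2 := by
    intro s
    have h := key s
    rw [robinEnergy, ib, ig, it] at h
    rw [hE, robinEnergy] at h ⊢
    nlinarith [h]
  have h0 := linear_coeff_zero key2
  have h00 : ((∫ x in Ω, ⟪g x, gradient φ x⟫)
        + α * ∫ x, t x * φ x ∂(surfaceMeasure Ω)) * b = E * ∫ x in Ω, u x * φ x := by
    linarith
  rw [div_mul_eq_mul_div, eq_div_iff hbu.ne']
  exact h00

theorem euler_lagrange (hΩ : IsOpen Ω) (hne : Ω.Nonempty) {α : ℝ} (hα : 0 ≤ α)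
    {u : EuclideanSpace ℝ (Fin d) → ℝ} (hu : IsFirstRobinEigenfunction Ω α u) :
    ∃ (g : EuclideanSpace ℝ (Fin d) → EuclideanSpace ℝ (Fin d))
      (t : EuclideanSpace ℝ (Fin d) → ℝ) (lam : ℝ), 0 ≤ lam ∧ IsSobolev Ω u g t ∧
    ∀ φ : EuclideanSpace ℝ (Fin d) → ℝ, ContDiff ℝ 1 φ → MemLp φ 2 (volume.restrict Ω) →
      MemLp (gradient φ) 2 (volume.restrict Ω) → MemLp φ 2 (surfaceMeasure Ω) →
      (∫ x in Ω, ⟪g x, gradient φ x⟫) + α * ∫ x, t x * φ x ∂(surfaceMeasure Ω)
        = lam * ∫ x in Ω, u x * φ x := by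
  obtain ⟨g, t, hS, hmin⟩ := hu.minimises
  have hbu : 0 < ∫ x in Ω, u x ^ 2 := by
    rw [setIntegral_pos_iff_support_of_nonneg_ae]
    · have hsub : Ω ⊆ Function.support (fun x => u x ^ 2) ∩ Ω := by
        intro x hx
        exact ⟨by simpa using (pow_ne_zero 2 (hu.pos x hx).ne'), hx⟩
      exact lt_of_lt_of_le (hΩ.measure_pos volume hne) (measure_mono hsub)
    · filter_upwards with x using sq_nonneg _
    · exact hS.memLp_u.integrable_sq
  obtain ⟨h1, h2⟩ := euler_lagrange_min hα hS hbu hmin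
  exact ⟨g, t, _, h1, hS, h2⟩

/-- From the Euler-Lagrange equation to the very weak formulation: if `ψ` plays the role of the
Laplacian of `φ` in Green's formula with Robin boundary terms, then `∫ u (ψ + λ φ) = 0`. -/
theorem very_weak {α lam : ℝ}
    {u : EuclideanSpace ℝ (Fin d) → ℝ}
    {g : EuclideanSpace ℝ (Fin d) → EuclideanSpace ℝ (Fin d)}
    {t : EuclideanSpace ℝ (Fin d) → ℝ} (hS : IsSobolev Ω u g t)
    {φ ψ : EuclideanSpace ℝ (Fin d) → ℝ}
    (h1 : MemLp φ 2 (volume.restrict Ω))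
    (h2 : MemLp (gradient φ) 2 (volume.restrict Ω)) (h3 : MemLp φ 2 (surfaceMeasure Ω))
    (h4 : MemLp ψ 2 (volume.restrict Ω))
    (hEL : (∫ x in Ω, ⟪g x, gradient φ x⟫) + α * ∫ x, t x * φ x ∂(surfaceMeasure Ω)
        = lam * ∫ x in Ω, u x * φ x)
    (hG : ∀ v : EuclideanSpace ℝ (Fin d) → ℝ, ContDiff ℝ 1 v →
      (∫ x in Ω, ⟪gradient v x, gradient φ x⟫) + α * ∫ x, v x * φ x ∂(surfaceMeasure Ω)
        = - ∫ x in Ω, v x * ψ x) :
    ∫ x in Ω, u x * (ψ x + lam * φ x) = 0 := by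
  obtain ⟨v, hv, hv1, hv2, hv3⟩ := hS.exists_approx
  have hcg : ∀ n, Continuous (gradient (v n)) := fun n =>
    (InnerProductSpace.toDual ℝ _).symm.continuous.comp ((hv n).continuous_fderiv (by norm_num))
  have m1 : ∀ n, AEStronglyMeasurable (v n) (volume.restrict Ω) := fun n =>
    (hv n).continuous.aestronglyMeasurable
  have m2 : ∀ n, AEStronglyMeasurable (gradient (v n)) (volume.restrict Ω) := fun n =>
    (hcg n).aestronglyMeasurable
  have m3 : ∀ n, AEStronglyMeasurable (v n) (surfaceMeasure Ω) := fun n =>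
    (hv n).continuous.aestronglyMeasurable
  have t1 := tendsto_integral_inner_of_L2 m2 hS.memLp_g h2 hv2
  have t2 := (tendsto_integral_mul_of_L2 m3 hS.memLp_t h3 hv3).const_mul α
  have t3 := (tendsto_integral_mul_of_L2 m1 hS.memLp_u h4 hv1).neg
  have t12 := t1.add t2
  have e : (fun n => (∫ x in Ω, ⟪gradient (v n) x, gradient φ x⟫)
      + α * ∫ x, v n x * φ x ∂(surfaceMeasure Ω)) = fun n => - ∫ x in Ω, v n x * ψ x := by
    ext n
    exact hG (v n) (hv n)
  rw [e] at t12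
  have huniq := tendsto_nhds_unique t12 t3
  rw [hEL] at huniq
  have i1 := memLp_two_integrable_mul hS.memLp_u h4
  have i2 := (memLp_two_integrable_mul hS.memLp_u h1).const_mul lam
  have e2 : (fun x => u x * (ψ x + lam * φ x)) = fun x => u x * ψ x + lam * (u x * φ x) := by
    ext x; ring
  rw [e2, integral_add i1 i2, integral_const_mul]
  linarith

end Pool.Agent.Helper77.Robin
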