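import Pool.Agent.Helper77.Robin.Poincare
import Pool.Agent.Helper77.Robin.EL

set_option autoImplicit false
set_option linter.unusedSectionVars false

open MeasureTheory Filter Topology Set
open scoped RealInnerProductSpace ENNReal

namespace Pool.Agent.Helper77.Robin

variable {d : ℕ} {Ω : Set (EuclideanSpace ℝ (Fin d))}

/-- half open cube of side `1/N` -/
def cube (N : ℕ) (k : Fin d → ℤ) : Set (EuclideanSpace ℝ (Fin d)) :=
  {x | ∀ i, ⌊(N : ℝ) * x i⌋ = k i}

theorem convex_cube (N : ℕ) (k : Fin d → ℤ) : Convex ℝ (cube N k) := by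
  intro x hx y hy a b ha hb hab i
  have h1 := Int.floor_eq_iff.1 (hx i)
  have h2 := Int.floor_eq_iff.1 (hy i)
  rw [Int.floor_eq_iff]
  have e : (a • x + b • y) i = a * x i + b * y i := by simp
  have e2 : (N : ℝ) * (a * x i + b * y i) = a * (N * x i) + b * (N * y i) := by ring
  rw [e, e2]
  have hb' : b = 1 - a := by linarith
  subst hb'
  constructor
  · nlinarith [mul_le_mul_of_nonneg_left h1.1 ha, mul_le_mul_of_nonneg_left h2.1 hb]
  · rcases ha.eq_or_lt with rfl | ha
    · simpa using h2.2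
    · nlinarith [mul_lt_mul_of_pos_left h1.2 ha, mul_le_mul_of_nonneg_left h2.2.le hb]

theorem measurableSet_cube (N : ℕ) (k : Fin d → ℤ) : MeasurableSet (cube N k) := by
  have : cube N k = ⋂ i, (fun x : EuclideanSpace ℝ (Fin d) => ⌊(N : ℝ) * x i⌋) ⁻¹' {k i} := by
    ext x; simp [cube]
  rw [this]
  refine MeasurableSet.iInter fun i => ?_
  have h1 : Measurable (fun x : EuclideanSpace ℝ (Fin d) => (N : ℝ) * x i) := by
    have : Continuous (fun x : EuclideanSpace ℝ (Fin d) => (N : ℝ) * x i) := by fun_prop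
    exact this.measurable
  exact h1.floor (measurableSet_singleton _)

theorem norm_le_of_coord' {x : EuclideanSpace ℝ (Fin d)} {C : ℝ} (hC : 0 ≤ C)
    (h : ∀ i, |x i| ≤ C) : ‖x‖ ≤ d * C := by
  have e : ‖x‖ ^ 2 = ∑ i, (x i) ^ 2 := by
    rw [EuclideanSpace.norm_sq_eq]
    simp
  have h2 : ‖x‖ ^ 2 ≤ (d * C) ^ 2 := by
    rw [e]
    calc ∑ i, (x i) ^ 2 ≤ ∑ _i : Fin d, C ^ 2 := by
          refine Finset.sum_le_sum fun i _ => ?_
          rw [← sq_abs]
          exact pow_le_pow_left₀ (abs_nonneg _) (h i) 2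
      _ = d * C ^ 2 := by
          rw [Finset.sum_const, Finset.card_univ, Fintype.card_fin, nsmul_eq_mul]
      _ ≤ d ^ 2 * C ^ 2 := by
          apply mul_le_mul_of_nonneg_right _ (sq_nonneg _)
          rcases Nat.eq_zero_or_pos d with rfl | hd
          · simp
          · have : (1:ℝ) ≤ d := by exact_mod_cast hd
            nlinarith
      _ = (d * C) ^ 2 := by ring
  exact le_of_sq_le_sq h2 (by positivity)

theorem diam_cube {N : ℕ} (hN : 0 < N) {k : Fin d → ℤ} {x y : EuclideanSpace ℝ (Fin d)}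
    (hx : x ∈ cube N k) (hy : y ∈ cube N k) : ‖y - x‖ ≤ d * (1 / N) := by
  have hN' : (0:ℝ) < N := by exact_mod_cast hN
  apply norm_le_of_coord' (by positivity)
  intro i
  have h1 := Int.floor_eq_iff.1 (hx i)
  have h2 := Int.floor_eq_iff.1 (hy i)
  have e : (y - x) i = y i - x i := by simp
  rw [e, le_div_iff₀ hN', ← abs_of_pos hN', ← abs_mul, abs_le]
  constructor <;> nlinarith [h1.1, h1.2, h2.1, h2.2]

theorem exists_cover (hb : Bornology.IsBounded Ω) (N : ℕ) :
    ∃ S : Finset (Fin d → ℤ), Ω ⊆ ⋃ k ∈ S, cube N k := by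
  obtain ⟨R, hR⟩ := isBounded_iff_forall_norm_le.1 hb
  refine ⟨Fintype.piFinset fun _ => Finset.Icc ⌊-((N : ℝ) * R)⌋ ⌊(N : ℝ) * R⌋, fun x hx => ?_⟩
  simp only [mem_iUnion]
  refine ⟨fun i => ⌊(N : ℝ) * x i⌋, ?_, fun i => rfl⟩
  rw [Fintype.mem_piFinset]
  intro i
  rw [Finset.mem_Icc]
  have h1 : |x i| ≤ R := by
    have := PiLp.norm_apply_le x i
    rw [Real.norm_eq_abs] at this
    exact this.trans (hR x hx)
  have h2 := abs_le.1 h1
  have hN : (0:ℝ) ≤ N := Nat.cast_nonneg N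
  constructor
  · apply Int.floor_le_floor
    nlinarith
  · apply Int.floor_le_floor
    nlinarith

theorem integral_eq_sum_cube (hΩ : MeasurableSet Ω) {N : ℕ} {S : Finset (Fin d → ℤ)}
    (hS : Ω ⊆ ⋃ k ∈ S, cube N k) {f : EuclideanSpace ℝ (Fin d) → ℝ} (hf : IntegrableOn f Ω) :
    ∫ x in Ω, f x = ∑ k ∈ S, ∫ x in Ω ∩ cube N k, f x := by
  rw [← integral_biUnion_finset]
  · congr 2
    ext x
    simp only [mem_iUnion, mem_inter_iff]
    constructor
    · intro hx
      have := hS hx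
      simp only [mem_iUnion] at this
      obtain ⟨k, hk, hxk⟩ := this
      exact ⟨k, hk, hx, hxk⟩
    · rintro ⟨k, hk, hx, _⟩
      exact hx
  · exact fun k _ => hΩ.inter (measurableSet_cube N k)
  · intro k _ k' _ hkk
    rw [Function.onFun, Set.disjoint_left]
    rintro x ⟨_, h1⟩ ⟨_, h2⟩
    apply hkk
    ext i
    rw [← h1 i, ← h2 i]
  · exact fun k _ => hf.mono_set inter_subset_left

theorem finite_rank_estimate (hΩ : MeasurableSet Ω) (hc : Convex ℝ Ω) (hb : Bornology.IsBounded Ω)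
    {N : ℕ} (hN : 0 < N) {S : Finset (Fin d → ℤ)}
    (hS : Ω ⊆ ⋃ k ∈ S, cube N k) {v : EuclideanSpace ℝ (Fin d) → ℝ} (hv : ContDiff ℝ 1 v)
    (h1 : MemLp v 2 (volume.restrict Ω)) (h2 : MemLp (gradient v) 2 (volume.restrict Ω)) :
    ∫ x in Ω, v x ^ 2 ≤ (∑ k ∈ S, (∫ x in Ω ∩ cube N k, v x) ^ 2 / volume.real (Ω ∩ cube N k))
      + 2 ^ d * (d * (1 / N)) ^ 2 * ∫ x in Ω, ‖gradient v x‖ ^ 2 := by
  rw [integral_eq_sum_cube hΩ hS h1.integrable_sq,
    integral_eq_sum_cube hΩ hS (h2.integrable_norm_pow (by norm_num)), Finset.mul_sum,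
    ← Finset.sum_add_distrib]
  refine Finset.sum_le_sum fun k _ => ?_
  have hCc : Convex ℝ (Ω ∩ cube N k) := hc.inter (convex_cube N k)
  have hCm : MeasurableSet (Ω ∩ cube N k) := hΩ.inter (measurableSet_cube N k)
  have hfin : volume (Ω ∩ cube N k) ≠ ∞ :=
    ((hb.subset inter_subset_left).measure_lt_top).ne
  have hle : volume.restrict (Ω ∩ cube N k) ≤ volume.restrict Ω :=
    Measure.restrict_mono inter_subset_left le_rfl
  have hP := poincare hCc hCm hfin (fun x hx y hy => diam_cube hN hx.2 hy.2) hv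
    (h1.mono_measure hle) (h2.mono_measure hle)
  rw [finrank_euclideanSpace, Fintype.card_fin] at hP
  have hm0 : 0 ≤ volume.real (Ω ∩ cube N k) := measureReal_nonneg
  have hg0 : 0 ≤ ∫ x in Ω ∩ cube N k, ‖gradient v x‖ ^ 2 :=
    integral_nonneg fun x => by positivity
  rcases hm0.eq_or_lt with h0 | h0
  · have hz : volume (Ω ∩ cube N k) = 0 := by
      rw [Measure.real, eq_comm, ENNReal.toReal_eq_zero_iff] at h0
      exact h0.resolve_right hfin
    have : ∫ x in Ω ∩ cube N k, v x ^ 2 = 0 := by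
      rw [Measure.restrict_eq_zero.2 hz, integral_zero_measure]
    rw [this]
    positivity
  · have e1 : (∫ x in Ω ∩ cube N k, v x) ^ 2 / volume.real (Ω ∩ cube N k)
        + 2 ^ d * (d * (1 / N)) ^ 2 * ∫ x in Ω ∩ cube N k, ‖gradient v x‖ ^ 2
        = ((∫ x in Ω ∩ cube N k, v x) ^ 2 + 2 ^ d * (d * (1 / N)) ^ 2 *
          (volume.real (Ω ∩ cube N k) * ∫ x in Ω ∩ cube N k, ‖gradient v x‖ ^ 2))
          / volume.real (Ω ∩ cube N k) := by
      field_simp
    rw [e1, le_div_iff₀ h0]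
    linarith

theorem gradient_sub' {v w : EuclideanSpace ℝ (Fin d) → ℝ} (hv : ContDiff ℝ 1 v)
    (hw : ContDiff ℝ 1 w) (x : EuclideanSpace ℝ (Fin d)) :
    gradient (fun x => v x - w x) x = gradient v x - gradient w x := by
  apply ext_inner_right ℝ
  intro z
  rw [inner_gradient_left, inner_sub_left, inner_gradient_left, inner_gradient_left,
    fderiv_fun_sub (hv.differentiable (by norm_num) x) (hw.differentiable (by norm_num) x)]
  rfl

theorem gradient_add' {v w : EuclideanSpace ℝ (Fin d) → ℝ} (hv : ContDiff ℝ 1 v)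
    (hw : ContDiff ℝ 1 w) (x : EuclideanSpace ℝ (Fin d)) :
    gradient (fun x => v x + w x) x = gradient v x + gradient w x := by
  apply ext_inner_right ℝ
  intro z
  rw [inner_gradient_left, inner_add_left, inner_gradient_left, inner_gradient_left,
    fderiv_fun_add (hv.differentiable (by norm_num) x) (hw.differentiable (by norm_num) x)]
  rfl

theorem exists_cauchy_subseq (hΩ : MeasurableSet Ω) (hc : Convex ℝ Ω)
    (hb : Bornology.IsBounded Ω) {v : ℕ → EuclideanSpace ℝ (Fin d) → ℝ}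
    (hv : ∀ n, ContDiff ℝ 1 (v n)) (h1 : ∀ n, MemLp (v n) 2 (volume.restrict Ω))
    (h2 : ∀ n, MemLp (gradient (v n)) 2 (volume.restrict Ω)) {A B : ℝ}
    (hA : ∀ n, ∫ x in Ω, v n x ^ 2 ≤ A) (hB : ∀ n, ∫ x in Ω, ‖gradient (v n) x‖ ^ 2 ≤ B) :
    ∃ φ : ℕ → ℕ, StrictMono φ ∧ ∀ ε > 0, ∃ n₀, ∀ n ≥ n₀, ∀ m ≥ n₀,
      ∫ x in Ω, (v (φ n) x - v (φ m) x) ^ 2 ≤ ε := by
  have : IsFiniteMeasure (volume.restrict Ω) := ⟨by
    rw [Measure.restrict_apply_univ]; exact hb.measure_lt_top⟩
  have hint : ∀ n, Integrable (v n) (volume.restrict Ω) := fun n => (h1 n).integrable (by norm_num)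
  have hB0 : 0 ≤ B := le_trans (integral_nonneg fun x => by positivity) (hB 0)
  -- the sequence of averages
  set a : ℕ → (ℕ × (Fin d → ℤ)) → ℝ := fun n p => ∫ x in Ω ∩ cube p.1 p.2, v n x with ha
  set M : ℝ := volume.real Ω + A with hM
  have hbd : ∀ n, a n ∈ Set.pi univ (fun _ : ℕ × (Fin d → ℤ) => Icc (-M) M) := by
    intro n p _
    have h3 : |a n p| ≤ M := by
      calc |a n p| ≤ ∫ x in Ω ∩ cube p.1 p.2, |v n x| := abs_integral_le_integral_abs
        _ ≤ ∫ x in Ω, |v n x| := by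
            apply setIntegral_mono_set (hint n).abs
            · exact Eventually.of_forall fun x => abs_nonneg _
            · exact inter_subset_left.eventuallyLE
        _ ≤ ∫ x in Ω, (1 + v n x ^ 2) := by
            apply integral_mono (hint n).abs ((integrable_const 1).add (h1 n).integrable_sq)
            intro x
            simp only [Pi.add_apply]
            nlinarith [sq_nonneg (|v n x| - 1), sq_abs (v n x), abs_nonneg (v n x)]
        _ = volume.real Ω + ∫ x in Ω, v n x ^ 2 := by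
            rw [integral_add (integrable_const 1) (h1 n).integrable_sq, setIntegral_const]
            simp
        _ ≤ M := by rw [hM]; linarith [hA n]
    exact abs_le.1 h3
  obtain ⟨a', _, φ, hφ, hlim⟩ := (isCompact_univ_pi fun _ : ℕ × (Fin d → ℤ) =>
    isCompact_Icc (a := -M) (b := M)).tendsto_subseq hbd
  rw [tendsto_pi_nhds] at hlim
  refine ⟨φ, hφ, fun ε hε => ?_⟩
  -- choose the scale
  obtain ⟨N, hN, hNε⟩ : ∃ N : ℕ, 0 < N ∧ 2 ^ d * ((d:ℝ) * (1 / N)) ^ 2 * (4 * B) ≤ ε / 2 := by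
    have ht : Tendsto (fun N : ℕ => 2 ^ d * ((d:ℝ) * (1 / N)) ^ 2 * (4 * B)) atTop (𝓝 0) := by
      have h4 : Tendsto (fun N : ℕ => (1 / N : ℝ)) atTop (𝓝 0) := tendsto_one_div_atTop_nhds_zero_nat
      have h5 := (((h4.const_mul (d:ℝ)).pow 2).const_mul ((2:ℝ) ^ d)).mul_const (4 * B)
      simpa using h5
    have h6 := (ht.eventually (ge_mem_nhds (show (0:ℝ) < ε / 2 by positivity))).and
      (eventually_gt_atTop 0)
    obtain ⟨N, hN1, hN2⟩ := h6.exists
    exact ⟨N, hN2, hN1⟩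
  obtain ⟨S, hS⟩ := exists_cover hb N
  have hlim2 : Tendsto (fun p : ℕ × ℕ => ∑ k ∈ S, (a (φ p.1) (N, k) - a (φ p.2) (N, k)) ^ 2
      / volume.real (Ω ∩ cube N k)) atTop (𝓝 0) := by
    have e0 : (0:ℝ) = ∑ k ∈ S, (a' (N, k) - a' (N, k)) ^ 2 / volume.real (Ω ∩ cube N k) := by
      simp
    rw [e0]
    refine tendsto_finsetSum _ fun k _ => ?_
    refine Tendsto.div_const (Tendsto.pow (Tendsto.sub ?_ ?_) 2) _
    · rw [← prod_atTop_atTop_eq]
      exact (hlim (N, k)).comp tendsto_fst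
    · rw [← prod_atTop_atTop_eq]
      exact (hlim (N, k)).comp tendsto_snd
  obtain ⟨n₀, hn₀⟩ := eventually_atTop_prod_self.1
    (hlim2.eventually (ge_mem_nhds (show (0:ℝ) < ε / 2 by positivity)))
  refine ⟨n₀, fun n hn m hm => ?_⟩
  have h7 := hn₀ n m hn hm
  simp only at h7
  have hvd : ContDiff ℝ 1 (fun x => v (φ n) x - v (φ m) x) := (hv _).sub (hv _)
  have hg : (gradient fun x => v (φ n) x - v (φ m) x)
      = fun x => gradient (v (φ n)) x - gradient (v (φ m)) x := by
    ext1 x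
    exact gradient_sub' (hv _) (hv _) x
  have h8 := finite_rank_estimate hΩ hc hb hN hS hvd ((h1 _).sub (h1 _))
    (by rw [hg]; exact (h2 _).sub (h2 _))
  have h9 : ∀ k, ∫ x in Ω ∩ cube N k, (v (φ n) x - v (φ m) x)
      = a (φ n) (N, k) - a (φ m) (N, k) := by
    intro k
    rw [integral_sub ((hint _).mono_measure (Measure.restrict_mono inter_subset_left le_rfl))
      ((hint _).mono_measure (Measure.restrict_mono inter_subset_left le_rfl))]
  simp only [h9] at h8
  have h10 : ∫ x in Ω, ‖(gradient fun x => v (φ n) x - v (φ m) x) x‖ ^ 2 ≤ 4 * B := by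
    rw [hg]
    calc ∫ x in Ω, ‖gradient (v (φ n)) x - gradient (v (φ m)) x‖ ^ 2
        ≤ ∫ x in Ω, (2 * ‖gradient (v (φ n)) x‖ ^ 2 + 2 * ‖gradient (v (φ m)) x‖ ^ 2) := by
          apply integral_mono
          · exact ((h2 _).sub (h2 _)).integrable_norm_pow (by norm_num)
          · exact (((h2 _).integrable_norm_pow (by norm_num)).const_mul 2).add
              (((h2 _).integrable_norm_pow (by norm_num)).const_mul 2)
          · intro x
            simp only
            have := norm_sub_le (gradient (v (φ n)) x) (gradient (v (φ m)) x)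
            nlinarith [norm_nonneg (gradient (v (φ n)) x - gradient (v (φ m)) x),
              norm_nonneg (gradient (v (φ n)) x), norm_nonneg (gradient (v (φ m)) x),
              sq_nonneg (‖gradient (v (φ n)) x‖ - ‖gradient (v (φ m)) x‖)]
      _ = 2 * (∫ x in Ω, ‖gradient (v (φ n)) x‖ ^ 2)
          + 2 * ∫ x in Ω, ‖gradient (v (φ m)) x‖ ^ 2 := by
          rw [integral_add, integral_const_mul, integral_const_mul]
          · exact ((h2 _).integrable_norm_pow (by norm_num)).const_mul 2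
          · exact ((h2 _).integrable_norm_pow (by norm_num)).const_mul 2
      _ ≤ 4 * B := by linarith [hB (φ n), hB (φ m)]
  have h11 : 2 ^ d * ((d:ℝ) * (1 / N)) ^ 2 *
      ∫ x in Ω, ‖(gradient fun x => v (φ n) x - v (φ m) x) x‖ ^ 2
      ≤ 2 ^ d * ((d:ℝ) * (1 / N)) ^ 2 * (4 * B) := by
    gcongr
  linarith

end Pool.Agent.Helper77.Robin
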