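import Mathlib

set_option autoImplicit false

open MeasureTheory Filter Topology

namespace Pool.Agent.Helper77.Robin

/-- The surface measure of the boundary of `Ω ⊆ ℝ^d`: the `(d-1)`-dimensional Hausdorff measure
(normalised as usual, so that it agrees with Lebesgue measure on `ℝ^(d-1)` and is preserved by
isometries; this is Mathlib's `euclideanHausdorffMeasure`) restricted to the frontier of `Ω`. -/
noncomputable def surfaceMeasure {d : ℕ} (Ω : Set (EuclideanSpace ℝ (Fin d))) :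
    Measure (EuclideanSpace ℝ (Fin d)) :=
  (Measure.euclideanHausdorffMeasure (d - 1)).restrict (frontier Ω)

/-- `u ∈ H¹(Ω)`, with weak gradient `g` and boundary trace `t`: there are `C¹` functions `v n` on
`ℝ^d` with `v n → u` and `∇ (v n) → g` in `L²(Ω)` and `v n → t` in `L²(∂Ω)`.
(For a bounded convex domain the restrictions of such functions are dense in `H¹(Ω)` and the trace
operator `H¹(Ω) → L²(∂Ω)` is continuous, so this describes exactly the elements of `H¹(Ω)`
together with their gradients and traces.) -/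
structure IsSobolev {d : ℕ} (Ω : Set (EuclideanSpace ℝ (Fin d)))
    (u : EuclideanSpace ℝ (Fin d) → ℝ)
    (g : EuclideanSpace ℝ (Fin d) → EuclideanSpace ℝ (Fin d))
    (t : EuclideanSpace ℝ (Fin d) → ℝ) : Prop where
  memLp_u : MemLp u 2 (volume.restrict Ω)
  memLp_g : MemLp g 2 (volume.restrict Ω)
  memLp_t : MemLp t 2 (surfaceMeasure Ω)
  exists_approx : ∃ v : ℕ → EuclideanSpace ℝ (Fin d) → ℝ,
    (∀ n, ContDiff ℝ 1 (v n)) ∧
    Tendsto (fun n => eLpNorm (fun x => v n x - u x) 2 (volume.restrict Ω)) atTop (𝓝 0) ∧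
    Tendsto (fun n => eLpNorm (fun x => gradient (v n) x - g x) 2 (volume.restrict Ω))
      atTop (𝓝 0) ∧
    Tendsto (fun n => eLpNorm (fun x => v n x - t x) 2 (surfaceMeasure Ω)) atTop (𝓝 0)

/-- The Robin energy `∫_Ω |g|² + α ∫_∂Ω t²`. -/
noncomputable def robinEnergy {d : ℕ} (Ω : Set (EuclideanSpace ℝ (Fin d))) (α : ℝ)
    (g : EuclideanSpace ℝ (Fin d) → EuclideanSpace ℝ (Fin d))
    (t : EuclideanSpace ℝ (Fin d) → ℝ) : ℝ :=
  (∫ x in Ω, ‖g x‖ ^ 2) + α * ∫ x, t x ^ 2 ∂(surfaceMeasure Ω)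

/-- `u` is (a version of) the first Robin eigenfunction of `Ω` with parameter `α`: it is positive
in `Ω`, belongs to `H¹(Ω)` and minimises the Robin Rayleigh quotient over all `0 ≠ v ∈ H¹(Ω)`. -/
structure IsFirstRobinEigenfunction {d : ℕ} (Ω : Set (EuclideanSpace ℝ (Fin d))) (α : ℝ)
    (u : EuclideanSpace ℝ (Fin d) → ℝ) : Prop where
  pos : ∀ x ∈ Ω, 0 < u x
  minimises : ∃ (g : EuclideanSpace ℝ (Fin d) → EuclideanSpace ℝ (Fin d))
      (t : EuclideanSpace ℝ (Fin d) → ℝ), IsSobolev Ω u g t ∧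
    ∀ (v : EuclideanSpace ℝ (Fin d) → ℝ)
      (h : EuclideanSpace ℝ (Fin d) → EuclideanSpace ℝ (Fin d))
      (s : EuclideanSpace ℝ (Fin d) → ℝ), IsSobolev Ω v h s → (∫ x in Ω, v x ^ 2) ≠ 0 →
      robinEnergy Ω α g t / (∫ x in Ω, u x ^ 2) ≤ robinEnergy Ω α h s / (∫ x in Ω, v x ^ 2)

end Pool.Agent.Helper77.Robin
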