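import Pool.Agent.Helper77.Robin.GreenFlat

set_option autoImplicit false
set_option linter.unusedSectionVars false

open Filter Topology Set
open scoped RealInnerProductSpace

namespace Pool.Agent.Helper77.Robin

/-- The domain: in the first two coordinates, the convex polygon with infinitely many sides cut
out by `x₀ > 0`, `x₁ < 1` and the tangents `x₁ = 2 a x₀ - a²` of the parabola `x₁ = x₀²` at the
points `a = 2⁻ᵏ`; in the other coordinates, a cube. -/
def dom (n : ℕ) : Set (EuclideanSpace ℝ (Fin (n + 1 + 1))) :=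
  {x | 0 < x 0 ∧ x 1 < 1 ∧ (∀ k : ℕ, 2 * (1 / 2 : ℝ) ^ k * x 0 - ((1 / 2 : ℝ) ^ k) ^ 2 < x 1) ∧
    ∀ i, i ≠ 0 → i ≠ 1 → 0 < x i ∧ x i < 1}

/-- `a k = 2⁻ᵏ` -/
noncomputable def ak (k : ℕ) : ℝ := (1 / 2 : ℝ) ^ k

theorem ak_pos (k : ℕ) : 0 < ak k := by unfold ak; positivity

theorem ak_le_one (k : ℕ) : ak k ≤ 1 := by
  unfold ak
  exact pow_le_one₀ (by norm_num) (by norm_num)

theorem ak_succ (k : ℕ) : ak (k + 1) = ak k / 2 := by
  unfold ak
  rw [pow_succ]
  ring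

theorem ak_anti {j k : ℕ} (h : j ≤ k) : ak k ≤ ak j := by
  unfold ak
  exact pow_le_pow_of_le_one (by norm_num) (by norm_num) h

theorem ak_lt {j k : ℕ} (h : j < k) : 2 * ak k ≤ ak j := by
  obtain ⟨k, rfl⟩ : ∃ k', k = k' + 1 := ⟨k - 1, by omega⟩
  rw [ak_succ]
  have := ak_anti (show j ≤ k by omega)
  linarith

theorem exists_ak_lt {ε : ℝ} (hε : 0 < ε) : ∃ k, ak k < ε :=
  exists_pow_lt_of_lt_one hε (by norm_num)

variable {n : ℕ}

theorem mem_dom {x : EuclideanSpace ℝ (Fin (n + 1 + 1))} : x ∈ dom n ↔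
    0 < x 0 ∧ x 1 < 1 ∧ (∀ k : ℕ, 2 * ak k * x 0 - ak k ^ 2 < x 1) ∧
    ∀ i, i ≠ 0 → i ≠ 1 → 0 < x i ∧ x i < 1 := Iff.rfl

theorem x1_pos {x : EuclideanSpace ℝ (Fin (n + 1 + 1))} (hx : x ∈ dom n) : 0 < x 1 := by
  obtain ⟨h0, _, h2, _⟩ := mem_dom.1 hx
  obtain ⟨k, hk⟩ := exists_ak_lt (show 0 < 2 * x 0 by positivity)
  have := h2 k
  have h3 := ak_pos k
  nlinarith

theorem x0_lt_one {x : EuclideanSpace ℝ (Fin (n + 1 + 1))} (hx : x ∈ dom n) : x 0 < 1 := by
  obtain ⟨h0, h1, h2, _⟩ := mem_dom.1 hx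
  have := h2 0
  simp only [ak, pow_zero] at this
  linarith

/-- the part of the constraints beyond level `N` is implied by `2 a_N x₀ < x₁` -/
theorem dom_eq : dom n = {x | 0 < x 0 ∧ x 1 < 1} ∩
    (⋂ i : Fin (n + 1 + 1), {x | i ≠ 0 → i ≠ 1 → 0 < x i ∧ x i < 1}) ∩
    ⋃ N : ℕ, ({x | 2 * ak N * x 0 < x 1} ∩
      ⋂ k ∈ Finset.range N, {x | 2 * ak k * x 0 - ak k ^ 2 < x 1}) := by
  ext x
  simp only [mem_inter_iff, mem_iInter, mem_iUnion, mem_ofPred_eq, Finset.mem_range, mem_dom]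
  constructor
  · intro hx
    have hx1 := x1_pos (mem_dom.2 hx)
    obtain ⟨h0, h1, h2, h3⟩ := hx
    refine ⟨⟨⟨h0, h1⟩, h3⟩, ?_⟩
    obtain ⟨N, hN⟩ := exists_ak_lt (show 0 < x 1 / (2 * x 0) by positivity)
    rw [lt_div_iff₀ (by positivity)] at hN
    exact ⟨N, by linarith, fun k _ => h2 k⟩
  · rintro ⟨⟨⟨h0, h1⟩, h3⟩, N, hN, hk⟩
    refine ⟨h0, h1, fun k => ?_, h3⟩
    rcases lt_or_ge k N with h | h
    · exact hk k h
    · have h4 := ak_anti h
      have h5 := ak_pos k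
      nlinarith

theorem isOpen_side (i : Fin (n + 1 + 1)) (a b : ℝ) :
    IsOpen {x : EuclideanSpace ℝ (Fin (n + 1 + 1)) | i ≠ 0 → i ≠ 1 → a < x i ∧ x i < b} := by
  by_cases h0 : i = 0
  · simp [h0]
  by_cases h1 : i = 1
  · simp [h1]
  simp only [ne_eq, h0, not_false_eq_true, h1, forall_const]
  refine IsOpen.and ?_ ?_
  · exact isOpen_lt (by fun_prop) (by fun_prop)
  · exact isOpen_lt (by fun_prop) (by fun_prop)

theorem isOpen_dom : IsOpen (dom n) := by
  rw [dom_eq]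
  refine IsOpen.inter (IsOpen.inter ?_ ?_) (isOpen_iUnion fun N => IsOpen.inter ?_ ?_)
  · refine IsOpen.and ?_ ?_
    · exact isOpen_lt (by fun_prop) (by fun_prop)
    · exact isOpen_lt (by fun_prop) (by fun_prop)
  · exact isOpen_iInter_of_finite fun i => isOpen_side i 0 1
  · exact isOpen_lt (by fun_prop) (by fun_prop)
  · exact isOpen_biInter_finset fun k _ => isOpen_lt (by fun_prop) (by fun_prop)

theorem comb_lt {a b p q c : ℝ} (ha : 0 ≤ a) (hb : 0 ≤ b) (hab : a + b = 1) (hp : c < p)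
    (hq : c < q) : c < a * p + b * q := by
  rcases ha.eq_or_lt with rfl | ha
  · have : b = 1 := by linarith
    rw [this]; linarith
  · have h1 : a * c < a * p := mul_lt_mul_of_pos_left hp ha
    have h2 : b * c ≤ b * q := mul_le_mul_of_nonneg_left hq.le hb
    have h3 : a * c + b * c = c := by rw [← add_mul, hab, one_mul]
    linarith

theorem convex_dom : Convex ℝ (dom n) := by
  intro x hx y hy a b ha hb hab
  rw [mem_dom] at hx hy ⊢
  obtain ⟨x0, x1, x2, x3⟩ := hx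
  obtain ⟨y0, y1, y2, y3⟩ := hy
  have e : ∀ i, (a • x + b • y) i = a * x i + b * y i := fun i => by simp
  simp only [e]
  refine ⟨comb_lt ha hb hab x0 y0, ?_, fun k => ?_, fun i h0 h1 => ⟨?_, ?_⟩⟩
  · have := comb_lt ha hb hab (show -1 < -x 1 by linarith) (show -1 < -y 1 by linarith)
    linarith
  · have := comb_lt ha hb hab (show - ak k ^ 2 < x 1 - 2 * ak k * x 0 by linarith [x2 k])
      (show - ak k ^ 2 < y 1 - 2 * ak k * y 0 by linarith [y2 k])
    linarith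
  · exact comb_lt ha hb hab (x3 i h0 h1).1 (y3 i h0 h1).1
  · have := comb_lt ha hb hab (show -1 < -x i by linarith [(x3 i h0 h1).2])
      (show -1 < -y i by linarith [(y3 i h0 h1).2])
    linarith

theorem coord_mem {x : EuclideanSpace ℝ (Fin (n + 1 + 1))} (hx : x ∈ dom n)
    (i : Fin (n + 1 + 1)) : 0 < x i ∧ x i < 1 := by
  by_cases h0 : i = 0
  · rw [h0]; exact ⟨hx.1, x0_lt_one hx⟩
  by_cases h1 : i = 1
  · rw [h1]; exact ⟨x1_pos hx, hx.2.1⟩
  exact hx.2.2.2 i h0 h1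

theorem norm_le_of_coord {x : EuclideanSpace ℝ (Fin (n + 1 + 1))} {C : ℝ} (hC : 0 ≤ C)
    (h : ∀ i, |x i| ≤ C) : ‖x‖ ≤ (n + 2) * C := by
  have e : ‖x‖ ^ 2 = ∑ i, (x i) ^ 2 := by
    rw [EuclideanSpace.norm_sq_eq]
    simp
  have h2 : ‖x‖ ^ 2 ≤ ((n + 2) * C) ^ 2 := by
    rw [e]
    calc ∑ i, (x i) ^ 2 ≤ ∑ _i : Fin (n + 1 + 1), C ^ 2 := by
          refine Finset.sum_le_sum fun i _ => ?_
          rw [← sq_abs]
          exact pow_le_pow_left₀ (abs_nonneg _) (h i) 2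
      _ = (n + 2) * C ^ 2 := by
          rw [Finset.sum_const, Finset.card_univ, Fintype.card_fin, nsmul_eq_mul]
          push_cast
          ring
      _ ≤ ((n + 2) * C) ^ 2 := by
          have : (0:ℝ) ≤ n := Nat.cast_nonneg n
          nlinarith [sq_nonneg C, mul_nonneg this (sq_nonneg C)]
  exact le_of_sq_le_sq h2 (by positivity)

theorem isBounded_dom : Bornology.IsBounded (dom n) := by
  rw [isBounded_iff_forall_norm_le]
  refine ⟨(n + 2) * 1, fun x hx => norm_le_of_coord (by norm_num) fun i => ?_⟩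
  obtain ⟨h1, h2⟩ := coord_mem hx i
  rw [abs_of_pos h1]
  exact h2.le

/-- a point of the domain -/
noncomputable def basePt (n : ℕ) : EuclideanSpace ℝ (Fin (n + 1 + 1)) :=
  WithLp.toLp 2 (fun i => if i = 0 then 1 / 4 else if i = 1 then 1 / 8 else 1 / 2)

theorem basePt_mem : basePt n ∈ dom n := by
  rw [mem_dom]
  have e0 : basePt n 0 = 1 / 4 := by simp [basePt]
  have e1 : basePt n 1 = 1 / 8 := by simp [basePt]
  refine ⟨by rw [e0]; norm_num, by rw [e1]; norm_num, fun k => ?_, fun i h0 h1 => ?_⟩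
  · rw [e0, e1]
    nlinarith [sq_nonneg (ak k - 1 / 4)]
  · have : basePt n i = 1 / 2 := by simp [basePt, h0, h1]
    rw [this]
    norm_num

theorem dom_nonempty : (dom n).Nonempty := ⟨_, basePt_mem⟩

/-- above the parabola all the constraints hold -/
theorem constraint_of_sq {x0 x1 : ℝ} (h : x0 ^ 2 < x1) (k : ℕ) : 2 * ak k * x0 - ak k ^ 2 < x1 := by
  nlinarith [sq_nonneg (ak k - x0)]

/-- in the `k`-th strip the `k`-th constraint implies all the others -/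
theorem constraint_of_strip {x0 x1 : ℝ} {k : ℕ} (h1 : 3 * ak k / 4 ≤ x0) (h2 : x0 ≤ 3 * ak k / 2)
    (h : 2 * ak k * x0 - ak k ^ 2 < x1) (j : ℕ) : 2 * ak j * x0 - ak j ^ 2 < x1 := by
  rcases lt_trichotomy j k with hj | rfl | hj
  · have h3 := ak_lt hj
    have h4 := ak_pos k
    nlinarith
  · exact h
  · have h3 := ak_lt hj
    have h4 := ak_pos j
    nlinarith

end Pool.Agent.Helper77.Robin
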