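import Pool.Agent.Helper77.Robin.Positive

set_option autoImplicit false
set_option linter.unusedSectionVars false

open MeasureTheory Filter Topology Set
open scoped RealInnerProductSpace ENNReal

namespace Pool.Agent.Helper77.Robin

variable {d : ℕ} {Ω : Set (EuclideanSpace ℝ (Fin d))} {α : ℝ}
variable {L : ℝ} {v : ℕ → EuclideanSpace ℝ (Fin d) → ℝ} {u : EuclideanSpace ℝ (Fin d) → ℝ}
  {g : EuclideanSpace ℝ (Fin d) → EuclideanSpace ℝ (Fin d)} {t : EuclideanSpace ℝ (Fin d) → ℝ}

/-- On small balls either `u > 0` almost everywhere or `u ≤ 0` almost everywhere. -/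
theorem MinData.dichotomy (hΩ : IsOpen Ω) (M : MinData Ω α L v u g t)
    {x₀ : EuclideanSpace ℝ (Fin d)} {ρ : ℝ} (hρ : 0 < ρ)
    (hball : Metric.closedBall x₀ (2 * ρ) ⊆ Ω) :
    volume (Metric.ball x₀ ρ ∩ {x | u x ≤ 0}) = 0 ∨
      volume (Metric.ball x₀ ρ ∩ {x | 0 < u x}) = 0 := by
  by_contra hcon
  push Not at hcon
  obtain ⟨hZ, hP⟩ := hcon
  set C := Metric.ball x₀ ρ with hC
  have hCΩ : C ⊆ Ω := (Metric.ball_subset_closedBall.trans
    (Metric.closedBall_subset_closedBall (by linarith))).trans hball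
  have hum : Measurable u := M.smeas.measurable
  -- a level
  obtain ⟨η, hη, hPη⟩ : ∃ η > 0, volume (C ∩ {x | η < u x}) ≠ 0 := by
    by_contra h
    push Not at h
    apply hP
    have e : C ∩ {x | 0 < u x} = ⋃ k : ℕ, C ∩ {x | 1 / ((k : ℝ) + 1) < u x} := by
      ext x
      simp only [mem_inter_iff, mem_iUnion]
      constructor
      · rintro ⟨h1, h2⟩
        obtain ⟨k, hk⟩ := exists_nat_one_div_lt (show 0 < u x from h2)
        exact ⟨k, h1, hk⟩
      · rintro ⟨k, h1, h2⟩
        refine ⟨h1, ?_⟩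
        have h2 : 1 / ((k : ℝ) + 1) < u x := h2
        have : (0:ℝ) < 1 / ((k : ℝ) + 1) := by positivity
        show 0 < u x
        linarith
    rw [e]
    exact measure_iUnion_null fun k => h _ (by positivity)
  set a := volume (C ∩ {x | η < u x}) with ha
  set b := volume (C ∩ {x | u x ≤ 0}) with hb
  have hCfin : volume C ≠ ∞ := measure_ball_lt_top.ne
  have hafin : a ≠ ∞ := ((measure_mono inter_subset_left).trans_lt hCfin.lt_top).ne
  have hbfin : b ≠ ∞ := ((measure_mono inter_subset_left).trans_lt hCfin.lt_top).ne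
  -- cutoff
  let B : ContDiffBump x₀ := ⟨ρ, 2 * ρ, hρ, by linarith⟩
  have hB1 : ContDiff ℝ 1 B := B.contDiff
  have hBs : HasCompactSupport B := B.hasCompactSupport
  have hBt : tsupport B ⊆ Ω := by rw [B.tsupport_eq]; exact hball
  have hBle : ∀ x, |B x| ≤ 1 := fun x => by
    rw [abs_of_nonneg B.nonneg]; exact B.le_one
  have hBone : ∀ x ∈ C, B x = 1 := fun x hx =>
    B.one_of_mem_closedBall (Metric.ball_subset_closedBall hx)
  set K : ℝ := 10 * (∫ x in Ω, ‖gradient B x‖ ^ 2) + 1 with hK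
  have hKpos : 0 < K := by
    have : 0 ≤ ∫ x in Ω, ‖gradient B x‖ ^ 2 := integral_nonneg fun x => by positivity
    positivity
  set K' : ℝ≥0∞ := ENNReal.ofReal ((2 * ρ) ^ 2) *
    (2 ^ Module.finrank ℝ (EuclideanSpace ℝ (Fin d)) * volume C * ENNReal.ofReal K) with hK'
  have hK'fin : K' ≠ ∞ := by
    apply ENNReal.mul_ne_top ENNReal.ofReal_ne_top
    apply ENNReal.mul_ne_top
    · apply ENNReal.mul_ne_top _ hCfin
      exact ENNReal.pow_ne_top (by norm_num)
    · exact ENNReal.ofReal_ne_top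
  -- choice of the constant
  have hab : a / 2 * (b / 2) ≠ 0 := by
    apply mul_ne_zero
    · exact (ENNReal.div_pos hPη (by norm_num)).ne'
    · exact (ENNReal.div_pos hZ (by norm_num)).ne'
  obtain ⟨c, hc0, hc⟩ : ∃ c : ℝ, 0 < c ∧ K' < ENNReal.ofReal (c ^ 2) * (a / 2 * (b / 2)) := by
    have hR : K' / (a / 2 * (b / 2)) ≠ ∞ := (ENNReal.div_lt_top hK'fin hab).ne
    set R := (K' / (a / 2 * (b / 2))).toReal with hRdef
    refine ⟨R + 1, by positivity, ?_⟩
    have h1 : K' / (a / 2 * (b / 2)) < ENNReal.ofReal ((R + 1) ^ 2) := by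
      rw [ENNReal.lt_ofReal_iff_toReal_lt hR, ← hRdef]
      have : 0 ≤ R := ENNReal.toReal_nonneg
      nlinarith
    have hab' : a / 2 * (b / 2) ≠ ∞ := ENNReal.mul_ne_top
      (ENNReal.div_ne_top hafin (by norm_num)) (ENNReal.div_ne_top hbfin (by norm_num))
    rwa [ENNReal.div_lt_iff (Or.inl hab) (Or.inl hab')] at h1
  set ε : ℝ := η / (4 * Real.exp c) with hε
  have hεpos : 0 < ε := by positivity
  have hε4 : 4 * ε ≤ η := by
    rw [hε]
    have : 1 ≤ Real.exp c := Real.one_le_exp hc0.le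
    rw [mul_div_assoc', div_le_iff₀ (by positivity)]
    nlinarith
  have hlogc : Real.log (η / 2) - Real.log (2 * ε) = c := by
    rw [← Real.log_div (by positivity) (by positivity)]
    have : η / 2 / (2 * ε) = Real.exp c := by
      rw [hε]
      field_simp
      norm_num
    rw [this, Real.log_exp]
  -- convergence in measure
  have hTM : TendstoInMeasure (volume.restrict Ω) v atTop u :=
    tendstoInMeasure_of_tendsto_eLpNorm (p := 2) (by norm_num)
      (fun n => (M.adm n).memLp_u.aestronglyMeasurable) M.memLp_u.aestronglyMeasurable M.lim_u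
  rw [tendstoInMeasure_iff_norm] at hTM
  have ev1 : ∀ᶠ n in atTop, volume.restrict Ω {x | η / 2 ≤ ‖v n x - u x‖} < a / 2 :=
    (hTM (η / 2) (by positivity)).eventually (gt_mem_nhds (ENNReal.div_pos hPη (by norm_num)))
  have ev2 : ∀ᶠ n in atTop, volume.restrict Ω {x | ε ≤ ‖v n x - u x‖} < b / 2 :=
    (hTM ε hεpos).eventually (gt_mem_nhds (ENNReal.div_pos hZ (by norm_num)))
  have ev3 := M.log_estimate hΩ hB1 hBs hBt hBle hεpos
  obtain ⟨n, h1, h2, h3⟩ := (ev1.and (ev2.and ev3)).exists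
  have hvn := (M.adm n).contDiff
  have hvm : Measurable (v n) := hvn.continuous.measurable
  have hCm : MeasurableSet C := measurableSet_ball
  set A := C ∩ {x | η / 2 < v n x} with hA
  set D := C ∩ {x | v n x < ε} with hD
  have hAm : MeasurableSet A := hCm.inter (measurableSet_lt measurable_const hvm)
  have hDm : MeasurableSet D := hCm.inter (measurableSet_lt hvm measurable_const)
  have hAa : a / 2 ≤ volume A := by
    have hsub : C ∩ {x | η < u x} ⊆ A ∪ ({x | η / 2 ≤ ‖v n x - u x‖} ∩ Ω) := by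
      rintro x ⟨hx1, hx2⟩
      have hx2 : η < u x := hx2
      by_cases h : η / 2 < v n x
      · exact Or.inl ⟨hx1, h⟩
      · right
        refine ⟨?_, hCΩ hx1⟩
        show η / 2 ≤ ‖v n x - u x‖
        rw [Real.norm_eq_abs, abs_sub_comm]
        exact le_trans (by linarith) (le_abs_self _)
    have h4 : a ≤ volume A + a / 2 := by
      calc a ≤ volume (A ∪ ({x | η / 2 ≤ ‖v n x - u x‖} ∩ Ω)) := measure_mono hsub
        _ ≤ volume A + volume ({x | η / 2 ≤ ‖v n x - u x‖} ∩ Ω) := measure_union_le _ _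
        _ ≤ volume A + a / 2 := by
            gcongr
            have hms : MeasurableSet {x | η / 2 ≤ ‖v n x - u x‖} :=
              measurableSet_le measurable_const (hvm.sub hum).norm
            rw [← Measure.restrict_apply hms]
            exact h1.le
    have h5 : a - a / 2 ≤ volume A := tsub_le_iff_right.2 h4
    rwa [ENNReal.sub_half hafin] at h5
  have hDb : b / 2 ≤ volume D := by
    have hsub : C ∩ {x | u x ≤ 0} ⊆ D ∪ ({x | ε ≤ ‖v n x - u x‖} ∩ Ω) := by
      rintro x ⟨hx1, hx2⟩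
      have hx2 : u x ≤ 0 := hx2
      by_cases h : v n x < ε
      · exact Or.inl ⟨hx1, h⟩
      · right
        refine ⟨?_, hCΩ hx1⟩
        show ε ≤ ‖v n x - u x‖
        rw [Real.norm_eq_abs]
        exact le_trans (by linarith) (le_abs_self _)
    have h4 : b ≤ volume D + b / 2 := by
      calc b ≤ volume (D ∪ ({x | ε ≤ ‖v n x - u x‖} ∩ Ω)) := measure_mono hsub
        _ ≤ volume D + volume ({x | ε ≤ ‖v n x - u x‖} ∩ Ω) := measure_union_le _ _
        _ ≤ volume D + b / 2 := by
            gcongr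
            have hms : MeasurableSet {x | ε ≤ ‖v n x - u x‖} :=
              measurableSet_le measurable_const (hvm.sub hum).norm
            rw [← Measure.restrict_apply hms]
            exact h2.le
    have h5 : b - b / 2 ≤ volume D := tsub_le_iff_right.2 h4
    rwa [ENNReal.sub_half hbfin] at h5
  -- Poincaré
  set Lg : EuclideanSpace ℝ (Fin d) → ℝ := fun x => Real.log (v n x + ε) with hLg
  have hpos : ∀ x, 0 < v n x + ε := fun x => by linarith [M.nonneg n x]
  have hLgc : ContDiff ℝ 1 Lg := (hvn.add contDiff_const).log fun x => (hpos x).ne'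
  have hgr : Continuous (gradient Lg) := continuous_gradient hLgc
  have hgi : ∫⁻ z in C, ENNReal.ofReal (‖gradient Lg z‖ ^ 2) ≤ ENNReal.ofReal K := by
    have hint : Integrable (fun x => B x ^ 2 * ‖gradient Lg x‖ ^ 2) (volume.restrict Ω) := by
      apply Integrable.restrict
      apply Continuous.integrable_of_hasCompactSupport
      · exact (hB1.continuous.pow 2).mul (hgr.norm.pow 2)
      · refine hBs.mono' ?_
        intro x hx
        apply subset_tsupport
        rw [Function.mem_support] at hx ⊢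
        intro h0
        apply hx
        rw [h0]
        simp
    calc ∫⁻ z in C, ENNReal.ofReal (‖gradient Lg z‖ ^ 2)
        = ∫⁻ z in C, ENNReal.ofReal (B z ^ 2 * ‖gradient Lg z‖ ^ 2) := by
          refine setLIntegral_congr_fun hCm fun z hz => ?_
          rw [hBone z hz]
          simp
      _ ≤ ∫⁻ z in Ω, ENNReal.ofReal (B z ^ 2 * ‖gradient Lg z‖ ^ 2) :=
          lintegral_mono_set hCΩ
      _ = ENNReal.ofReal (∫ z in Ω, B z ^ 2 * ‖gradient Lg z‖ ^ 2) := by
          rw [ofReal_integral_eq_lintegral_ofReal hint]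
          exact Eventually.of_forall fun x => by positivity
      _ ≤ ENNReal.ofReal K := ENNReal.ofReal_le_ofReal h3
  have hdiam : ∀ x ∈ C, ∀ y ∈ C, ‖y - x‖ ≤ 2 * ρ := by
    intro x hx y hy
    rw [← dist_eq_norm]
    have e1 : dist x x₀ < ρ := hx
    have e2 : dist y x₀ < ρ := hy
    have e3 := dist_triangle_right y x x₀
    linarith
  have hPo := poincare_double (convex_ball x₀ ρ) hCm hdiam hLgc
  have hup : ∫⁻ x in C, ∫⁻ y in C, ENNReal.ofReal ((Lg y - Lg x) ^ 2) ≤ K' := by
    refine hPo.trans ?_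
    rw [hK']
    gcongr
  have hlow : ENNReal.ofReal (c ^ 2) * (a / 2 * (b / 2))
      ≤ ∫⁻ x in C, ∫⁻ y in C, ENNReal.ofReal ((Lg y - Lg x) ^ 2) := by
    calc ENNReal.ofReal (c ^ 2) * (a / 2 * (b / 2))
        ≤ ENNReal.ofReal (c ^ 2) * (volume A * volume D) := by gcongr
      _ = ∫⁻ _x in A, ∫⁻ _y in D, ENNReal.ofReal (c ^ 2) := by
          rw [setLIntegral_const, setLIntegral_const]
          ring
      _ ≤ ∫⁻ x in A, ∫⁻ y in D, ENNReal.ofReal ((Lg y - Lg x) ^ 2) := by
          refine lintegral_mono_ae ?_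
          rw [ae_restrict_iff' hAm]
          refine Eventually.of_forall fun x hx => lintegral_mono_ae ?_
          rw [ae_restrict_iff' hDm]
          refine Eventually.of_forall fun y hy => ENNReal.ofReal_le_ofReal ?_
          have e1 : η / 2 < v n x := hx.2
          have e2 : v n y < ε := hy.2
          have e3 : Real.log (η / 2) ≤ Lg x :=
            Real.log_le_log (by positivity) (by linarith)
          have e4 : Lg y ≤ Real.log (2 * ε) := Real.log_le_log (hpos y) (by linarith)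
          have e5 : c ≤ Lg x - Lg y := by linarith
          nlinarith
      _ ≤ ∫⁻ x in A, ∫⁻ y in C, ENNReal.ofReal ((Lg y - Lg x) ^ 2) :=
          lintegral_mono fun x => lintegral_mono_set inter_subset_left
      _ ≤ ∫⁻ x in C, ∫⁻ y in C, ENNReal.ofReal ((Lg y - Lg x) ^ 2) :=
          lintegral_mono_set inter_subset_left
  exact absurd (hlow.trans hup) (not_le.2 hc)

theorem MinData.ae_pos (hΩ : IsOpen Ω) (hc : Convex ℝ Ω) (M : MinData Ω α L v u g t)
    (hone : ∫ x in Ω, u x ^ 2 = 1) : volume (Ω ∩ {x | u x ≤ 0}) = 0 := by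
  set U₁ : Set (EuclideanSpace ℝ (Fin d)) := {x | ∃ ρ > 0, Metric.ball x ρ ⊆ Ω ∧
    volume (Metric.ball x ρ ∩ {x | u x ≤ 0}) = 0} with hU₁
  set U₂ : Set (EuclideanSpace ℝ (Fin d)) := {x | ∃ ρ > 0, Metric.ball x ρ ⊆ Ω ∧
    volume (Metric.ball x ρ ∩ {x | 0 < u x}) = 0} with hU₂
  have hopen : ∀ P : Set (EuclideanSpace ℝ (Fin d)), IsOpen {x | ∃ ρ > 0, Metric.ball x ρ ⊆ Ω ∧
      volume (Metric.ball x ρ ∩ P) = 0} := by
    intro P
    rw [Metric.isOpen_iff]
    rintro x ⟨ρ, hρ, h1, h2⟩
    refine ⟨ρ / 2, by positivity, fun y hy => ⟨ρ / 2, by positivity, ?_, ?_⟩⟩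
    · refine Subset.trans (Metric.ball_subset_ball' ?_) h1
      have : dist y x < ρ / 2 := hy
      linarith
    · refine measure_mono_null (inter_subset_inter_left _ (Metric.ball_subset_ball' ?_)) h2
      have : dist y x < ρ / 2 := hy
      linarith
  have hcover : Ω ⊆ U₁ ∪ U₂ := by
    intro x hx
    obtain ⟨r, hr, hrΩ⟩ := Metric.isOpen_iff.1 hΩ x hx
    have hb : Metric.closedBall x (2 * (r / 3)) ⊆ Ω :=
      (Metric.closedBall_subset_ball (by linarith)).trans hrΩ
    have hb2 : Metric.ball x (r / 3) ⊆ Ω := (Metric.ball_subset_ball (by linarith)).trans hrΩ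
    rcases M.dichotomy hΩ (show 0 < r / 3 by positivity) hb with h | h
    · exact Or.inl ⟨r / 3, by positivity, hb2, h⟩
    · exact Or.inr ⟨r / 3, by positivity, hb2, h⟩
  have hdisj : Disjoint U₁ U₂ := by
    rw [Set.disjoint_left]
    rintro x ⟨ρ, hρ, _, h1⟩ ⟨ρ', hρ', _, h2⟩
    have hpos : 0 < volume (Metric.ball x (min ρ ρ')) :=
      Metric.measure_ball_pos volume x (lt_min hρ hρ')
    have hsub : Metric.ball x (min ρ ρ') ⊆ (Metric.ball x ρ ∩ {x | u x ≤ 0}) ∪
        (Metric.ball x ρ' ∩ {x | 0 < u x}) := by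
      intro y hy
      rcases le_or_gt (u y) 0 with h | h
      · exact Or.inl ⟨Metric.ball_subset_ball (min_le_left _ _) hy, h⟩
      · exact Or.inr ⟨Metric.ball_subset_ball (min_le_right _ _) hy, h⟩
    exact hpos.ne' (measure_mono_null hsub (measure_union_null h1 h2))
  have hloc : ∀ P : Set (EuclideanSpace ℝ (Fin d)),
      Ω ⊆ {x | ∃ ρ > 0, Metric.ball x ρ ⊆ Ω ∧ volume (Metric.ball x ρ ∩ P) = 0} →
      volume (Ω ∩ P) = 0 := by
    intro P h
    apply measure_null_of_locally_null
    intro x hx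
    obtain ⟨ρ, hρ, _, h0⟩ := h hx.1
    refine ⟨(Ω ∩ P) ∩ Metric.ball x ρ, inter_mem_nhdsWithin _ (Metric.ball_mem_nhds x hρ), ?_⟩
    have hsub : (Ω ∩ P) ∩ Metric.ball x ρ ⊆ Metric.ball x ρ ∩ P := fun y hy => ⟨hy.2, hy.1.2⟩
    exact measure_mono_null hsub h0
  rcases hc.isPreconnected.subset_or_subset (hopen _) (hopen _) hdisj hcover with h | h
  · exact hloc _ h
  · exfalso
    have h0 := hloc _ h
    have hle : ∀ᵐ x ∂(volume.restrict Ω), u x ≤ 0 := by
      rw [ae_restrict_iff' hΩ.measurableSet, ae_iff]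
      refine measure_mono_null (fun x hx => ?_) h0
      simp only [not_forall, not_le] at hx
      obtain ⟨h1, h2⟩ := hx
      exact ⟨h1, h2⟩
    have ht := tendsto_integral_mul_of_L2 (fun n => (M.adm n).memLp_u.aestronglyMeasurable)
      M.memLp_u M.memLp_u M.lim_u
    have hneg : ∀ n, ∫ x in Ω, v n x * u x ≤ 0 := by
      intro n
      apply integral_nonpos_of_ae
      filter_upwards [hle] with x hx
      exact mul_nonpos_of_nonneg_of_nonpos (M.nonneg n x) hx
    have h2 := le_of_tendsto' ht hneg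
    have e : ∫ x in Ω, u x * u x = 1 := by rw [← hone]; congr 1; ext x; ring
    rw [e] at h2
    linarith

/-- Existence of the first Robin eigenfunction of a bounded convex domain. -/
theorem exists_firstRobinEigenfunction (hΩ : IsOpen Ω) (hc : Convex ℝ Ω) (hne : Ω.Nonempty)
    (hb : Bornology.IsBounded Ω) (hα : 0 < α) :
    ∃ u : EuclideanSpace ℝ (Fin d) → ℝ, IsFirstRobinEigenfunction Ω α u := by
  obtain ⟨v, u, g, t, hadm, hnn, hum, hu, hg, ht, hulim, hglim, htlim, hone, hE⟩ :=
    exists_minimiser hΩ hc hne hb hα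
  have hS : IsSobolev Ω u g t := ⟨hu, hg, ht, v, fun n => (hadm n).contDiff, hulim, hglim, htlim⟩
  have hmin : ∀ (w : EuclideanSpace ℝ (Fin d) → ℝ)
      (h : EuclideanSpace ℝ (Fin d) → EuclideanSpace ℝ (Fin d))
      (s : EuclideanSpace ℝ (Fin d) → ℝ), IsSobolev Ω w h s → (∫ x in Ω, w x ^ 2) ≠ 0 →
      robinEnergy Ω α g t / (∫ x in Ω, u x ^ 2)
        ≤ robinEnergy Ω α h s / (∫ x in Ω, w x ^ 2) := by
    intro w h s hw hw0
    have hpos : 0 < ∫ x in Ω, w x ^ 2 :=
      lt_of_le_of_ne (integral_nonneg fun x => sq_nonneg _) hw0.symm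
    rw [hone, div_one, hE, le_div_iff₀ hpos]
    exact hw.le_energy fun v hv => lam0_mul_le hα.le hv
  obtain ⟨hL, hel⟩ := euler_lagrange_min hα.le hS (by rw [hone]; exact one_pos) hmin
  have M : MinData Ω α (robinEnergy Ω α g t / (∫ x in Ω, u x ^ 2)) v u g t :=
    ⟨hL, hadm, hnn, hum, hu, hg, hulim, hglim, fun φ hφ =>
      hel φ hφ.contDiff hφ.memLp_u hφ.memLp_g hφ.memLp_t⟩
  have h0 := M.ae_pos hΩ hc hone
  classical
  set w : EuclideanSpace ℝ (Fin d) → ℝ := fun x => if 0 < u x then u x else 1 with hw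
  have hwu : w =ᵐ[volume.restrict Ω] u := by
    rw [Filter.EventuallyEq, ae_restrict_iff' hΩ.measurableSet, ae_iff]
    refine measure_mono_null (fun x hx => ?_) h0
    rw [Set.mem_ofPred_eq, Classical.not_imp] at hx
    obtain ⟨h1, h2⟩ := hx
    refine ⟨h1, ?_⟩
    by_contra h3
    apply h2
    have h3 : 0 < u x := lt_of_not_ge h3
    simp [hw, h3]
  refine ⟨w, fun x _ => ?_, g, t, ?_, ?_⟩
  · simp only [hw]
    split_ifs with h
    · exact h
    · exact one_pos
  · refine ⟨hu.ae_eq hwu.symm, hg, ht, v, fun n => (hadm n).contDiff, ?_, hglim, htlim⟩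
    refine hulim.congr fun n => eLpNorm_congr_ae ?_
    filter_upwards [hwu] with x hx
    rw [hx]
  · have e : ∫ x in Ω, w x ^ 2 = ∫ x in Ω, u x ^ 2 := by
      apply integral_congr_ae
      filter_upwards [hwu] with x hx
      rw [hx]
    rw [e]
    exact hmin

end Pool.Agent.Helper77.Robin
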