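import Pool.Agent.Helper77.Robin.Bounds

set_option autoImplicit false
set_option linter.unusedSectionVars false

open Filter Topology Set
open scoped RealInnerProductSpace

namespace Pool.Agent.Helper77.Robin

variable {n : ℕ} {α lam : ℝ} {u : EuclideanSpace ℝ (Fin (n + 1 + 1)) → ℝ}

/-- a point in the plane through the centre of the cube -/
noncomputable def pt (n : ℕ) (s t : ℝ) : EuclideanSpace ℝ (Fin (n + 1 + 1)) :=
  WithLp.toLp 2 (fun i => if i = 0 then s else if i = 1 then t else 1 / 2)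

theorem pt_zero (s t : ℝ) : pt n s t 0 = s := by simp [pt]
theorem pt_one (s t : ℝ) : pt n s t 1 = t := by simp [pt]
theorem pt_other (s t : ℝ) {i : Fin (n + 1 + 1)} (h0 : i ≠ 0) (h1 : i ≠ 1) :
    pt n s t i = 1 / 2 := by simp [pt, h0, h1]

theorem pt_sub (s t s' t' : ℝ) : pt n s t - pt n s' t' = (s - s') • e0 + (t - t') • e1 := by
  ext i
  by_cases h0 : i = 0
  · subst h0
    simp [pt_zero, e0_zero, e1_zero]
  by_cases h1 : i = 1
  · subst h1
    simp [pt_one, e0_one, e1_one]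
  simp [pt_other s t h0 h1, pt_other s' t' h0 h1, e0_ne h0, e1_ne h1]

theorem norm_pt_sub_le (s t s' t' : ℝ) : ‖pt n s t - pt n s' t'‖ ≤ |s - s'| + |t - t'| := by
  rw [pt_sub]
  refine (norm_add_le _ _).trans ?_
  rw [norm_smul, norm_smul, norm_e0, norm_e1, Real.norm_eq_abs, Real.norm_eq_abs, mul_one, mul_one]

theorem pt_other_mem (s t : ℝ) (i : Fin (n + 1 + 1)) (h0 : i ≠ 0) (h1 : i ≠ 1) :
    0 < pt n s t i ∧ pt n s t i < 1 := by
  rw [pt_other s t h0 h1]; norm_num

theorem pt_mem_Vreg {s t : ℝ} (ht : t < 1 / 4) : pt n s t ∈ Vreg n := by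
  rw [mem_Vreg, pt_one]
  refine ⟨ht, fun i h0 h1 => ?_⟩
  rw [pt_other s t h0 h1]
  norm_num

theorem no_setup (S : Setup n α lam u) : False := by
  have hα := S.hα
  -- supergradients
  have hsg : ∀ x : EuclideanSpace ℝ (Fin (n + 1 + 1)), ∃ p : EuclideanSpace ℝ (Fin (n + 1 + 1)),
      x ∈ dom n → ∀ y ∈ dom n, Real.log (u y) ≤ Real.log (u x) + ⟪p, y - x⟫ := by
    intro x
    by_cases hx : x ∈ dom n
    · obtain ⟨p, hp⟩ := exists_supergradient isOpen_dom S.conc hx
      exact ⟨p, fun _ => hp⟩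
    · exact ⟨0, fun h => absurd h hx⟩
  choose p hp using hsg
  obtain ⟨L, hL, hpL⟩ := exists_supergrad_bound S hp
  obtain ⟨M, hM⟩ := exists_upper S
  obtain ⟨M', hM'⟩ := exists_lower S
  have hlow : ∀ z ∈ Wreg n, Real.exp (-M') ≤ u z := by
    intro z hz
    rw [← Real.exp_log (S.pos z hz.1)]
    apply Real.exp_le_exp.2
    have hv := mem_Vreg.1 hz.2
    refine hM' z hz.1 (by linarith [hv.1]) fun i h0 h1 => ?_
    have := hv.2 i h0 h1
    exact ⟨by linarith [this.1], by linarith [this.2]⟩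
  have hup : ∀ z ∈ Wreg n, u z ≤ Real.exp M := by
    intro z hz
    rw [← Real.exp_log (S.pos z hz.1)]
    exact Real.exp_le_exp.2 (hM z hz.1)
  obtain ⟨K, hK, hLip⟩ := exists_lipschitz S.hlam isOpen_dom S.vw S.pos (continuousOn_u S) hp
    isOpen_Wreg convex_Wreg Wreg_subset (Real.exp_pos _) (Real.exp_pos _) hL hlow hup hpL
  have htrace : ∀ (y ν : EuclideanSpace ℝ (Fin (n + 1 + 1))), ‖ν‖ = 1 →
      (∃ δ, IsFlat (dom n) y ν δ) → y ∈ Vreg n → ∀ z ∈ Wreg n,
      |⟪p z, ν⟫ - α| ≤ K * ‖z - y‖ := by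
    intro y ν hν hf hy z hz
    obtain ⟨δ, hf, hfW⟩ := exists_flat_W hf hy
    exact normal_trace hα.le S.hlam isOpen_dom S.vw S.pos S.conc (continuousOn_u S) hν hf hp
      (Real.exp_pos _) hlow hup hfW hK hLip hz
  -- the main estimate
  have hmain : ∀ k, ak k < 1 / 4 → α ≤ 7 * K * ak k := by
    intro k hk
    set a := ak k with ha
    have hapos : 0 < a := ak_pos k
    have ha2 : a ^ 2 < 1 / 16 := by nlinarith
    set z := pt n (3 * a / 4) (a ^ 2) with hz
    have hzW : z ∈ Wreg n := by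
      refine ⟨?_, pt_mem_Vreg (by linarith)⟩
      rw [mem_dom]
      refine ⟨by rw [hz, pt_zero]; positivity, by rw [hz, pt_one]; linarith, fun j => ?_,
        pt_other_mem _ _⟩
      apply constraint_of_sq
      rw [hz, pt_zero, pt_one]
      nlinarith
    -- left side
    have hA := htrace (pt n 0 (a ^ 2)) e0 norm_e0
      (flat_left (pt_zero _ _) (by rw [pt_one]; positivity) (by rw [pt_one]; linarith)
        (pt_other_mem _ _)) (pt_mem_Vreg (by linarith)) z hzW
    have hA' : ‖z - pt n 0 (a ^ 2)‖ ≤ a := by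
      refine (norm_pt_sub_le _ _ _ _).trans ?_
      rw [sub_self, abs_zero, sub_zero, abs_of_pos (by positivity)]
      linarith
    rw [inner_e0] at hA
    have hA2 := (abs_le.1 (hA.trans (mul_le_mul_of_nonneg_left hA' hK))).1
    -- side k
    have hB := htrace (pt n (3 * a / 4 + a ^ 2 / 8) (2 * a * (3 * a / 4 + a ^ 2 / 8) - a ^ 2))
      (nk n k) (norm_nk k)
      (flat_side (by rw [pt_zero, ← ha]; nlinarith) (by rw [pt_zero, ← ha]; nlinarith)
        (by rw [pt_zero, pt_one, ← ha]) (by rw [pt_one]; nlinarith) (pt_other_mem _ _))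
      (pt_mem_Vreg (by nlinarith)) z hzW
    have hB' : ‖z - pt n (3 * a / 4 + a ^ 2 / 8) (2 * a * (3 * a / 4 + a ^ 2 / 8) - a ^ 2)‖
        ≤ a ^ 2 := by
      refine (norm_pt_sub_le _ _ _ _).trans ?_
      have e1 : |3 * a / 4 - (3 * a / 4 + a ^ 2 / 8)| ≤ a ^ 2 / 4 := by
        rw [abs_le]; constructor <;> nlinarith
      have e2 : |a ^ 2 - (2 * a * (3 * a / 4 + a ^ 2 / 8) - a ^ 2)| ≤ 3 * a ^ 2 / 4 := by
        rw [abs_le]; constructor <;> nlinarith [pow_pos hapos 2, pow_pos hapos 3]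
      linarith
    rw [inner_nk, ← ha] at hB
    have hB2 := (abs_le.1 (hB.trans (mul_le_mul_of_nonneg_left hB' hK))).1
    -- side k + 1
    have hb : ak (k + 1) = a / 2 := ak_succ k
    have hC := htrace (pt n (3 * a / 4 - a ^ 2 / 8)
      (2 * (a / 2) * (3 * a / 4 - a ^ 2 / 8) - (a / 2) ^ 2))
      (nk n (k + 1)) (norm_nk (k + 1))
      (flat_side (by rw [pt_zero, hb]; nlinarith) (by rw [pt_zero, hb]; nlinarith)
        (by rw [pt_zero, pt_one, hb]) (by rw [pt_one]; nlinarith) (pt_other_mem _ _))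
      (pt_mem_Vreg (by nlinarith)) z hzW
    have hC' : ‖z - pt n (3 * a / 4 - a ^ 2 / 8)
        (2 * (a / 2) * (3 * a / 4 - a ^ 2 / 8) - (a / 2) ^ 2)‖ ≤ a ^ 2 := by
      refine (norm_pt_sub_le _ _ _ _).trans ?_
      have e1 : |3 * a / 4 - (3 * a / 4 - a ^ 2 / 8)| ≤ a ^ 2 / 4 := by
        rw [abs_le]; constructor <;> nlinarith
      have e2 : |a ^ 2 - (2 * (a / 2) * (3 * a / 4 - a ^ 2 / 8) - (a / 2) ^ 2)|
          ≤ 3 * a ^ 2 / 4 := by
        rw [abs_le]; constructor <;> nlinarith [pow_pos hapos 2, pow_pos hapos 3]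
      linarith
    rw [inner_nk, hb] at hC
    have hC2 := (abs_le.1 (hC.trans (mul_le_mul_of_nonneg_left hC' hK))).2
    have l0 := ell_pos k
    have l1 := ell_pos (k + 1)
    have l2 := ell_le k
    have l3 := ell_anti k
    have hB3 : ell k * (α - K * a ^ 2) ≤ p z 1 - 2 * a * p z 0 := by
      have h5 : α - K * a ^ 2 ≤ (ell k)⁻¹ * (p z 1 - 2 * a * p z 0) := by linarith
      have h6 := mul_le_mul_of_nonneg_left h5 l0.le
      rwa [mul_inv_cancel_left₀ l0.ne'] at h6
    have hC3 : p z 1 - 2 * (a / 2) * p z 0 ≤ ell (k + 1) * (α + K * a ^ 2) := by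
      have h5 : (ell (k + 1))⁻¹ * (p z 1 - 2 * (a / 2) * p z 0) ≤ α + K * a ^ 2 := by linarith
      have h6 := mul_le_mul_of_nonneg_left h5 l1.le
      rwa [mul_inv_cancel_left₀ l1.ne'] at h6
    have hKa : 0 ≤ K * a ^ 2 := by positivity
    have h7 : ell (k + 1) * (α + K * a ^ 2) - ell k * (α - K * a ^ 2) ≤ 6 * (K * a ^ 2) := by
      nlinarith [mul_le_mul_of_nonneg_right l3 hα.le, mul_le_mul_of_nonneg_right l2 hKa,
        mul_le_mul_of_nonneg_right (l3.trans l2) hKa]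
    have h8 : a * p z 0 ≤ a * (6 * K * a) := by linarith
    have h9 : p z 0 ≤ 6 * K * a := le_of_mul_le_mul_left h8 hapos
    linarith
  obtain ⟨k, hk⟩ := exists_ak_lt (show 0 < min (1 / 4) (α / (7 * K + 1)) by positivity)
  have hk1 := hk.trans_le (min_le_left _ _)
  have hk2 := hk.trans_le (min_le_right _ _)
  rw [lt_div_iff₀ (by positivity)] at hk2
  have h1 := hmain k hk1
  have h2 := ak_pos k
  nlinarith

/-- On the domain `dom n`, no first Robin eigenfunction is log-concave, whatever `α > 0`. -/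
theorem not_logConcave (n : ℕ) {α : ℝ} (hα : 0 < α)
    {u : EuclideanSpace ℝ (Fin (n + 1 + 1)) → ℝ} (hu : IsFirstRobinEigenfunction (dom n) α u) :
    ¬ ConcaveOn ℝ (dom n) (fun x => Real.log (u x)) := by
  intro hc
  obtain ⟨lam, hlam, hvw⟩ := hu.isVeryWeak isOpen_dom dom_nonempty isBounded_dom hα.le
  exact no_setup ⟨hα, hlam, hvw, hu.pos, hc⟩

end Pool.Agent.Helper77.Robin
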