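import Pool.Agent.Helper77.Robin.Domain

set_option autoImplicit false
set_option linter.unusedSectionVars false

open Filter Topology Set
open scoped RealInnerProductSpace

namespace Pool.Agent.Helper77.Robin

variable {n : ℕ}

/-- a neighbourhood of the corner in which everything takes place -/
def Vreg (n : ℕ) : Set (EuclideanSpace ℝ (Fin (n + 1 + 1))) :=
  {x | x 1 < 1 / 4} ∩ ⋂ i : Fin (n + 1 + 1), {x | i ≠ 0 → i ≠ 1 → 1 / 4 < x i ∧ x i < 3 / 4}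

theorem mem_Vreg {x : EuclideanSpace ℝ (Fin (n + 1 + 1))} : x ∈ Vreg n ↔
    x 1 < 1 / 4 ∧ ∀ i, i ≠ 0 → i ≠ 1 → 1 / 4 < x i ∧ x i < 3 / 4 := by
  simp [Vreg]

theorem isOpen_Vreg : IsOpen (Vreg n) :=
  IsOpen.inter (isOpen_lt (by fun_prop) (by fun_prop))
    (isOpen_iInter_of_finite fun i => isOpen_side i _ _)

theorem convex_Vreg : Convex ℝ (Vreg n) := by
  intro x hx y hy a b ha hb hab
  rw [mem_Vreg] at hx hy ⊢
  have e : ∀ i, (a • x + b • y) i = a * x i + b * y i := fun i => by simp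
  simp only [e]
  refine ⟨?_, fun i h0 h1 => ⟨?_, ?_⟩⟩
  · have := comb_lt ha hb hab (show -(1/4) < -x 1 by linarith) (show -(1/4) < -y 1 by linarith)
    linarith
  · exact comb_lt ha hb hab (hx.2 i h0 h1).1 (hy.2 i h0 h1).1
  · have := comb_lt ha hb hab (show -(3/4) < -x i by linarith [(hx.2 i h0 h1).2])
      (show -(3/4) < -y i by linarith [(hy.2 i h0 h1).2])
    linarith

/-- the part of the domain in which everything takes place -/
def Wreg (n : ℕ) : Set (EuclideanSpace ℝ (Fin (n + 1 + 1))) := dom n ∩ Vreg n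

theorem isOpen_Wreg : IsOpen (Wreg n) := isOpen_dom.inter isOpen_Vreg
theorem convex_Wreg : Convex ℝ (Wreg n) := convex_dom.inter convex_Vreg
theorem Wreg_subset : Wreg n ⊆ dom n := inter_subset_left

/-- first basis vector -/
noncomputable def e0 : EuclideanSpace ℝ (Fin (n + 1 + 1)) := EuclideanSpace.single 0 1
/-- second basis vector -/
noncomputable def e1 : EuclideanSpace ℝ (Fin (n + 1 + 1)) := EuclideanSpace.single 1 1
/-- norm of `(-2a_k, 1)` -/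
noncomputable def ell (k : ℕ) : ℝ := √(1 + (2 * ak k) ^ 2)
/-- inner unit normal of the `k`-th side -/
noncomputable def nk (n k : ℕ) : EuclideanSpace ℝ (Fin (n + 1 + 1)) :=
  (ell k)⁻¹ • (e1 - (2 * ak k) • e0)

theorem ell_pos (k : ℕ) : 0 < ell k := by unfold ell; positivity

theorem ell_sq (k : ℕ) : ell k ^ 2 = 1 + (2 * ak k) ^ 2 := by
  unfold ell
  exact Real.sq_sqrt (by positivity)

theorem ell_le (k : ℕ) : ell k ≤ 3 := by
  have h1 := ell_sq k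
  have h2 := ak_le_one k
  have h3 := ak_pos k
  nlinarith [ell_pos k]

theorem ell_anti (k : ℕ) : ell (k + 1) ≤ ell k := by
  unfold ell
  apply Real.sqrt_le_sqrt
  rw [ak_succ]
  have := ak_pos k
  nlinarith

theorem inner_e0 (z : EuclideanSpace ℝ (Fin (n + 1 + 1))) : ⟪z, e0⟫ = z 0 := by
  rw [e0, EuclideanSpace.inner_single_right]
  simp

theorem inner_e1 (z : EuclideanSpace ℝ (Fin (n + 1 + 1))) : ⟪z, e1⟫ = z 1 := by
  rw [e1, EuclideanSpace.inner_single_right]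
  simp

theorem norm_e0 : ‖(e0 : EuclideanSpace ℝ (Fin (n + 1 + 1)))‖ = 1 := by
  simp [e0]

theorem norm_e1 : ‖(e1 : EuclideanSpace ℝ (Fin (n + 1 + 1)))‖ = 1 := by
  simp [e1]

theorem e0_zero : (e0 : EuclideanSpace ℝ (Fin (n + 1 + 1))) 0 = 1 := by simp [e0]
theorem e0_one : (e0 : EuclideanSpace ℝ (Fin (n + 1 + 1))) 1 = 0 := by simp [e0]
theorem e0_ne {i : Fin (n + 1 + 1)} (h : i ≠ 0) :
    (e0 : EuclideanSpace ℝ (Fin (n + 1 + 1))) i = 0 := by
  simp [e0, h]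
theorem e1_one : (e1 : EuclideanSpace ℝ (Fin (n + 1 + 1))) 1 = 1 := by simp [e1]
theorem e1_ne {i : Fin (n + 1 + 1)} (h : i ≠ 1) :
    (e1 : EuclideanSpace ℝ (Fin (n + 1 + 1))) i = 0 := by
  simp [e1, h]
theorem e1_zero : (e1 : EuclideanSpace ℝ (Fin (n + 1 + 1))) 0 = 0 := e1_ne (by simp)

theorem inner_nk (k : ℕ) (z : EuclideanSpace ℝ (Fin (n + 1 + 1))) :
    ⟪z, nk n k⟫ = (ell k)⁻¹ * (z 1 - 2 * ak k * z 0) := by
  rw [nk, inner_smul_right, inner_sub_right, inner_smul_right, inner_e0, inner_e1]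

theorem norm_nk (k : ℕ) : ‖nk n k‖ = 1 := by
  have h1 : ‖nk n k‖ ^ 2 = 1 := by
    rw [← real_inner_self_eq_norm_sq, inner_nk]
    simp only [nk, PiLp.smul_apply, PiLp.sub_apply, e1_one, e0_one, e1_zero, e0_zero, smul_eq_mul]
    have h := ell_sq k
    have h' := (ell_pos k).ne'
    field_simp
    linarith
  have h2 : 0 ≤ ‖nk n k‖ := norm_nonneg _
  nlinarith

theorem IsFlat.mono {E : Type*} [NormedAddCommGroup E] [InnerProductSpace ℝ E]
    {Ω : Set E} {y ν : E} {δ δ' : ℝ} (hf : IsFlat Ω y ν δ) (h : 0 < δ') (h' : δ' ≤ δ) :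
    IsFlat Ω y ν δ' := ⟨h, fun z hz => hf.mem_iff z (hz.trans_le h')⟩

theorem exists_isFlat {E : Type*} [NormedAddCommGroup E] [InnerProductSpace ℝ E]
    {Ω U : Set E} {y ν : E} (hU : IsOpen U) (hy : y ∈ U)
    (h : ∀ z ∈ U, (z ∈ Ω ↔ 0 < ⟪z - y, ν⟫)) : ∃ δ, IsFlat Ω y ν δ := by
  obtain ⟨δ, hδ, hsub⟩ := Metric.isOpen_iff.1 hU y hy
  exact ⟨δ, hδ, fun z hz => h z (hsub hz)⟩

theorem flat_left {y : EuclideanSpace ℝ (Fin (n + 1 + 1))} (h0 : y 0 = 0) (h1 : 0 < y 1)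
    (h1' : y 1 < 1) (hi : ∀ i, i ≠ 0 → i ≠ 1 → 0 < y i ∧ y i < 1) :
    ∃ δ, IsFlat (dom n) y e0 δ := by
  apply exists_isFlat (U := {z | z 0 ^ 2 < z 1} ∩ {z | z 1 < 1} ∩
    ⋂ i : Fin (n + 1 + 1), {x | i ≠ 0 → i ≠ 1 → 0 < x i ∧ x i < 1})
  · refine IsOpen.inter (IsOpen.inter ?_ ?_) (isOpen_iInter_of_finite fun i => isOpen_side i _ _)
    · exact isOpen_lt (by fun_prop) (by fun_prop)
    · exact isOpen_lt (by fun_prop) (by fun_prop)
  · refine ⟨⟨?_, h1'⟩, ?_⟩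
    · show y 0 ^ 2 < y 1
      rw [h0]; simpa using h1
    · simp only [mem_iInter]
      exact hi
  · rintro z ⟨⟨hz1, hz2⟩, hz3⟩
    simp only [mem_iInter] at hz3
    rw [inner_e0, mem_dom]
    have hz1 : z 0 ^ 2 < z 1 := hz1
    have hz2 : z 1 < 1 := hz2
    have e : (z - y) 0 = z 0 := by simp [h0]
    rw [e]
    constructor
    · exact fun h => h.1
    · exact fun h => ⟨h, hz2, fun k => constraint_of_sq hz1 k, hz3⟩

theorem flat_side {k : ℕ} {y : EuclideanSpace ℝ (Fin (n + 1 + 1))} (h0 : 3 * ak k / 4 < y 0)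
    (h0' : y 0 < 3 * ak k / 2) (h1 : y 1 = 2 * ak k * y 0 - ak k ^ 2) (h1' : y 1 < 1)
    (hi : ∀ i, i ≠ 0 → i ≠ 1 → 0 < y i ∧ y i < 1) :
    ∃ δ, IsFlat (dom n) y (nk n k) δ := by
  apply exists_isFlat (U := {z | 3 * ak k / 4 < z 0} ∩ {z | z 0 < 3 * ak k / 2} ∩ {z | z 1 < 1} ∩
    ⋂ i : Fin (n + 1 + 1), {x | i ≠ 0 → i ≠ 1 → 0 < x i ∧ x i < 1})
  · refine IsOpen.inter (IsOpen.inter (IsOpen.inter ?_ ?_) ?_)
      (isOpen_iInter_of_finite fun i => isOpen_side i _ _)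
    · exact isOpen_lt (by fun_prop) (by fun_prop)
    · exact isOpen_lt (by fun_prop) (by fun_prop)
    · exact isOpen_lt (by fun_prop) (by fun_prop)
  · refine ⟨⟨⟨h0, h0'⟩, h1'⟩, ?_⟩
    simp only [mem_iInter]
    exact hi
  · rintro z ⟨⟨⟨hz0, hz0'⟩, hz2⟩, hz3⟩
    simp only [mem_iInter] at hz3
    rw [inner_nk, mem_dom]
    have hz0 : 3 * ak k / 4 < z 0 := hz0
    have hz0' : z 0 < 3 * ak k / 2 := hz0'
    have hz2 : z 1 < 1 := hz2
    have hl : 0 < (ell k)⁻¹ := inv_pos.2 (ell_pos k)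
    have e : (z - y) 1 - 2 * ak k * (z - y) 0 = z 1 - (2 * ak k * z 0 - ak k ^ 2) := by
      simp only [PiLp.sub_apply, h1]
      ring
    rw [e, mul_pos_iff_of_pos_left hl]
    have hk := ak_pos k
    constructor
    · intro h
      linarith [h.2.2.1 k]
    · intro h
      exact ⟨by linarith, hz2, constraint_of_strip hz0.le hz0'.le (by linarith), hz3⟩

theorem exists_flat_W {y ν : EuclideanSpace ℝ (Fin (n + 1 + 1))}
    (hf : ∃ δ, IsFlat (dom n) y ν δ) (hy : y ∈ Vreg n) :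
    ∃ δ, IsFlat (dom n) y ν δ ∧ ∀ z ∈ dom n, dist z y < δ → z ∈ Wreg n := by
  obtain ⟨δ, hf⟩ := hf
  obtain ⟨δ₁, hδ₁, hsub⟩ := Metric.isOpen_iff.1 isOpen_Vreg y hy
  refine ⟨min δ δ₁, hf.mono (lt_min hf.pos hδ₁) (min_le_left _ _), fun z hz hd => ⟨hz, ?_⟩⟩
  exact hsub (hd.trans_le (min_le_right _ _))

end Pool.Agent.Helper77.Robin
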