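import Pool.Agent.Helper77.Robin.GreenInt

set_option autoImplicit false
set_option linter.unusedSectionVars false

open MeasureTheory Filter Topology Set
open scoped RealInnerProductSpace

namespace Pool.Agent.Helper77.Robin

variable {E F : Type*}
  [NormedAddCommGroup E] [InnerProductSpace ℝ E] [FiniteDimensional ℝ E]
  [MeasurableSpace E] [BorelSpace E]
  [NormedAddCommGroup F] [InnerProductSpace ℝ F] [FiniteDimensional ℝ F]
  [MeasurableSpace F] [BorelSpace F]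

/-- Orthonormal coordinates `(s, τ) ↦ y₀ + Θ (s, τ)`. -/
noncomputable def J (Θ : WithLp 2 (ℝ × F) ≃ₗᵢ[ℝ] E) (y₀ : E) (p : ℝ × F) : E := y₀ + Θ (WithLp.toLp 2 p)

/-- The distinguished unit vector of a frame. -/
noncomputable def nrm (Θ : WithLp 2 (ℝ × F) ≃ₗᵢ[ℝ] E) : E := Θ (WithLp.toLp 2 (1, 0))

/-- The tangential embedding of a frame. -/
noncomputable def tng (Θ : WithLp 2 (ℝ × F) ≃ₗᵢ[ℝ] E) (η : F) : E := Θ (WithLp.toLp 2 (0, η))

section
omit [FiniteDimensional ℝ E] [MeasurableSpace E] [BorelSpace E] [FiniteDimensional ℝ F]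
  [MeasurableSpace F] [BorelSpace F]

variable (Θ : WithLp 2 (ℝ × F) ≃ₗᵢ[ℝ] E) (y₀ : E)

theorem J_sub (p q : ℝ × F) : J Θ y₀ p - J Θ y₀ q = Θ (WithLp.toLp 2 (p - q)) := by
  simp only [J, WithLp.toLp_sub, map_sub]
  abel

theorem J_apply (s : ℝ) (τ : F) : J Θ y₀ (s, τ) = y₀ + (s • nrm Θ + tng Θ τ) := by
  simp only [J, nrm, tng, ← map_smul, ← map_add, ← WithLp.toLp_smul, ← WithLp.toLp_add]
  simp

theorem J_add_nrm (s h : ℝ) (τ : F) : J Θ y₀ (s + h, τ) = J Θ y₀ (s, τ) + h • nrm Θ := by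
  rw [J_apply, J_apply, add_smul]
  abel

theorem tng_add (η η' : F) : tng Θ (η + η') = tng Θ η + tng Θ η' := by
  simp only [tng, ← map_add, ← WithLp.toLp_add]
  simp

theorem tng_smul (c : ℝ) (η : F) : tng Θ (c • η) = c • tng Θ η := by
  simp only [tng, ← map_smul, ← WithLp.toLp_smul]
  simp

theorem J_add_tng (s : ℝ) (τ η : F) : J Θ y₀ (s, τ + η) = J Θ y₀ (s, τ) + tng Θ η := by
  rw [J_apply, J_apply, tng_add]
  abel

theorem norm_toLp_sq (p : ℝ × F) : ‖(WithLp.toLp 2 p : WithLp 2 (ℝ × F))‖ ^ 2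
    = p.1 ^ 2 + ‖p.2‖ ^ 2 := by
  rw [WithLp.prod_norm_sq_eq_of_L2]
  simp

theorem norm_J_sub_sq (p : ℝ × F) : ‖J Θ y₀ p - y₀‖ ^ 2 = p.1 ^ 2 + ‖p.2‖ ^ 2 := by
  rw [J, add_sub_cancel_left, LinearIsometryEquiv.norm_map, norm_toLp_sq]

theorem norm_nrm : ‖nrm Θ‖ = 1 := by
  have : ‖nrm Θ‖ ^ 2 = 1 := by
    rw [nrm, LinearIsometryEquiv.norm_map, norm_toLp_sq]; simp
  nlinarith [norm_nonneg (nrm Θ)]

theorem norm_tng (η : F) : ‖tng Θ η‖ = ‖η‖ := by
  have : ‖tng Θ η‖ ^ 2 = ‖η‖ ^ 2 := by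
    rw [tng, LinearIsometryEquiv.norm_map, norm_toLp_sq]; simp
  have h := abs_eq_abs.mpr (sq_eq_sq_iff_eq_or_eq_neg.mp this)
  rwa [abs_of_nonneg (norm_nonneg _), abs_of_nonneg (norm_nonneg _)] at h

theorem inner_J_sub_nrm (p : ℝ × F) : ⟪J Θ y₀ p - y₀, nrm Θ⟫ = p.1 := by
  rw [J, add_sub_cancel_left, nrm, LinearIsometryEquiv.inner_map_map, WithLp.prod_inner_apply]
  simp

theorem inner_tng_nrm (η : F) : ⟪tng Θ η, nrm Θ⟫ = 0 := by
  rw [tng, nrm, LinearIsometryEquiv.inner_map_map, WithLp.prod_inner_apply]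
  simp

/-- the inverse coordinates -/
noncomputable def Jinv (x : E) : ℝ × F := (Θ.symm (x - y₀)).ofLp

theorem J_Jinv (x : E) : J Θ y₀ (Jinv Θ y₀ x) = x := by
  simp [J, Jinv]

theorem Jinv_J (p : ℝ × F) : Jinv Θ y₀ (J Θ y₀ p) = p := by
  simp [J, Jinv]

theorem Jinv_fst (x : E) : (Jinv Θ y₀ x).1 = ⟪x - y₀, nrm Θ⟫ := by
  conv_rhs => rw [← J_Jinv Θ y₀ x]
  rw [inner_J_sub_nrm]

theorem continuous_J : Continuous (J Θ y₀) := by
  unfold J
  exact continuous_const.add (Θ.continuous.comp (WithLp.prod_continuous_toLp 2 ℝ F))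

theorem continuous_Jinv : Continuous (Jinv Θ y₀) := by
  unfold Jinv
  exact (WithLp.prod_continuous_ofLp 2 ℝ F).comp
    (Θ.symm.continuous.comp (continuous_id.sub continuous_const))

/-- the homeomorphism given by a frame -/
noncomputable def Jhomeo : ℝ × F ≃ₜ E where
  toFun := J Θ y₀
  invFun := Jinv Θ y₀
  left_inv := Jinv_J Θ y₀
  right_inv := J_Jinv Θ y₀
  continuous_toFun := continuous_J Θ y₀
  continuous_invFun := continuous_Jinv Θ y₀

end

variable (Θ : WithLp 2 (ℝ × F) ≃ₗᵢ[ℝ] E) (y₀ : E)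

theorem measurePreserving_J : MeasurePreserving (J Θ y₀) volume volume := by
  have h1 := WithLp.volume_preserving_toLp ℝ F
  have h2 := Θ.measurePreserving
  have h3 := measurePreserving_add_left (volume : Measure E) y₀
  exact h3.comp (h2.comp h1)

omit [FiniteDimensional ℝ E] [FiniteDimensional ℝ F] in
theorem measurableEmbedding_J [SecondCountableTopology F] : MeasurableEmbedding (J Θ y₀) :=
  (Jhomeo Θ y₀).measurableEmbedding

theorem integral_comp_J {G : Type*} [NormedAddCommGroup G] [NormedSpace ℝ G] (w : E → G) :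
    ∫ p : ℝ × F, w (J Θ y₀ p) = ∫ x, w x := by
  have : SecondCountableTopology F := secondCountable_of_proper
  exact (measurePreserving_J Θ y₀).integral_comp (measurableEmbedding_J Θ y₀) w

/-- integral over the half space -/
theorem setIntegral_halfspace {G : Type*} [NormedAddCommGroup G] [NormedSpace ℝ G] (w : E → G) :
    ∫ x in {x | 0 < ⟪x - y₀, nrm Θ⟫}, w x
      = ∫ p in (Ioi (0:ℝ)) ×ˢ (univ : Set F), w (J Θ y₀ p) := by
  have : SecondCountableTopology F := secondCountable_of_proper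
  rw [← (measurePreserving_J Θ y₀).setIntegral_preimage_emb (measurableEmbedding_J Θ y₀)]
  congr 2
  ext p
  simp [inner_J_sub_nrm]

end Pool.Agent.Helper77.Robin
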