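import Pool.Agent.Helper77.Robin.Half

set_option autoImplicit false
set_option linter.unusedSectionVars false

open MeasureTheory Filter Topology Set
open scoped RealInnerProductSpace

namespace Pool.Agent.Helper77.Robin

/-- Near `y₀` the set `Ω` is the half space with inner normal `n`. -/
structure IsFlat {E : Type*} [NormedAddCommGroup E] [InnerProductSpace ℝ E]
    (Ω : Set E) (y₀ n : E) (δ : ℝ) : Prop where
  pos : 0 < δ
  mem_iff : ∀ z, dist z y₀ < δ → (z ∈ Ω ↔ 0 < ⟪z - y₀, n⟫)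

variable {m : ℕ}

theorem exists_frame (m : ℕ) (n : EuclideanSpace ℝ (Fin (m + 1))) (hn : ‖n‖ = 1) :
    ∃ Θ : WithLp 2 (ℝ × EuclideanSpace ℝ (Fin m)) ≃ₗᵢ[ℝ] EuclideanSpace ℝ (Fin (m + 1)),
      nrm Θ = n := by
  let B₀ := (OrthonormalBasis.singleton Unit ℝ).prod (EuclideanSpace.basisFun (Fin m) ℝ)
  have e : Unit ⊕ Fin m ≃ Fin (m + 1) := Fintype.equivOfCardEq (by simp [add_comm])
  let Θ₀ := B₀.equiv (EuclideanSpace.basisFun (Fin (m + 1)) ℝ) e
  have h : ‖nrm Θ₀‖ = ‖n‖ := by rw [norm_nrm, hn]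
  refine ⟨Θ₀.trans ((ℝ ∙ (nrm Θ₀ - n))ᗮ.reflection), ?_⟩
  have := Submodule.reflection_sub h
  simpa [nrm] using this

/-- the orthonormal basis attached to a frame -/
noncomputable def frameBasis
    (Θ : WithLp 2 (ℝ × EuclideanSpace ℝ (Fin m)) ≃ₗᵢ[ℝ] EuclideanSpace ℝ (Fin (m + 1))) :
    OrthonormalBasis (Unit ⊕ Fin m) ℝ (EuclideanSpace ℝ (Fin (m + 1))) :=
  ((OrthonormalBasis.singleton Unit ℝ).prod (EuclideanSpace.basisFun (Fin m) ℝ)).map Θ

variable (Θ : WithLp 2 (ℝ × EuclideanSpace ℝ (Fin m)) ≃ₗᵢ[ℝ] EuclideanSpace ℝ (Fin (m + 1)))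
  (y₀ : EuclideanSpace ℝ (Fin (m + 1)))

theorem frameBasis_inl (i : Unit) : frameBasis Θ (Sum.inl i) = nrm Θ := by
  simp [frameBasis, nrm]

theorem frameBasis_inr (i : Fin m) :
    frameBasis Θ (Sum.inr i) = tng Θ (EuclideanSpace.basisFun (Fin m) ℝ i) := by
  simp [frameBasis, tng]

variable {Ω : Set (EuclideanSpace ℝ (Fin (m + 1)))} {y₀} {Θ} {δ : ℝ}

theorem IsFlat.frontier_iff (hf : IsFlat Ω y₀ (nrm Θ) δ) {z : EuclideanSpace ℝ (Fin (m + 1))}
    (hz : dist z y₀ < δ) : z ∈ frontier Ω ↔ ⟪z - y₀, nrm Θ⟫ = 0 := by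
  set H : Set (EuclideanSpace ℝ (Fin (m + 1))) := {z | 0 < ⟪z - y₀, nrm Θ⟫} with hH
  have hcont : Continuous (fun z : EuclideanSpace ℝ (Fin (m + 1)) => ⟪z - y₀, nrm Θ⟫) := by
    fun_prop
  have hHo : IsOpen H := isOpen_lt continuous_const hcont
  have e1 : Ω ∩ Metric.ball y₀ δ = H ∩ Metric.ball y₀ δ := by
    ext x
    simp only [mem_inter_iff, Metric.mem_ball, and_congr_left_iff]
    intro hx
    exact hf.mem_iff x hx
  have e2 : frontier Ω ∩ Metric.ball y₀ δ = frontier H ∩ Metric.ball y₀ δ := by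
    rw [← frontier_inter_open_inter Metric.isOpen_ball, e1,
      frontier_inter_open_inter Metric.isOpen_ball]
  have h1 : z ∈ frontier Ω ↔ z ∈ frontier H := by
    have : z ∈ frontier Ω ∩ Metric.ball y₀ δ ↔ z ∈ frontier H ∩ Metric.ball y₀ δ := by rw [e2]
    simpa [hz] using this
  rw [h1]
  constructor
  · intro h
    have := frontier_lt_subset_eq continuous_const hcont h
    exact this.symm
  · intro h
    rw [hHo.frontier_eq]
    refine ⟨?_, fun hz' => ?_⟩
    · rw [mem_closure_iff_seq_limit]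
      refine ⟨fun k => z + (1 / ((k : ℝ) + 1)) • nrm Θ, fun k => ?_, ?_⟩
      · have hn := norm_nrm Θ
        have : ⟪z + (1 / ((k : ℝ) + 1)) • nrm Θ - y₀, nrm Θ⟫ = 1 / ((k : ℝ) + 1) := by
          rw [add_sub_right_comm, inner_add_left, h, inner_smul_left,
            real_inner_self_eq_norm_sq, hn]
          simp
        rw [hH, mem_ofPred_eq, this]
        positivity
      · have h0 : Tendsto (fun k : ℕ => (1 / ((k : ℝ) + 1))) atTop (𝓝 0) :=
          tendsto_one_div_add_atTop_nhds_zero_nat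
        have := (h0.smul_const (nrm Θ)).const_add z
        simpa using this
    · rw [hH, mem_ofPred_eq, h] at hz'
      exact lt_irrefl _ hz'

theorem surfaceMeasure_eq : surfaceMeasure Ω
    = (Measure.euclideanHausdorffMeasure m).restrict (frontier Ω) := rfl

theorem range_J_zero : range (fun τ : EuclideanSpace ℝ (Fin m) => J Θ y₀ (0, τ))
    = {z | ⟪z - y₀, nrm Θ⟫ = 0} := by
  ext z
  constructor
  · rintro ⟨τ, rfl⟩
    exact inner_J_sub_nrm Θ y₀ (0, τ)
  · intro hz
    refine ⟨(Jinv Θ y₀ z).2, ?_⟩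
    have h1 : (Jinv Θ y₀ z).1 = 0 := by rw [Jinv_fst]; exact hz
    conv_rhs => rw [← J_Jinv Θ y₀ z]
    simp only
    congr 1
    rw [← h1]

theorem measurableEmbedding_J_zero :
    MeasurableEmbedding (fun τ : EuclideanSpace ℝ (Fin m) => J Θ y₀ (0, τ)) :=
  (isometry_J_right Θ y₀ 0).isClosedEmbedding.measurableEmbedding

theorem IsFlat.surfaceMeasure_restrict (hf : IsFlat Ω y₀ (nrm Θ) δ) :
    (surfaceMeasure Ω).restrict (Metric.ball y₀ δ)
      = ((volume : Measure (EuclideanSpace ℝ (Fin m))).map (fun τ => J Θ y₀ (0, τ))).restrict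
          (Metric.ball y₀ δ) := by
  rw [surfaceMeasure_eq, ← EuclideanSpace.euclideanHausdorffMeasure_eq_volume m,
    (isometry_J_right Θ y₀ 0).map_euclideanHausdorffMeasure, range_J_zero,
    Measure.restrict_restrict Metric.isOpen_ball.measurableSet,
    Measure.restrict_restrict Metric.isOpen_ball.measurableSet]
  congr 1
  ext z
  simp only [mem_inter_iff, Metric.mem_ball, mem_ofPred_eq, and_congr_right_iff]
  intro hz
  exact hf.frontier_iff hz

theorem IsFlat.integral_surface (hf : IsFlat Ω y₀ (nrm Θ) δ)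
    {w : EuclideanSpace ℝ (Fin (m + 1)) → ℝ} (hw : ∀ z, δ ≤ dist z y₀ → w z = 0) :
    ∫ x, w x ∂(surfaceMeasure Ω) = ∫ τ : EuclideanSpace ℝ (Fin m), w (J Θ y₀ (0, τ)) := by
  have h1 : ∀ μ : Measure (EuclideanSpace ℝ (Fin (m + 1))),
      ∫ x, w x ∂μ = ∫ x in Metric.ball y₀ δ, w x ∂μ := by
    intro μ
    symm
    refine setIntegral_eq_integral_of_forall_compl_eq_zero fun x hx => hw x ?_
    simpa using hx
  rw [h1, hf.surfaceMeasure_restrict, ← h1, measurableEmbedding_J_zero.integral_map]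

theorem IsFlat.memLp_surface (hf : IsFlat Ω y₀ (nrm Θ) δ)
    {w : EuclideanSpace ℝ (Fin (m + 1)) → ℝ} (hwc : Continuous w) (hwcs : HasCompactSupport w)
    (hw : ∀ z, δ ≤ dist z y₀ → w z = 0) : MemLp w 2 (surfaceMeasure Ω) := by
  have h1 : w = (Metric.ball y₀ δ).indicator w := by
    ext x
    by_cases hx : x ∈ Metric.ball y₀ δ
    · rw [indicator_of_mem hx]
    · rw [indicator_of_notMem hx]
      apply hw
      simpa using hx
  rw [h1, memLp_indicator_iff_restrict Metric.isOpen_ball.measurableSet,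
    hf.surfaceMeasure_restrict]
  have h2 : MemLp (fun τ => w (J Θ y₀ (0, τ))) 2
      (volume : Measure (EuclideanSpace ℝ (Fin m))) := by
    apply Continuous.memLp_of_hasCompactSupport
    · exact hwc.comp (isometry_J_right Θ y₀ 0).continuous
    · exact hwcs.comp_isClosedEmbedding (isometry_J_right Θ y₀ 0).isClosedEmbedding
  have h3 : MemLp w 2
      ((volume : Measure (EuclideanSpace ℝ (Fin m))).map (fun τ => J Θ y₀ (0, τ))) := by
    rw [memLp_map_measure_iff hwc.aestronglyMeasurable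
      (isometry_J_right Θ y₀ 0).continuous.aemeasurable]
    exact h2
  exact h3.restrict _

/-- integrals over `Ω` of functions supported in the ball are integrals over the half space -/
theorem IsFlat.integral_domain (hf : IsFlat Ω y₀ (nrm Θ) δ)
    {w : EuclideanSpace ℝ (Fin (m + 1)) → ℝ} (hw : ∀ z, δ ≤ dist z y₀ → w z = 0)
    (hΩ : MeasurableSet Ω) :
    ∫ x in Ω, w x = ∫ x in {x | 0 < ⟪x - y₀, nrm Θ⟫}, w x := by
  have hHo : IsOpen {z : EuclideanSpace ℝ (Fin (m + 1)) | 0 < ⟪z - y₀, nrm Θ⟫} :=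
    isOpen_lt continuous_const (by fun_prop)
  have h1 : ∫ x in Ω, w x = ∫ x in Ω ∩ Metric.ball y₀ δ, w x := by
    refine setIntegral_eq_of_subset_of_forall_sdiff_eq_zero hΩ inter_subset_left ?_
    intro x hx
    apply hw
    by_contra h
    exact hx.2 ⟨hx.1, by simpa using h⟩
  have h2 : ∫ x in {x | 0 < ⟪x - y₀, nrm Θ⟫}, w x
      = ∫ x in {x | 0 < ⟪x - y₀, nrm Θ⟫} ∩ Metric.ball y₀ δ, w x := by
    refine setIntegral_eq_of_subset_of_forall_sdiff_eq_zero hHo.measurableSet
      inter_subset_left ?_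
    intro x hx
    apply hw
    by_contra h
    exact hx.2 ⟨hx.1, by simpa using h⟩
  rw [h1, h2]
  congr 2
  ext x
  simp only [mem_inter_iff, Metric.mem_ball, and_congr_left_iff]
  intro hx
  exact hf.mem_iff x hx

theorem IsFlat.green (hf : IsFlat Ω y₀ (nrm Θ) δ) (hΩ : MeasurableSet Ω) {α : ℝ}
    {v φ : EuclideanSpace ℝ (Fin (m + 1)) → ℝ}
    (hv : ContDiff ℝ 1 v) (hφ : ContDiff ℝ 2 φ) (hc : HasCompactSupport φ)
    (hs : tsupport φ ⊆ Metric.ball y₀ δ)
    (hR : ∀ x, ⟪x - y₀, nrm Θ⟫ = 0 → fderiv ℝ φ x (nrm Θ) = α * φ x) :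
    (∫ x in Ω, ⟪gradient v x, gradient φ x⟫) + α * ∫ x, v x * φ x ∂(surfaceMeasure Ω)
      = - ∫ x in Ω, v x * lapl (frameBasis Θ) φ x := by
  have hnot : ∀ z, δ ≤ dist z y₀ → z ∉ tsupport φ := by
    intro z hz h
    have := hs h
    rw [Metric.mem_ball] at this
    linarith
  have hg0 : ∀ z, z ∉ tsupport φ → gradient φ z = 0 := by
    intro x hx
    apply ext_inner_right ℝ
    intro w
    rw [inner_gradient_left, fderiv_apply_eq_zero_of_notMem_tsupport hx]
    simp
  have e1 := hf.integral_domain (w := fun x => ⟪gradient v x, gradient φ x⟫)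
    (fun z hz => by simp [hg0 z (hnot z hz)]) hΩ
  have e2 := hf.integral_domain (w := fun x => v x * lapl (frameBasis Θ) φ x)
    (fun z hz => by simp [lapl_eq_zero_of_notMem_tsupport _ (hnot z hz)]) hΩ
  have e3 := hf.integral_surface (w := fun x => v x * φ x)
    (fun z hz => by simp [image_eq_zero_of_notMem_tsupport (hnot z hz)])
  rw [e1, e2, e3]
  -- the functions `v * ∂_i φ`
  have hw : ∀ i, ContDiff ℝ 1 (fun x => v x * fderiv ℝ φ x (frameBasis Θ i)) := fun i =>
    hv.mul (contDiff_fderiv_apply hφ _)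
  have hwc : ∀ i, HasCompactSupport (fun x => v x * fderiv ℝ φ x (frameBasis Θ i)) := fun i =>
    (hc.mono' ((subset_tsupport _).trans (tsupport_fderiv_apply_subset' _))).mul_left
  have hpt : ∀ x, ⟪gradient v x, gradient φ x⟫ + v x * lapl (frameBasis Θ) φ x
      = ∑ i, fderiv ℝ (fun x => v x * fderiv ℝ φ x (frameBasis Θ i)) x (frameBasis Θ i) := by
    intro x
    rw [inner_gradient_gradient (frameBasis Θ), lapl, Finset.mul_sum, ← Finset.sum_add_distrib]
    refine Finset.sum_congr rfl fun i _ => ?_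
    rw [fderiv_fun_mul (hv.differentiable (by norm_num) x)
      ((contDiff_fderiv_apply hφ _).differentiable (by norm_num) x)]
    simp
    ring
  have hHo : IsOpen {z : EuclideanSpace ℝ (Fin (m + 1)) | 0 < ⟪z - y₀, nrm Θ⟫} :=
    isOpen_lt continuous_const (by fun_prop)
  have ig : Integrable (fun x => ⟪gradient v x, gradient φ x⟫) := by
    have hcv : Continuous (gradient v) :=
      (InnerProductSpace.toDual ℝ _).symm.continuous.comp (hv.continuous_fderiv (by norm_num))
    have hcφ : Continuous (gradient φ) :=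
      (InnerProductSpace.toDual ℝ _).symm.continuous.comp (hφ.continuous_fderiv (by norm_num))
    refine (hcv.inner hcφ).integrable_of_hasCompactSupport ?_
    refine hc.mono' fun x hx => ?_
    by_contra h
    exact hx (by simp [hg0 x h])
  have il : Integrable (fun x => v x * lapl (frameBasis Θ) φ x) := by
    refine (hv.continuous.mul (continuous_lapl _ hφ)).integrable_of_hasCompactSupport ?_
    refine hc.mono' fun x hx => ?_
    by_contra h
    exact hx (by simp [lapl_eq_zero_of_notMem_tsupport _ h])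
  have hsum : (∫ x in {x | 0 < ⟪x - y₀, nrm Θ⟫}, ⟪gradient v x, gradient φ x⟫)
      + ∫ x in {x | 0 < ⟪x - y₀, nrm Θ⟫}, v x * lapl (frameBasis Θ) φ x
      = - (α * ∫ τ : EuclideanSpace ℝ (Fin m), v (J Θ y₀ (0, τ)) * φ (J Θ y₀ (0, τ))) := by
    rw [← integral_add ig.integrableOn il.integrableOn]
    simp_rw [hpt]
    rw [integral_finsetSum _ fun i _ => ?_]
    · rw [Fintype.sum_sum_type]
      simp only [Finset.univ_unique, Finset.sum_singleton]
      have hz : ∀ i : Fin m, ∫ x in {x | 0 < ⟪x - y₀, nrm Θ⟫},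
          fderiv ℝ (fun x => v x * fderiv ℝ φ x (frameBasis Θ (Sum.inr i))) x
            (frameBasis Θ (Sum.inr i)) = 0 := by
        intro i
        have h1 := half_tangential Θ y₀ (hw (Sum.inr i)) (hwc (Sum.inr i))
          (EuclideanSpace.basisFun (Fin m) ℝ i)
        rw [← frameBasis_inr] at h1
        exact h1
      rw [Finset.sum_eq_zero fun i _ => hz i, add_zero]
      have h2 := half_normal Θ y₀ (hw (Sum.inl ())) (hwc (Sum.inl ()))
      rw [frameBasis_inl] at h2
      have h3 : (default : Unit) = () := rfl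
      rw [h3, frameBasis_inl, h2, ← integral_const_mul]
      congr 1
      refine integral_congr_ae (Eventually.of_forall fun τ => ?_)
      simp only
      rw [hR _ (inner_J_sub_nrm Θ y₀ (0, τ))]
      ring
    · have h1 : Continuous (fun x =>
          fderiv ℝ (fun x => v x * fderiv ℝ φ x (frameBasis Θ i)) x (frameBasis Θ i)) :=
        ((hw i).continuous_fderiv (by norm_num)).clm_apply continuous_const
      refine (h1.integrable_of_hasCompactSupport ?_).integrableOn
      exact (hwc i).mono' ((subset_tsupport _).trans (tsupport_fderiv_apply_subset' _))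
  linarith

/-- A first Robin eigenfunction, in very weak form, near a flat boundary point. -/
theorem very_weak_flat {α lam : ℝ} (hΩ : IsOpen Ω)
    {u : EuclideanSpace ℝ (Fin (m + 1)) → ℝ}
    {g : EuclideanSpace ℝ (Fin (m + 1)) → EuclideanSpace ℝ (Fin (m + 1))}
    {t : EuclideanSpace ℝ (Fin (m + 1)) → ℝ} (hS : IsSobolev Ω u g t)
    (hEL : ∀ φ : EuclideanSpace ℝ (Fin (m + 1)) → ℝ, ContDiff ℝ 1 φ →
      MemLp φ 2 (volume.restrict Ω) →
      MemLp (gradient φ) 2 (volume.restrict Ω) → MemLp φ 2 (surfaceMeasure Ω) →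
      (∫ x in Ω, ⟪g x, gradient φ x⟫) + α * ∫ x, t x * φ x ∂(surfaceMeasure Ω)
        = lam * ∫ x in Ω, u x * φ x)
    (hf : IsFlat Ω y₀ (nrm Θ) δ)
    {φ : EuclideanSpace ℝ (Fin (m + 1)) → ℝ} (hφ : ContDiff ℝ 2 φ) (hc : HasCompactSupport φ)
    (hs : tsupport φ ⊆ Metric.ball y₀ δ)
    (hR : ∀ x, ⟪x - y₀, nrm Θ⟫ = 0 → fderiv ℝ φ x (nrm Θ) = α * φ x) :
    ∫ x in Ω, u x * (lapl (frameBasis Θ) φ x + lam * φ x) = 0 := by
  have hcg : Continuous (gradient φ) :=
    (InnerProductSpace.toDual ℝ _).symm.continuous.comp (hφ.continuous_fderiv (by norm_num))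
  have hgs : HasCompactSupport (gradient φ) := by
    refine hc.mono' fun x hx => ?_
    by_contra h
    apply hx
    apply ext_inner_right ℝ
    intro w
    rw [inner_gradient_left, fderiv_apply_eq_zero_of_notMem_tsupport h]
    simp
  have hls : HasCompactSupport (lapl (frameBasis Θ) φ) := by
    refine hc.mono' fun x hx => ?_
    by_contra h
    exact hx (lapl_eq_zero_of_notMem_tsupport _ h)
  have h1 : MemLp φ 2 (volume.restrict Ω) :=
    (hφ.continuous.memLp_of_hasCompactSupport hc).restrict Ω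
  have h2 : MemLp (gradient φ) 2 (volume.restrict Ω) :=
    (hcg.memLp_of_hasCompactSupport hgs).restrict Ω
  have h3 : MemLp φ 2 (surfaceMeasure Ω) := by
    refine hf.memLp_surface hφ.continuous hc fun z hz => ?_
    apply image_eq_zero_of_notMem_tsupport
    intro h
    have := hs h
    rw [Metric.mem_ball] at this
    linarith
  have h4 : MemLp (lapl (frameBasis Θ) φ) 2 (volume.restrict Ω) :=
    ((continuous_lapl _ hφ).memLp_of_hasCompactSupport hls).restrict Ω
  exact very_weak hS h1 h2 h3 h4 (hEL φ (hφ.of_le (by norm_num)) h1 h2 h3)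
    fun v hv => hf.green hΩ.measurableSet hv hφ hc hs hR

end Pool.Agent.Helper77.Robin
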