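import Pool.Agent.Helper77.Robin.EL

set_option autoImplicit false

open MeasureTheory Filter Topology
open scoped RealInnerProductSpace

namespace Pool.Agent.Helper77.Robin

/-- The Laplacian of `φ` computed in the orthonormal basis `b`. -/
noncomputable def lapl {E ι : Type*} [NormedAddCommGroup E] [InnerProductSpace ℝ E] [Fintype ι]
    (b : OrthonormalBasis ι ℝ E) (φ : E → ℝ) (x : E) : ℝ :=
  ∑ i, fderiv ℝ (fun y => fderiv ℝ φ y (b i)) x (b i)

section general
variable {E ι : Type*} [NormedAddCommGroup E] [InnerProductSpace ℝ E] [Fintype ι]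
  [CompleteSpace E]

theorem inner_gradient_gradient (b : OrthonormalBasis ι ℝ E) (v φ : E → ℝ) (x : E) :
    ⟪gradient v x, gradient φ x⟫ = ∑ i, fderiv ℝ v x (b i) * fderiv ℝ φ x (b i) := by
  rw [← b.sum_inner_mul_inner]
  refine Finset.sum_congr rfl fun i _ => ?_
  rw [inner_gradient_left, real_inner_comm, inner_gradient_left]

theorem contDiff_fderiv_apply {φ : E → ℝ} (hφ : ContDiff ℝ 2 φ) (w : E) :
    ContDiff ℝ 1 (fun y => fderiv ℝ φ y w) :=
  (hφ.fderiv_right (m := 1) (by norm_num)).clm_apply contDiff_const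

theorem continuous_lapl (b : OrthonormalBasis ι ℝ E) {φ : E → ℝ} (hφ : ContDiff ℝ 2 φ) :
    Continuous (lapl b φ) := by
  unfold lapl
  refine continuous_finset_sum _ fun i _ => ?_
  exact ((contDiff_fderiv_apply hφ (b i)).continuous_fderiv (by norm_num)).clm_apply
    continuous_const

omit [CompleteSpace E] in
theorem fderiv_apply_eq_zero_of_notMem_tsupport {φ : E → ℝ} {x : E} (hx : x ∉ tsupport φ) (w : E) :
    fderiv ℝ φ x w = 0 := by
  have : x ∉ tsupport (fderiv ℝ φ) := fun h => hx (tsupport_fderiv_subset ℝ h)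
  rw [image_eq_zero_of_notMem_tsupport this]
  rfl

omit [CompleteSpace E] in
theorem tsupport_fderiv_apply_subset' {φ : E → ℝ} (w : E) :
    tsupport (fun y => fderiv ℝ φ y w) ⊆ tsupport φ := by
  apply closure_minimal _ (isClosed_tsupport φ)
  intro x hx
  by_contra h
  exact hx (fderiv_apply_eq_zero_of_notMem_tsupport h w)

omit [CompleteSpace E] in
theorem lapl_eq_zero_of_notMem_tsupport (b : OrthonormalBasis ι ℝ E) {φ : E → ℝ} {x : E}
    (hx : x ∉ tsupport φ) : lapl b φ x = 0 := by
  unfold lapl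
  refine Finset.sum_eq_zero fun i _ => ?_
  apply fderiv_apply_eq_zero_of_notMem_tsupport
  exact fun h => hx (tsupport_fderiv_apply_subset' _ h)

theorem green_whole [FiniteDimensional ℝ E] [MeasurableSpace E] [BorelSpace E]
    (b : OrthonormalBasis ι ℝ E) {v φ : E → ℝ} (hv : ContDiff ℝ 1 v) (hφ : ContDiff ℝ 2 φ)
    (hc : HasCompactSupport φ) :
    ∫ x, ⟪gradient v x, gradient φ x⟫ = - ∫ x, v x * lapl b φ x := by
  have hcv : Continuous (fderiv ℝ v) := hv.continuous_fderiv (by norm_num)
  have hcφ : Continuous (fderiv ℝ φ) := hφ.continuous_fderiv (by norm_num)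
  have hcs : ∀ w : E, HasCompactSupport (fun y => fderiv ℝ φ y w) := fun w =>
    hc.mono' ((subset_tsupport _).trans (tsupport_fderiv_apply_subset' w))
  have hcs2 : ∀ w : E, HasCompactSupport (fun y => fderiv ℝ (fun z => fderiv ℝ φ z w) y w) :=
    fun w => hc.mono' ((subset_tsupport _).trans
      ((tsupport_fderiv_apply_subset' w).trans (tsupport_fderiv_apply_subset' w)))
  have hc1 : ∀ w : E, Continuous (fun y => fderiv ℝ φ y w) := fun w =>
    hcφ.clm_apply continuous_const
  have hc2 : ∀ w : E, Continuous (fun y => fderiv ℝ (fun z => fderiv ℝ φ z w) y w) := fun w =>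
    ((contDiff_fderiv_apply hφ w).continuous_fderiv (by norm_num)).clm_apply continuous_const
  have i1 : ∀ i, Integrable (fun x => fderiv ℝ v x (b i) * fderiv ℝ φ x (b i)) := fun i =>
    ((hcv.clm_apply continuous_const).mul (hc1 (b i))).integrable_of_hasCompactSupport
      ((hcs (b i)).mul_left)
  have i2 : ∀ i, Integrable
      (fun x => v x * fderiv ℝ (fun y => fderiv ℝ φ y (b i)) x (b i)) := fun i =>
    (hv.continuous.mul (hc2 (b i))).integrable_of_hasCompactSupport ((hcs2 (b i)).mul_left)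
  have i3 : ∀ i, Integrable (fun x => v x * fderiv ℝ φ x (b i)) := fun i =>
    (hv.continuous.mul (hc1 (b i))).integrable_of_hasCompactSupport ((hcs (b i)).mul_left)
  simp_rw [inner_gradient_gradient b]
  rw [integral_finset_sum _ fun i _ => i1 i]
  have e : ∀ x, v x * lapl b φ x
      = ∑ i, v x * fderiv ℝ (fun y => fderiv ℝ φ y (b i)) x (b i) := fun x => by
    rw [lapl, Finset.mul_sum]
  simp_rw [e]
  rw [integral_finset_sum _ fun i _ => i2 i, ← Finset.sum_neg_distrib]
  refine Finset.sum_congr rfl fun i _ => ?_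
  have := integral_mul_fderiv_eq_neg_fderiv_mul_of_integrable (μ := (volume : Measure E))
    (f := v) (g := fun y => fderiv ℝ φ y (b i)) (v := b i) (i1 i) (i2 i) (i3 i)
    (fun x _ => hv.differentiable (by norm_num) x)
    (fun x _ => (contDiff_fderiv_apply hφ (b i)).differentiable (by norm_num) x)
  rw [this, neg_neg]

end general

variable {d : ℕ} {Ω : Set (EuclideanSpace ℝ (Fin d))}

/-- A first Robin eigenfunction, in very weak form, inside the domain. -/
theorem very_weak_interior {α lam : ℝ} (hΩ : IsOpen Ω)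
    {u : EuclideanSpace ℝ (Fin d) → ℝ}
    {g : EuclideanSpace ℝ (Fin d) → EuclideanSpace ℝ (Fin d)}
    {t : EuclideanSpace ℝ (Fin d) → ℝ} (hS : IsSobolev Ω u g t)
    (hEL : ∀ φ : EuclideanSpace ℝ (Fin d) → ℝ, ContDiff ℝ 1 φ → MemLp φ 2 (volume.restrict Ω) →
      MemLp (gradient φ) 2 (volume.restrict Ω) → MemLp φ 2 (surfaceMeasure Ω) →
      (∫ x in Ω, ⟪g x, gradient φ x⟫) + α * ∫ x, t x * φ x ∂(surfaceMeasure Ω)
        = lam * ∫ x in Ω, u x * φ x)
    {ι : Type*} [Fintype ι] (b : OrthonormalBasis ι ℝ (EuclideanSpace ℝ (Fin d)))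
    {φ : EuclideanSpace ℝ (Fin d) → ℝ} (hφ : ContDiff ℝ 2 φ) (hc : HasCompactSupport φ)
    (hs : tsupport φ ⊆ Ω) :
    ∫ x in Ω, u x * (lapl b φ x + lam * φ x) = 0 := by
  have hfr : ∀ᵐ x ∂(surfaceMeasure Ω), φ x = 0 := by
    rw [surfaceMeasure]
    refine (ae_restrict_iff' isClosed_frontier.measurableSet).2 (Eventually.of_forall ?_)
    intro x hx
    rw [hΩ.frontier_eq] at hx
    exact image_eq_zero_of_notMem_tsupport fun h => hx.2 (hs h)
  have hcg : Continuous (gradient φ) :=
    (InnerProductSpace.toDual ℝ _).symm.continuous.comp (hφ.continuous_fderiv (by norm_num))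
  have hgs : HasCompactSupport (gradient φ) := by
    refine hc.mono' fun x hx => ?_
    by_contra h
    apply hx
    apply ext_inner_right ℝ
    intro w
    rw [inner_gradient_left, fderiv_apply_eq_zero_of_notMem_tsupport h]
    simp
  have hls : HasCompactSupport (lapl b φ) := by
    refine hc.mono' fun x hx => ?_
    by_contra h
    exact hx (lapl_eq_zero_of_notMem_tsupport b h)
  have h1 : MemLp φ 2 (volume.restrict Ω) :=
    (hφ.continuous.memLp_of_hasCompactSupport hc).restrict Ω
  have h2 : MemLp (gradient φ) 2 (volume.restrict Ω) :=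
    (hcg.memLp_of_hasCompactSupport hgs).restrict Ω
  have h3 : MemLp φ 2 (surfaceMeasure Ω) := by
    refine MemLp.ae_eq (f := fun _ => (0:ℝ)) ?_ MemLp.zero'
    filter_upwards [hfr] with x hx using hx.symm
  have h4 : MemLp (lapl b φ) 2 (volume.restrict Ω) :=
    ((continuous_lapl b hφ).memLp_of_hasCompactSupport hls).restrict Ω
  refine very_weak hS h1 h2 h3 h4 (hEL φ (hφ.of_le (by norm_num)) h1 h2 h3) fun v hv => ?_
  have e1 : ∫ x, v x * φ x ∂(surfaceMeasure Ω) = 0 := by
    rw [← integral_zero (EuclideanSpace ℝ (Fin d)) ℝ (μ := surfaceMeasure Ω)]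
    refine integral_congr_ae ?_
    filter_upwards [hfr] with x hx
    simp [hx]
  have e2 : ∫ x in Ω, ⟪gradient v x, gradient φ x⟫ = ∫ x, ⟪gradient v x, gradient φ x⟫ := by
    refine setIntegral_eq_integral_of_forall_compl_eq_zero fun x hx => ?_
    have : gradient φ x = 0 := by
      apply ext_inner_right ℝ
      intro w
      rw [inner_gradient_left, fderiv_apply_eq_zero_of_notMem_tsupport (fun h => hx (hs h))]
      simp
    rw [this, inner_zero_right]
  have e3 : ∫ x in Ω, v x * lapl b φ x = ∫ x, v x * lapl b φ x := by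
    refine setIntegral_eq_integral_of_forall_compl_eq_zero fun x hx => ?_
    rw [lapl_eq_zero_of_notMem_tsupport b (fun h => hx (hs h)), mul_zero]
  rw [e1, e2, e3, green_whole b hv hφ hc]
  ring

end Pool.Agent.Helper77.Robin
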