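import Pool.Agent.Helper77.Robin.Frame

set_option autoImplicit false
set_option linter.unusedSectionVars false

open MeasureTheory Filter Topology Set
open scoped RealInnerProductSpace

namespace Pool.Agent.Helper77.Robin

variable {E F : Type*}
  [NormedAddCommGroup E] [InnerProductSpace ℝ E] [FiniteDimensional ℝ E]
  [MeasurableSpace E] [BorelSpace E]
  [NormedAddCommGroup F] [InnerProductSpace ℝ F] [FiniteDimensional ℝ F]
  [MeasurableSpace F] [BorelSpace F]

variable (Θ : WithLp 2 (ℝ × F) ≃ₗᵢ[ℝ] E) (y₀ : E)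

theorem isometry_J_left (τ : F) : Isometry (fun s : ℝ => J Θ y₀ (s, τ)) := by
  apply Isometry.of_dist_eq
  intro a b
  rw [dist_eq_norm, J_sub, LinearIsometryEquiv.norm_map]
  have h := norm_toLp_sq (F := F) ((a, τ) - (b, τ))
  simp only [Prod.mk_sub_mk, sub_self, norm_zero, ne_eq, OfNat.ofNat_ne_zero, not_false_eq_true,
    zero_pow, add_zero] at h
  rw [Real.dist_eq]
  have h2 : ‖(WithLp.toLp 2 (a - b, (0:F)) : WithLp 2 (ℝ × F))‖ ^ 2 = |a - b| ^ 2 := by
    rw [h, sq_abs]
  have h3 := (sq_eq_sq₀ (norm_nonneg _) (abs_nonneg _)).mp h2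
  simpa using h3

theorem isometry_J_right (s : ℝ) : Isometry (fun τ : F => J Θ y₀ (s, τ)) := by
  apply Isometry.of_dist_eq
  intro a b
  rw [dist_eq_norm, J_sub, LinearIsometryEquiv.norm_map]
  have h := norm_toLp_sq (F := F) ((s, a) - (s, b))
  simp only [Prod.mk_sub_mk, sub_self, ne_eq, OfNat.ofNat_ne_zero, not_false_eq_true,
    zero_pow, zero_add] at h
  rw [dist_eq_norm]
  have h3 := (sq_eq_sq₀ (norm_nonneg _) (norm_nonneg _)).mp h
  simpa using h3

theorem hasDerivAt_comp_J {w : E → ℝ} (hw : ContDiff ℝ 1 w) (s : ℝ) (τ : F) :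
    HasDerivAt (fun s => w (J Θ y₀ (s, τ))) (fderiv ℝ w (J Θ y₀ (s, τ)) (nrm Θ)) s := by
  have h1 : HasDerivAt (fun s => J Θ y₀ (s, τ)) (nrm Θ) s := by
    have h : (fun s => J Θ y₀ (s, τ)) = fun s => (y₀ + tng Θ τ) + s • nrm Θ := by
      ext1 s
      rw [J_apply]
      abel
    rw [h]
    have := ((hasDerivAt_id s).smul_const (nrm Θ)).const_add (y₀ + tng Θ τ)
    simpa using this
  exact ((hw.differentiable (by norm_num) (J Θ y₀ (s, τ))).hasFDerivAt).comp_hasDerivAt s h1

/-- the tangential embedding as a continuous linear map -/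
noncomputable def tngL : F →L[ℝ] E :=
  LinearMap.toContinuousLinearMap
    { toFun := tng Θ
      map_add' := tng_add Θ
      map_smul' := tng_smul Θ }

theorem tngL_apply (η : F) : tngL Θ η = tng Θ η := rfl

theorem hasFDerivAt_comp_J {w : E → ℝ} (hw : ContDiff ℝ 1 w) (s : ℝ) (τ : F) :
    HasFDerivAt (fun τ => w (J Θ y₀ (s, τ))) ((fderiv ℝ w (J Θ y₀ (s, τ))).comp (tngL Θ)) τ := by
  have h1 : HasFDerivAt (fun τ => J Θ y₀ (s, τ)) (tngL Θ) τ := by
    have h : (fun τ => J Θ y₀ (s, τ)) = fun τ => (y₀ + s • nrm Θ) + tngL Θ τ := by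
      ext1 τ
      rw [J_apply, tngL_apply]
      abel
    rw [h]
    exact (tngL Θ).hasFDerivAt.const_add _
  exact ((hw.differentiable (by norm_num) (J Θ y₀ (s, τ))).hasFDerivAt).comp τ h1

theorem half_normal {w : E → ℝ} (hw : ContDiff ℝ 1 w) (hc : HasCompactSupport w) :
    ∫ x in {x | 0 < ⟪x - y₀, nrm Θ⟫}, fderiv ℝ w x (nrm Θ)
      = - ∫ τ : F, w (J Θ y₀ (0, τ)) := by
  have : SecondCountableTopology F := secondCountable_of_proper
  have hcont : Continuous (fun x => fderiv ℝ w x (nrm Θ)) :=
    (hw.continuous_fderiv (by norm_num)).clm_apply continuous_const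
  have hcs : HasCompactSupport (fun x => fderiv ℝ w x (nrm Θ)) :=
    hc.mono' ((subset_tsupport _).trans (tsupport_fderiv_apply_subset' _))
  have hint : Integrable (fun p : ℝ × F => fderiv ℝ w (J Θ y₀ p) (nrm Θ)) volume :=
    (measurePreserving_J Θ y₀).integrable_comp_of_integrable
      (hcont.integrable_of_hasCompactSupport hcs)
  rw [setIntegral_halfspace]
  rw [Measure.volume_eq_prod, ← Measure.prod_restrict, Measure.restrict_univ,
    integral_prod_symm]
  · rw [← integral_neg]
    congr 1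
    ext1 τ
    have h1 : ∀ s, fderiv ℝ w (J Θ y₀ (s, τ)) (nrm Θ) = deriv (fun s => w (J Θ y₀ (s, τ))) s :=
      fun s => (hasDerivAt_comp_J Θ y₀ hw s τ).deriv.symm
    simp_rw [h1]
    apply HasCompactSupport.integral_Ioi_deriv_eq
    · have h : (fun s => J Θ y₀ (s, τ)) = fun s => (y₀ + tng Θ τ) + s • nrm Θ := by
        ext1 s
        rw [J_apply]
        abel
      have h2 : ContDiff ℝ 1 (fun s => J Θ y₀ (s, τ)) := by
        rw [h]
        fun_prop
      exact hw.comp h2
    · exact hc.comp_isClosedEmbedding (isometry_J_left Θ y₀ τ).isClosedEmbedding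
  · rw [← Measure.restrict_univ (μ := (volume : Measure F)), Measure.prod_restrict,
      ← Measure.volume_eq_prod]
    exact hint.restrict

theorem integral_fderiv_apply_eq_zero {h : F → ℝ} (hh : ContDiff ℝ 1 h) (hc : HasCompactSupport h)
    (η : F) : ∫ τ, fderiv ℝ h τ η = 0 := by
  have hcont : Continuous (fun x => fderiv ℝ h x η) :=
    (hh.continuous_fderiv (by norm_num)).clm_apply continuous_const
  have hcs : HasCompactSupport (fun x => fderiv ℝ h x η) :=
    hc.mono' ((subset_tsupport _).trans (tsupport_fderiv_apply_subset' _))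
  have := integral_mul_fderiv_eq_neg_fderiv_mul_of_integrable (μ := (volume : Measure F))
    (f := fun _ => (1:ℝ)) (g := h) (v := η) (by simp) ?_ ?_ (by simp)
    (fun x _ => hh.differentiable (by norm_num) x)
  · simpa using this
  · simpa using hcont.integrable_of_hasCompactSupport hcs
  · simpa using hh.continuous.integrable_of_hasCompactSupport hc

theorem half_tangential {w : E → ℝ} (hw : ContDiff ℝ 1 w) (hc : HasCompactSupport w) (η : F) :
    ∫ x in {x | 0 < ⟪x - y₀, nrm Θ⟫}, fderiv ℝ w x (tng Θ η) = 0 := by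
  have : SecondCountableTopology F := secondCountable_of_proper
  have hcont : Continuous (fun x => fderiv ℝ w x (tng Θ η)) :=
    (hw.continuous_fderiv (by norm_num)).clm_apply continuous_const
  have hcs : HasCompactSupport (fun x => fderiv ℝ w x (tng Θ η)) :=
    hc.mono' ((subset_tsupport _).trans (tsupport_fderiv_apply_subset' _))
  have hint : Integrable (fun p : ℝ × F => fderiv ℝ w (J Θ y₀ p) (tng Θ η)) volume :=
    (measurePreserving_J Θ y₀).integrable_comp_of_integrable
      (hcont.integrable_of_hasCompactSupport hcs)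
  rw [setIntegral_halfspace]
  rw [Measure.volume_eq_prod, ← Measure.prod_restrict, Measure.restrict_univ,
    integral_prod]
  · have h0 : ∀ s : ℝ, ∫ τ : F, fderiv ℝ w (J Θ y₀ (s, τ)) (tng Θ η) = 0 := by
      intro s
      have h1 : ∀ τ, fderiv ℝ w (J Θ y₀ (s, τ)) (tng Θ η)
          = fderiv ℝ (fun τ => w (J Θ y₀ (s, τ))) τ η := fun τ => by
        rw [(hasFDerivAt_comp_J Θ y₀ hw s τ).fderiv]
        rfl
      simp_rw [h1]
      apply integral_fderiv_apply_eq_zero
      · have h : (fun τ => J Θ y₀ (s, τ)) = fun τ => (y₀ + s • nrm Θ) + tngL Θ τ := by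
          ext1 τ
          rw [J_apply, tngL_apply]
          abel
        have h2 : ContDiff ℝ 1 (fun τ => J Θ y₀ (s, τ)) := by
          rw [h]
          fun_prop
        exact hw.comp h2
      · exact hc.comp_isClosedEmbedding (isometry_J_right Θ y₀ s).isClosedEmbedding
    simp_rw [h0]
    simp
  · rw [← Measure.restrict_univ (μ := (volume : Measure F)), Measure.prod_restrict,
      ← Measure.volume_eq_prod]
    exact hint.restrict

end Pool.Agent.Helper77.Robin
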