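import Pool.Agent.Helper77.Robin.Compact

set_option autoImplicit false
set_option linter.unusedSectionVars false

open MeasureTheory Filter Topology Set
open scoped RealInnerProductSpace ENNReal

namespace Pool.Agent.Helper77.Robin

section general
variable {X : Type*} [MeasurableSpace X] {μ : Measure X}
variable {V : Type*} [NormedAddCommGroup V] [InnerProductSpace ℝ V]

theorem eLpNorm_sq_eq {f : X → V} (hf : MemLp f 2 μ) :
    eLpNorm f 2 μ ^ 2 = ENNReal.ofReal (∫ x, ‖f x‖ ^ 2 ∂μ) := by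
  rw [ofReal_integral_eq_lintegral_ofReal (hf.integrable_norm_pow (by norm_num))
    (Eventually.of_forall fun x => by positivity)]
  rw [eLpNorm_eq_lintegral_rpow_enorm_toReal (by norm_num) (by norm_num)]
  rw [← ENNReal.rpow_natCast, ← ENNReal.rpow_mul]
  simp only [ENNReal.toReal_ofNat, Nat.cast_ofNat]
  norm_num

theorem tendsto_normSq_sub {v : ℕ → X → V} {f : X → V} (hv : ∀ n, MemLp (v n) 2 μ)
    (hf : MemLp f 2 μ) (h : Tendsto (fun n => eLpNorm (fun x => v n x - f x) 2 μ) atTop (𝓝 0)) :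
    Tendsto (fun n => ∫ x, ‖v n x - f x‖ ^ 2 ∂μ) atTop (𝓝 0) := by
  have h1 : Tendsto (fun n => eLpNorm (fun x => v n x - f x) 2 μ ^ 2) atTop (𝓝 0) := by
    have := ENNReal.Tendsto.pow (n := 2) h
    simpa using this
  have h2 : ∀ n, eLpNorm (fun x => v n x - f x) 2 μ ^ 2
      = ENNReal.ofReal (∫ x, ‖v n x - f x‖ ^ 2 ∂μ) := fun n => eLpNorm_sq_eq ((hv n).sub hf)
  simp only [h2] at h1
  have h3 := (ENNReal.tendsto_toReal ENNReal.zero_ne_top).comp h1
  refine h3.congr fun n => ?_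
  simp only [Function.comp]
  rw [ENNReal.toReal_ofReal]
  exact integral_nonneg fun x => by positivity

theorem tendsto_normSq {v : ℕ → X → V} {f : X → V} (hv : ∀ n, MemLp (v n) 2 μ)
    (hf : MemLp f 2 μ) (h : Tendsto (fun n => eLpNorm (fun x => v n x - f x) 2 μ) atTop (𝓝 0)) :
    Tendsto (fun n => ∫ x, ‖v n x‖ ^ 2 ∂μ) atTop (𝓝 (∫ x, ‖f x‖ ^ 2 ∂μ)) := by
  have h1 := tendsto_normSq_sub hv hf h
  have h2 := tendsto_integral_inner_of_L2 (fun n => (hv n).aestronglyMeasurable) hf hf h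
  have h3 := (h1.add (h2.const_mul 2)).sub_const (∫ x, ‖f x‖ ^ 2 ∂μ)
  have e0 : 0 + 2 * (∫ x, ⟪f x, f x⟫ ∂μ) - ∫ x, ‖f x‖ ^ 2 ∂μ = ∫ x, ‖f x‖ ^ 2 ∂μ := by
    simp only [real_inner_self_eq_norm_sq]
    ring
  rw [e0] at h3
  refine h3.congr fun n => ?_
  have i1 : Integrable (fun x => ‖v n x - f x‖ ^ 2) μ :=
    ((hv n).sub hf).integrable_norm_pow (by norm_num)
  have i2 : Integrable (fun x => ⟪v n x, f x⟫) μ := memLp_two_integrable_inner (hv n) hf
  have i3 : Integrable (fun x => ‖f x‖ ^ 2) μ := hf.integrable_norm_pow (by norm_num)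
  rw [← integral_const_mul, ← integral_add i1 (i2.const_mul 2), ← integral_sub _ i3]
  · congr 1
    ext x
    rw [norm_sub_sq_real]
    ring
  · exact i1.add (i2.const_mul 2)

theorem exists_limit_L2 [CompleteSpace V] {v : ℕ → X → V} (hv : ∀ n, MemLp (v n) 2 μ)
    (hc : ∀ ε > 0, ∃ n₀, ∀ n ≥ n₀, ∀ m ≥ n₀, ∫ x, ‖v n x - v m x‖ ^ 2 ∂μ ≤ ε) :
    ∃ f : X → V, StronglyMeasurable f ∧ MemLp f 2 μ ∧
      Tendsto (fun n => eLpNorm (fun x => v n x - f x) 2 μ) atTop (𝓝 0) := by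
  have hcs : CauchySeq (fun n => (hv n).toLp (v n)) := by
    rw [EMetric.cauchySeq_iff]
    intro ε hε
    obtain ⟨r, hr, hrε⟩ : ∃ r : ℝ, 0 < r ∧ ENNReal.ofReal r < ε := by
      rcases eq_or_ne ε ∞ with rfl | hne
      · exact ⟨1, one_pos, ENNReal.ofReal_lt_top⟩
      · have h0 : 0 < ε.toReal := ENNReal.toReal_pos hε.ne' hne
        refine ⟨ε.toReal / 2, by positivity, ?_⟩
        rw [ENNReal.ofReal_lt_iff_lt_toReal (by positivity) hne]
        linarith
    obtain ⟨n₀, hn₀⟩ := hc (r ^ 2) (by positivity)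
    refine ⟨n₀, fun m hm n hn => ?_⟩
    rw [Lp.edist_toLp_toLp]
    have h1 := eLpNorm_sq_eq ((hv m).sub (hv n))
    have h2 : eLpNorm (v m - v n) 2 μ ^ 2 ≤ ENNReal.ofReal r ^ 2 := by
      rw [h1, ← ENNReal.ofReal_pow hr.le]
      exact ENNReal.ofReal_le_ofReal (hn₀ m hm n hn)
    have h3 : eLpNorm (v m - v n) 2 μ ≤ ENNReal.ofReal r := by
      by_contra hlt
      push Not at hlt
      exact absurd h2 (not_le.2 (ENNReal.pow_lt_pow_left (by norm_num) hlt))
    exact h3.trans_lt hrε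
  obtain ⟨F, hF⟩ := cauchySeq_tendsto_of_complete hcs
  refine ⟨F, Lp.stronglyMeasurable F, Lp.memLp F, ?_⟩
  rw [tendsto_iff_edist_tendsto_0] at hF
  refine hF.congr fun n => ?_
  have : F = (Lp.memLp F).toLp F := (Lp.toLp_coeFn F _).symm
  nth_rewrite 1 [this]
  rw [Lp.edist_toLp_toLp]
  rfl

theorem normSq_parallelogram {f g : X → V} (hf : MemLp f 2 μ) (hg : MemLp g 2 μ) :
    (∫ x, ‖f x + g x‖ ^ 2 ∂μ) + (∫ x, ‖f x - g x‖ ^ 2 ∂μ)
      = 2 * (∫ x, ‖f x‖ ^ 2 ∂μ) + 2 * ∫ x, ‖g x‖ ^ 2 ∂μ := by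
  have i1 : Integrable (fun x => ‖f x + g x‖ ^ 2) μ :=
    (hf.add hg).integrable_norm_pow (by norm_num)
  have i2 : Integrable (fun x => ‖f x - g x‖ ^ 2) μ :=
    (hf.sub hg).integrable_norm_pow (by norm_num)
  have i3 : Integrable (fun x => ‖f x‖ ^ 2) μ := hf.integrable_norm_pow (by norm_num)
  have i4 : Integrable (fun x => ‖g x‖ ^ 2) μ := hg.integrable_norm_pow (by norm_num)
  rw [← integral_add i1 i2, ← integral_const_mul, ← integral_const_mul,
    ← integral_add (i3.const_mul 2) (i4.const_mul 2)]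
  congr 1
  ext x
  rw [norm_add_sq_real, norm_sub_sq_real]
  ring

end general

variable {d : ℕ} {Ω : Set (EuclideanSpace ℝ (Fin d))} {α : ℝ}

/-- admissible `C¹` functions -/
structure Adm (Ω : Set (EuclideanSpace ℝ (Fin d))) (v : EuclideanSpace ℝ (Fin d) → ℝ) : Prop where
  contDiff : ContDiff ℝ 1 v
  memLp_u : MemLp v 2 (volume.restrict Ω)
  memLp_g : MemLp (gradient v) 2 (volume.restrict Ω)
  memLp_t : MemLp v 2 (surfaceMeasure Ω)

theorem gradient_const_mul' {v : EuclideanSpace ℝ (Fin d) → ℝ} (hv : ContDiff ℝ 1 v) (c : ℝ)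
    (x : EuclideanSpace ℝ (Fin d)) :
    gradient (fun x => c * v x) x = c • gradient v x := by
  apply ext_inner_right ℝ
  intro z
  rw [inner_gradient_left, inner_smul_left, inner_gradient_left,
    fderiv_const_mul (hv.differentiable (by norm_num) x)]
  rfl

theorem Adm.add {v w : EuclideanSpace ℝ (Fin d) → ℝ} (hv : Adm Ω v) (hw : Adm Ω w) :
    Adm Ω (fun x => v x + w x) := by
  refine ⟨hv.contDiff.add hw.contDiff, hv.memLp_u.add hw.memLp_u, ?_, hv.memLp_t.add hw.memLp_t⟩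
  have : gradient (fun x => v x + w x) = fun x => gradient v x + gradient w x := by
    ext1 x; exact gradient_add' hv.contDiff hw.contDiff x
  rw [this]
  exact hv.memLp_g.add hw.memLp_g

theorem Adm.sub {v w : EuclideanSpace ℝ (Fin d) → ℝ} (hv : Adm Ω v) (hw : Adm Ω w) :
    Adm Ω (fun x => v x - w x) := by
  refine ⟨hv.contDiff.sub hw.contDiff, hv.memLp_u.sub hw.memLp_u, ?_, hv.memLp_t.sub hw.memLp_t⟩
  have : gradient (fun x => v x - w x) = fun x => gradient v x - gradient w x := by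
    ext1 x; exact gradient_sub' hv.contDiff hw.contDiff x
  rw [this]
  exact hv.memLp_g.sub hw.memLp_g

theorem Adm.const_mul {v : EuclideanSpace ℝ (Fin d) → ℝ} (hv : Adm Ω v) (c : ℝ) :
    Adm Ω (fun x => c * v x) := by
  refine ⟨contDiff_const.mul hv.contDiff, hv.memLp_u.const_mul c, ?_, hv.memLp_t.const_mul c⟩
  have : gradient (fun x => c * v x) = fun x => c • gradient v x := by
    ext1 x; exact gradient_const_mul' hv.contDiff c x
  rw [this]
  exact hv.memLp_g.const_smul c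

/-- energy of a `C¹` function -/
noncomputable def En (Ω : Set (EuclideanSpace ℝ (Fin d))) (α : ℝ)
    (v : EuclideanSpace ℝ (Fin d) → ℝ) : ℝ := robinEnergy Ω α (gradient v) v

/-- squared `L²` norm -/
noncomputable def nsq (Ω : Set (EuclideanSpace ℝ (Fin d)))
    (v : EuclideanSpace ℝ (Fin d) → ℝ) : ℝ := ∫ x in Ω, v x ^ 2

theorem En_nonneg (hα : 0 ≤ α) (v : EuclideanSpace ℝ (Fin d) → ℝ) : 0 ≤ En Ω α v := by
  unfold En robinEnergy
  have h1 : 0 ≤ ∫ x in Ω, ‖gradient v x‖ ^ 2 := integral_nonneg fun x => by positivity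
  have h2 : 0 ≤ ∫ x, v x ^ 2 ∂(surfaceMeasure Ω) := integral_nonneg fun x => by positivity
  positivity

theorem nsq_nonneg (v : EuclideanSpace ℝ (Fin d) → ℝ) : 0 ≤ nsq Ω v :=
  integral_nonneg fun x => by positivity

theorem En_const_mul {v : EuclideanSpace ℝ (Fin d) → ℝ} (hv : Adm Ω v) (c : ℝ) :
    En Ω α (fun x => c * v x) = c ^ 2 * En Ω α v := by
  unfold En robinEnergy
  have : gradient (fun x => c * v x) = fun x => c • gradient v x := by
    ext1 x; exact gradient_const_mul' hv.contDiff c x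
  rw [this]
  simp only [norm_smul, mul_pow, Real.norm_eq_abs, sq_abs]
  rw [integral_const_mul, integral_const_mul]
  ring

theorem nsq_const_mul (v : EuclideanSpace ℝ (Fin d) → ℝ) (c : ℝ) :
    nsq Ω (fun x => c * v x) = c ^ 2 * nsq Ω v := by
  unfold nsq
  simp only [mul_pow]
  rw [integral_const_mul]

theorem nsq_parallelogram {v w : EuclideanSpace ℝ (Fin d) → ℝ} (hv : Adm Ω v) (hw : Adm Ω w) :
    nsq Ω (fun x => v x + w x) + nsq Ω (fun x => v x - w x) = 2 * nsq Ω v + 2 * nsq Ω w := by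
  have h := normSq_parallelogram hv.memLp_u hw.memLp_u
  simp only [Real.norm_eq_abs, sq_abs] at h
  exact h

theorem En_parallelogram {v w : EuclideanSpace ℝ (Fin d) → ℝ} (hv : Adm Ω v) (hw : Adm Ω w) :
    En Ω α (fun x => v x + w x) + En Ω α (fun x => v x - w x)
      = 2 * En Ω α v + 2 * En Ω α w := by
  unfold En robinEnergy
  have e1 : gradient (fun x => v x + w x) = fun x => gradient v x + gradient w x := by
    ext1 x; exact gradient_add' hv.contDiff hw.contDiff x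
  have e2 : gradient (fun x => v x - w x) = fun x => gradient v x - gradient w x := by
    ext1 x; exact gradient_sub' hv.contDiff hw.contDiff x
  have hg := normSq_parallelogram hv.memLp_g hw.memLp_g
  have ht := normSq_parallelogram hv.memLp_t hw.memLp_t
  simp only [Real.norm_eq_abs, sq_abs] at ht
  rw [e1, e2]
  linear_combination hg + α * ht

/-- inequalities pass from `C¹` functions to Sobolev functions -/
theorem IsSobolev.le_energy {c : ℝ}
    (h : ∀ v : EuclideanSpace ℝ (Fin d) → ℝ, Adm Ω v → c * nsq Ω v ≤ En Ω α v)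
    {u : EuclideanSpace ℝ (Fin d) → ℝ}
    {g : EuclideanSpace ℝ (Fin d) → EuclideanSpace ℝ (Fin d)}
    {t : EuclideanSpace ℝ (Fin d) → ℝ} (hu : IsSobolev Ω u g t) :
    c * (∫ x in Ω, u x ^ 2) ≤ robinEnergy Ω α g t := by
  obtain ⟨v, hv, hv1, hv2, hv3⟩ := hu.exists_approx
  have hcg : ∀ n, Continuous (gradient (v n)) := fun n =>
    (InnerProductSpace.toDual ℝ _).symm.continuous.comp ((hv n).continuous_fderiv (by norm_num))
  have a1 := eventually_memLp_of_tendsto (fun n => (hv n).continuous.aestronglyMeasurable)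
    hu.memLp_u hv1
  have a2 := eventually_memLp_of_tendsto (fun n => (hcg n).aestronglyMeasurable) hu.memLp_g hv2
  have a3 := eventually_memLp_of_tendsto (fun n => (hv n).continuous.aestronglyMeasurable)
    hu.memLp_t hv3
  obtain ⟨N, hN⟩ := eventually_atTop.1 (a1.and (a2.and a3))
  set w : ℕ → EuclideanSpace ℝ (Fin d) → ℝ := fun n => v (n + N) with hw
  have hadm : ∀ n, Adm Ω (w n) := fun n =>
    ⟨hv _, (hN _ (by omega)).1, (hN _ (by omega)).2.1, (hN _ (by omega)).2.2⟩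
  have t1 := tendsto_normSq (fun n => (hadm n).memLp_u) hu.memLp_u
    (hv1.comp (tendsto_add_atTop_nat N))
  have t2 := tendsto_normSq (fun n => (hadm n).memLp_g) hu.memLp_g
    (hv2.comp (tendsto_add_atTop_nat N))
  have t3 := tendsto_normSq (fun n => (hadm n).memLp_t) hu.memLp_t
    (hv3.comp (tendsto_add_atTop_nat N))
  simp only [Real.norm_eq_abs, sq_abs] at t1 t3
  have t4 := t2.add (t3.const_mul α)
  exact le_of_tendsto_of_tendsto' (t1.const_mul c) t4 fun n => h (w n) (hadm n)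

/-- smooth approximation of the absolute value -/
noncomputable def sm (ε s : ℝ) : ℝ := √(s ^ 2 + ε ^ 2) - ε

theorem sm_nonneg {ε : ℝ} (hε : 0 < ε) (s : ℝ) : 0 ≤ sm ε s := by
  unfold sm
  have : ε ≤ √(s ^ 2 + ε ^ 2) := Real.le_sqrt_of_sq_le (by nlinarith)
  linarith

theorem sm_le {ε : ℝ} (hε : 0 < ε) (s : ℝ) : sm ε s ≤ |s| := by
  unfold sm
  have : √(s ^ 2 + ε ^ 2) ≤ |s| + ε := by
    apply Real.sqrt_le_iff.2
    refine ⟨by positivity, ?_⟩
    have := abs_nonneg s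
    nlinarith [sq_abs s, mul_nonneg this hε.le]
  linarith

theorem sq_sub_sm {ε : ℝ} (hε : 0 < ε) (s : ℝ) : s ^ 2 - 2 * ε * |s| ≤ sm ε s ^ 2 := by
  have h1 := sm_le hε s
  have h2 : √(s ^ 2 + ε ^ 2) ^ 2 = s ^ 2 + ε ^ 2 := Real.sq_sqrt (by positivity)
  unfold sm at *
  nlinarith

theorem hasDerivAt_sm {ε : ℝ} (hε : 0 < ε) (s : ℝ) :
    HasDerivAt (sm ε) (s / √(s ^ 2 + ε ^ 2)) s := by
  have hpos : 0 < s ^ 2 + ε ^ 2 := by positivity
  have h1 : HasDerivAt (fun s : ℝ => s ^ 2 + ε ^ 2) (2 * s) s := by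
    simpa using (hasDerivAt_pow 2 s).add_const (ε ^ 2)
  have h2 := (h1.sqrt hpos.ne').sub_const ε
  refine h2.congr_deriv ?_
  have : √(s ^ 2 + ε ^ 2) ≠ 0 := (Real.sqrt_pos.2 hpos).ne'
  field_simp

theorem contDiff_sm {ε : ℝ} (hε : 0 < ε) : ContDiff ℝ 1 (sm ε) := by
  unfold sm
  apply ContDiff.sub _ contDiff_const
  apply ContDiff.sqrt
  · fun_prop
  · intro x
    positivity

theorem gradient_sm {ε : ℝ} (hε : 0 < ε) {v : EuclideanSpace ℝ (Fin d) → ℝ}
    (hv : ContDiff ℝ 1 v) (x : EuclideanSpace ℝ (Fin d)) :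
    gradient (fun x => sm ε (v x)) x = (v x / √(v x ^ 2 + ε ^ 2)) • gradient v x := by
  apply ext_inner_right ℝ
  intro z
  rw [inner_gradient_left, inner_smul_left, inner_gradient_left]
  have h := (hasDerivAt_sm hε (v x)).comp_hasFDerivAt x
    (hv.differentiable (by norm_num) x).hasFDerivAt
  have e : (fun x => sm ε (v x)) = sm ε ∘ v := rfl
  rw [e, h.fderiv]
  simp

theorem norm_gradient_sm_le {ε : ℝ} (hε : 0 < ε) {v : EuclideanSpace ℝ (Fin d) → ℝ}
    (hv : ContDiff ℝ 1 v) (x : EuclideanSpace ℝ (Fin d)) :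
    ‖gradient (fun x => sm ε (v x)) x‖ ≤ ‖gradient v x‖ := by
  rw [gradient_sm hε hv, norm_smul, Real.norm_eq_abs, abs_div, abs_of_nonneg (Real.sqrt_nonneg _)]
  have h1 : |v x| ≤ √(v x ^ 2 + ε ^ 2) := by
    apply Real.le_sqrt_of_sq_le
    rw [sq_abs]
    nlinarith [sq_nonneg ε]
  have h2 : |v x| / √(v x ^ 2 + ε ^ 2) ≤ 1 := div_le_one_of_le₀ h1 (Real.sqrt_nonneg _)
  calc _ ≤ 1 * ‖gradient v x‖ := mul_le_mul_of_nonneg_right h2 (norm_nonneg _)
    _ = _ := one_mul _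

theorem Adm.sm {ε : ℝ} (hε : 0 < ε) {v : EuclideanSpace ℝ (Fin d) → ℝ} (hv : Adm Ω v) :
    Adm Ω (fun x => sm ε (v x)) := by
  have hc : ContDiff ℝ 1 (fun x => Robin.sm ε (v x)) := (contDiff_sm hε).comp hv.contDiff
  have hcg : Continuous (gradient (fun x => Robin.sm ε (v x))) :=
    (InnerProductSpace.toDual ℝ _).symm.continuous.comp (hc.continuous_fderiv (by norm_num))
  have hb : ∀ x, ‖Robin.sm ε (v x)‖ ≤ ‖v x‖ := by
    intro x
    rw [Real.norm_eq_abs, Real.norm_eq_abs, abs_of_nonneg (sm_nonneg hε _)]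
    exact sm_le hε _
  exact ⟨hc, hv.memLp_u.of_le hc.continuous.aestronglyMeasurable (Eventually.of_forall hb),
    hv.memLp_g.of_le hcg.aestronglyMeasurable
      (Eventually.of_forall fun x => norm_gradient_sm_le hε hv.contDiff x),
    hv.memLp_t.of_le hc.continuous.aestronglyMeasurable (Eventually.of_forall hb)⟩

theorem En_sm_le (hα : 0 ≤ α) {ε : ℝ} (hε : 0 < ε) {v : EuclideanSpace ℝ (Fin d) → ℝ}
    (hv : Adm Ω v) : En Ω α (fun x => sm ε (v x)) ≤ En Ω α v := by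
  unfold En robinEnergy
  have hs := hv.sm hε
  have h1 : ∫ x in Ω, ‖gradient (fun x => sm ε (v x)) x‖ ^ 2 ≤ ∫ x in Ω, ‖gradient v x‖ ^ 2 := by
    apply integral_mono (hs.memLp_g.integrable_norm_pow (by norm_num))
      (hv.memLp_g.integrable_norm_pow (by norm_num))
    intro x
    exact pow_le_pow_left₀ (norm_nonneg _) (norm_gradient_sm_le hε hv.contDiff x) 2
  have h2 : ∫ x, sm ε (v x) ^ 2 ∂(surfaceMeasure Ω) ≤ ∫ x, v x ^ 2 ∂(surfaceMeasure Ω) := by
    apply integral_mono hs.memLp_t.integrable_sq hv.memLp_t.integrable_sq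
    intro x
    simp only
    rw [← sq_abs (v x)]
    exact pow_le_pow_left₀ (sm_nonneg hε _) (sm_le hε _) 2
  have h3 := mul_le_mul_of_nonneg_left h2 hα
  linarith

theorem nsq_sm_ge (hb : Bornology.IsBounded Ω) {ε : ℝ} (hε : 0 < ε)
    {v : EuclideanSpace ℝ (Fin d) → ℝ} (hv : Adm Ω v) :
    nsq Ω v - 2 * ε * (∫ x in Ω, |v x|) ≤ nsq Ω (fun x => sm ε (v x)) := by
  have : IsFiniteMeasure (volume.restrict Ω) := ⟨by
    rw [Measure.restrict_apply_univ]; exact hb.measure_lt_top⟩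
  have hi : Integrable (fun x => |v x|) (volume.restrict Ω) :=
    (hv.memLp_u.integrable (by norm_num)).abs
  unfold nsq
  rw [← integral_const_mul, ← integral_sub hv.memLp_u.integrable_sq (hi.const_mul _)]
  apply integral_mono (hv.memLp_u.integrable_sq.sub (hi.const_mul _))
    (hv.sm hε).memLp_u.integrable_sq
  intro x
  exact sq_sub_sm hε (v x)

/-- the infimum of the Rayleigh quotients -/
noncomputable def lam0 (Ω : Set (EuclideanSpace ℝ (Fin d))) (α : ℝ) : ℝ :=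
  sInf {r | ∃ v, Adm Ω v ∧ nsq Ω v ≠ 0 ∧ r = En Ω α v / nsq Ω v}

theorem lam0_nonneg (hα : 0 ≤ α) : 0 ≤ lam0 Ω α := by
  apply Real.sInf_nonneg
  rintro r ⟨v, _, _, rfl⟩
  exact div_nonneg (En_nonneg hα v) (nsq_nonneg v)

theorem lam0_mul_le (hα : 0 ≤ α) {v : EuclideanSpace ℝ (Fin d) → ℝ} (hv : Adm Ω v) :
    lam0 Ω α * nsq Ω v ≤ En Ω α v := by
  rcases (nsq_nonneg (Ω := Ω) v).eq_or_lt with h0 | h0
  · rw [← h0, mul_zero]
    exact En_nonneg hα v
  · rw [← le_div_iff₀ h0]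
    apply csInf_le
    · refine ⟨0, ?_⟩
      rintro r ⟨v, _, _, rfl⟩
      exact div_nonneg (En_nonneg hα v) (nsq_nonneg v)
    · exact ⟨v, hv, h0.ne', rfl⟩

theorem exists_adm (hΩ : IsOpen Ω) (hne : Ω.Nonempty) : ∃ v, Adm Ω v ∧ nsq Ω v ≠ 0 := by
  obtain ⟨x₀, hx₀⟩ := hne
  obtain ⟨f, hf1, hf2, hf3, _, hf5⟩ := exists_contDiff_tsupport_subset (n := 1)
    (hΩ.mem_nhds hx₀)
  have hcg : Continuous (gradient f) :=
    (InnerProductSpace.toDual ℝ _).symm.continuous.comp (hf3.continuous_fderiv (by norm_num))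
  have hgs : HasCompactSupport (gradient f) := by
    have h := hf2.fderiv ℝ
    refine h.mono fun x hx => ?_
    intro h0
    apply hx
    unfold gradient
    rw [h0]
    simp
  refine ⟨f, ⟨hf3, ?_, ?_, ?_⟩, ?_⟩
  · exact (hf3.continuous.memLp_of_hasCompactSupport hf2).restrict Ω
  · exact (hcg.memLp_of_hasCompactSupport hgs).restrict Ω
  · have h0 : f =ᵐ[surfaceMeasure Ω] 0 := by
      unfold surfaceMeasure
      rw [Filter.EventuallyEq, ae_restrict_iff' isClosed_frontier.measurableSet]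
      refine Eventually.of_forall fun x hx => ?_
      have : x ∉ Ω := by
        intro hxΩ
        rw [frontier, Set.mem_sdiff, hΩ.interior_eq] at hx
        exact hx.2 hxΩ
      exact image_eq_zero_of_notMem_tsupport fun h => this (hf1 h)
    exact (memLp_congr_ae h0).2 MemLp.zero
  · have hpos : 0 < ∫ x in Ω, f x ^ 2 := by
      rw [setIntegral_pos_iff_support_of_nonneg_ae]
      · have hsub : {x | f x ≠ 0} ∩ Ω ⊆ Function.support (fun x => f x ^ 2) ∩ Ω := by
          rintro x ⟨hx, hxΩ⟩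
          exact ⟨pow_ne_zero 2 hx, hxΩ⟩
        have hopen : IsOpen ({x | f x ≠ 0} ∩ Ω) :=
          (isOpen_ne_fun hf3.continuous continuous_const).inter hΩ
        refine lt_of_lt_of_le (hopen.measure_pos volume ⟨x₀, ?_, hx₀⟩) (measure_mono hsub)
        show f x₀ ≠ 0
        rw [hf5]
        norm_num
      · filter_upwards with x using sq_nonneg _
      · have : MemLp f 2 (volume.restrict Ω) :=
          (hf3.continuous.memLp_of_hasCompactSupport hf2).restrict Ω
        exact this.integrable_sq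
    exact hpos.ne'

/-- a nonnegative normalised minimising sequence -/
theorem exists_min_seq (hΩ : IsOpen Ω) (hne : Ω.Nonempty) (hb : Bornology.IsBounded Ω)
    (hα : 0 ≤ α) (n : ℕ) : ∃ v, Adm Ω v ∧ (∀ x, 0 ≤ v x) ∧ nsq Ω v = 1 ∧
      En Ω α v < lam0 Ω α + 1 / ((n : ℝ) + 1) := by
  obtain ⟨v₀, hv₀, hv₀'⟩ := exists_adm hΩ hne
  have hne' : {r | ∃ v, Adm Ω v ∧ nsq Ω v ≠ 0 ∧ r = En Ω α v / nsq Ω v}.Nonempty :=
    ⟨_, v₀, hv₀, hv₀', rfl⟩
  have hlt : lam0 Ω α < lam0 Ω α + 1 / ((n : ℝ) + 1) := by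
    have : (0:ℝ) < 1 / ((n : ℝ) + 1) := by positivity
    linarith
  obtain ⟨r, ⟨v, hv, hv0, rfl⟩, hr⟩ := exists_lt_of_csInf_lt hne' hlt
  have hvpos : 0 < nsq Ω v := lt_of_le_of_ne (nsq_nonneg v) hv0.symm
  set A := ∫ x in Ω, |v x| with hA
  have ht1 : Tendsto (fun ε : ℝ => nsq Ω v - 2 * ε * A) (𝓝[>] 0) (𝓝 (nsq Ω v)) := by
    have : Continuous (fun ε : ℝ => nsq Ω v - 2 * ε * A) := by fun_prop
    have h := this.tendsto 0
    simp only [mul_zero, zero_mul, sub_zero] at h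
    exact h.mono_left nhdsWithin_le_nhds
  have ht2 : Tendsto (fun ε : ℝ => En Ω α v / (nsq Ω v - 2 * ε * A)) (𝓝[>] 0)
      (𝓝 (En Ω α v / nsq Ω v)) := tendsto_const_nhds.div ht1 hv0
  have hev := (ht1.eventually (lt_mem_nhds hvpos)).and
    ((ht2.eventually (gt_mem_nhds hr)).and self_mem_nhdsWithin)
  obtain ⟨ε, h1, h2, hε⟩ := hev.exists
  have hε : 0 < ε := hε
  set w := fun x => sm ε (v x) with hw
  have hwa : Adm Ω w := hv.sm hε
  have hwn : nsq Ω v - 2 * ε * A ≤ nsq Ω w := nsq_sm_ge hb hε hv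
  have hwpos : 0 < nsq Ω w := h1.trans_le hwn
  have hwE : En Ω α w ≤ En Ω α v := En_sm_le hα hε hv
  set c := 1 / √(nsq Ω w) with hc
  have hc2 : c ^ 2 = 1 / nsq Ω w := by
    rw [hc, div_pow, one_pow, Real.sq_sqrt hwpos.le]
  refine ⟨fun x => c * w x, hwa.const_mul c, fun x => ?_, ?_, ?_⟩
  · have : 0 ≤ w x := sm_nonneg hε _
    positivity
  · rw [nsq_const_mul, hc2]
    field_simp
  · rw [En_const_mul hwa, hc2]
    calc 1 / nsq Ω w * En Ω α w = En Ω α w / nsq Ω w := by ring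
      _ ≤ En Ω α v / nsq Ω w := by gcongr
      _ ≤ En Ω α v / (nsq Ω v - 2 * ε * A) := by
          apply div_le_div_of_nonneg_left (En_nonneg hα v) h1 hwn
      _ < _ := h2

/-- Existence of a minimiser of the Rayleigh quotient, as a limit of nonnegative `C¹` functions. -/
theorem exists_minimiser (hΩ : IsOpen Ω) (hc : Convex ℝ Ω) (hne : Ω.Nonempty)
    (hb : Bornology.IsBounded Ω) (hα : 0 < α) :
    ∃ (v : ℕ → EuclideanSpace ℝ (Fin d) → ℝ) (u : EuclideanSpace ℝ (Fin d) → ℝ)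
      (g : EuclideanSpace ℝ (Fin d) → EuclideanSpace ℝ (Fin d))
      (t : EuclideanSpace ℝ (Fin d) → ℝ), (∀ n, Adm Ω (v n)) ∧ (∀ n x, 0 ≤ v n x) ∧
      StronglyMeasurable u ∧ MemLp u 2 (volume.restrict Ω) ∧ MemLp g 2 (volume.restrict Ω) ∧
      MemLp t 2 (surfaceMeasure Ω) ∧
      Tendsto (fun n => eLpNorm (fun x => v n x - u x) 2 (volume.restrict Ω)) atTop (𝓝 0) ∧
      Tendsto (fun n => eLpNorm (fun x => gradient (v n) x - g x) 2 (volume.restrict Ω))
        atTop (𝓝 0) ∧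
      Tendsto (fun n => eLpNorm (fun x => v n x - t x) 2 (surfaceMeasure Ω)) atTop (𝓝 0) ∧
      ∫ x in Ω, u x ^ 2 = 1 ∧ robinEnergy Ω α g t = lam0 Ω α := by
  choose v₀ hadm₀ hnn₀ hn₀ hE₀ using exists_min_seq hΩ hne hb hα.le
  set L := lam0 Ω α with hL
  have hLnn : 0 ≤ L := lam0_nonneg hα.le
  have hE1 : ∀ n, En Ω α (v₀ n) ≤ L + 1 := by
    intro n
    have h1 := (hE₀ n).le
    have h2 : (1:ℝ) / ((n : ℝ) + 1) ≤ 1 := by
      rw [div_le_one (by positivity)]
      have : (0:ℝ) ≤ n := Nat.cast_nonneg n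
      linarith
    linarith
  have hgle : ∀ w : EuclideanSpace ℝ (Fin d) → ℝ, ∫ x in Ω, ‖gradient w x‖ ^ 2 ≤ En Ω α w := by
    intro w
    unfold En robinEnergy
    have h2 : 0 ≤ ∫ x, w x ^ 2 ∂(surfaceMeasure Ω) := integral_nonneg fun x => by positivity
    nlinarith [mul_nonneg hα.le h2]
  have htle : ∀ w : EuclideanSpace ℝ (Fin d) → ℝ,
      ∫ x, w x ^ 2 ∂(surfaceMeasure Ω) ≤ En Ω α w / α := by
    intro w
    rw [le_div_iff₀ hα]
    unfold En robinEnergy
    have h2 : 0 ≤ ∫ x in Ω, ‖gradient w x‖ ^ 2 := integral_nonneg fun x => by positivity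
    linarith
  obtain ⟨φ, hφ, hcau⟩ := exists_cauchy_subseq hΩ.measurableSet hc hb
    (fun n => (hadm₀ n).contDiff) (fun n => (hadm₀ n).memLp_u) (fun n => (hadm₀ n).memLp_g)
    (A := 1) (B := L + 1) (fun n => (hn₀ n).le) (fun n => (hgle _).trans (hE1 n))
  set v : ℕ → EuclideanSpace ℝ (Fin d) → ℝ := fun n => v₀ (φ n) with hv
  have hadm : ∀ n, Adm Ω (v n) := fun n => hadm₀ _
  have hnv : ∀ n, nsq Ω (v n) = 1 := fun n => hn₀ _
  have hEv : ∀ n, En Ω α (v n) ≤ L + 1 / ((n : ℝ) + 1) := by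
    intro n
    refine (hE₀ (φ n)).le.trans ?_
    have h1 : (n : ℝ) ≤ φ n := by exact_mod_cast hφ.le_apply
    gcongr
  -- energies of differences
  have hdiff : ∀ ε > 0, ∃ n₀, ∀ n ≥ n₀, ∀ m ≥ n₀,
      En Ω α (fun x => v n x - v m x) ≤ ε := by
    intro ε hε
    obtain ⟨n₁, hn₁⟩ := hcau (ε / (2 * (L + 1))) (by positivity)
    obtain ⟨n₂, hn₂⟩ := exists_nat_gt (8 / ε)
    refine ⟨max n₁ n₂, fun n hn m hm => ?_⟩
    have h1 := hn₁ n (le_of_max_le_left hn) m (le_of_max_le_left hm)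
    have hsmall : ∀ k ≥ max n₁ n₂, En Ω α (v k) ≤ L + ε / 8 := by
      intro k hk
      refine (hEv k).trans ?_
      have h2 : (n₂ : ℝ) ≤ k := by exact_mod_cast (le_of_max_le_right hk)
      have h3 : 8 / ε < (k : ℝ) + 1 := by linarith
      have h4 : 1 / ((k : ℝ) + 1) ≤ ε / 8 := by
        rw [div_le_div_iff₀ (by positivity) (by norm_num)]
        rw [div_lt_iff₀ hε] at h3
        linarith
      linarith
    have p1 := En_parallelogram (α := α) (hadm n) (hadm m)
    have p2 := nsq_parallelogram (hadm n) (hadm m)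
    have p3 := lam0_mul_le hα.le ((hadm n).add (hadm m))
    rw [← hL] at p3
    rw [hnv, hnv] at p2
    have p4 : nsq Ω (fun x => v n x - v m x) ≤ ε / (2 * (L + 1)) := h1
    have p5 : L * nsq Ω (fun x => v n x - v m x) ≤ ε / 2 := by
      calc L * nsq Ω (fun x => v n x - v m x) ≤ L * (ε / (2 * (L + 1))) :=
            mul_le_mul_of_nonneg_left p4 hLnn
        _ = L / (L + 1) * (ε / 2) := by field_simp
        _ ≤ 1 * (ε / 2) := by
            apply mul_le_mul_of_nonneg_right _ (by positivity)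
            rw [div_le_one (by positivity)]
            linarith
        _ = ε / 2 := one_mul _
    have q1 := hsmall n hn
    have q2 := hsmall m hm
    have p6 : L * nsq Ω (fun x => v n x + v m x) = 4 * L - L * nsq Ω (fun x => v n x - v m x) := by
      have : nsq Ω (fun x => v n x + v m x) = 4 - nsq Ω (fun x => v n x - v m x) := by linarith
      rw [this]
      ring
    linarith
  obtain ⟨u, hum, hu, hulim⟩ := exists_limit_L2 (V := ℝ) (fun n => (hadm n).memLp_u) (by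
    intro ε hε
    obtain ⟨n₀, h⟩ := hcau ε hε
    refine ⟨n₀, fun n hn m hm => ?_⟩
    simp only [Real.norm_eq_abs, sq_abs]
    exact h n hn m hm)
  obtain ⟨g, _, hg, hglim⟩ := exists_limit_L2 (fun n => (hadm n).memLp_g) (by
    intro ε hε
    obtain ⟨n₀, h⟩ := hdiff ε hε
    refine ⟨n₀, fun n hn m hm => ?_⟩
    have h2 := (hgle _).trans (h n hn m hm)
    have e : gradient (fun x => v n x - v m x) = fun x => gradient (v n) x - gradient (v m) x := by
      ext1 x; exact gradient_sub' (hadm n).contDiff (hadm m).contDiff x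
    rw [e] at h2
    exact h2)
  obtain ⟨t, _, ht, htlim⟩ := exists_limit_L2 (V := ℝ) (fun n => (hadm n).memLp_t) (by
    intro ε hε
    obtain ⟨n₀, h⟩ := hdiff (α * ε) (by positivity)
    refine ⟨n₀, fun n hn m hm => ?_⟩
    simp only [Real.norm_eq_abs, sq_abs]
    have h2 := htle (fun x => v n x - v m x)
    have h3 := h n hn m hm
    calc _ ≤ En Ω α (fun x => v n x - v m x) / α := h2
      _ ≤ α * ε / α := by gcongr
      _ = ε := by field_simp)
  refine ⟨v, u, g, t, hadm, fun n x => hnn₀ _ x, hum, hu, hg, ht, hulim, hglim, htlim, ?_, ?_⟩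
  · have h1 := tendsto_normSq (fun n => (hadm n).memLp_u) hu hulim
    simp only [Real.norm_eq_abs, sq_abs] at h1
    have h2 : ∀ n, ∫ x in Ω, v n x ^ 2 = 1 := hnv
    simp only [h2] at h1
    exact tendsto_nhds_unique h1 tendsto_const_nhds
  · have t2 := tendsto_normSq (fun n => (hadm n).memLp_g) hg hglim
    have t3 := tendsto_normSq (fun n => (hadm n).memLp_t) ht htlim
    simp only [Real.norm_eq_abs, sq_abs] at t3
    have t4 := t2.add (t3.const_mul α)
    have t5 : Tendsto (fun n => En Ω α (v n)) atTop (𝓝 (robinEnergy Ω α g t)) := t4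
    have t6 : Tendsto (fun n => En Ω α (v n)) atTop (𝓝 L) := by
      have h1 : Tendsto (fun n : ℕ => L + 1 / ((n : ℝ) + 1)) atTop (𝓝 L) := by
        have := tendsto_one_div_add_atTop_nhds_zero_nat (𝕜 := ℝ)
        simpa using this.const_add L
      refine tendsto_of_tendsto_of_tendsto_of_le_of_le tendsto_const_nhds h1 (fun n => ?_) hEv
      have := lam0_mul_le hα.le (hadm n)
      rw [hnv, mul_one] at this
      exact this
    exact tendsto_nhds_unique t5 t6

end Pool.Agent.Helper77.Robin
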