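import Pool.Agent.Helper77.Robin.VeryWeak

set_option autoImplicit false
set_option linter.unusedSectionVars false

open MeasureTheory Filter Topology Set
open scoped RealInnerProductSpace

namespace Pool.Agent.Helper77.Robin

section line

variable {E : Type*} [NormedAddCommGroup E] [InnerProductSpace ℝ E]

theorem concaveOn_line {f : E → ℝ} {Ω : Set E} (hc : ConcaveOn ℝ Ω f) (x v : E) :
    ConcaveOn ℝ {s : ℝ | x + s • v ∈ Ω} (fun s => f (x + s • v)) := by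
  have e : ∀ (a b s t : ℝ), a + b = 1 →
      x + (a • s + b • t) • v = a • (x + s • v) + b • (x + t • v) := by
    intro a b s t hab
    have : x = (a + b) • x := by rw [hab, one_smul]
    nth_rewrite 1 [this]
    simp only [add_smul, smul_add, smul_smul, smul_eq_mul]
    abel
  refine ⟨?_, ?_⟩
  · intro s hs t ht a b ha hb hab
    have h1 : x + s • v ∈ Ω := hs
    have h2 : x + t • v ∈ Ω := ht
    show x + (a • s + b • t) • v ∈ Ω
    rw [e a b s t hab]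
    exact hc.1 h1 h2 ha hb hab
  · intro s hs t ht a b ha hb hab
    have h1 : x + s • v ∈ Ω := hs
    have h2 : x + t • v ∈ Ω := ht
    simp only
    rw [e a b s t hab]
    exact hc.2 h1 h2 ha hb hab

theorem concave_slopes {h : ℝ → ℝ} {I : Set ℝ} (hc : ConcaveOn ℝ I h) {a b c d : ℝ}
    (ha : a ∈ I) (hd : d ∈ I) (hab : a < b) (hbc : b ≤ c) (hcd : c < d) :
    (h d - h c) / (d - c) ≤ (h b - h a) / (b - a) := by
  rcases hbc.eq_or_lt with rfl | hbc
  · exact hc.slope_anti_adjacent ha hd hab hcd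
  · have hb : b ∈ I := hc.1.ordConnected.out ha hd ⟨hab.le, (hbc.trans hcd).le⟩
    have hc' : c ∈ I := hc.1.ordConnected.out ha hd ⟨(hab.trans hbc).le, hcd.le⟩
    exact (hc.slope_anti_adjacent hb hd hbc hcd).trans (hc.slope_anti_adjacent ha hc' hab hbc)

theorem slope_line {f : E → ℝ} {Ω : Set E} (hc : ConcaveOn ℝ Ω f) (x v : E) {a b c d : ℝ}
    (ha : x + a • v ∈ Ω) (hd : x + d • v ∈ Ω) (hab : a < b) (hbc : b ≤ c) (hcd : c < d) :
    (f (x + d • v) - f (x + c • v)) / (d - c) ≤ (f (x + b • v) - f (x + a • v)) / (b - a) :=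
  concave_slopes (concaveOn_line hc x v) (I := {s : ℝ | x + s • v ∈ Ω}) ha hd hab hbc hcd

end line

variable {m : ℕ}
variable {Θ : WithLp 2 (ℝ × EuclideanSpace ℝ (Fin m)) ≃ₗᵢ[ℝ] EuclideanSpace ℝ (Fin (m + 1))}
  {y₀ : EuclideanSpace ℝ (Fin (m + 1))} {Ω : Set (EuclideanSpace ℝ (Fin (m + 1)))} {δ : ℝ}

theorem IsFlat.J_mem (hf : IsFlat Ω y₀ (nrm Θ) δ) {s : ℝ} {τ : EuclideanSpace ℝ (Fin m)}
    (hs : 0 < s) (h : s ^ 2 + ‖τ‖ ^ 2 < δ ^ 2) : J Θ y₀ (s, τ) ∈ Ω := by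
  have h1 : dist (J Θ y₀ (s, τ)) y₀ < δ := by
    rw [dist_eq_norm]
    have h2 := norm_J_sub_sq Θ y₀ (s, τ)
    simp only at h2
    have := hf.pos
    nlinarith [norm_nonneg (J Θ y₀ (s, τ) - y₀)]
  rw [hf.mem_iff _ h1, inner_J_sub_nrm]
  exact hs

theorem integrableOn_box {u : EuclideanSpace ℝ (Fin (m + 1)) → ℝ} (hu : IntegrableOn u Ω)
    {ε r : ℝ} {τ₁ : EuclideanSpace ℝ (Fin m)}
    (hbox : ∀ p ∈ Ioo (0:ℝ) ε ×ˢ Metric.ball τ₁ r, J Θ y₀ p ∈ Ω)
    {K : ℝ × EuclideanSpace ℝ (Fin m) → ℝ} (hK : ContinuousOn K (Icc (0:ℝ) ε ×ˢ Metric.closedBall τ₁ r)) :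
    IntegrableOn (fun p => u (J Θ y₀ p) * K p) (Ioo (0:ℝ) ε ×ˢ Metric.ball τ₁ r) := by
  have : SecondCountableTopology (EuclideanSpace ℝ (Fin m)) := secondCountable_of_proper
  have h1 : IntegrableOn (u ∘ J Θ y₀) (Ioo (0:ℝ) ε ×ˢ Metric.ball τ₁ r) :=
    (((measurePreserving_J Θ y₀).integrableOn_comp_preimage (measurableEmbedding_J Θ y₀)).2
      hu).mono_set hbox
  have hsub : Ioo (0:ℝ) ε ×ˢ Metric.ball τ₁ r ⊆ Icc (0:ℝ) ε ×ˢ Metric.closedBall τ₁ r :=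
    prod_mono Ioo_subset_Icc_self Metric.ball_subset_closedBall
  have hms : MeasurableSet (Ioo (0:ℝ) ε ×ˢ Metric.ball τ₁ r) :=
    measurableSet_Ioo.prod measurableSet_ball
  obtain ⟨C, hC⟩ := (isCompact_Icc.prod (isCompact_closedBall τ₁ r)).exists_bound_of_continuousOn hK
  have h2 : AEStronglyMeasurable K
      (volume.restrict (Ioo (0:ℝ) ε ×ˢ Metric.ball τ₁ r)) :=
    (hK.mono hsub).aestronglyMeasurable hms
  have h3 := Integrable.bdd_mul (c := C) h1 h2 (by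
    rw [ae_restrict_iff' hms]
    exact Eventually.of_forall fun p hp => hC p (hsub hp))
  refine h3.congr ?_
  filter_upwards with p
  simp only [Function.comp]
  ring

/-- In the direction of the inner normal, near a flat boundary point, the slopes of `log u` are at
most `α`. -/
theorem normal_slope_le {α lam : ℝ} (hα : 0 ≤ α) (hlam : 0 ≤ lam)
    {u : EuclideanSpace ℝ (Fin (m + 1)) → ℝ}
    (hΩ : IsOpen Ω) (hW : IsVeryWeak Ω α lam u) (hpos : ∀ x ∈ Ω, 0 < u x)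
    (hc : ConcaveOn ℝ Ω (fun x => Real.log (u x)))
    (hf : IsFlat Ω y₀ (nrm Θ) δ) {s₁ t : ℝ} {τ₁ : EuclideanSpace ℝ (Fin m)}
    (hs₁ : 0 < s₁) (ht : 0 < t) (hbox : (s₁ + t) ^ 2 + ‖τ₁‖ ^ 2 < δ ^ 2) :
    Real.log (u (J Θ y₀ (s₁ + t, τ₁))) - Real.log (u (J Θ y₀ (s₁, τ₁))) ≤ α * t := by
  by_contra hcon
  push Not at hcon
  set f : EuclideanSpace ℝ (Fin (m + 1)) → ℝ := fun x => Real.log (u x) with hfdef
  set g : EuclideanSpace ℝ (Fin m) → ℝ := fun τ => f (J Θ y₀ (s₁ + t, τ)) - f (J Θ y₀ (s₁, τ))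
    with hg
  have hgτ : α * t < g τ₁ := hcon
  set β : ℝ := (α + g τ₁ / t) / 2 with hβ
  have hgt : α < g τ₁ / t := by rw [lt_div_iff₀ ht]; exact hgτ
  have hβα : α < β := by rw [hβ]; linarith
  have hβg : β * t < g τ₁ := by
    have : β < g τ₁ / t := by rw [hβ]; linarith
    rwa [lt_div_iff₀ ht] at this
  have hcf : ContinuousOn f Ω := hc.continuousOn hΩ
  have hδ := hf.pos
  have hcont : ContinuousAt g τ₁ := by
    have h1 : J Θ y₀ (s₁ + t, τ₁) ∈ Ω := hf.J_mem (by linarith) hbox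
    have h2 : J Θ y₀ (s₁, τ₁) ∈ Ω := hf.J_mem hs₁ (by nlinarith)
    have h3 : ContinuousAt (fun τ => J Θ y₀ (s₁ + t, τ)) τ₁ :=
      (isometry_J_right Θ y₀ _).continuous.continuousAt
    have h4 : ContinuousAt (fun τ => J Θ y₀ (s₁, τ)) τ₁ :=
      (isometry_J_right Θ y₀ _).continuous.continuousAt
    have h5 : ContinuousAt (fun τ => f (J Θ y₀ (s₁ + t, τ))) τ₁ :=
      ContinuousAt.comp (g := f) (f := fun τ => J Θ y₀ (s₁ + t, τ))
        (hcf.continuousAt (hΩ.mem_nhds h1)) h3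
    have h6 : ContinuousAt (fun τ => f (J Θ y₀ (s₁, τ))) τ₁ :=
      ContinuousAt.comp (g := f) (f := fun τ => J Θ y₀ (s₁, τ))
        (hcf.continuousAt (hΩ.mem_nhds h2)) h4
    exact h5.sub h6
  obtain ⟨r, hr, hrg, hrδ⟩ : ∃ r > 0, (∀ τ, ‖τ - τ₁‖ ≤ r → β * t < g τ) ∧
      (s₁ + t) ^ 2 + (‖τ₁‖ + r) ^ 2 < δ ^ 2 := by
    have h1 : ∀ᶠ τ in 𝓝 τ₁, β * t < g τ := hcont.eventually_const_lt hβg
    obtain ⟨r₁, hr₁, hr₁'⟩ := Metric.eventually_nhds_iff.1 h1
    have h2 : ∀ᶠ r in 𝓝 (0:ℝ), (s₁ + t) ^ 2 + (‖τ₁‖ + r) ^ 2 < δ ^ 2 := by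
      have hc2 : ContinuousAt (fun r : ℝ => (s₁ + t) ^ 2 + (‖τ₁‖ + r) ^ 2) 0 := by fun_prop
      exact hc2.eventually_lt_const (by simpa using hbox)
    obtain ⟨r₂, hr₂, hr₂'⟩ := Metric.eventually_nhds_iff.1 h2
    refine ⟨min r₁ r₂ / 2, by positivity, fun τ hτ => hr₁' ?_, hr₂' ?_⟩
    · rw [dist_eq_norm]
      have := min_le_left r₁ r₂
      linarith
    · rw [Real.dist_eq, sub_zero, abs_of_pos (by positivity)]
      have := min_le_right r₁ r₂
      have : 0 < min r₁ r₂ := lt_min hr₁ hr₂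
      linarith
  have hmem : ∀ s τ, 0 < s → s ≤ s₁ + t → ‖τ - τ₁‖ ≤ r → J Θ y₀ (s, τ) ∈ Ω := by
    intro s τ hs hs' hτ
    apply hf.J_mem hs
    have h3 : ‖τ‖ ≤ ‖τ₁‖ + r := by
      calc ‖τ‖ = ‖(τ - τ₁) + τ₁‖ := by simp
        _ ≤ ‖τ - τ₁‖ + ‖τ₁‖ := norm_add_le _ _
        _ ≤ ‖τ₁‖ + r := by linarith
    have h6 : ‖τ‖ ^ 2 ≤ (‖τ₁‖ + r) ^ 2 := pow_le_pow_left₀ (norm_nonneg _) h3 2
    nlinarith
  -- monotonicity of `u e^{-β s}`
  have hJline : ∀ s τ, J Θ y₀ (s, τ) = J Θ y₀ (0, τ) + s • nrm Θ := by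
    intro s τ
    have := J_add_nrm Θ y₀ 0 s τ
    rwa [zero_add] at this
  have hmono : ∀ s s' τ, 0 < s → s ≤ s' → s' ≤ s₁ → ‖τ - τ₁‖ ≤ r →
      u (J Θ y₀ (s, τ)) * Real.exp (-(β * s)) ≤ u (J Θ y₀ (s', τ)) * Real.exp (-(β * s')) := by
    intro s s' τ hs hss hs' hτ
    rcases hss.eq_or_lt with rfl | hss
    · exact le_rfl
    have ha := hmem s τ hs (by linarith) hτ
    have ha' := hmem s' τ (by linarith) (by linarith) hτ
    have hd := hmem (s₁ + t) τ (by linarith) le_rfl hτ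
    rw [hJline] at ha hd
    have h1 := slope_line hc (J Θ y₀ (0, τ)) (nrm Θ) (a := s) (b := s') (c := s₁) (d := s₁ + t)
      ha hd hss hs' (by linarith)
    rw [← hJline, ← hJline, ← hJline, ← hJline] at h1
    have h2 : β < (f (J Θ y₀ (s₁ + t, τ)) - f (J Θ y₀ (s₁, τ))) / (s₁ + t - s₁) := by
      rw [add_sub_cancel_left, lt_div_iff₀ ht]
      exact hrg τ hτ
    have h3 : β < (f (J Θ y₀ (s', τ)) - f (J Θ y₀ (s, τ))) / (s' - s) := lt_of_lt_of_le h2 h1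
    rw [lt_div_iff₀ (by linarith)] at h3
    have hp1 := hpos _ (hmem s τ hs (by linarith) hτ)
    have hp2 := hpos _ ha'
    have h4 : f (J Θ y₀ (s, τ)) + -(β * s) ≤ f (J Θ y₀ (s', τ)) + -(β * s') := by
      nlinarith
    have h5 := Real.exp_le_exp.mpr h4
    rw [Real.exp_add, Real.exp_add, hfdef] at h5
    simp only at h5
    rwa [Real.exp_log hp1, Real.exp_log hp2] at h5
  -- constants
  set C₁ : ℝ := (24 + 6 * (Fintype.card (Fin m) : ℝ)) ^ 2 / (96 * r ^ 2) with hC₁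
  have hC₁0 : 0 ≤ C₁ := by positivity
  obtain ⟨ε, hε, hεs, hε1, hε2, hε3⟩ : ∃ ε : ℝ, 0 < ε ∧ ε < s₁ ∧ α * ε ≤ 1 ∧ C₁ * ε ^ 2 ≤ 12 ∧
      |β ^ 2 - C₁| * (5 * Real.exp (|β| * ε) * ε) < β - α := by
    have c1 : ContinuousAt (fun ε : ℝ => ε) 0 := by fun_prop
    have c2 : ContinuousAt (fun ε : ℝ => α * ε) 0 := by fun_prop
    have c3 : ContinuousAt (fun ε : ℝ => C₁ * ε ^ 2) 0 := by fun_prop
    have c4 : ContinuousAt (fun ε : ℝ => |β ^ 2 - C₁| * (5 * Real.exp (|β| * ε) * ε)) 0 := by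
      fun_prop
    have e1 : ∀ᶠ ε in 𝓝 (0:ℝ), ε < s₁ := c1.eventually_lt_const hs₁
    have e2 : ∀ᶠ ε in 𝓝 (0:ℝ), α * ε < 1 := c2.eventually_lt_const (by simp)
    have e3 : ∀ᶠ ε in 𝓝 (0:ℝ), C₁ * ε ^ 2 < 12 := c3.eventually_lt_const (by simp)
    have e4 : ∀ᶠ ε in 𝓝 (0:ℝ), |β ^ 2 - C₁| * (5 * Real.exp (|β| * ε) * ε) < β - α :=
      c4.eventually_lt_const (by simp; linarith)
    obtain ⟨ρ, hρ, hall⟩ := Metric.eventually_nhds_iff.1 (e1.and (e2.and (e3.and e4)))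
    have hd : dist (ρ / 2) 0 < ρ := by
      rw [Real.dist_eq, sub_zero, abs_of_pos (by positivity)]
      linarith
    obtain ⟨a1, a2, a3, a4⟩ := hall hd
    exact ⟨ρ / 2, by positivity, a1, a2.le, a3.le, a4⟩
  obtain ⟨ξ, hξ, hξ0, hξ1, hξ2, hξ3, hξ4⟩ := exists_profile (a := α) hε
  obtain ⟨s₀, hs₀, hcr1, hcr2⟩ := exists_crossing (C := C₁) hα hC₁0 hε hε2
  set ζ : EuclideanSpace ℝ (Fin m) → ℝ := bump r τ₁ with hζ
  have hid := flat_identity hΩ hW hf hξ (contDiff_bump r τ₁) hξ0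
    (fun τ h => bump_eq_zero hr.le h) (fun τ h => lapl_bump_eq_zero _ hr.le h)
    (by nlinarith) (by rw [hξ1, hξ2, mul_one])
  -- weights
  set c₀ : ℝ := ∫ s in Ioo 0 ε, Real.exp (β * s) * (X2 α ε s - C₁ * X α ε s) with hc₀
  have hc₀pos : 0 < c₀ := by
    have h := integral_profile_approx (a := α) (β := β) (C := C₁) hα hε hε1
    have h2 := (abs_le.1 h).1
    rw [← hc₀] at h2
    linarith
  set V : EuclideanSpace ℝ (Fin m) → ℝ :=
    fun τ => ζ τ * (u (J Θ y₀ (s₀, τ)) * Real.exp (-(β * s₀))) with hV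
  have huc : ContinuousOn u Ω := by
    have h1 : ContinuousOn (fun x => Real.exp (f x)) Ω := Real.continuous_exp.comp_continuousOn hcf
    refine h1.congr fun x hx => ?_
    rw [hfdef]
    exact (Real.exp_log (hpos x hx)).symm
  have hVc : ContinuousOn V (Metric.closedBall τ₁ r) := by
    rw [hV]
    refine (contDiff_bump r τ₁).continuous.continuousOn.mul (ContinuousOn.mul ?_ continuousOn_const)
    refine huc.comp (isometry_J_right Θ y₀ s₀).continuous.continuousOn ?_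
    intro τ hτ
    rw [mem_closedBall_iff_norm] at hτ
    exact hmem s₀ τ hs₀.1 (by linarith [hs₀.2]) hτ
  have hVi : IntegrableOn V (Metric.ball τ₁ r) :=
    (hVc.integrableOn_compact (isCompact_closedBall τ₁ r)).mono_set Metric.ball_subset_closedBall
  have hVpos : 0 < ∫ τ in Metric.ball τ₁ r, V τ := by
    rw [setIntegral_pos_iff_support_of_nonneg_ae]
    · have hsub : Metric.ball τ₁ r ⊆ Function.support V ∩ Metric.ball τ₁ r := by
        intro τ hτ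
        refine ⟨?_, hτ⟩
        rw [mem_ball_iff_norm] at hτ
        have h1 : 0 < ζ τ := bump_pos hτ
        have h2 : 0 < u (J Θ y₀ (s₀, τ)) :=
          hpos _ (hmem s₀ τ hs₀.1 (by linarith [hs₀.2]) hτ.le)
        have : 0 < V τ := by rw [hV]; positivity
        exact this.ne'
      exact lt_of_lt_of_le (Metric.measure_ball_pos volume τ₁ hr) (measure_mono hsub)
    · rw [EventuallyLE, ae_restrict_iff' measurableSet_ball]
      refine Eventually.of_forall fun τ hτ => ?_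
      rw [mem_ball_iff_norm] at hτ
      have h1 : 0 ≤ ζ τ := bump_nonneg _ _ _
      have h2 : 0 < u (J Θ y₀ (s₀, τ)) :=
        hpos _ (hmem s₀ τ hs₀.1 (by linarith [hs₀.2]) hτ.le)
      simp only [Pi.zero_apply, hV]
      positivity
    · exact hVi
  have hboxmem : ∀ p ∈ Ioo (0:ℝ) ε ×ˢ Metric.ball τ₁ r, J Θ y₀ p ∈ Ω := by
    rintro ⟨s, τ⟩ ⟨h1, h2⟩
    rw [mem_ball_iff_norm] at h2
    exact hmem s τ h1.1 (by linarith [h1.2]) h2.le
  have hi1 : IntegrableOn (fun p : ℝ × EuclideanSpace ℝ (Fin m) => u (J Θ y₀ p) *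
      (deriv (deriv ξ) p.1 * ζ p.2 + ξ p.1 * lapl (EuclideanSpace.basisFun (Fin m) ℝ) ζ p.2
        + lam * (ξ p.1 * ζ p.2))) (Ioo (0:ℝ) ε ×ˢ Metric.ball τ₁ r) := by
    apply integrableOn_box hW.integrableOn hboxmem
    apply Continuous.continuousOn
    have k1 : Continuous ξ := hξ.continuous
    have k2 : Continuous ζ := (contDiff_bump r τ₁).continuous
    have k3 : Continuous (lapl (EuclideanSpace.basisFun (Fin m) ℝ) ζ) :=
      continuous_lapl _ (contDiff_bump r τ₁)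
    have hdξ : ContDiff ℝ 1 (deriv ξ) := by
      have h : ContDiff ℝ (1 + 1) ξ := by simpa [one_add_one_eq_two] using hξ
      exact ((contDiff_succ_iff_deriv).1 h).2.2
    have k4 : Continuous (deriv (deriv ξ)) := hdξ.continuous_deriv (by norm_num)
    fun_prop
  have hi2 : IntegrableOn (fun p : ℝ × EuclideanSpace ℝ (Fin m) =>
      (Real.exp (β * p.1) * (X2 α ε p.1 - C₁ * X α ε p.1)) * V p.2)
      (Ioo (0:ℝ) ε ×ˢ Metric.ball τ₁ r) := by
    rw [IntegrableOn, Measure.volume_eq_prod, ← Measure.prod_restrict]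
    refine Integrable.mul_prod (f := fun s => Real.exp (β * s) * (X2 α ε s - C₁ * X α ε s)) ?_ hVi
    have c1 : Continuous (fun s => Real.exp (β * s) * (X2 α ε s - C₁ * X α ε s)) := by
      have := continuous_X α ε
      have := continuous_X2 α ε
      fun_prop
    exact (c1.integrableOn_Icc).mono_set Ioo_subset_Icc_self
  have hle : ∫ p in Ioo (0:ℝ) ε ×ˢ Metric.ball τ₁ r,
        (Real.exp (β * p.1) * (X2 α ε p.1 - C₁ * X α ε p.1)) * V p.2
      ≤ ∫ p in Ioo (0:ℝ) ε ×ˢ Metric.ball τ₁ r, u (J Θ y₀ p) *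
      (deriv (deriv ξ) p.1 * ζ p.2 + ξ p.1 * lapl (EuclideanSpace.basisFun (Fin m) ℝ) ζ p.2
        + lam * (ξ p.1 * ζ p.2)) := by
    refine setIntegral_mono_on hi2 hi1 (measurableSet_Ioo.prod measurableSet_ball) ?_
    rintro ⟨s, τ⟩ ⟨h1, h2⟩
    rw [mem_ball_iff_norm] at h2
    simp only at h1 h2 ⊢
    have hup : 0 < u (J Θ y₀ (s, τ)) := hpos _ (hmem s τ h1.1 (by linarith [h1.2]) h2.le)
    have hζ0 : 0 ≤ ζ τ := bump_nonneg _ _ _
    have hX0 : 0 ≤ X α ε s := X_nonneg hα hε (Ioo_subset_Icc_self h1)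
    have hlap := lapl_bump_ge (EuclideanSpace.basisFun (Fin m) ℝ) hr τ₁ τ
    rw [← hC₁] at hlap
    rw [hξ3 s h1, hξ4 s h1]
    -- first step
    have st1 : u (J Θ y₀ (s, τ)) * (ζ τ * (X2 α ε s - C₁ * X α ε s))
        ≤ u (J Θ y₀ (s, τ)) * (X2 α ε s * ζ τ
          + X α ε s * lapl (EuclideanSpace.basisFun (Fin m) ℝ) ζ τ
          + lam * (X α ε s * ζ τ)) := by
      refine mul_le_mul_of_nonneg_left ?_ hup.le
      have a1 : X α ε s * (-C₁ * ζ τ) ≤ X α ε s * lapl (EuclideanSpace.basisFun (Fin m) ℝ) ζ τ :=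
        mul_le_mul_of_nonneg_left hlap hX0
      have a2 : 0 ≤ lam * (X α ε s * ζ τ) := by positivity
      nlinarith
    refine le_trans ?_ st1
    -- second step
    have st2 : (u (J Θ y₀ (s₀, τ)) * Real.exp (-(β * s₀))) * (X2 α ε s - C₁ * X α ε s)
        ≤ (u (J Θ y₀ (s, τ)) * Real.exp (-(β * s))) * (X2 α ε s - C₁ * X α ε s) := by
      rcases le_total s s₀ with h | h
      · have b1 := hmono s s₀ τ h1.1 h (by linarith [hs₀.2]) h2.le
        have b2 := hcr1 s h1 h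
        nlinarith
      · have b1 := hmono s₀ s τ hs₀.1 h (by linarith [h1.2]) h2.le
        have b2 := hcr2 s h1 h
        nlinarith
    have hexp : Real.exp (β * s) * Real.exp (-(β * s)) = 1 := by
      rw [← Real.exp_add]; simp
    calc (Real.exp (β * s) * (X2 α ε s - C₁ * X α ε s)) * V τ
        = (Real.exp (β * s) * ζ τ) * ((u (J Θ y₀ (s₀, τ)) * Real.exp (-(β * s₀)))
            * (X2 α ε s - C₁ * X α ε s)) := by rw [hV]; ring
      _ ≤ (Real.exp (β * s) * ζ τ) * ((u (J Θ y₀ (s, τ)) * Real.exp (-(β * s)))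
            * (X2 α ε s - C₁ * X α ε s)) :=
          mul_le_mul_of_nonneg_left st2 (by positivity)
      _ = (Real.exp (β * s) * Real.exp (-(β * s))) * (u (J Θ y₀ (s, τ))
            * (ζ τ * (X2 α ε s - C₁ * X α ε s))) := by ring
      _ = u (J Θ y₀ (s, τ)) * (ζ τ * (X2 α ε s - C₁ * X α ε s)) := by rw [hexp, one_mul]
  rw [hid] at hle
  have hprod : ∫ p in Ioo (0:ℝ) ε ×ˢ Metric.ball τ₁ r,
        (Real.exp (β * p.1) * (X2 α ε p.1 - C₁ * X α ε p.1)) * V p.2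
      = c₀ * ∫ τ in Metric.ball τ₁ r, V τ := by
    rw [Measure.volume_eq_prod]
    exact setIntegral_prod_mul (fun s => Real.exp (β * s) * (X2 α ε s - C₁ * X α ε s)) V _ _
  rw [hprod] at hle
  have := mul_pos hc₀pos hVpos
  linarith

end Pool.Agent.Helper77.Robin
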