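import Pool.Agent.Helper77.Robin.NormalSlope

set_option autoImplicit false
set_option linter.unusedSectionVars false

open MeasureTheory Filter Topology Set
open scoped RealInnerProductSpace

namespace Pool.Agent.Helper77.Robin

variable {m : ℕ}
variable {Θ : WithLp 2 (ℝ × EuclideanSpace ℝ (Fin m)) ≃ₗᵢ[ℝ] EuclideanSpace ℝ (Fin (m + 1))}
  {y₀ : EuclideanSpace ℝ (Fin (m + 1))} {Ω : Set (EuclideanSpace ℝ (Fin (m + 1)))} {δ : ℝ}

theorem continuous_deriv_deriv {ξ : ℝ → ℝ} (hξ : ContDiff ℝ 2 ξ) :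
    Continuous (deriv (deriv ξ)) := by
  have hdξ : ContDiff ℝ 1 (deriv ξ) := by
    have h : ContDiff ℝ (1 + 1) ξ := by simpa [one_add_one_eq_two] using hξ
    exact ((contDiff_succ_iff_deriv).1 h).2.2
  exact hdξ.continuous_deriv (by norm_num)

theorem integrableOn_prod_box {f : ℝ → ℝ} {V : EuclideanSpace ℝ (Fin m) → ℝ} {ε r : ℝ}
    {τ₁ : EuclideanSpace ℝ (Fin m)} (hf : Continuous f)
    (hV : IntegrableOn V (Metric.ball τ₁ r)) :
    IntegrableOn (fun p : ℝ × EuclideanSpace ℝ (Fin m) => f p.1 * V p.2)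
      (Ioo (0:ℝ) ε ×ˢ Metric.ball τ₁ r) := by
  rw [IntegrableOn, Measure.volume_eq_prod, ← Measure.prod_restrict]
  exact Integrable.mul_prod ((hf.integrableOn_Icc).mono_set Ioo_subset_Icc_self) hV

theorem integral_prod_box (f : ℝ → ℝ) (V : EuclideanSpace ℝ (Fin m) → ℝ) (ε r : ℝ)
    (τ₁ : EuclideanSpace ℝ (Fin m)) :
    ∫ p in Ioo (0:ℝ) ε ×ˢ Metric.ball τ₁ r, f p.1 * V p.2
      = (∫ s in Ioo (0:ℝ) ε, f s) * ∫ τ in Metric.ball τ₁ r, V τ := by
  rw [Measure.volume_eq_prod]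
  exact setIntegral_prod_mul f V _ _

/-- Near a flat boundary point the slopes of `log u` in the direction of the inner normal cannot
all be `≤ β < α`. -/
theorem normal_slope_ge_contra {α lam β m₀ M₀ s₁ r : ℝ} (hα : 0 ≤ α)
    {u : EuclideanSpace ℝ (Fin (m + 1)) → ℝ}
    (hΩ : IsOpen Ω) (hW : IsVeryWeak Ω α lam u)
    (huc : ContinuousOn u Ω)
    (hf : IsFlat Ω y₀ (nrm Θ) δ) (hβ : β < α) (hr : 0 < r) (hs₁ : 0 < s₁)
    (hbox : s₁ ^ 2 + r ^ 2 < δ ^ 2) (hm₀ : 0 < m₀)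
    (hmono : ∀ s s' (τ : EuclideanSpace ℝ (Fin m)), 0 < s → s ≤ s' → s' ≤ s₁ → ‖τ‖ ≤ r →
      u (J Θ y₀ (s', τ)) * Real.exp (-(β * s')) ≤ u (J Θ y₀ (s, τ)) * Real.exp (-(β * s)))
    (hlow : ∀ s (τ : EuclideanSpace ℝ (Fin m)), 0 < s → s ≤ s₁ → ‖τ‖ ≤ r →
      m₀ ≤ u (J Θ y₀ (s, τ)))
    (hup : ∀ s (τ : EuclideanSpace ℝ (Fin m)), 0 < s → s ≤ s₁ → ‖τ‖ ≤ r →
      u (J Θ y₀ (s, τ)) ≤ M₀) : False := by
  have hδ := hf.pos
  have hM₀ : 0 < M₀ := by
    have h1 := hlow s₁ 0 hs₁ le_rfl (by simpa using hr.le)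
    have h2 := hup s₁ 0 hs₁ le_rfl (by simpa using hr.le)
    linarith
  have hmem : ∀ s (τ : EuclideanSpace ℝ (Fin m)), 0 < s → s ≤ s₁ → ‖τ‖ ≤ r →
      J Θ y₀ (s, τ) ∈ Ω := by
    intro s τ hs hs' hτ
    apply hf.J_mem hs
    have h6 : ‖τ‖ ^ 2 ≤ r ^ 2 := pow_le_pow_left₀ (norm_nonneg _) hτ 2
    nlinarith
  set ζ : EuclideanSpace ℝ (Fin m) → ℝ := bump r 0 with hζ
  have kζ : Continuous ζ := (contDiff_bump r 0).continuous
  have kl : Continuous (lapl (EuclideanSpace.basisFun (Fin m) ℝ) ζ) :=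
    continuous_lapl _ (contDiff_bump r 0)
  -- bound for the tangential error
  obtain ⟨K, hK⟩ : ∃ K, ∀ τ ∈ Metric.closedBall (0 : EuclideanSpace ℝ (Fin m)) r,
      ‖lapl (EuclideanSpace.basisFun (Fin m) ℝ) ζ τ + lam * ζ τ‖ ≤ K :=
    (isCompact_closedBall _ _).exists_bound_of_continuousOn
      (kl.add (continuous_const.mul kζ)).continuousOn
  have hK0 : 0 ≤ K := (norm_nonneg _).trans (hK 0 (by simpa using hr.le))
  set B := Metric.ball (0 : EuclideanSpace ℝ (Fin m)) r with hB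
  have hζi : IntegrableOn ζ B :=
    (kζ.continuousOn.integrableOn_compact (isCompact_closedBall 0 r)).mono_set
      Metric.ball_subset_closedBall
  have hζpos : 0 < ∫ τ in B, ζ τ := by
    rw [setIntegral_pos_iff_support_of_nonneg_ae]
    · have hsub : B ⊆ Function.support ζ ∩ B := by
        intro τ hτ
        refine ⟨?_, hτ⟩
        have hτ' : ‖τ - 0‖ < r := by rw [hB, mem_ball_iff_norm] at hτ; exact hτ
        exact (bump_pos hτ').ne'
      exact lt_of_lt_of_le (Metric.measure_ball_pos volume 0 hr) (measure_mono hsub)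
    · exact Eventually.of_forall fun τ => bump_nonneg _ _ _
    · exact hζi
  set P : ℝ := m₀ * Real.exp (-(|β| * s₁)) * ∫ τ in B, ζ τ with hP
  have hPpos : 0 < P := by positivity
  set v : ℝ := (volume B).toReal with hv
  have hv0 : 0 ≤ v := ENNReal.toReal_nonneg
  -- choice of ε
  obtain ⟨ε, hε, hεs, hε1, hε2, hε3⟩ : ∃ ε : ℝ, 0 < ε ∧ ε < s₁ ∧ α * ε ≤ 1 ∧
      |β ^ 2 - 0| * (5 * Real.exp (|β| * ε) * ε) < (α - β) / 2 ∧
      5 * M₀ * K * v * ε < (α - β) / 2 * P := by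
    have c1 : ContinuousAt (fun ε : ℝ => ε) 0 := by fun_prop
    have c2 : ContinuousAt (fun ε : ℝ => α * ε) 0 := by fun_prop
    have c4 : ContinuousAt (fun ε : ℝ => |β ^ 2 - 0| * (5 * Real.exp (|β| * ε) * ε)) 0 := by
      fun_prop
    have c5 : ContinuousAt (fun ε : ℝ => 5 * M₀ * K * v * ε) 0 := by fun_prop
    have e1 : ∀ᶠ ε in 𝓝 (0:ℝ), ε < s₁ := c1.eventually_lt_const hs₁
    have e2 : ∀ᶠ ε in 𝓝 (0:ℝ), α * ε < 1 := c2.eventually_lt_const (by simp)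
    have e4 : ∀ᶠ ε in 𝓝 (0:ℝ), |β ^ 2 - 0| * (5 * Real.exp (|β| * ε) * ε) < (α - β) / 2 :=
      c4.eventually_lt_const (by simp; linarith)
    have e5 : ∀ᶠ ε in 𝓝 (0:ℝ), 5 * M₀ * K * v * ε < (α - β) / 2 * P :=
      c5.eventually_lt_const (by
        simp only [mul_zero]
        exact mul_pos (by linarith) hPpos)
    obtain ⟨ρ, hρ, hall⟩ := Metric.eventually_nhds_iff.1 (e1.and (e2.and (e4.and e5)))
    have hd : dist (ρ / 2) 0 < ρ := by
      rw [Real.dist_eq, sub_zero, abs_of_pos (by positivity)]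
      linarith
    obtain ⟨a1, a2, a3, a4⟩ := hall hd
    exact ⟨ρ / 2, by positivity, a1, a2.le, a3, a4⟩
  obtain ⟨ξ, hξ, hξ0, hξ1, hξ2, hξ3, hξ4⟩ := exists_profile (a := α) hε
  obtain ⟨s₀, hs₀, hcr1, hcr2⟩ := exists_crossing (C := 0) hα le_rfl hε (by simp)
  have hid := flat_identity hΩ hW hf hξ (contDiff_bump r 0) hξ0
    (fun τ h => bump_eq_zero hr.le h) (fun τ h => lapl_bump_eq_zero _ hr.le h)
    (by rw [norm_zero, zero_add]; nlinarith) (by rw [hξ1, hξ2, mul_one])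
  set c₀ : ℝ := ∫ s in Ioo 0 ε, Real.exp (β * s) * (X2 α ε s - 0 * X α ε s) with hc₀
  have hc₀neg : c₀ ≤ -((α - β) / 2) := by
    have h := integral_profile_approx (a := α) (β := β) (C := 0) hα hε hε1
    have h2 := (abs_le.1 h).2
    rw [← hc₀] at h2
    linarith
  set V : EuclideanSpace ℝ (Fin m) → ℝ :=
    fun τ => ζ τ * (u (J Θ y₀ (s₀, τ)) * Real.exp (-(β * s₀))) with hV
  have hVc : ContinuousOn V (Metric.closedBall 0 r) := by
    rw [hV]
    refine kζ.continuousOn.mul (ContinuousOn.mul ?_ continuousOn_const)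
    refine huc.comp (isometry_J_right Θ y₀ s₀).continuous.continuousOn ?_
    intro τ hτ
    rw [mem_closedBall_zero_iff] at hτ
    exact hmem s₀ τ hs₀.1 (by linarith [hs₀.2]) hτ
  have hVi : IntegrableOn V B :=
    (hVc.integrableOn_compact (isCompact_closedBall 0 r)).mono_set Metric.ball_subset_closedBall
  have hVP : P ≤ ∫ τ in B, V τ := by
    rw [hP, ← integral_const_mul]
    refine setIntegral_mono_on (hζi.const_mul _) hVi measurableSet_ball ?_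
    intro τ hτ
    rw [hB, mem_ball_zero_iff] at hτ
    have h1 : m₀ ≤ u (J Θ y₀ (s₀, τ)) := hlow s₀ τ hs₀.1 (by linarith [hs₀.2]) hτ.le
    have h2 : Real.exp (-(|β| * s₁)) ≤ Real.exp (-(β * s₀)) := by
      apply Real.exp_le_exp.mpr
      have h3 : β * s₀ ≤ |β| * s₀ := mul_le_mul_of_nonneg_right (le_abs_self _) hs₀.1.le
      have h4 : |β| * s₀ ≤ |β| * s₁ :=
        mul_le_mul_of_nonneg_left (by linarith [hs₀.2]) (abs_nonneg _)
      linarith
    have h5 : m₀ * Real.exp (-(|β| * s₁)) ≤ u (J Θ y₀ (s₀, τ)) * Real.exp (-(β * s₀)) :=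
      mul_le_mul h1 h2 (Real.exp_pos _).le (hm₀.le.trans h1)
    have h6 : 0 ≤ ζ τ := bump_nonneg _ _ _
    rw [hV]
    simp only
    rw [mul_comm]
    exact mul_le_mul_of_nonneg_left h5 h6
  have hboxmem : ∀ p ∈ Ioo (0:ℝ) ε ×ˢ B, J Θ y₀ p ∈ Ω := by
    rintro ⟨s, τ⟩ ⟨h1, h2⟩
    rw [hB, mem_ball_zero_iff] at h2
    exact hmem s τ h1.1 (by linarith [h1.2]) h2.le
  have hi1 : IntegrableOn (fun p : ℝ × EuclideanSpace ℝ (Fin m) => u (J Θ y₀ p) *
      (deriv (deriv ξ) p.1 * ζ p.2 + ξ p.1 * lapl (EuclideanSpace.basisFun (Fin m) ℝ) ζ p.2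
        + lam * (ξ p.1 * ζ p.2))) (Ioo (0:ℝ) ε ×ˢ B) := by
    apply integrableOn_box hW.integrableOn hboxmem
    apply Continuous.continuousOn
    have k1 : Continuous ξ := hξ.continuous
    have k4 : Continuous (deriv (deriv ξ)) := continuous_deriv_deriv hξ
    fun_prop
  have c1 : Continuous (fun s => Real.exp (β * s) * (X2 α ε s - 0 * X α ε s)) := by
    have := continuous_X α ε
    have := continuous_X2 α ε
    fun_prop
  have hi2 : IntegrableOn (fun p : ℝ × EuclideanSpace ℝ (Fin m) =>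
      (Real.exp (β * p.1) * (X2 α ε p.1 - 0 * X α ε p.1)) * V p.2)
      (Ioo (0:ℝ) ε ×ˢ B) := integrableOn_prod_box c1 hVi
  have hi3 : IntegrableOn (fun p : ℝ × EuclideanSpace ℝ (Fin m) =>
      (fun _ : ℝ => 5 * M₀ * K) p.1 * (fun _ : EuclideanSpace ℝ (Fin m) => (1:ℝ)) p.2)
      (Ioo (0:ℝ) ε ×ˢ B) :=
    integrableOn_prod_box continuous_const
      (integrableOn_const (measure_ball_lt_top.ne))
  have hle : ∫ p in Ioo (0:ℝ) ε ×ˢ B, u (J Θ y₀ p) *
      (deriv (deriv ξ) p.1 * ζ p.2 + ξ p.1 * lapl (EuclideanSpace.basisFun (Fin m) ℝ) ζ p.2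
        + lam * (ξ p.1 * ζ p.2))
      ≤ ∫ p in Ioo (0:ℝ) ε ×ˢ B,
        ((Real.exp (β * p.1) * (X2 α ε p.1 - 0 * X α ε p.1)) * V p.2
          + (fun _ : ℝ => 5 * M₀ * K) p.1 * (fun _ : EuclideanSpace ℝ (Fin m) => (1:ℝ)) p.2) := by
    refine setIntegral_mono_on hi1 (hi2.add hi3) (measurableSet_Ioo.prod measurableSet_ball) ?_
    rintro ⟨s, τ⟩ ⟨h1, h2⟩
    rw [hB, mem_ball_zero_iff] at h2
    simp only at h1 h2 ⊢
    have hlo : m₀ ≤ u (J Θ y₀ (s, τ)) := hlow s τ h1.1 (by linarith [h1.2]) h2.le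
    have hhi : u (J Θ y₀ (s, τ)) ≤ M₀ := hup s τ h1.1 (by linarith [h1.2]) h2.le
    have hup0 : 0 < u (J Θ y₀ (s, τ)) := by linarith
    have hζ0 : 0 ≤ ζ τ := bump_nonneg _ _ _
    have hX0 : 0 ≤ X α ε s := X_nonneg hα hε (Ioo_subset_Icc_self h1)
    have hX5 : X α ε s ≤ 5 := X_le hα hε hε1 (Ioo_subset_Icc_self h1)
    rw [hξ3 s h1, hξ4 s h1]
    have hKτ := hK τ (by rw [mem_closedBall_zero_iff]; exact h2.le)
    have st1 : u (J Θ y₀ (s, τ)) * (X α ε s *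
        (lapl (EuclideanSpace.basisFun (Fin m) ℝ) ζ τ + lam * ζ τ)) ≤ 5 * M₀ * K := by
      have hKτ' := (abs_le.1 (by rwa [Real.norm_eq_abs] at hKτ)).2
      have a1 : X α ε s * (lapl (EuclideanSpace.basisFun (Fin m) ℝ) ζ τ + lam * ζ τ)
          ≤ 5 * K := by
        calc X α ε s * (lapl (EuclideanSpace.basisFun (Fin m) ℝ) ζ τ + lam * ζ τ)
            ≤ X α ε s * K := mul_le_mul_of_nonneg_left hKτ' hX0
          _ ≤ 5 * K := mul_le_mul_of_nonneg_right hX5 hK0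
      calc u (J Θ y₀ (s, τ)) * (X α ε s *
            (lapl (EuclideanSpace.basisFun (Fin m) ℝ) ζ τ + lam * ζ τ))
          ≤ u (J Θ y₀ (s, τ)) * (5 * K) := mul_le_mul_of_nonneg_left a1 hup0.le
        _ ≤ M₀ * (5 * K) := mul_le_mul_of_nonneg_right hhi (by positivity)
        _ = 5 * M₀ * K := by ring
    have st2 : (u (J Θ y₀ (s, τ)) * Real.exp (-(β * s))) * (X2 α ε s - 0 * X α ε s)
        ≤ (u (J Θ y₀ (s₀, τ)) * Real.exp (-(β * s₀))) * (X2 α ε s - 0 * X α ε s) := by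
      rcases le_total s s₀ with h | h
      · have b1 := hmono s s₀ τ h1.1 h (by linarith [hs₀.2]) h2.le
        have b2 := hcr1 s h1 h
        nlinarith
      · have b1 := hmono s₀ s τ hs₀.1 h (by linarith [h1.2]) h2.le
        have b2 := hcr2 s h1 h
        nlinarith
    have hexp : Real.exp (β * s) * Real.exp (-(β * s)) = 1 := by
      rw [← Real.exp_add]; simp
    have st3 : u (J Θ y₀ (s, τ)) * (X2 α ε s * ζ τ)
        ≤ (Real.exp (β * s) * (X2 α ε s - 0 * X α ε s)) * V τ := by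
      calc u (J Θ y₀ (s, τ)) * (X2 α ε s * ζ τ)
          = (Real.exp (β * s) * Real.exp (-(β * s))) * (u (J Θ y₀ (s, τ)) * (X2 α ε s * ζ τ)) := by
            rw [hexp, one_mul]
        _ = (Real.exp (β * s) * ζ τ) * ((u (J Θ y₀ (s, τ)) * Real.exp (-(β * s)))
            * (X2 α ε s - 0 * X α ε s)) := by ring
        _ ≤ (Real.exp (β * s) * ζ τ) * ((u (J Θ y₀ (s₀, τ)) * Real.exp (-(β * s₀)))
            * (X2 α ε s - 0 * X α ε s)) :=
          mul_le_mul_of_nonneg_left st2 (by positivity)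
        _ = (Real.exp (β * s) * (X2 α ε s - 0 * X α ε s)) * V τ := by rw [hV]; ring
    nlinarith [st1, st3]
  rw [hid, integral_add hi2 hi3, integral_prod_box
    (fun s => Real.exp (β * s) * (X2 α ε s - 0 * X α ε s)) V,
    integral_prod_box (fun _ : ℝ => 5 * M₀ * K) (fun _ : EuclideanSpace ℝ (Fin m) => (1:ℝ)),
    ← hc₀] at hle
  have hint1 : ∫ _ in Ioo (0:ℝ) ε, 5 * M₀ * K = 5 * M₀ * K * ε := by
    simp [hε.le]
    ring
  have hint2 : ∫ _ in B, (1:ℝ) = v := by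
    simp [hv, Measure.real]
  rw [hint1, hint2] at hle
  have h1 : c₀ * ∫ τ in B, V τ ≤ -((α - β) / 2) * P := by
    have hb : 0 ≤ ∫ τ in B, V τ := hPpos.le.trans hVP
    calc c₀ * ∫ τ in B, V τ ≤ -((α - β) / 2) * ∫ τ in B, V τ :=
          mul_le_mul_of_nonneg_right hc₀neg hb
      _ ≤ -((α - β) / 2) * P := by nlinarith
  nlinarith

end Pool.Agent.Helper77.Robin
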