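import Mathlib

set_option autoImplicit false
set_option linter.unusedSectionVars false

open MeasureTheory Filter Topology Set
open scoped RealInnerProductSpace ENNReal

namespace Pool.Agent.Helper77.Robin

variable {E : Type*} [NormedAddCommGroup E] [InnerProductSpace ℝ E] [FiniteDimensional ℝ E]
  [MeasurableSpace E] [BorelSpace E]

theorem lintegral_comp_affine {G : E → ℝ≥0∞} (hG : Measurable G) (x : E) {t : ℝ} (ht : 0 < t) :
    ∫⁻ y, G (x + t • (y - x))
      = ENNReal.ofReal ((t ^ Module.finrank ℝ E)⁻¹) * ∫⁻ y, G y := by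
  have e : ∀ y, x + t • (y - x) = (x - t • x) + t • y := by
    intro y
    rw [smul_sub]
    abel
  simp only [e]
  have h1 : ∫⁻ y, G ((x - t • x) + t • y)
      = ∫⁻ z, G ((x - t • x) + z) ∂(Measure.map (t • ·) (volume : Measure E)) := by
    rw [lintegral_map]
    · exact hG.comp (measurable_const_add _)
    · exact measurable_const_smul t
  rw [h1, Measure.map_addHaar_smul volume ht.ne', lintegral_smul_measure, lintegral_add_left_eq_self,
    abs_of_pos (by positivity), smul_eq_mul]

theorem poincare_aux {C : Set E} {G : E → ℝ≥0∞} (hG : Measurable G) {t : ℝ}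
    (ht0 : 1 / 2 ≤ t) :
    ∫⁻ x in C, ∫⁻ y in C, G (x + t • (y - x))
      ≤ 2 ^ Module.finrank ℝ E * volume C * ∫⁻ z, G z := by
  have ht : 0 < t := by linarith
  have h1 : ∀ x, ∫⁻ y in C, G (x + t • (y - x)) ≤ 2 ^ Module.finrank ℝ E * ∫⁻ z, G z := by
    intro x
    calc ∫⁻ y in C, G (x + t • (y - x)) ≤ ∫⁻ y, G (x + t • (y - x)) :=
          setLIntegral_le_lintegral _ _
      _ = ENNReal.ofReal ((t ^ Module.finrank ℝ E)⁻¹) * ∫⁻ y, G y := lintegral_comp_affine hG x ht
      _ ≤ 2 ^ Module.finrank ℝ E * ∫⁻ z, G z := by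
          gcongr
          have h2 : ((t ^ Module.finrank ℝ E)⁻¹) ≤ 2 ^ Module.finrank ℝ E := by
            rw [← inv_pow]
            apply pow_le_pow_left₀ (by positivity)
            rw [inv_le_comm₀ ht (by norm_num)]
            linarith
          calc ENNReal.ofReal ((t ^ Module.finrank ℝ E)⁻¹)
              ≤ ENNReal.ofReal (2 ^ Module.finrank ℝ E) := ENNReal.ofReal_le_ofReal h2
            _ = 2 ^ Module.finrank ℝ E := by
              rw [ENNReal.ofReal_pow (by norm_num)]
              norm_num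
  calc ∫⁻ x in C, ∫⁻ y in C, G (x + t • (y - x))
      ≤ ∫⁻ _x in C, 2 ^ Module.finrank ℝ E * ∫⁻ z, G z := lintegral_mono fun x => h1 x
    _ = 2 ^ Module.finrank ℝ E * volume C * ∫⁻ z, G z := by
        rw [setLIntegral_const]
        ring

theorem poincare_lintegral {C : Set E} (hC : Convex ℝ C) (hCm : MeasurableSet C)
    {G : E → ℝ≥0∞} (hG : Measurable G) :
    ∫⁻ x in C, ∫⁻ y in C, ∫⁻ t in Ioo (0:ℝ) 1, G (x + t • (y - x))
      ≤ 2 ^ Module.finrank ℝ E * volume C * ∫⁻ z in C, G z := by
  set G' : E → ℝ≥0∞ := C.indicator G with hG'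
  have hG'm : Measurable G' := hG.indicator hCm
  have hmeas : Measurable (fun q : (E × E) × ℝ => G' (q.1.1 + q.2 • (q.1.2 - q.1.1))) := by
    apply hG'm.comp
    fun_prop
  have h0 : ∫⁻ x in C, ∫⁻ y in C, ∫⁻ t in Ioo (0:ℝ) 1, G (x + t • (y - x))
      = ∫⁻ x in C, ∫⁻ y in C, ∫⁻ t in Ioo (0:ℝ) 1, G' (x + t • (y - x)) := by
    refine setLIntegral_congr_fun hCm fun x hx => setLIntegral_congr_fun hCm fun y hy =>
      setLIntegral_congr_fun measurableSet_Ioo fun t ht => ?_
    have : x + t • (y - x) ∈ C := hC.add_smul_sub_mem hx hy ⟨ht.1.le, ht.2.le⟩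
    simp only [hG', indicator_of_mem this]
  have h1 : ∫⁻ x in C, ∫⁻ y in C, ∫⁻ t in Ioo (0:ℝ) 1, G' (x + t • (y - x))
      = ∫⁻ t in Ioo (0:ℝ) 1, ∫⁻ x in C, ∫⁻ y in C, G' (x + t • (y - x)) := by
    have e1 : ∫⁻ x in C, ∫⁻ y in C, ∫⁻ t in Ioo (0:ℝ) 1, G' (x + t • (y - x))
        = ∫⁻ p, (∫⁻ t in Ioo (0:ℝ) 1, G' (p.1 + t • (p.2 - p.1)))
          ∂((volume.restrict C).prod (volume.restrict C)) := by
      rw [lintegral_prod]
      exact (hmeas.lintegral_prod_right').aemeasurable
    rw [e1, lintegral_lintegral_swap]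
    · refine lintegral_congr fun t => ?_
      rw [lintegral_prod]
      exact (hmeas.comp (measurable_prodMk_right (y := t))).aemeasurable
    · exact hmeas.aemeasurable
  rw [h0, h1]
  have h2 : ∀ t ∈ Ioo (0:ℝ) 1, ∫⁻ x in C, ∫⁻ y in C, G' (x + t • (y - x))
      ≤ 2 ^ Module.finrank ℝ E * volume C * ∫⁻ z, G' z := by
    intro t ht
    rcases le_or_gt (1 / 2) t with h | h
    · exact poincare_aux hG'm h
    · have e2 : ∫⁻ x in C, ∫⁻ y in C, G' (x + t • (y - x))
          = ∫⁻ y in C, ∫⁻ x in C, G' (x + t • (y - x)) := by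
        apply lintegral_lintegral_swap
        exact (hmeas.comp (measurable_prodMk_right (y := t))).aemeasurable
      rw [e2]
      have e3 : ∀ y x : E, x + t • (y - x) = y + (1 - t) • (x - y) := by
        intro y x
        module
      simp only [e3]
      exact poincare_aux hG'm (by linarith)
  calc ∫⁻ t in Ioo (0:ℝ) 1, ∫⁻ x in C, ∫⁻ y in C, G' (x + t • (y - x))
      ≤ ∫⁻ _t in Ioo (0:ℝ) 1, 2 ^ Module.finrank ℝ E * volume C * ∫⁻ z, G' z :=
        setLIntegral_mono measurable_const h2
    _ = 2 ^ Module.finrank ℝ E * volume C * ∫⁻ z in C, G z := by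
        rw [setLIntegral_const, Real.volume_Ioo, hG', lintegral_indicator hCm]
        simp

theorem sq_integral_le {f : ℝ → ℝ} (hf : Continuous f) :
    (∫ t in (0:ℝ)..1, f t) ^ 2 ≤ ∫ t in (0:ℝ)..1, f t ^ 2 := by
  set c := ∫ t in (0:ℝ)..1, f t with hc
  have h1 : 0 ≤ ∫ t in (0:ℝ)..1, (f t - c) ^ 2 :=
    intervalIntegral.integral_nonneg (by norm_num) fun t _ => sq_nonneg _
  have h2 : ∫ t in (0:ℝ)..1, (f t - c) ^ 2 = (∫ t in (0:ℝ)..1, f t ^ 2) - c ^ 2 := by
    have e : (fun t => (f t - c) ^ 2) = fun t => f t ^ 2 - 2 * c * f t + c ^ 2 := by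
      ext t; ring
    rw [e, intervalIntegral.integral_add, intervalIntegral.integral_sub,
      intervalIntegral.integral_const_mul, intervalIntegral.integral_const, ← hc]
    · simp
      ring
    · exact (hf.pow 2).intervalIntegrable _ _
    · exact (hf.const_mul _).intervalIntegrable _ _
    · exact ((hf.pow 2).sub (hf.const_mul _)).intervalIntegrable _ _
    · exact continuous_const.intervalIntegrable _ _
  linarith

theorem sq_sub_le {v : E → ℝ} (hv : ContDiff ℝ 1 v) (x y : E) :
    ENNReal.ofReal ((v y - v x) ^ 2)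
      ≤ ENNReal.ofReal (‖y - x‖ ^ 2) * ∫⁻ t in Ioo (0:ℝ) 1,
        ENNReal.ofReal (‖gradient v (x + t • (y - x))‖ ^ 2) := by
  have hcg : Continuous (gradient v) :=
    (InnerProductSpace.toDual ℝ _).symm.continuous.comp (hv.continuous_fderiv (by norm_num))
  set f : ℝ → ℝ := fun t => ‖gradient v (x + t • (y - x))‖ with hf
  have hfc : Continuous f := by
    apply Continuous.norm
    exact hcg.comp (by fun_prop)
  have hder : ∀ t : ℝ, HasDerivAt (fun t : ℝ => v (x + t • (y - x)))
      ⟪gradient v (x + t • (y - x)), y - x⟫ t := by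
    intro t
    have h1 : HasDerivAt (fun r : ℝ => x + r • (y - x)) (y - x) t := by
      have := ((hasDerivAt_id t).smul_const (y - x)).const_add x
      simpa using this
    have h2 := ((hv.differentiable (by norm_num) (x + t • (y - x))).hasFDerivAt).comp_hasDerivAt t h1
    rw [inner_gradient_left]
    exact h2
  have hcd : Continuous (fun t : ℝ => ⟪gradient v (x + t • (y - x)), y - x⟫) :=
    (hcg.comp (by fun_prop)).inner continuous_const
  have hft := intervalIntegral.integral_eq_sub_of_hasDerivAt (a := 0) (b := 1)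
    (fun t _ => hder t) (hcd.intervalIntegrable _ _)
  simp only [one_smul, zero_smul, add_zero, add_sub_cancel] at hft
  have h3 : (v y - v x) ^ 2 ≤ ‖y - x‖ ^ 2 * ∫ t in (0:ℝ)..1, f t ^ 2 := by
    rw [← hft]
    calc (∫ t in (0:ℝ)..1, ⟪gradient v (x + t • (y - x)), y - x⟫) ^ 2
        ≤ ∫ t in (0:ℝ)..1, ⟪gradient v (x + t • (y - x)), y - x⟫ ^ 2 := sq_integral_le hcd
      _ ≤ ∫ t in (0:ℝ)..1, ‖y - x‖ ^ 2 * f t ^ 2 := by
          apply intervalIntegral.integral_mono_on (by norm_num)
          · exact (hcd.pow 2).intervalIntegrable _ _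
          · exact ((hfc.pow 2).const_mul _).intervalIntegrable _ _
          · intro t _
            rw [← mul_pow, ← sq_abs]
            apply pow_le_pow_left₀ (abs_nonneg _)
            rw [mul_comm]
            exact abs_real_inner_le_norm _ _
      _ = _ := intervalIntegral.integral_const_mul _ _
  calc ENNReal.ofReal ((v y - v x) ^ 2)
      ≤ ENNReal.ofReal (‖y - x‖ ^ 2 * ∫ t in (0:ℝ)..1, f t ^ 2) := ENNReal.ofReal_le_ofReal h3
    _ = ENNReal.ofReal (‖y - x‖ ^ 2) * ∫⁻ t in Ioo (0:ℝ) 1, ENNReal.ofReal (f t ^ 2) := by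
        rw [ENNReal.ofReal_mul (by positivity), intervalIntegral.integral_of_le (by norm_num),
          integral_Ioc_eq_integral_Ioo, ofReal_integral_eq_lintegral_ofReal]
        · exact ((hfc.pow 2).continuousOn.integrableOn_Icc (a := 0) (b := 1)).mono_set
            Ioo_subset_Icc_self
        · exact Eventually.of_forall fun t => by positivity

/-- Poincaré inequality on convex sets, double integral form. -/
theorem poincare_double {C : Set E} (hC : Convex ℝ C) (hCm : MeasurableSet C) {D : ℝ}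
    (hD : ∀ x ∈ C, ∀ y ∈ C, ‖y - x‖ ≤ D) {v : E → ℝ} (hv : ContDiff ℝ 1 v) :
    ∫⁻ x in C, ∫⁻ y in C, ENNReal.ofReal ((v y - v x) ^ 2)
      ≤ ENNReal.ofReal (D ^ 2) * (2 ^ Module.finrank ℝ E * volume C *
        ∫⁻ z in C, ENNReal.ofReal (‖gradient v z‖ ^ 2)) := by
  have hcg : Continuous (gradient v) :=
    (InnerProductSpace.toDual ℝ _).symm.continuous.comp (hv.continuous_fderiv (by norm_num))
  have hG : Measurable (fun z => ENNReal.ofReal (‖gradient v z‖ ^ 2)) :=
    (ENNReal.continuous_ofReal.comp (hcg.norm.pow 2)).measurable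
  have h1 := poincare_lintegral hC hCm hG
  calc ∫⁻ x in C, ∫⁻ y in C, ENNReal.ofReal ((v y - v x) ^ 2)
      ≤ ∫⁻ x in C, ∫⁻ y in C, ENNReal.ofReal (D ^ 2) * ∫⁻ t in Ioo (0:ℝ) 1,
        ENNReal.ofReal (‖gradient v (x + t • (y - x))‖ ^ 2) := by
        refine lintegral_mono_ae ?_
        rw [ae_restrict_iff' hCm]
        refine Eventually.of_forall fun x hx => lintegral_mono_ae ?_
        rw [ae_restrict_iff' hCm]
        refine Eventually.of_forall fun y hy => ?_
        refine (sq_sub_le hv x y).trans ?_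
        gcongr
        exact hD x hx y hy
    _ = ENNReal.ofReal (D ^ 2) * ∫⁻ x in C, ∫⁻ y in C, ∫⁻ t in Ioo (0:ℝ) 1,
        ENNReal.ofReal (‖gradient v (x + t • (y - x))‖ ^ 2) := by
        have : ∀ x : E, ∫⁻ y in C, ENNReal.ofReal (D ^ 2) * ∫⁻ t in Ioo (0:ℝ) 1,
            ENNReal.ofReal (‖gradient v (x + t • (y - x))‖ ^ 2)
            = ENNReal.ofReal (D ^ 2) * ∫⁻ y in C, ∫⁻ t in Ioo (0:ℝ) 1,
            ENNReal.ofReal (‖gradient v (x + t • (y - x))‖ ^ 2) := by
          intro x
          rw [lintegral_const_mul' _ _ ENNReal.ofReal_ne_top]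
        simp only [this]
        rw [lintegral_const_mul' _ _ ENNReal.ofReal_ne_top]
    _ ≤ _ := by gcongr

/-- Poincaré inequality on convex sets. -/
theorem poincare {C : Set E} (hC : Convex ℝ C) (hCm : MeasurableSet C) (hfin : volume C ≠ ∞)
    {D : ℝ} (hD : ∀ x ∈ C, ∀ y ∈ C, ‖y - x‖ ≤ D) {v : E → ℝ} (hv : ContDiff ℝ 1 v)
    (h1 : MemLp v 2 (volume.restrict C)) (h2 : MemLp (gradient v) 2 (volume.restrict C)) :
    volume.real C * ∫ x in C, v x ^ 2 ≤ (∫ x in C, v x) ^ 2
      + 2 ^ Module.finrank ℝ E * D ^ 2 * (volume.real C * ∫ x in C, ‖gradient v x‖ ^ 2) := by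
  have : IsFiniteMeasure (volume.restrict C) := ⟨by
    rw [Measure.restrict_apply_univ]; exact hfin.lt_top⟩
  have i1 : Integrable v (volume.restrict C) := h1.integrable (by norm_num)
  have i2 : Integrable (fun x => v x ^ 2) (volume.restrict C) := h1.integrable_sq
  have i3 : Integrable (fun x => ‖gradient v x‖ ^ 2) (volume.restrict C) := h2.integrable_norm_pow
    (by norm_num)
  set A := ∫ x in C, v x ^ 2 with hA
  set B := ∫ x in C, v x with hB
  set m := volume.real C with hm
  have inner_eq : ∀ x, ∫ y in C, (v y - v x) ^ 2 = A - 2 * v x * B + v x ^ 2 * m := by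
    intro x
    have e : (fun y => (v y - v x) ^ 2) = fun y => (v y ^ 2 - 2 * v x * v y) + v x ^ 2 := by
      ext y; ring
    have j0 : Integrable (fun y => 2 * v x * v y) (volume.restrict C) := i1.const_mul _
    have j1 : Integrable (fun y => v y ^ 2 - 2 * v x * v y) (volume.restrict C) := i2.sub j0
    rw [e, integral_add j1 (integrable_const _), integral_sub i2 j0, integral_const_mul,
      setIntegral_const, smul_eq_mul]
    rw [← hA, ← hB, ← hm]
    ring
  have hii : ∀ x, Integrable (fun y => (v y - v x) ^ 2) (volume.restrict C) := by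
    intro x
    have e : (fun y => (v y - v x) ^ 2) = fun y => (v y ^ 2 - 2 * v x * v y) + v x ^ 2 := by
      ext y; ring
    rw [e]
    exact (i2.sub (i1.const_mul _)).add (integrable_const _)
  have hi3 : Integrable (fun x => A - 2 * v x * B + v x ^ 2 * m) (volume.restrict C) :=
    ((integrable_const A).sub ((i1.const_mul 2).mul_const B)).add (i2.mul_const m)
  have outer_eq : ∫ x in C, (A - 2 * v x * B + v x ^ 2 * m) = 2 * (m * A) - 2 * B ^ 2 := by
    have j0 : Integrable (fun x => 2 * v x * B) (volume.restrict C) :=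
      (i1.const_mul 2).mul_const B
    have j1 : Integrable (fun x => A - 2 * v x * B) (volume.restrict C) :=
      (integrable_const A).sub j0
    have j2 : Integrable (fun x => v x ^ 2 * m) (volume.restrict C) := i2.mul_const m
    rw [integral_add j1 j2, integral_sub (integrable_const A) j0, integral_mul_const,
      integral_mul_const, integral_const_mul, setIntegral_const, smul_eq_mul, ← hA, ← hB, ← hm]
    ring
  have hL : ∫⁻ x in C, ∫⁻ y in C, ENNReal.ofReal ((v y - v x) ^ 2)
      = ENNReal.ofReal (2 * (m * A) - 2 * B ^ 2) := by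
    rw [← outer_eq, ofReal_integral_eq_lintegral_ofReal hi3]
    · refine lintegral_congr fun x => ?_
      rw [← inner_eq, ofReal_integral_eq_lintegral_ofReal (hii x)]
      exact Eventually.of_forall fun y => sq_nonneg _
    · refine Eventually.of_forall fun x => ?_
      simp only [Pi.zero_apply]
      rw [← inner_eq]
      exact integral_nonneg fun y => sq_nonneg _
  have hR : ENNReal.ofReal (D ^ 2) * (2 ^ Module.finrank ℝ E * volume C *
        ∫⁻ z in C, ENNReal.ofReal (‖gradient v z‖ ^ 2))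
      = ENNReal.ofReal (D ^ 2 * (2 ^ Module.finrank ℝ E * m * ∫ x in C, ‖gradient v x‖ ^ 2)) := by
    rw [← ofReal_integral_eq_lintegral_ofReal i3 (Eventually.of_forall fun x => by positivity)]
    have e1 : volume C = ENNReal.ofReal m := by
      rw [hm, Measure.real, ENNReal.ofReal_toReal hfin]
    have e2 : (2 : ℝ≥0∞) ^ Module.finrank ℝ E = ENNReal.ofReal (2 ^ Module.finrank ℝ E) := by
      rw [ENNReal.ofReal_pow (by norm_num)]
      norm_num
    have hm0 : 0 ≤ m := measureReal_nonneg
    rw [e1, e2, ← ENNReal.ofReal_mul (by positivity), ← ENNReal.ofReal_mul (by positivity),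
      ← ENNReal.ofReal_mul (by positivity)]
  have hP := poincare_double hC hCm hD hv
  rw [hL, hR, ENNReal.ofReal_le_ofReal_iff] at hP
  · have : 0 ≤ D ^ 2 * (2 ^ Module.finrank ℝ E * m * ∫ x in C, ‖gradient v x‖ ^ 2) := by
      have h6 : 0 ≤ ∫ x in C, ‖gradient v x‖ ^ 2 := integral_nonneg fun x => by positivity
      have hm0 : 0 ≤ m := measureReal_nonneg
      positivity
    nlinarith
  · have h6 : 0 ≤ ∫ x in C, ‖gradient v x‖ ^ 2 := integral_nonneg fun x => by positivity
    have hm0 : 0 ≤ m := measureReal_nonneg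
    positivity

end Pool.Agent.Helper77.Robin
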