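import Pool.Agent.Helper77.Robin.Minimise

set_option autoImplicit false
set_option linter.unusedSectionVars false

open MeasureTheory Filter Topology Set
open scoped RealInnerProductSpace ENNReal

namespace Pool.Agent.Helper77.Robin

variable {d : ℕ} {Ω : Set (EuclideanSpace ℝ (Fin d))} {α : ℝ}

theorem continuous_gradient {φ : EuclideanSpace ℝ (Fin d) → ℝ} (hφ : ContDiff ℝ 1 φ) :
    Continuous (gradient φ) :=
  (InnerProductSpace.toDual ℝ _).symm.continuous.comp (hφ.continuous_fderiv (by norm_num))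

theorem gradient_eq_zero_of_notMem {φ : EuclideanSpace ℝ (Fin d) → ℝ}
    {x : EuclideanSpace ℝ (Fin d)} (hx : x ∉ tsupport φ) : gradient φ x = 0 := by
  have h : fderiv ℝ φ x = 0 := by
    have : x ∉ tsupport (fderiv ℝ φ) := fun h => hx (tsupport_fderiv_subset ℝ h)
    exact image_eq_zero_of_notMem_tsupport this
  unfold gradient
  rw [h]
  simp

theorem ae_surface_eq_zero (hΩ : IsOpen Ω) {φ : EuclideanSpace ℝ (Fin d) → ℝ}
    (hs : tsupport φ ⊆ Ω) : φ =ᵐ[surfaceMeasure Ω] 0 := by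
  unfold surfaceMeasure
  rw [Filter.EventuallyEq, ae_restrict_iff' isClosed_frontier.measurableSet]
  refine Eventually.of_forall fun x hx => ?_
  have : x ∉ Ω := by
    intro hxΩ
    rw [frontier, Set.mem_sdiff, hΩ.interior_eq] at hx
    exact hx.2 hxΩ
  exact image_eq_zero_of_notMem_tsupport fun h => this (hs h)

theorem adm_of_tsupport (hΩ : IsOpen Ω) {φ : EuclideanSpace ℝ (Fin d) → ℝ}
    (hφ : ContDiff ℝ 1 φ) (hc : HasCompactSupport φ) (hs : tsupport φ ⊆ Ω) : Adm Ω φ := by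
  have hgs : HasCompactSupport (gradient φ) := by
    refine hc.mono' fun x hx => ?_
    by_contra h
    exact hx (gradient_eq_zero_of_notMem h)
  exact ⟨hφ, (hφ.continuous.memLp_of_hasCompactSupport hc).restrict Ω,
    ((continuous_gradient hφ).memLp_of_hasCompactSupport hgs).restrict Ω,
    (memLp_congr_ae (ae_surface_eq_zero hΩ hs)).2 MemLp.zero⟩

/-- gradient of the logarithm -/
theorem gradient_log {v : EuclideanSpace ℝ (Fin d) → ℝ} (hv : ContDiff ℝ 1 v) {ε : ℝ}
    {x : EuclideanSpace ℝ (Fin d)} (hx : 0 < v x + ε) :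
    gradient (fun x => Real.log (v x + ε)) x = (v x + ε)⁻¹ • gradient v x := by
  apply ext_inner_right ℝ
  intro z
  rw [inner_gradient_left, inner_smul_left, inner_gradient_left]
  have h1 : HasFDerivAt (fun x => v x + ε) (fderiv ℝ v x) x :=
    (hv.differentiable (by norm_num) x).hasFDerivAt.add_const ε
  have h2 := h1.log hx.ne'
  rw [h2.fderiv]
  simp

theorem gradient_test {v ζ : EuclideanSpace ℝ (Fin d) → ℝ} (hv : ContDiff ℝ 1 v)
    (hζ : ContDiff ℝ 1 ζ) {ε : ℝ} {x : EuclideanSpace ℝ (Fin d)} (hx : 0 < v x + ε) :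
    gradient (fun x => ζ x ^ 2 * (v x + ε)⁻¹) x
      = (2 * ζ x * (v x + ε)⁻¹) • gradient ζ x
        - (ζ x ^ 2 * (v x + ε)⁻¹ ^ 2) • gradient v x := by
  apply ext_inner_right ℝ
  intro z
  rw [inner_gradient_left, inner_sub_left, inner_smul_left, inner_smul_left, inner_gradient_left,
    inner_gradient_left]
  have h1 : HasFDerivAt (fun x => v x + ε) (fderiv ℝ v x) x :=
    (hv.differentiable (by norm_num) x).hasFDerivAt.add_const ε
  have h2 : HasFDerivAt (fun x => (v x + ε)⁻¹) (-((v x + ε) ^ 2)⁻¹ • fderiv ℝ v x) x :=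
    (hasDerivAt_inv hx.ne').comp_hasFDerivAt x h1
  have h3 : HasFDerivAt (fun x => ζ x ^ 2) ((2 * ζ x) • fderiv ℝ ζ x) x := by
    have := (hasDerivAt_pow 2 (ζ x)).comp_hasFDerivAt x
      (hζ.differentiable (by norm_num) x).hasFDerivAt
    refine HasFDerivAt.congr_fderiv this ?_
    simp
  have h4 := h3.mul h2
  have e : (fun x => ζ x ^ 2 * (v x + ε)⁻¹) = (fun x => ζ x ^ 2) * fun x => (v x + ε)⁻¹ := rfl
  rw [e, h4.fderiv]
  simp only [add_apply, smul_apply, smul_eq_mul, conj_trivial]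
  have := hx.ne'
  field_simp
  ring

/-- pointwise inequality behind the logarithmic estimate -/
theorem log_pointwise {E : Type*} [NormedAddCommGroup E] [InnerProductSpace ℝ E] (z : ℝ)
    (q r G : E) :
    2 * z * ⟪q + r, G⟫ - z ^ 2 * ⟪q + r, q⟫
      ≤ -(1 / 2) * (z ^ 2 * ‖q‖ ^ 2) + 5 * ‖G‖ ^ 2 + 2 * (z ^ 2 * ‖r‖ ^ 2) := by
  have h1 : 2 * z * ⟪q, G⟫ ≤ 1 / 4 * (z ^ 2 * ‖q‖ ^ 2) + 4 * ‖G‖ ^ 2 := by
    have h := real_inner_self_nonneg (x := (z / 2) • q - (2:ℝ) • G)
    rw [inner_sub_left, inner_sub_right, inner_sub_right, inner_smul_left, inner_smul_left,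
      inner_smul_right, inner_smul_right, inner_smul_left, inner_smul_left, inner_smul_right,
      inner_smul_right, real_inner_self_eq_norm_sq, real_inner_self_eq_norm_sq,
      real_inner_comm G q] at h
    simp only [conj_trivial] at h
    rw [real_inner_comm G q]
    nlinarith
  have h2 : 2 * z * ⟪r, G⟫ ≤ ‖G‖ ^ 2 + z ^ 2 * ‖r‖ ^ 2 := by
    have h := real_inner_self_nonneg (x := z • r - G)
    rw [inner_sub_left, inner_sub_right, inner_sub_right, inner_smul_left,
      inner_smul_right, inner_smul_right, inner_smul_left, real_inner_self_eq_norm_sq,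
      real_inner_self_eq_norm_sq, real_inner_comm G r] at h
    simp only [conj_trivial] at h
    rw [real_inner_comm G r]
    nlinarith
  have h3 : -(z ^ 2 * ⟪r, q⟫) ≤ 1 / 4 * (z ^ 2 * ‖q‖ ^ 2) + z ^ 2 * ‖r‖ ^ 2 := by
    have h := real_inner_self_nonneg (x := (z / 2) • q + z • r)
    rw [inner_add_left, inner_add_right, inner_add_right, inner_smul_left, inner_smul_left,
      inner_smul_right, inner_smul_right, inner_smul_left, inner_smul_left, inner_smul_right,
      inner_smul_right, real_inner_self_eq_norm_sq, real_inner_self_eq_norm_sq,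
      real_inner_comm r q] at h
    simp only [conj_trivial] at h
    nlinarith
  rw [inner_add_left, inner_add_left, real_inner_self_eq_norm_sq]
  nlinarith

/-- The data of a minimiser obtained as a limit of nonnegative functions. -/
structure MinData (Ω : Set (EuclideanSpace ℝ (Fin d))) (α L : ℝ)
    (v : ℕ → EuclideanSpace ℝ (Fin d) → ℝ) (u : EuclideanSpace ℝ (Fin d) → ℝ)
    (g : EuclideanSpace ℝ (Fin d) → EuclideanSpace ℝ (Fin d))
    (t : EuclideanSpace ℝ (Fin d) → ℝ) : Prop where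
  L_nonneg : 0 ≤ L
  adm : ∀ n, Adm Ω (v n)
  nonneg : ∀ n x, 0 ≤ v n x
  smeas : StronglyMeasurable u
  memLp_u : MemLp u 2 (volume.restrict Ω)
  memLp_g : MemLp g 2 (volume.restrict Ω)
  lim_u : Tendsto (fun n => eLpNorm (fun x => v n x - u x) 2 (volume.restrict Ω)) atTop (𝓝 0)
  lim_g : Tendsto (fun n => eLpNorm (fun x => gradient (v n) x - g x) 2 (volume.restrict Ω))
    atTop (𝓝 0)
  el : ∀ φ : EuclideanSpace ℝ (Fin d) → ℝ, Adm Ω φ →
      (∫ x in Ω, ⟪g x, gradient φ x⟫) + α * ∫ x, t x * φ x ∂(surfaceMeasure Ω)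
        = L * ∫ x in Ω, u x * φ x

variable {L : ℝ} {v : ℕ → EuclideanSpace ℝ (Fin d) → ℝ} {u : EuclideanSpace ℝ (Fin d) → ℝ}
  {g : EuclideanSpace ℝ (Fin d) → EuclideanSpace ℝ (Fin d)} {t : EuclideanSpace ℝ (Fin d) → ℝ}

theorem MinData.log_estimate (hΩ : IsOpen Ω) (M : MinData Ω α L v u g t)
    {ζ : EuclideanSpace ℝ (Fin d) → ℝ} (hζ : ContDiff ℝ 1 ζ) (hζc : HasCompactSupport ζ)
    (hζs : tsupport ζ ⊆ Ω) (hζ1 : ∀ x, |ζ x| ≤ 1) {ε : ℝ} (hε : 0 < ε) :
    ∀ᶠ n in atTop, ∫ x in Ω, ζ x ^ 2 * ‖gradient (fun x => Real.log (v n x + ε)) x‖ ^ 2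
      ≤ 10 * (∫ x in Ω, ‖gradient ζ x‖ ^ 2) + 1 := by
  have hlim := tendsto_normSq_sub (fun n => (M.adm n).memLp_g) M.memLp_g M.lim_g
  have hlim2 : Tendsto (fun n => 4 * ε⁻¹ ^ 2 * ∫ x in Ω, ‖gradient (v n) x - g x‖ ^ 2) atTop
      (𝓝 0) := by
    have := hlim.const_mul (4 * ε⁻¹ ^ 2)
    rwa [mul_zero] at this
  filter_upwards [hlim2.eventually (ge_mem_nhds (show (0:ℝ) < 1 by norm_num))] with n hn
  have hvn := (M.adm n).contDiff
  have hpos : ∀ x, 0 < v n x + ε := fun x => by linarith [M.nonneg n x]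
  have hge : ∀ x, (v n x + ε)⁻¹ ≤ ε⁻¹ := fun x => inv_anti₀ hε (by linarith [M.nonneg n x])
  have hinv : ∀ x, 0 < (v n x + ε)⁻¹ := fun x => inv_pos.2 (hpos x)
  have hcinv : Continuous (fun x => (v n x + ε)⁻¹) :=
    (hvn.continuous.add continuous_const).inv₀ fun x => (hpos x).ne'
  set ψ : EuclideanSpace ℝ (Fin d) → ℝ := fun x => ζ x ^ 2 * (v n x + ε)⁻¹ with hψ
  have hψc : ContDiff ℝ 1 ψ := by
    apply ContDiff.mul (hζ.pow 2)
    exact ContDiff.inv (hvn.add contDiff_const) fun x => (hpos x).ne'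
  have hsub : tsupport ψ ⊆ tsupport ζ := by
    apply closure_mono
    intro x hx
    rw [Function.mem_support] at hx ⊢
    intro h0
    apply hx
    simp [hψ, h0]
  have hψs : HasCompactSupport ψ := hζc.mono' ((subset_tsupport _).trans hsub)
  have hψΩ : tsupport ψ ⊆ Ω := hsub.trans hζs
  have hψa : Adm Ω ψ := adm_of_tsupport hΩ hψc hψs hψΩ
  have hψ0 : ∀ x, 0 ≤ ψ x := fun x => mul_nonneg (sq_nonneg _) (hinv x).le
  -- nonnegativity of the right-hand side
  have hr : 0 ≤ ∫ x in Ω, u x * ψ x := by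
    have ht := tendsto_integral_mul_of_L2 (fun n => (M.adm n).memLp_u.aestronglyMeasurable)
      M.memLp_u hψa.memLp_u M.lim_u
    refine ge_of_tendsto' ht fun m => integral_nonneg fun x => ?_
    exact mul_nonneg (M.nonneg m x) (hψ0 x)
  have hel := M.el ψ hψa
  have ht0 : ∫ x, t x * ψ x ∂(surfaceMeasure Ω) = 0 := by
    have h0 := ae_surface_eq_zero hΩ hψΩ
    rw [integral_congr_ae (g := fun _ => 0) (by
      filter_upwards [h0] with x hx
      rw [hx]; simp)]
    simp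
  rw [ht0, mul_zero, add_zero] at hel
  have hI : 0 ≤ ∫ x in Ω, ⟪g x, gradient ψ x⟫ := by
    rw [hel]; exact mul_nonneg M.L_nonneg hr
  -- pointwise estimate
  set q : EuclideanSpace ℝ (Fin d) → EuclideanSpace ℝ (Fin d) :=
    fun x => (v n x + ε)⁻¹ • gradient (v n) x with hq
  set r : EuclideanSpace ℝ (Fin d) → EuclideanSpace ℝ (Fin d) :=
    fun x => (v n x + ε)⁻¹ • (g x - gradient (v n) x) with hr'
  have hqr : ∀ x, q x + r x = (v n x + ε)⁻¹ • g x := by
    intro x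
    simp only [hq, hr', smul_sub]
    abel
  have hpt : ∀ x, ⟪g x, gradient ψ x⟫ ≤ -(1 / 2) * (ζ x ^ 2 * ‖q x‖ ^ 2)
      + 5 * ‖gradient ζ x‖ ^ 2 + 2 * (ζ x ^ 2 * ‖r x‖ ^ 2) := by
    intro x
    have h1 := log_pointwise (ζ x) (q x) (r x) (gradient ζ x)
    refine le_trans (le_of_eq ?_) h1
    rw [hqr, hψ, gradient_test hvn hζ (hpos x), inner_sub_right, inner_smul_right,
      inner_smul_right, hq]
    simp only [inner_smul_left, inner_smul_right, conj_trivial]
    ring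
  have hcq : Continuous q := hcinv.smul (continuous_gradient hvn)
  have hmem_q : MemLp q 2 (volume.restrict Ω) := by
    refine ((M.adm n).memLp_g.const_smul ε⁻¹).of_le hcq.aestronglyMeasurable
      (Eventually.of_forall fun x => ?_)
    simp only [hq, Pi.smul_apply]
    rw [norm_smul, norm_smul, Real.norm_eq_abs, Real.norm_eq_abs, abs_of_pos (hinv x),
      abs_of_pos (inv_pos.2 hε)]
    exact mul_le_mul_of_nonneg_right (hge x) (norm_nonneg _)
  have hmem_r : MemLp r 2 (volume.restrict Ω) := by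
    have h1 : MemLp (fun x => g x - gradient (v n) x) 2 (volume.restrict Ω) :=
      M.memLp_g.sub (M.adm n).memLp_g
    refine (h1.const_smul ε⁻¹).of_le (hcinv.aestronglyMeasurable.smul h1.aestronglyMeasurable)
      (Eventually.of_forall fun x => ?_)
    simp only [hr', Pi.smul_apply]
    rw [norm_smul, norm_smul, Real.norm_eq_abs, Real.norm_eq_abs, abs_of_pos (hinv x),
      abs_of_pos (inv_pos.2 hε)]
    exact mul_le_mul_of_nonneg_right (hge x) (norm_nonneg _)
  have hbd : ∀ (f : EuclideanSpace ℝ (Fin d) → EuclideanSpace ℝ (Fin d)),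
      MemLp f 2 (volume.restrict Ω) →
      Integrable (fun x => ζ x ^ 2 * ‖f x‖ ^ 2) (volume.restrict Ω) := by
    intro f hf
    have h1 : Integrable (fun x => ‖f x‖ ^ 2) (volume.restrict Ω) :=
      hf.integrable_norm_pow (by norm_num)
    refine h1.bdd_mul (c := 1) (hζ.continuous.pow 2).aestronglyMeasurable ?_
    refine Eventually.of_forall fun x => ?_
    rw [norm_pow, Real.norm_eq_abs]
    exact pow_le_one₀ (abs_nonneg _) (hζ1 x)
  have hζa : Adm Ω ζ := adm_of_tsupport hΩ hζ hζc hζs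
  have j1 := (hbd q hmem_q).const_mul (-(1 / 2))
  have j2 : Integrable (fun x => 5 * ‖gradient ζ x‖ ^ 2) (volume.restrict Ω) :=
    (hζa.memLp_g.integrable_norm_pow (by norm_num)).const_mul 5
  have j3 := (hbd r hmem_r).const_mul 2
  have j12 : Integrable (fun x => -(1 / 2) * (ζ x ^ 2 * ‖q x‖ ^ 2) + 5 * ‖gradient ζ x‖ ^ 2)
      (volume.restrict Ω) := j1.add j2
  have hII : ∫ x in Ω, ⟪g x, gradient ψ x⟫ ≤ -(1 / 2) * (∫ x in Ω, ζ x ^ 2 * ‖q x‖ ^ 2)
      + 5 * (∫ x in Ω, ‖gradient ζ x‖ ^ 2) + 2 * ∫ x in Ω, ζ x ^ 2 * ‖r x‖ ^ 2 := by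
    calc ∫ x in Ω, ⟪g x, gradient ψ x⟫
        ≤ ∫ x in Ω, (-(1 / 2) * (ζ x ^ 2 * ‖q x‖ ^ 2)
      + 5 * ‖gradient ζ x‖ ^ 2 + 2 * (ζ x ^ 2 * ‖r x‖ ^ 2)) := by
          apply integral_mono (memLp_two_integrable_inner M.memLp_g hψa.memLp_g)
            (j12.add j3)
          exact hpt
      _ = _ := by
          rw [integral_add j12 j3, integral_add j1 j2, integral_const_mul,
            integral_const_mul, integral_const_mul]
  have hrr : ∫ x in Ω, ζ x ^ 2 * ‖r x‖ ^ 2
      ≤ ε⁻¹ ^ 2 * ∫ x in Ω, ‖gradient (v n) x - g x‖ ^ 2 := by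
    rw [← integral_const_mul]
    have h1 : MemLp (fun x => gradient (v n) x - g x) 2 (volume.restrict Ω) :=
      (M.adm n).memLp_g.sub M.memLp_g
    apply integral_mono (hbd r hmem_r) ((h1.integrable_norm_pow (by norm_num)).const_mul _)
    intro x
    simp only [hr']
    rw [norm_smul, mul_pow, Real.norm_eq_abs, abs_of_pos (hinv x), norm_sub_rev (g x)]
    have h2 : ζ x ^ 2 ≤ 1 := by
      rw [← sq_abs]; exact pow_le_one₀ (abs_nonneg _) (hζ1 x)
    have h3 : (v n x + ε)⁻¹ ^ 2 ≤ ε⁻¹ ^ 2 := pow_le_pow_left₀ (hinv x).le (hge x) 2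
    calc ζ x ^ 2 * ((v n x + ε)⁻¹ ^ 2 * ‖gradient (v n) x - g x‖ ^ 2)
        ≤ 1 * (ε⁻¹ ^ 2 * ‖gradient (v n) x - g x‖ ^ 2) := by gcongr
      _ = _ := one_mul _
  have hlog : ∀ x, gradient (fun x => Real.log (v n x + ε)) x = q x := by
    intro x
    exact gradient_log hvn (hpos x)
  simp only [hlog]
  linarith

end Pool.Agent.Helper77.Robin
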