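import Pool.Agent.Helper77.Robin.GreenInt

set_option autoImplicit false
set_option linter.unusedSectionVars false

open MeasureTheory Filter Topology Set
open scoped RealInnerProductSpace

namespace Pool.Agent.Helper77.Robin

section conv
variable {E : Type*} [NormedAddCommGroup E] [InnerProductSpace ℝ E] [FiniteDimensional ℝ E]
  [MeasurableSpace E] [BorelSpace E]

/-- Convolution of two real functions. -/
noncomputable def cv (f g : E → ℝ) (z : E) : ℝ := ∫ t, f t * g (z - t)

theorem cv_eq (f g : E → ℝ) (z : E) : cv f g z = ∫ t, g t * f (z - t) := by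
  unfold cv
  rw [← integral_sub_left_eq_self (fun t => g t * f (z - t)) volume z]
  congr 1
  ext t
  rw [sub_sub_cancel, mul_comm]

theorem hasFDerivAt_cv {f g : E → ℝ} (hf : LocallyIntegrable f) (hg : ContDiff ℝ 1 g)
    (hc : HasCompactSupport g) (z : E) : ∃ L : E →L[ℝ] ℝ, HasFDerivAt (cv f g) L z ∧
      ∀ w, L w = cv f (fun y => fderiv ℝ g y w) z := by
  have h := HasCompactSupport.hasFDerivAt_convolution_right (ContinuousLinearMap.lsmul ℝ ℝ)
    hc hf hg z
  refine ⟨_, h, fun w => ?_⟩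
  rw [convolution_precompR_apply]
  · rfl
  · exact hf
  · exact hc.fderiv ℝ
  · exact hg.continuous_fderiv (by norm_num)

theorem hasDerivAt_cv_line {f g : E → ℝ} (hf : LocallyIntegrable f) (hg : ContDiff ℝ 1 g)
    (hc : HasCompactSupport g) (z e : E) (r : ℝ) :
    HasDerivAt (fun r : ℝ => cv f g (z + r • e)) (cv f (fun y => fderiv ℝ g y e) (z + r • e)) r := by
  obtain ⟨L, hL, hLw⟩ := hasFDerivAt_cv hf hg hc (z + r • e)
  rw [← hLw e]
  have h1 : HasDerivAt (fun r : ℝ => z + r • e) e r := by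
    have := ((hasDerivAt_id r).smul_const e).const_add z
    simpa using this
  exact hL.comp_hasDerivAt r h1

end conv

theorem second_deriv_le {a a1 : ℝ → ℝ} {a2 C s₀ : ℝ} (hs₀ : 0 < s₀)
    (h1 : ∀ r, HasDerivAt a (a1 r) r) (h2 : HasDerivAt a1 a2 0)
    (hC : ∀ s, 0 < s → s < s₀ → a s + a (-s) - 2 * a 0 ≤ C * s ^ 2) : a2 ≤ C := by
  by_contra hlt
  push Not at hlt
  set C' := (C + a2) / 2 with hC'
  have hCC : C < C' := by rw [hC']; linarith
  have hCa : C' < a2 := by rw [hC']; linarith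
  set g : ℝ → ℝ := fun s => a s + a (-s) - C' * s ^ 2 with hg
  have hg1 : ∀ s, HasDerivAt g (a1 s - a1 (-s) - 2 * C' * s) s := by
    intro s
    have e1 : HasDerivAt (fun s => a (-s)) (-a1 (-s)) s := by
      have h := HasDerivAt.comp s (h1 (-s)) (hasDerivAt_neg s)
      exact h.congr_deriv (by ring)
    have e2 : HasDerivAt (fun s : ℝ => C' * s ^ 2) (2 * C' * s) s := by
      have := (hasDerivAt_pow 2 s).const_mul C'
      refine this.congr_deriv ?_
      push_cast; ring
    refine (((h1 s).add e1).sub e2).congr_deriv ?_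
    ring
  have hdg : deriv g = fun s => a1 s - a1 (-s) - 2 * C' * s := by
    ext s; exact (hg1 s).deriv
  have hg2 : HasDerivAt (deriv g) (2 * a2 - 2 * C') 0 := by
    rw [hdg]
    have e1 : HasDerivAt (fun s => a1 (-s)) (-a2) 0 := by
      have h2' : HasDerivAt a1 a2 (-0) := by simpa using h2
      have h := HasDerivAt.comp 0 h2' (hasDerivAt_neg (0:ℝ))
      exact h.congr_deriv (by ring)
    have e2 : HasDerivAt (fun s : ℝ => 2 * C' * s) (2 * C') 0 := by
      simpa using (hasDerivAt_id (0:ℝ)).const_mul (2 * C')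
    refine ((h2.sub e1).sub e2).congr_deriv ?_
    ring
  have hmin : IsLocalMin g 0 := by
    apply isLocalMin_of_deriv_deriv_pos
    · rw [hg2.deriv]; linarith
    · rw [hdg]; simp
    · exact (hg1 0).continuousAt
  have hev : ∀ᶠ s in 𝓝[>] (0:ℝ), g 0 ≤ g s := nhdsWithin_le_nhds hmin
  have hev2 : ∀ᶠ s in 𝓝[>] (0:ℝ), s < s₀ := nhdsWithin_le_nhds (Iio_mem_nhds hs₀)
  obtain ⟨s, hs1, hs2, hs3⟩ := (hev.and (hev2.and self_mem_nhdsWithin)).exists
  have hs3 : 0 < s := hs3
  have h4 := hC s hs3 hs2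
  simp only [hg] at hs1
  simp only [neg_zero] at hs1
  have h5 : 0 < (C' - C) * s ^ 2 := by
    apply mul_pos (by linarith) (by positivity)
  nlinarith

theorem second_diff_ge {a a1 a2 : ℝ → ℝ} {K s : ℝ} (hs : 0 < s)
    (h1 : ∀ r, HasDerivAt a (a1 r) r) (h2 : ∀ r, HasDerivAt a1 (a2 r) r)
    (hK : ∀ r, |r| < s → -K ≤ a2 r) : -K * s ^ 2 ≤ a s + a (-s) - 2 * a 0 := by
  set g : ℝ → ℝ := fun r => a r + K / 2 * r ^ 2 with hg
  have hg1 : ∀ r, HasDerivAt g (a1 r + K * r) r := by
    intro r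
    have e2 : HasDerivAt (fun s : ℝ => K / 2 * s ^ 2) (K * r) r := by
      have := (hasDerivAt_pow 2 r).const_mul (K / 2)
      refine this.congr_deriv ?_
      push_cast; ring
    exact (h1 r).add e2
  have hdg : deriv g = fun s => a1 s + K * s := by
    ext s; exact (hg1 s).deriv
  have hg2 : ∀ r, HasDerivAt (deriv g) (a2 r + K) r := by
    intro r
    rw [hdg]
    have e2 : HasDerivAt (fun s : ℝ => K * s) K r := by
      simpa using (hasDerivAt_id r).const_mul K
    exact (h2 r).add e2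
  have hconv : ConvexOn ℝ (Icc (-s) s) g := by
    apply convexOn_of_deriv2_nonneg (convex_Icc _ _)
    · exact fun r _ => (hg1 r).continuousAt.continuousWithinAt
    · exact fun r _ => (hg1 r).differentiableAt.differentiableWithinAt
    · exact fun r _ => (hg2 r).differentiableAt.differentiableWithinAt
    · intro r hr
      rw [interior_Icc] at hr
      have : deriv^[2] g r = a2 r + K := by
        simp only [Function.iterate_succ, Function.iterate_zero, Function.comp]
        exact (hg2 r).deriv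
      rw [this]
      have := hK r (abs_lt.2 ⟨hr.1, hr.2⟩)
      linarith
  have hm1 : s ∈ Icc (-s) s := ⟨by linarith, le_rfl⟩
  have hm2 : -s ∈ Icc (-s) s := ⟨le_rfl, by linarith⟩
  have h := hconv.2 hm1 hm2 (by norm_num : (0:ℝ) ≤ 1/2) (by norm_num : (0:ℝ) ≤ 1/2) (by norm_num)
  simp only [smul_eq_mul, hg] at h
  have e0 : (1/2 : ℝ) * s + 1/2 * -s = 0 := by ring
  rw [e0] at h
  nlinarith

section main
variable {E ι : Type*} [NormedAddCommGroup E] [InnerProductSpace ℝ E] [FiniteDimensional ℝ E]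
  [MeasurableSpace E] [BorelSpace E] [Fintype ι]

theorem fderiv_reflect {g : E → ℝ} (hg : ContDiff ℝ 1 g) (z w y : E) :
    fderiv ℝ (fun y => g (z - y)) y w = - fderiv ℝ g (z - y) w := by
  have h1 : HasFDerivAt (fun y : E => z - y) (-(ContinuousLinearMap.id ℝ E)) y := by
    simpa using (hasFDerivAt_id y).const_sub z
  have h2 : HasFDerivAt g (fderiv ℝ g (z - y)) (z - y) :=
    (hg.differentiable (by norm_num) _).hasFDerivAt
  have h3 := h2.comp y h1
  have h4 : (fun y => g (z - y)) = g ∘ fun y => z - y := rfl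
  rw [h4, h3.fderiv]
  simp

theorem lapl_reflect (b : OrthonormalBasis ι ℝ E) {g : E → ℝ} (hg : ContDiff ℝ 2 g) (z y : E) :
    lapl b (fun y => g (z - y)) y = lapl b g (z - y) := by
  unfold lapl
  refine Finset.sum_congr rfl fun i _ => ?_
  have e1 : (fun y => fderiv ℝ (fun y => g (z - y)) y (b i))
      = fun y => (fun y' => - fderiv ℝ g y' (b i)) (z - y) := by
    ext y'
    exact fderiv_reflect (hg.of_le (by norm_num)) z (b i) y'
  rw [e1, fderiv_reflect (contDiff_fderiv_apply hg (b i)).neg]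
  have e2 : fderiv ℝ (fun y' => - fderiv ℝ g y' (b i)) (z - y)
      = - fderiv ℝ (fun y' => fderiv ℝ g y' (b i)) (z - y) := by
    rw [fderiv_fun_neg]
  rw [e2]
  simp

theorem integral_mul_le {ρ w : E → ℝ} {ε C : ℝ} (hρ0 : ∀ t, 0 ≤ ρ t) (hρi : Integrable ρ)
    (hρ1 : ∫ t, ρ t = 1) (hρε : ∀ t, ε ≤ ‖t‖ → ρ t = 0)
    (hi : Integrable (fun t => ρ t * w t)) (hw : ∀ t, ‖t‖ < ε → w t ≤ C) :
    ∫ t, ρ t * w t ≤ C := by
  calc ∫ t, ρ t * w t ≤ ∫ t, ρ t * C := by
        refine integral_mono hi (hρi.mul_const C) fun t => ?_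
        change ρ t * w t ≤ ρ t * C
        rcases lt_or_ge ‖t‖ ε with h | h
        · exact mul_le_mul_of_nonneg_left (hw t h) (hρ0 t)
        · rw [hρε t h]; simp
    _ = C := by rw [integral_mul_const, hρ1, one_mul]

theorem integrable_cv {f g : E → ℝ} (hf : LocallyIntegrable f) (hg : Continuous g)
    (hc : HasCompactSupport g) (z : E) : Integrable (fun t => g t * f (z - t)) :=
  hc.convolutionExists_left (ContinuousLinearMap.lsmul ℝ ℝ) hg hf z

theorem integrable_cv' {f g : E → ℝ} (hf : LocallyIntegrable f) (hg : Continuous g)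
    (hc : HasCompactSupport g) (z : E) : Integrable (fun t => f t * g (z - t)) :=
  hc.convolutionExists_right (ContinuousLinearMap.lsmul ℝ ℝ) hf hg z

theorem cv_le {f ρ : E → ℝ} {ε C : ℝ} (hf : LocallyIntegrable f) (hρ0 : ∀ t, 0 ≤ ρ t)
    (hρc : Continuous ρ) (hρs : HasCompactSupport ρ) (hρ1 : ∫ t, ρ t = 1)
    (hρε : ∀ t, ε ≤ ‖t‖ → ρ t = 0) {z : E} (hw : ∀ y, ‖y - z‖ < ε → f y ≤ C) :
    cv f ρ z ≤ C := by
  rw [cv_eq]
  refine integral_mul_le hρ0 (hρc.integrable_of_hasCompactSupport hρs) hρ1 hρε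
    (integrable_cv hf hρc hρs z) fun t ht => hw _ ?_
  rwa [sub_sub_cancel_left, norm_neg]

theorem le_cv {f ρ : E → ℝ} {ε C : ℝ} (hf : LocallyIntegrable f) (hρ0 : ∀ t, 0 ≤ ρ t)
    (hρc : Continuous ρ) (hρs : HasCompactSupport ρ) (hρ1 : ∫ t, ρ t = 1)
    (hρε : ∀ t, ε ≤ ‖t‖ → ρ t = 0) {z : E} (hw : ∀ y, ‖y - z‖ < ε → C ≤ f y) :
    C ≤ cv f ρ z := by
  have h := cv_le (f := fun y => - f y) (C := -C) hf.neg hρ0 hρc hρs hρ1 hρε (z := z)
    (fun y hy => by simpa using hw y hy)
  have e : cv (fun y => - f y) ρ z = - cv f ρ z := by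
    unfold cv
    rw [← integral_neg]
    congr 1
    ext t
    ring
  rw [e] at h
  linarith

theorem cv_second_diff_le {f ρ : E → ℝ} {ε C : ℝ} (hf : LocallyIntegrable f)
    (hρ0 : ∀ t, 0 ≤ ρ t) (hρc : Continuous ρ) (hρs : HasCompactSupport ρ) (hρ1 : ∫ t, ρ t = 1)
    (hρε : ∀ t, ε ≤ ‖t‖ → ρ t = 0) {z h : E}
    (hw : ∀ y, ‖y - z‖ < ε → f (y + h) + f (y - h) - 2 * f y ≤ C) :
    cv f ρ (z + h) + cv f ρ (z - h) - 2 * cv f ρ z ≤ C := by
  have i1 := integrable_cv hf hρc hρs (z + h)
  have i2 := integrable_cv hf hρc hρs (z - h)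
  have i3 := integrable_cv hf hρc hρs z
  have e : cv f ρ (z + h) + cv f ρ (z - h) - 2 * cv f ρ z
      = ∫ t, ρ t * (f ((z - t) + h) + f ((z - t) - h) - 2 * f (z - t)) := by
    rw [cv_eq, cv_eq, cv_eq, ← integral_add i1 i2, ← integral_const_mul, ← integral_sub]
    · congr 1
      ext t
      have e1 : z - t + h = z + h - t := by abel
      have e2 : z - t - h = z - h - t := by abel
      rw [e1, e2]
      ring
    · exact i1.add i2
    · exact i3.const_mul 2
  rw [e]
  refine integral_mul_le hρ0 (hρc.integrable_of_hasCompactSupport hρs) hρ1 hρε ?_ fun t ht =>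
    hw _ ?_
  · refine ((i1.add i2).sub (i3.const_mul 2)).congr (Eventually.of_forall fun t => ?_)
    have e1 : z - t + h = z + h - t := by abel
    have e2 : z - t - h = z - h - t := by abel
    simp only [Pi.sub_apply, Pi.add_apply]
    rw [e1, e2]
    ring
  · rwa [sub_sub_cancel_left, norm_neg]

/-- Laplacian of a mollification -/
theorem sum_cv {b : OrthonormalBasis ι ℝ E} {u ρ : E → ℝ} {Ω : Set E} {lam : ℝ}
    (hΩ : MeasurableSet Ω) (hu : IntegrableOn u Ω)
    (hint : ∀ φ : E → ℝ, ContDiff ℝ 2 φ → HasCompactSupport φ → tsupport φ ⊆ Ω →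
      ∫ x in Ω, u x * (lapl b φ x + lam * φ x) = 0)
    (hρ : ContDiff ℝ 2 ρ) (hρs : HasCompactSupport ρ) {z : E}
    (hz : ∀ y, z - y ∈ tsupport ρ → y ∈ Ω) :
    ∑ i, cv (Ω.indicator u) (fun y => fderiv ℝ (fun y => fderiv ℝ ρ y (b i)) y (b i)) z
      = - lam * cv (Ω.indicator u) ρ z := by
  have hf : LocallyIntegrable (Ω.indicator u) := (hu.integrable_indicator hΩ).locallyIntegrable
  have hcs : ∀ w : E, HasCompactSupport (fun y => fderiv ℝ (fun z => fderiv ℝ ρ z w) y w) :=
    fun w => hρs.mono' ((subset_tsupport _).trans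
      ((tsupport_fderiv_apply_subset' w).trans (tsupport_fderiv_apply_subset' w)))
  have hcc : ∀ w : E, Continuous (fun y => fderiv ℝ (fun z => fderiv ℝ ρ z w) y w) := fun w =>
    ((contDiff_fderiv_apply hρ w).continuous_fderiv (by norm_num)).clm_apply continuous_const
  have h1 : ∑ i, cv (Ω.indicator u) (fun y => fderiv ℝ (fun y => fderiv ℝ ρ y (b i)) y (b i)) z
      = ∫ t, Ω.indicator u t * lapl b ρ (z - t) := by
    unfold cv
    rw [← integral_finsetSum]
    · congr 1
      ext t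
      rw [← Finset.mul_sum]
      rfl
    · intro i _
      exact integrable_cv' hf (hcc (b i)) (hcs (b i)) z
  have hφ : ContDiff ℝ 2 (fun y => ρ (z - y)) := hρ.comp (contDiff_const.sub contDiff_id)
  have hφs : HasCompactSupport (fun y => ρ (z - y)) := by
    have h := hρs.comp_homeomorph (Homeomorph.subLeft z)
    exact h
  have hφt : tsupport (fun y => ρ (z - y)) ⊆ Ω := by
    intro y hy
    apply hz
    have h : tsupport (fun y => ρ (z - y)) ⊆ (fun y => z - y) ⁻¹' tsupport ρ := by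
      apply closure_minimal
      · intro y hy
        exact subset_tsupport _ hy
      · exact (isClosed_tsupport ρ).preimage (by fun_prop)
    exact h hy
  have h2 := hint _ hφ hφs hφt
  rw [h1]
  have i1 : Integrable (fun t => Ω.indicator u t * lapl b ρ (z - t)) := by
    have : (fun t => Ω.indicator u t * lapl b ρ (z - t)) = fun t => ∑ i, Ω.indicator u t *
        (fun y => fderiv ℝ (fun y => fderiv ℝ ρ y (b i)) y (b i)) (z - t) := by
      ext t
      rw [← Finset.mul_sum]
      rfl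
    rw [this]
    exact integrable_finsetSum _ fun i _ => integrable_cv' hf (hcc (b i)) (hcs (b i)) z
  have i2 : Integrable (fun t => Ω.indicator u t * ρ (z - t)) :=
    integrable_cv' hf hρ.continuous hρs z
  rw [← integral_indicator hΩ] at h2
  have e : (Ω.indicator fun x => u x * (lapl b (fun y => ρ (z - y)) x + lam * ρ (z - x)))
      = fun t => Ω.indicator u t * lapl b ρ (z - t) + lam * (Ω.indicator u t * ρ (z - t)) := by
    ext t
    by_cases ht : t ∈ Ω
    · simp only [ht, indicator_of_mem]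
      rw [lapl_reflect b hρ]
      ring
    · simp [ht]
  rw [e, integral_add i1 (i2.const_mul lam), integral_const_mul] at h2
  unfold cv
  linarith

theorem semiconvex_of_semiconcave {Ω W : Set E} {u : E → ℝ} {lam M C : ℝ}
    (hlam : 0 ≤ lam) (hC : 0 ≤ C) (hΩ : MeasurableSet Ω) (hu : IntegrableOn u Ω)
    (hW : IsOpen W) (hWc : Convex ℝ W) (hWΩ : W ⊆ Ω)
    (hint : ∀ e : E, ‖e‖ = 1 → ∃ (b : OrthonormalBasis ι ℝ E) (i₀ : ι), b i₀ = e ∧
      ∀ φ : E → ℝ, ContDiff ℝ 2 φ → HasCompactSupport φ → tsupport φ ⊆ Ω →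
        ∫ x in Ω, u x * (lapl b φ x + lam * φ x) = 0)
    (hub : ∀ x ∈ W, u x ≤ M) (hcont : ContinuousOn u W) {h₀ : ℝ} (hh₀ : 0 < h₀)
    (hsc : ∀ x h, x ∈ W → x + h ∈ W → x - h ∈ W → ‖h‖ < h₀ →
      u (x + h) + u (x - h) - 2 * u x ≤ C * ‖h‖ ^ 2)
    {x h : E} (h1 : x + h ∈ W) (h2 : x - h ∈ W) :
    -(lam * M + Fintype.card ι * C) * ‖h‖ ^ 2 ≤ u (x + h) + u (x - h) - 2 * u x := by
  rcases eq_or_ne h 0 with rfl | hh
  · simp; linarith
  set s := ‖h‖ with hs
  have hspos : 0 < s := norm_pos_iff.2 hh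
  set e : E := (1 / s) • h with he
  have hen : ‖e‖ = 1 := by
    rw [he, norm_smul, Real.norm_eq_abs, abs_of_pos (by positivity), ← hs]
    field_simp
  have hse : s • e = h := by
    rw [he, smul_smul]
    field_simp
    simp
  have hseg : IsCompact (segment ℝ (x - h) (x + h)) := by
    rw [segment_eq_image']
    exact isCompact_Icc.image (by fun_prop)
  obtain ⟨ε₀, hε₀, hεW⟩ := hseg.exists_thickening_subset_open hW (hWc.segment_subset h2 h1)
  have hball : ∀ r : ℝ, |r| ≤ s → ∀ y, ‖y - (x + r • e)‖ < ε₀ → y ∈ W := by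
    intro r hr y hy
    apply hεW
    rw [Metric.mem_thickening_iff]
    refine ⟨x + r • e, ?_, by rwa [dist_eq_norm]⟩
    rw [segment_eq_image']
    rw [abs_le] at hr
    refine ⟨(r + s) / (2 * s), ⟨?_, ?_⟩, ?_⟩
    · apply div_nonneg <;> linarith
    · rw [div_le_one (by positivity)]; linarith
    · simp only
      have : x + h - (x - h) = (2 * s) • e := by
        rw [mul_smul, hse, two_smul]
        abel
      rw [this, smul_smul, div_mul_cancel₀ _ (by positivity), add_smul, hse]
      abel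
  obtain ⟨b, i₀, hbi, hid⟩ := hint e hen
  set f := Ω.indicator u with hf
  have hfl : LocallyIntegrable f := (hu.integrable_indicator hΩ).locallyIntegrable
  have hfW : ∀ y ∈ W, f y = u y := fun y hy => indicator_of_mem (hWΩ hy) u
  set K := lam * M + Fintype.card ι * C with hK
  have hx : x ∈ W := hball 0 (by simpa using hspos.le) x (by simpa using hε₀)
  -- approximate
  refine le_of_forall_pos_le_add fun η hη => ?_
  have hnear : ∀ y ∈ W, ∃ ε₁ > 0, ∀ z, ‖z - y‖ < ε₁ → |f z - u y| ≤ η / 4 := by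
    intro y hy
    have hc1 : ContinuousAt u y := hcont.continuousAt (hW.mem_nhds hy)
    have h3 : ∀ᶠ z in 𝓝 y, |f z - u y| < η / 4 := by
      have h4 : ∀ᶠ z in 𝓝 y, |u z - u y| < η / 4 := by
        have := hc1 (Metric.ball_mem_nhds _ (show 0 < η / 4 by positivity))
        filter_upwards [this] with z hz
        exact hz
      filter_upwards [h4, hW.mem_nhds hy] with z hz hz2
      rwa [hfW z hz2]
    obtain ⟨ε₁, hε₁, h5⟩ := Metric.eventually_nhds_iff_ball.1 h3
    exact ⟨ε₁, hε₁, fun z hz => (h5 z (by rwa [mem_ball_iff_norm])).le⟩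
  obtain ⟨ε₁, hε₁, hn1⟩ := hnear _ h1
  obtain ⟨ε₂, hε₂, hn2⟩ := hnear _ h2
  obtain ⟨ε₃, hε₃, hn3⟩ := hnear _ hx
  set ε := min (ε₀ / 2) (min ε₁ (min ε₂ ε₃)) with hε
  have hεpos : 0 < ε := by positivity
  have hle0 : ε ≤ ε₀ / 2 := min_le_left _ _
  have hle1 : ε ≤ ε₁ := (min_le_right _ _).trans (min_le_left _ _)
  have hle2 : ε ≤ ε₂ := (min_le_right _ _).trans ((min_le_right _ _).trans (min_le_left _ _))
  have hle3 : ε ≤ ε₃ := (min_le_right _ _).trans ((min_le_right _ _).trans (min_le_right _ _))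
  let B : ContDiffBump (0 : E) := ⟨ε / 2, ε, by positivity, by linarith⟩
  set ρ : E → ℝ := B.normed volume with hρdef
  have hρ : ContDiff ℝ 2 ρ := B.contDiff_normed (n := 2)
  have hρ1 : ContDiff ℝ 1 ρ := hρ.of_le (by norm_num)
  have hρs : HasCompactSupport ρ := B.hasCompactSupport_normed
  have hρ0 : ∀ t, 0 ≤ ρ t := fun t => B.nonneg_normed t
  have hρi : ∫ t, ρ t = 1 := B.integral_normed
  have hρε : ∀ t, ε ≤ ‖t‖ → ρ t = 0 := by
    intro t ht
    by_contra hne
    have : t ∈ Function.support ρ := hne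
    rw [hρdef, B.support_normed_eq, mem_ball_zero_iff] at this
    exact absurd this (not_lt.2 ht)
  have hρt : tsupport ρ = Metric.closedBall 0 ε := B.tsupport_normed_eq
  have hd : ∀ w : E, ContDiff ℝ 1 (fun y => fderiv ℝ ρ y w) := fun w => contDiff_fderiv_apply hρ w
  have hds : ∀ w : E, HasCompactSupport (fun y => fderiv ℝ ρ y w) := fun w =>
    hρs.mono' ((subset_tsupport _).trans (tsupport_fderiv_apply_subset' w))
  have hmain := second_diff_ge (a := fun r => cv f ρ (x + r • e))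
    (a1 := fun r => cv f (fun y => fderiv ℝ ρ y e) (x + r • e))
    (a2 := fun r => cv f (fun y => fderiv ℝ (fun y => fderiv ℝ ρ y e) y e) (x + r • e))
    (K := K) hspos (fun r => hasDerivAt_cv_line hfl hρ1 hρs x e r)
    (fun r => hasDerivAt_cv_line hfl (hd e) (hds e) x e r) ?_
  · simp only [hse, zero_smul, add_zero, neg_smul] at hmain
    have c1 : cv f ρ (x + h) ≤ u (x + h) + η / 4 :=
      cv_le hfl hρ0 hρ.continuous hρs hρi hρε fun y hy => by
        have := abs_le.1 (hn1 y (hy.trans_le hle1))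
        linarith
    have c2 : cv f ρ (x + -h) ≤ u (x - h) + η / 4 :=
      cv_le hfl hρ0 hρ.continuous hρs hρi hρε fun y hy => by
        rw [← sub_eq_add_neg] at hy
        have := abs_le.1 (hn2 y (hy.trans_le hle2))
        linarith
    have c3 : u x - η / 4 ≤ cv f ρ x :=
      le_cv hfl hρ0 hρ.continuous hρs hρi hρε fun y hy => by
        have := abs_le.1 (hn3 y (hy.trans_le hle3))
        linarith
    linarith
  · intro r hr
    set z := x + r • e with hz
    have hzW : ∀ y, ‖y - z‖ < ε₀ → y ∈ W := hball r hr.le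
    have hsum := sum_cv (b := b) (z := z) hΩ hu hid hρ hρs (by
      intro y hy
      rw [hρt, mem_closedBall_zero_iff] at hy
      apply hWΩ
      apply hzW
      rw [← norm_neg, neg_sub]
      linarith)
    have hle : ∀ i, cv f (fun y => fderiv ℝ (fun y => fderiv ℝ ρ y (b i)) y (b i)) z ≤ C := by
      intro i
      have h5 := hasDerivAt_cv_line hfl (hd (b i)) (hds (b i)) z (b i) 0
      rw [zero_smul, add_zero] at h5
      refine second_deriv_le (a := fun r => cv f ρ (z + r • b i)) (s₀ := min (ε₀ / 2) h₀)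
        (by positivity)
        (fun r => hasDerivAt_cv_line hfl hρ1 hρs z (b i) r) h5 ?_
      intro t ht ht'
      have ht2 : t < ε₀ / 2 := ht'.trans_le (min_le_left _ _)
      have ht3 : t < h₀ := ht'.trans_le (min_le_right _ _)
      simp only [zero_smul, add_zero, neg_smul]
      rw [← sub_eq_add_neg]
      have hnt : ‖t • b i‖ = t := by
        rw [norm_smul, Real.norm_eq_abs, abs_of_pos ht, b.norm_eq_one, mul_one]
      refine cv_second_diff_le hfl hρ0 hρ.continuous hρs hρi hρε fun y hy => ?_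
      have m0 : y ∈ W := hzW y (by linarith)
      have m1 : y + t • b i ∈ W := hzW _ (by
        calc ‖y + t • b i - z‖ = ‖(y - z) + t • b i‖ := by congr 1; abel
          _ ≤ ‖y - z‖ + ‖t • b i‖ := norm_add_le _ _
          _ < ε₀ := by rw [hnt]; linarith)
      have m2 : y - t • b i ∈ W := hzW _ (by
        calc ‖y - t • b i - z‖ = ‖(y - z) - t • b i‖ := by congr 1; abel
          _ ≤ ‖y - z‖ + ‖t • b i‖ := norm_sub_le _ _
          _ < ε₀ := by rw [hnt]; linarith)
      have := hsc y (t • b i) m0 m1 m2 (by rw [hnt]; exact ht3)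
      rw [hnt] at this
      rw [hfW _ m0, hfW _ m1, hfW _ m2]
      exact this
    have hUM : cv f ρ z ≤ M := cv_le hfl hρ0 hρ.continuous hρs hρi hρε fun y hy => by
      have m0 : y ∈ W := hzW y (by linarith)
      rw [hfW _ m0]
      exact hub y m0
    rw [← hbi]
    classical
    have hsplit := Finset.add_sum_erase Finset.univ
      (fun i => cv f (fun y => fderiv ℝ (fun y => fderiv ℝ ρ y (b i)) y (b i)) z)
      (Finset.mem_univ i₀)
    have hrest : ∑ i ∈ Finset.univ.erase i₀,
        cv f (fun y => fderiv ℝ (fun y => fderiv ℝ ρ y (b i)) y (b i)) z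
        ≤ Fintype.card ι * C := by
      calc _ ≤ ∑ i ∈ Finset.univ.erase i₀, C := Finset.sum_le_sum fun i _ => hle i
        _ = ((Finset.univ.erase i₀).card : ℝ) * C := by rw [Finset.sum_const, nsmul_eq_mul]
        _ ≤ Fintype.card ι * C := by
          apply mul_le_mul_of_nonneg_right _ hC
          exact_mod_cast Finset.card_le_univ _
    have : lam * cv f ρ z ≤ lam * M := mul_le_mul_of_nonneg_left hUM hlam
    linarith

end main

end Pool.Agent.Helper77.Robin
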