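import Mathlib

set_option autoImplicit false
set_option linter.unusedSectionVars false

open MeasureTheory Filter Topology Set
open scoped RealInnerProductSpace

namespace Pool.Agent.Helper77.Robin

variable {E : Type*} [NormedAddCommGroup E] [InnerProductSpace ℝ E] [FiniteDimensional ℝ E]

theorem exists_supergradient {f : E → ℝ} {Ω : Set E} (hΩ : IsOpen Ω) (hc : ConcaveOn ℝ Ω f)
    {x : E} (hx : x ∈ Ω) : ∃ p : E, ∀ y ∈ Ω, f y ≤ f x + ⟪p, y - x⟫ := by
  set A : Set (E × ℝ) := {q | q.1 ∈ Ω ∧ q.2 < f q.1} with hA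
  have hAc : Convex ℝ A := hc.convex_strict_hypograph
  have hcf : ContinuousOn f Ω := hc.continuousOn hΩ
  have hAo : IsOpen A := by
    have h1 : ContinuousOn (fun q : E × ℝ => f q.1 - q.2) (Ω ×ˢ (univ : Set ℝ)) := by
      refine ContinuousOn.sub (hcf.comp continuousOn_fst ?_) continuousOn_snd
      intro q hq
      exact hq.1
    have h2 := h1.isOpen_inter_preimage (hΩ.prod isOpen_univ) (isOpen_Ioi (a := (0:ℝ)))
    convert h2 using 1
    ext q
    simp [hA]
  have hxA : (x, f x) ∉ A := fun h => lt_irrefl _ h.2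
  obtain ⟨L, hL⟩ := geometric_hahn_banach_open_point hAc hAo hxA
  -- decompose `L`
  set l : E →L[ℝ] ℝ := L.comp (ContinuousLinearMap.inl ℝ E ℝ) with hl
  set c : ℝ := L (0, 1) with hcdef
  have hdec : ∀ (y : E) (r : ℝ), L (y, r) = l y + c * r := by
    intro y r
    have : ((y, r) : E × ℝ) = (y, 0) + r • (0, 1) := by simp
    rw [this, map_add, map_smul]
    simp [hl, hcdef, mul_comm]
  have hcpos : 0 < c := by
    have h := hL (x, f x - 1) ⟨hx, by simp⟩
    rw [hdec, hdec] at h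
    nlinarith
  refine ⟨(InnerProductSpace.toDual ℝ E).symm (-(c⁻¹) • l), fun y hy => ?_⟩
  have h1 : l y + c * f y ≤ l x + c * f x := by
    have h2 : ∀ r < f y, l y + c * r ≤ l x + c * f x := by
      intro r hr
      have h := hL (y, r) ⟨hy, hr⟩
      rw [hdec, hdec] at h
      exact h.le
    have h3 : Tendsto (fun r => l y + c * r) (𝓝[<] (f y)) (𝓝 (l y + c * f y)) := by
      apply Tendsto.mono_left _ nhdsWithin_le_nhds
      exact (Continuous.tendsto (by fun_prop) _)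
    refine le_of_tendsto h3 ?_
    filter_upwards [self_mem_nhdsWithin] with r hr using h2 r hr
  have h5 : ⟪(InnerProductSpace.toDual ℝ E).symm (-(c⁻¹) • l), y - x⟫ = -c⁻¹ * (l y - l x) := by
    rw [InnerProductSpace.toDual_symm_apply, map_sub]
    change -c⁻¹ * l y - -c⁻¹ * l x = _
    ring
  rw [h5]
  have h4 : c * f y ≤ c * (f x + -c⁻¹ * (l y - l x)) := by
    have : c * (f x + -c⁻¹ * (l y - l x)) = c * f x - (l y - l x) := by
      field_simp
      ring
    rw [this]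
    linarith
  exact le_of_mul_le_mul_left h4 hcpos

/-- Semiconvexity of a concave function gives a first order expansion with the supergradient. -/
theorem lower_expansion {f : E → ℝ} {W : Set E} {p : E → E} {K h₀ : ℝ}
    (hp : ∀ x ∈ W, ∀ y ∈ W, f y ≤ f x + ⟪p x, y - x⟫)
    (hK : ∀ x h, x + h ∈ W → x - h ∈ W → ‖h‖ ≤ h₀ → x ∈ W →
      -K * ‖h‖ ^ 2 ≤ f (x + h) + f (x - h) - 2 * f x)
    {x h : E} (hx : x ∈ W) (h1 : x + h ∈ W) (h2 : x - h ∈ W) (hh : ‖h‖ ≤ h₀) :
    f x + ⟪p x, h⟫ - K * ‖h‖ ^ 2 ≤ f (x + h) := by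
  have a := hK x h h1 h2 hh hx
  have b := hp x hx (x - h) h2
  rw [sub_sub_cancel_left, inner_neg_right] at b
  linarith

theorem local_lipschitz_gradient {f : E → ℝ} {W : Set E} {p : E → E} {K h₀ : ℝ} (hK0 : 0 ≤ K)
    (hp : ∀ x ∈ W, ∀ y ∈ W, f y ≤ f x + ⟪p x, y - x⟫)
    (hK : ∀ x h, x + h ∈ W → x - h ∈ W → ‖h‖ ≤ h₀ → x ∈ W →
      -K * ‖h‖ ^ 2 ≤ f (x + h) + f (x - h) - 2 * f x)
    {x y : E} {r : ℝ} (hball : Metric.ball x r ⊆ W) (hxy : 3 * ‖y - x‖ < r)
    (hh : ‖y - x‖ ≤ h₀) : ‖p y - p x‖ ≤ 2 * K * ‖y - x‖ := by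
  set δ := ‖y - x‖ with hδ
  have hδ0 : 0 ≤ δ := norm_nonneg _
  rcases hδ0.eq_or_lt with h0 | hpos
  · have : y = x := by
      rw [← sub_eq_zero, ← norm_eq_zero, ← hδ, ← h0]
    rw [this]
    simp [← h0]
  have hmem : ∀ z, ‖z - x‖ ≤ 2 * δ → z ∈ W := by
    intro z hz
    apply hball
    rw [mem_ball_iff_norm]
    linarith
  have hx : x ∈ W := hmem x (by simp; linarith)
  have hy : y ∈ W := hmem y (by rw [← hδ]; linarith)
  have key : ∀ h : E, ‖h‖ = δ → ⟪p y - p x, h⟫ ≤ 2 * K * δ ^ 2 := by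
    intro h hhn
    have m1 : y + h ∈ W := hmem _ (by
      have : y + h - x = (y - x) + h := by abel
      rw [this]
      calc ‖(y - x) + h‖ ≤ ‖y - x‖ + ‖h‖ := norm_add_le _ _
        _ = 2 * δ := by rw [hhn, ← hδ]; ring)
    have m2 : y - h ∈ W := hmem _ (by
      have : y - h - x = (y - x) - h := by abel
      rw [this]
      calc ‖(y - x) - h‖ ≤ ‖y - x‖ + ‖h‖ := norm_sub_le _ _
        _ = 2 * δ := by rw [hhn, ← hδ]; ring)
    have m3 : x + (y - x) ∈ W := by simpa using hy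
    have m4 : x - (y - x) ∈ W := hmem _ (by
      have : x - (y - x) - x = -(y - x) := by abel
      rw [this, norm_neg, ← hδ]
      linarith)
    have e1 := lower_expansion hp hK hy m1 m2 (by rw [hhn]; exact hh)
    have e2 := lower_expansion hp hK hx m3 m4 hh
    have e3 := hp x hx (y + h) m1
    rw [add_sub_cancel] at e2
    have e4 : y + h - x = (y - x) + h := by abel
    rw [e4, inner_add_right] at e3
    rw [hhn] at e1
    rw [← hδ] at e2
    rw [inner_sub_left]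
    linarith
  rcases (norm_nonneg (p y - p x)).eq_or_lt with h0 | h0
  · rw [← h0]; positivity
  · have h1 := key ((δ / ‖p y - p x‖) • (p y - p x)) (by
      rw [norm_smul, Real.norm_eq_abs, abs_of_nonneg (by positivity)]
      field_simp)
    rw [inner_smul_right, real_inner_self_eq_norm_sq] at h1
    have h2 : δ / ‖p y - p x‖ * ‖p y - p x‖ ^ 2 = δ * ‖p y - p x‖ := by
      field_simp
    rw [h2] at h1
    have h3 : δ * ‖p y - p x‖ ≤ δ * (2 * K * δ) := by
      calc δ * ‖p y - p x‖ ≤ 2 * K * δ ^ 2 := h1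
        _ = δ * (2 * K * δ) := by ring
    exact le_of_mul_le_mul_left h3 hpos

theorem lipschitz_gradient {f : E → ℝ} {W : Set E} {p : E → E} {K h₀ : ℝ} (hK0 : 0 ≤ K)
    (hh₀ : 0 < h₀) (hW : IsOpen W) (hWc : Convex ℝ W)
    (hp : ∀ x ∈ W, ∀ y ∈ W, f y ≤ f x + ⟪p x, y - x⟫)
    (hK : ∀ x h, x + h ∈ W → x - h ∈ W → ‖h‖ ≤ h₀ → x ∈ W →
      -K * ‖h‖ ^ 2 ≤ f (x + h) + f (x - h) - 2 * f x)
    {x y : E} (hx : x ∈ W) (hy : y ∈ W) : ‖p y - p x‖ ≤ 2 * K * ‖y - x‖ := by
  -- compactness of the segment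
  have hseg : IsCompact (segment ℝ x y) := by
    rw [segment_eq_image']
    exact isCompact_Icc.image (by fun_prop)
  obtain ⟨r, hr, hrW⟩ := hseg.exists_thickening_subset_open hW (hWc.segment_subset hx hy)
  have hball : ∀ z ∈ segment ℝ x y, Metric.ball z r ⊆ W := by
    intro z hz w hw
    apply hrW
    rw [Metric.mem_thickening_iff]
    exact ⟨z, hz, hw⟩
  obtain ⟨N, hN⟩ := exists_nat_gt (max (3 * ‖y - x‖ / r) (‖y - x‖ / h₀))
  have hN1 : 3 * ‖y - x‖ / r < N := lt_of_le_of_lt (le_max_left _ _) hN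
  have hN2 : ‖y - x‖ / h₀ < N := lt_of_le_of_lt (le_max_right _ _) hN
  have hNpos : (0:ℝ) < N := lt_of_le_of_lt (by positivity) hN1
  set z : ℕ → E := fun i => x + ((i : ℝ) / N) • (y - x) with hz
  have hzseg : ∀ i, i ≤ N → z i ∈ segment ℝ x y := by
    intro i hi
    rw [segment_eq_image']
    refine ⟨(i : ℝ) / N, ⟨by positivity, ?_⟩, rfl⟩
    rw [div_le_one hNpos]
    exact_mod_cast hi
  have hdiff : ∀ i, z (i + 1) - z i = (1 / (N:ℝ)) • (y - x) := by
    intro i
    simp only [hz]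
    rw [add_sub_add_left_eq_sub, ← sub_smul]
    congr 1
    push_cast
    ring
  have hnd : ∀ i, ‖z (i + 1) - z i‖ = ‖y - x‖ / N := by
    intro i
    rw [hdiff, norm_smul, Real.norm_eq_abs, abs_of_pos (by positivity)]
    ring
  have hstep : ∀ i, i < N → ‖p (z (i + 1)) - p (z i)‖ ≤ 2 * K * (‖y - x‖ / N) := by
    intro i hi
    rw [← hnd i]
    refine local_lipschitz_gradient hK0 hp hK (hball _ (hzseg i hi.le)) ?_ ?_
    · rw [hnd, ← mul_div_assoc, div_lt_iff₀ hNpos]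
      rw [div_lt_iff₀ hr] at hN1
      linarith
    · rw [hnd, div_le_iff₀ hNpos]
      rw [div_lt_iff₀ hh₀] at hN2
      linarith
  have hsum : ∀ k, k ≤ N → ‖p (z k) - p (z 0)‖ ≤ k * (2 * K * (‖y - x‖ / N)) := by
    intro k
    induction k with
    | zero => intro _; simp
    | succ k ih =>
      intro hk
      have h1 := ih (by omega)
      have h2 := hstep k (by omega)
      calc ‖p (z (k + 1)) - p (z 0)‖ = ‖(p (z (k + 1)) - p (z k)) + (p (z k) - p (z 0))‖ := by
            congr 1; abel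
        _ ≤ ‖p (z (k + 1)) - p (z k)‖ + ‖p (z k) - p (z 0)‖ := norm_add_le _ _
        _ ≤ 2 * K * (‖y - x‖ / N) + k * (2 * K * (‖y - x‖ / N)) := add_le_add h2 h1
        _ = ((k + 1 : ℕ) : ℝ) * (2 * K * (‖y - x‖ / N)) := by push_cast; ring
  have hfin := hsum N le_rfl
  have e0 : z 0 = x := by simp [hz]
  have eN : z N = y := by
    simp only [hz]
    rw [div_self hNpos.ne', one_smul]
    abel
  rw [e0, eN] at hfin
  refine hfin.trans (le_of_eq ?_)
  field_simp

end Pool.Agent.Helper77.Robin
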