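import Pool.Agent.Helper77.Robin.NormalSlopeGe
import Pool.Agent.Helper77.Robin.SuperGrad
import Pool.Agent.Helper77.Robin.Semi

set_option autoImplicit false
set_option linter.unusedSectionVars false

open MeasureTheory Filter Topology Set
open scoped RealInnerProductSpace

namespace Pool.Agent.Helper77.Robin

variable {m : ℕ} {Ω W : Set (EuclideanSpace ℝ (Fin (m + 1)))} {δ : ℝ}
  {y₀ n : EuclideanSpace ℝ (Fin (m + 1))} {α lam : ℝ} {u : EuclideanSpace ℝ (Fin (m + 1)) → ℝ}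

theorem normal_slope_le' (hα : 0 ≤ α) (hlam : 0 ≤ lam)
    (hΩ : IsOpen Ω) (hW : IsVeryWeak Ω α lam u) (hpos : ∀ x ∈ Ω, 0 < u x)
    (hc : ConcaveOn ℝ Ω (fun x => Real.log (u x))) (hn : ‖n‖ = 1)
    (hf : IsFlat Ω y₀ n δ) {z : EuclideanSpace ℝ (Fin (m + 1))} (hz : z ∈ Ω) {t : ℝ} (ht : 0 ≤ t)
    (h1 : dist z y₀ < δ) (h2 : dist (z + t • n) y₀ < δ) :
    Real.log (u (z + t • n)) - Real.log (u z) ≤ α * t := by
  rcases ht.eq_or_lt with rfl | ht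
  · simp
  obtain ⟨Θ, rfl⟩ := exists_frame m n hn
  obtain ⟨⟨s₁, τ₁⟩, rfl⟩ : ∃ p, J Θ y₀ p = z := ⟨_, J_Jinv Θ y₀ z⟩
  have hs₁ : 0 < s₁ := by
    have := (hf.mem_iff _ h1).1 hz
    rwa [inner_J_sub_nrm] at this
  rw [← J_add_nrm] at h2 ⊢
  refine normal_slope_le hα hlam hΩ hW hpos hc hf hs₁ ht ?_
  have h3 := norm_J_sub_sq Θ y₀ (s₁ + t, τ₁)
  simp only at h3
  rw [← h3, ← dist_eq_norm]
  have := hf.pos
  have h4 : 0 ≤ dist (J Θ y₀ (s₁ + t, τ₁)) y₀ := dist_nonneg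
  exact pow_lt_pow_left₀ h2 h4 (by norm_num)

theorem supergrad_normal_le (hα : 0 ≤ α) (hlam : 0 ≤ lam)
    (hΩ : IsOpen Ω) (hW : IsVeryWeak Ω α lam u) (hpos : ∀ x ∈ Ω, 0 < u x)
    (hc : ConcaveOn ℝ Ω (fun x => Real.log (u x))) (hn : ‖n‖ = 1)
    (hf : IsFlat Ω y₀ n δ) {z p : EuclideanSpace ℝ (Fin (m + 1))} (hz : z ∈ Ω)
    (h1 : dist z y₀ < δ)
    (hp : ∀ y ∈ Ω, Real.log (u y) ≤ Real.log (u z) + ⟪p, y - z⟫) : ⟪p, n⟫ ≤ α := by
  have hcont : Continuous (fun t : ℝ => z - t • n) := by fun_prop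
  have e0 : z - (0:ℝ) • n = z := by simp
  have h2 : ∀ᶠ t in 𝓝 (0:ℝ), z - t • n ∈ Ω := by
    apply hcont.continuousAt.eventually_mem
    rw [e0]
    exact hΩ.mem_nhds hz
  have h3 : ∀ᶠ t in 𝓝 (0:ℝ), z - t • n ∈ Metric.ball y₀ δ := by
    apply hcont.continuousAt.eventually_mem
    rw [e0]
    exact Metric.isOpen_ball.mem_nhds h1
  have h4 : ∀ᶠ t in 𝓝[>] (0:ℝ), z - t • n ∈ Ω ∧ z - t • n ∈ Metric.ball y₀ δ :=
    nhdsWithin_le_nhds (h2.and h3)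
  obtain ⟨t, ⟨h5, h6⟩, ht⟩ := (h4.and self_mem_nhdsWithin).exists
  have ht : 0 < t := ht
  have h7 := normal_slope_le' hα hlam hΩ hW hpos hc hn hf h5 ht.le h6 (by simpa using h1)
  rw [sub_add_cancel] at h7
  have h8 := hp _ h5
  rw [sub_sub_cancel_left, inner_neg_right, inner_smul_right] at h8
  have h9 : t * ⟪p, n⟫ ≤ t * α := by linarith
  exact le_of_mul_le_mul_left h9 ht

theorem exists_normal_ge (hα : 0 ≤ α)
    (hΩ : IsOpen Ω) (hW : IsVeryWeak Ω α lam u) (hpos : ∀ x ∈ Ω, 0 < u x)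
    (huc : ContinuousOn u Ω) (hn : ‖n‖ = 1)
    (hf : IsFlat Ω y₀ n δ) {p : EuclideanSpace ℝ (Fin (m + 1)) → EuclideanSpace ℝ (Fin (m + 1))}
    (hp : ∀ x ∈ Ω, ∀ y ∈ Ω, Real.log (u y) ≤ Real.log (u x) + ⟪p x, y - x⟫)
    {m₀ M₀ : ℝ} (hm₀ : 0 < m₀) (hlow : ∀ z ∈ Ω, dist z y₀ < δ → m₀ ≤ u z)
    (hup : ∀ z ∈ Ω, dist z y₀ < δ → u z ≤ M₀) {β ρ : ℝ} (hβ : β < α) (hρ : 0 < ρ) :
    ∃ z ∈ Ω, dist z y₀ < ρ ∧ β < ⟪p z, n⟫ := by
  by_contra hcon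
  push Not at hcon
  obtain ⟨Θ, rfl⟩ := exists_frame m n hn
  have hδ := hf.pos
  set r := min δ ρ / 2 with hr
  have hrpos : 0 < r := by rw [hr]; positivity
  have hbox : ∀ s (τ : EuclideanSpace ℝ (Fin m)), 0 < s → s ≤ r → ‖τ‖ ≤ r →
      J Θ y₀ (s, τ) ∈ Ω ∧ dist (J Θ y₀ (s, τ)) y₀ < δ ∧ dist (J Θ y₀ (s, τ)) y₀ < ρ := by
    intro s τ hs hs' hτ
    have h2 := norm_J_sub_sq Θ y₀ (s, τ)
    simp only at h2
    have h3 : ‖J Θ y₀ (s, τ) - y₀‖ < min δ ρ := by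
      have e1 : s ^ 2 ≤ r ^ 2 := pow_le_pow_left₀ hs.le hs' 2
      have e2 : ‖τ‖ ^ 2 ≤ r ^ 2 := pow_le_pow_left₀ (norm_nonneg _) hτ 2
      have e3 : min δ ρ = 2 * r := by rw [hr]; ring
      rw [e3]
      nlinarith [norm_nonneg (J Θ y₀ (s, τ) - y₀)]
    have h4 : dist (J Θ y₀ (s, τ)) y₀ < δ := by
      rw [dist_eq_norm]; exact h3.trans_le (min_le_left _ _)
    refine ⟨?_, h4, ?_⟩
    · rw [hf.mem_iff _ h4, inner_J_sub_nrm]
      exact hs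
    · rw [dist_eq_norm]; exact h3.trans_le (min_le_right _ _)
  refine normal_slope_ge_contra hα hΩ hW huc hf hβ hrpos hrpos ?_ hm₀ ?_
    (fun s τ hs hs' hτ => ?_) (M₀ := M₀) (fun s τ hs hs' hτ => ?_)
  · have e3 : 2 * r ≤ δ := by rw [hr]; linarith [min_le_left δ ρ]
    nlinarith
  · intro s s' τ hs hss hs' hτ
    obtain ⟨hz, _, hz2⟩ := hbox s τ hs (hss.trans hs') hτ
    obtain ⟨hz', _, _⟩ := hbox s' τ (hs.trans_le hss) hs' hτ
    have h5 := hp _ hz _ hz'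
    have e1 : s' = s + (s' - s) := by ring
    have e2 : J Θ y₀ (s', τ) - J Θ y₀ (s, τ) = (s' - s) • nrm Θ := by
      nth_rewrite 1 [e1]
      rw [J_add_nrm, add_sub_cancel_left]
    rw [e2, inner_smul_right] at h5
    have h6 := hcon _ hz hz2
    have h7 : (s' - s) * ⟪p (J Θ y₀ (s, τ)), nrm Θ⟫ ≤ (s' - s) * β :=
      mul_le_mul_of_nonneg_left h6 (by linarith)
    rw [← Real.exp_log (hpos _ hz), ← Real.exp_log (hpos _ hz'), ← Real.exp_add, ← Real.exp_add]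
    apply Real.exp_le_exp.2
    linarith
  · obtain ⟨hz, hz1, _⟩ := hbox s τ hs hs' hτ
    exact hlow _ hz hz1
  · obtain ⟨hz, hz1, _⟩ := hbox s τ hs hs' hτ
    exact hup _ hz hz1

theorem normal_trace (hα : 0 ≤ α) (hlam : 0 ≤ lam)
    (hΩ : IsOpen Ω) (hW : IsVeryWeak Ω α lam u) (hpos : ∀ x ∈ Ω, 0 < u x)
    (hc : ConcaveOn ℝ Ω (fun x => Real.log (u x)))
    (huc : ContinuousOn u Ω) (hn : ‖n‖ = 1)
    (hf : IsFlat Ω y₀ n δ) {p : EuclideanSpace ℝ (Fin (m + 1)) → EuclideanSpace ℝ (Fin (m + 1))}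
    (hp : ∀ x ∈ Ω, ∀ y ∈ Ω, Real.log (u y) ≤ Real.log (u x) + ⟪p x, y - x⟫)
    {m₀ M₀ : ℝ} (hm₀ : 0 < m₀) (hlow : ∀ z ∈ W, m₀ ≤ u z)
    (hup : ∀ z ∈ W, u z ≤ M₀) (hWf : ∀ z ∈ Ω, dist z y₀ < δ → z ∈ W) {K : ℝ} (hK : 0 ≤ K)
    (hLip : ∀ x ∈ W, ∀ y ∈ W, ‖p y - p x‖ ≤ K * ‖y - x‖)
    {z : EuclideanSpace ℝ (Fin (m + 1))} (hz : z ∈ W) :
    |⟪p z, n⟫ - α| ≤ K * ‖z - y₀‖ := by
  refine le_of_forall_pos_le_add fun η hη => ?_
  set η' := η / (1 + K) with hη'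
  have hηpos : 0 < η' := by rw [hη']; positivity
  have hηe : η' + K * η' = η := by rw [hη']; field_simp
  obtain ⟨w, hwΩ, hw1, hw2⟩ := exists_normal_ge hα hΩ hW hpos huc hn hf hp hm₀
    (fun z hz hz' => hlow z (hWf z hz hz')) (fun z hz hz' => hup z (hWf z hz hz'))
    (β := α - η') (ρ := min δ η') (by linarith) (lt_min hf.pos hηpos)
  have hwδ : dist w y₀ < δ := hw1.trans_le (min_le_left _ _)
  have hwη : dist w y₀ < η' := hw1.trans_le (min_le_right _ _)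
  have hw3 := supergrad_normal_le hα hlam hΩ hW hpos hc hn hf hwΩ hwδ (hp w hwΩ)
  have hwW : w ∈ W := hWf w hwΩ hwδ
  have h1 : |⟪p z, n⟫ - ⟪p w, n⟫| ≤ K * ‖z - w‖ := by
    rw [← inner_sub_left]
    calc |⟪p z - p w, n⟫| ≤ ‖p z - p w‖ * ‖n‖ := abs_real_inner_le_norm _ _
      _ = ‖p z - p w‖ := by rw [hn, mul_one]
      _ ≤ K * ‖z - w‖ := hLip w hwW z hz
  have h2 : ‖z - w‖ ≤ ‖z - y₀‖ + η' := by
    calc ‖z - w‖ = ‖(z - y₀) - (w - y₀)‖ := by congr 1; abel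
      _ ≤ ‖z - y₀‖ + ‖w - y₀‖ := norm_sub_le _ _
      _ ≤ ‖z - y₀‖ + η' := by rw [← dist_eq_norm w y₀]; linarith
  have h3 : K * ‖z - w‖ ≤ K * (‖z - y₀‖ + η') := mul_le_mul_of_nonneg_left h2 hK
  have h4 := abs_le.1 h1
  rw [abs_le]
  constructor <;> nlinarith [h4.1, h4.2]

/-- Regularity: on an open convex part of `Ω` where `u` is bounded from above and below and the
supergradients of `log u` are bounded, the supergradients are Lipschitz. -/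
theorem exists_lipschitz (hlam : 0 ≤ lam)
    (hΩ : IsOpen Ω) (hW : IsVeryWeak Ω α lam u) (hpos : ∀ x ∈ Ω, 0 < u x)
    (huc : ContinuousOn u Ω)
    {p : EuclideanSpace ℝ (Fin (m + 1)) → EuclideanSpace ℝ (Fin (m + 1))}
    (hp : ∀ x ∈ Ω, ∀ y ∈ Ω, Real.log (u y) ≤ Real.log (u x) + ⟪p x, y - x⟫)
    (hWo : IsOpen W) (hWc : Convex ℝ W) (hWΩ : W ⊆ Ω)
    {m₀ M₀ L : ℝ} (hm₀ : 0 < m₀) (hM₀ : 0 < M₀) (hL : 0 < L) (hlow : ∀ z ∈ W, m₀ ≤ u z)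
    (hup : ∀ z ∈ W, u z ≤ M₀) (hpL : ∀ z ∈ W, ‖p z‖ ≤ L) :
    ∃ K, 0 ≤ K ∧ ∀ x ∈ W, ∀ y ∈ W, ‖p y - p x‖ ≤ K * ‖y - x‖ := by
  set f : EuclideanSpace ℝ (Fin (m + 1)) → ℝ := fun x => Real.log (u x) with hf
  have hLipf : ∀ x ∈ W, ∀ y ∈ W, f y - f x ≤ L * ‖y - x‖ := by
    intro x hx y hy
    have h1 := hp x (hWΩ hx) y (hWΩ hy)
    have h2 : ⟪p x, y - x⟫ ≤ L * ‖y - x‖ :=
      (real_inner_le_norm _ _).trans (mul_le_mul_of_nonneg_right (hpL x hx) (norm_nonneg _))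
    simp only [hf]
    linarith
  have habs : ∀ x h, x ∈ W → x + h ∈ W → |f (x + h) - f x| ≤ L * ‖h‖ := by
    intro x h hx hh
    have h1 := hLipf x hx _ hh
    have h2 := hLipf _ hh x hx
    rw [add_sub_cancel_left] at h1
    rw [sub_add_cancel_left, norm_neg] at h2
    rw [abs_le]
    constructor <;> linarith
  have hconc : ∀ x h, x ∈ W → x + h ∈ W → x - h ∈ W → f (x + h) + f (x - h) ≤ 2 * f x := by
    intro x h hx h1 h2
    have h3 := hp x (hWΩ hx) _ (hWΩ h1)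
    have h4 := hp x (hWΩ hx) _ (hWΩ h2)
    rw [add_sub_cancel_left] at h3
    rw [sub_sub_cancel_left, inner_neg_right] at h4
    simp only [hf]
    linarith
  have hexp : ∀ x h, x ∈ W → x + h ∈ W → u (x + h) = u x * Real.exp (f (x + h) - f x) := by
    intro x h hx hh
    rw [Real.exp_sub]
    simp only [hf]
    rw [Real.exp_log (hpos _ (hWΩ hh)), Real.exp_log (hpos _ (hWΩ hx))]
    have := (hpos _ (hWΩ hx)).ne'
    field_simp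
  -- basic expansion
  have hkey : ∀ x h, x ∈ W → x + h ∈ W → x - h ∈ W → ‖h‖ ≤ 1 / L →
      u (x + h) + u (x - h) - 2 * u x
        ≤ u x * ((f (x + h) + f (x - h) - 2 * f x) + 2 * L ^ 2 * ‖h‖ ^ 2) := by
    intro x h hx h1 h2 hh
    rw [le_div_iff₀ hL] at hh
    have a1 := habs x h hx h1
    have a2 := habs x (-h) hx (by rwa [← sub_eq_add_neg])
    rw [norm_neg, ← sub_eq_add_neg] at a2
    have e1 := hexp x h hx h1
    have e2 := hexp x (-h) hx (by rwa [← sub_eq_add_neg])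
    rw [← sub_eq_add_neg] at e2
    have b1 := Real.abs_exp_sub_one_sub_id_le (x := f (x + h) - f x) (by linarith)
    have b2 := Real.abs_exp_sub_one_sub_id_le (x := f (x - h) - f x) (by linarith)
    have c1 := (abs_le.1 b1).2
    have c2 := (abs_le.1 b2).2
    have d1 : (f (x + h) - f x) ^ 2 ≤ (L * ‖h‖) ^ 2 := by
      rw [← sq_abs]; exact pow_le_pow_left₀ (abs_nonneg _) a1 2
    have d2 : (f (x - h) - f x) ^ 2 ≤ (L * ‖h‖) ^ 2 := by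
      rw [← sq_abs]; exact pow_le_pow_left₀ (abs_nonneg _) a2 2
    have hux := hpos _ (hWΩ hx)
    rw [e1, e2]
    have : u x * Real.exp (f (x + h) - f x) + u x * Real.exp (f (x - h) - f x) - 2 * u x
        = u x * (Real.exp (f (x + h) - f x) + Real.exp (f (x - h) - f x) - 2) := by ring
    rw [this]
    apply mul_le_mul_of_nonneg_left _ hux.le
    nlinarith
  have hsc : ∀ x h, x ∈ W → x + h ∈ W → x - h ∈ W → ‖h‖ < 1 / L →
      u (x + h) + u (x - h) - 2 * u x ≤ (M₀ * (2 * L ^ 2)) * ‖h‖ ^ 2 := by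
    intro x h hx h1 h2 hh
    have h3 := hkey x h hx h1 h2 hh.le
    have h4 := hconc x h hx h1 h2
    have hux := hpos _ (hWΩ hx)
    calc u (x + h) + u (x - h) - 2 * u x
        ≤ u x * ((f (x + h) + f (x - h) - 2 * f x) + 2 * L ^ 2 * ‖h‖ ^ 2) := h3
      _ ≤ u x * (2 * L ^ 2 * ‖h‖ ^ 2) := by
          apply mul_le_mul_of_nonneg_left _ hux.le
          linarith
      _ ≤ M₀ * (2 * L ^ 2 * ‖h‖ ^ 2) := mul_le_mul_of_nonneg_right (hup x hx) (by positivity)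
      _ = _ := by ring
  set C := M₀ * (2 * L ^ 2) with hC
  set K₁ := lam * M₀ + Fintype.card (Unit ⊕ Fin m) * C with hK₁
  have hK₁0 : 0 ≤ K₁ := by positivity
  have hsemi : ∀ x h, x + h ∈ W → x - h ∈ W →
      -K₁ * ‖h‖ ^ 2 ≤ u (x + h) + u (x - h) - 2 * u x := by
    intro x h h1 h2
    refine semiconvex_of_semiconcave (Ω := Ω) (W := W) (ι := Unit ⊕ Fin m) hlam (by positivity)
      hΩ.measurableSet hW.integrableOn hWo hWc hWΩ ?_ hup (huc.mono hWΩ)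
      (show 0 < 1 / L by positivity) hsc h1 h2
    intro e he
    obtain ⟨Θ, hΘ⟩ := exists_frame m e he
    exact ⟨frameBasis Θ, Sum.inl (), by rw [frameBasis_inl, hΘ], hW.interior (frameBasis Θ)⟩
  refine ⟨2 * (K₁ / m₀ + 2 * L ^ 2), by positivity, fun x hx y hy => ?_⟩
  refine lipschitz_gradient (f := f) (h₀ := 1 / L) (by positivity) (by positivity) hWo hWc
    (fun x hx y hy => hp x (hWΩ hx) y (hWΩ hy)) ?_ hx hy
  intro x h h1 h2 hh hx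
  have h3 := hkey x h hx h1 h2 hh
  have h4 := hsemi x h h1 h2
  have hux := hpos _ (hWΩ hx)
  have h5 : -K₁ * ‖h‖ ^ 2 / u x ≤ (f (x + h) + f (x - h) - 2 * f x) + 2 * L ^ 2 * ‖h‖ ^ 2 := by
    rw [div_le_iff₀ hux]
    linarith
  have h6 : K₁ * ‖h‖ ^ 2 / u x ≤ K₁ * ‖h‖ ^ 2 / m₀ :=
    div_le_div_of_nonneg_left (by positivity) hm₀ (hlow x hx)
  have h7 : -K₁ * ‖h‖ ^ 2 / u x = - (K₁ * ‖h‖ ^ 2 / u x) := by ring
  rw [h7] at h5
  have h8 : K₁ * ‖h‖ ^ 2 / m₀ = K₁ / m₀ * ‖h‖ ^ 2 := by ring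
  rw [h8] at h6
  nlinarith

end Pool.Agent.Helper77.Robin
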