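import Pool.Agent.Helper77.Robin.Flats
import Pool.Agent.Helper77.Robin.Trace

set_option autoImplicit false
set_option linter.unusedSectionVars false

open Filter Topology Set
open scoped RealInnerProductSpace

namespace Pool.Agent.Helper77.Robin

variable {n : ℕ} {α lam : ℝ} {u : EuclideanSpace ℝ (Fin (n + 1 + 1)) → ℝ}

/-- A log-concave positive very weak solution on the domain `dom n`. -/
structure Setup (n : ℕ) (α lam : ℝ) (u : EuclideanSpace ℝ (Fin (n + 1 + 1)) → ℝ) : Prop where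
  hα : 0 < α
  hlam : 0 ≤ lam
  vw : IsVeryWeak (dom n) α lam u
  pos : ∀ x ∈ dom n, 0 < u x
  conc : ConcaveOn ℝ (dom n) (fun x => Real.log (u x))

theorem slope_e0 (S : Setup n α lam u) {x : EuclideanSpace ℝ (Fin (n + 1 + 1))} (hx : x ∈ dom n)
    {t : ℝ} (ht : 0 ≤ t) (hxt : x + t • e0 ∈ dom n) :
    Real.log (u (x + t • e0)) - Real.log (u x) ≤ α * t := by
  rcases ht.eq_or_lt with rfl | ht
  · simp
  have hx0 : 0 < x 0 := hx.1
  have hx1 := x1_pos hx
  have hx1' : x 1 < 1 := hx.2.1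
  set y := x - (x 0) • e0 with hy
  have y0 : y 0 = 0 := by simp [hy, e0_zero]
  have y1 : y 1 = x 1 := by simp [hy, e0_one]
  have yi : ∀ i, i ≠ 0 → y i = x i := by
    intro i hi
    simp [hy, e0_ne hi]
  obtain ⟨δ, hf⟩ := flat_left y0 (by rw [y1]; exact hx1) (by rw [y1]; exact hx1')
    (fun i h0 h1 => by rw [yi i h0]; exact hx.2.2.2 i h0 h1)
  have hδ := hf.pos
  set ε := min (δ / 3) (x 0 / 2) with hε
  have hεpos : 0 < ε := by positivity
  have hε1 : ε ≤ δ / 3 := min_le_left _ _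
  have hε2 : ε ≤ x 0 / 2 := min_le_right _ _
  have hyx : y + (x 0) • e0 = x := by rw [hy]; abel
  have hmem : ∀ s : ℝ, 0 < s → dist (y + s • e0) y < δ → y + s • e0 ∈ dom n := by
    intro s hs hd
    rw [hf.mem_iff _ hd, add_sub_cancel_left, inner_e0]
    simpa [e0_zero] using hs
  have hdist : ∀ s : ℝ, 0 < s → dist (y + s • e0) y = s := by
    intro s hs
    rw [dist_eq_norm, add_sub_cancel_left, norm_smul, norm_e0, Real.norm_eq_abs, abs_of_pos hs,
      mul_one]
  have hm1 : y + ε • e0 ∈ dom n := hmem ε hεpos (by rw [hdist ε hεpos]; linarith)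
  have hs1 := normal_slope_le' S.hα.le S.hlam isOpen_dom S.vw S.pos S.conc norm_e0 hf hm1 hεpos.le
    (by rw [hdist ε hεpos]; linarith)
    (by
      have e2 : y + ε • e0 + ε • e0 = y + (2 * ε) • e0 := by module
      rw [e2, hdist _ (by positivity)]; linarith)
  have hyt : y + (x 0 + t) • e0 = x + t • e0 := by
    rw [add_smul, ← add_assoc, hyx]
  have h3 := slope_line S.conc y e0 (a := ε) (b := 2 * ε) (c := x 0) (d := x 0 + t) hm1
    (by rw [hyt]; exact hxt) (by linarith) (by linarith) (by linarith)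
  rw [hyt, hyx] at h3
  have e2 : y + (2 * ε) • e0 = y + ε • e0 + ε • e0 := by module
  rw [e2, add_sub_cancel_left] at h3
  have h4 : (Real.log (u (y + ε • e0 + ε • e0)) - Real.log (u (y + ε • e0))) / (2 * ε - ε) ≤ α := by
    rw [div_le_iff₀ (by linarith)]
    calc _ ≤ α * ε := hs1
      _ = _ := by ring
  have h5 := h3.trans h4
  rwa [div_le_iff₀ ht] at h5

/-- The slopes in the vertical direction, away from vertex abscissae. -/
theorem slope_e1_strip (S : Setup n α lam u) {k : ℕ}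
    {x : EuclideanSpace ℝ (Fin (n + 1 + 1))} (hx : x ∈ dom n)
    (hk : 3 * ak k / 4 < x 0) (hk' : x 0 < 3 * ak k / 2)
    {t : ℝ} (ht : 0 ≤ t) (hxt : x + t • e1 ∈ dom n) :
    Real.log (u (x + t • e1)) - Real.log (u x) ≤ (5 * α) * t := by
  rcases ht.eq_or_lt with rfl | ht
  · simp
  have hx0 : 0 < x 0 := hx.1
  have hx1' : x 1 < 1 := hx.2.1
  have hkc := (mem_dom.1 hx).2.2.1 k
  set h := x 1 - (2 * ak k * x 0 - ak k ^ 2) with hh
  have hhpos : 0 < h := by rw [hh]; linarith
  set y := x - h • e1 with hy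
  have y0 : y 0 = x 0 := by simp [hy, e1_zero]
  have y1 : y 1 = 2 * ak k * y 0 - ak k ^ 2 := by
    rw [y0]
    simp [hy, e1_one, hh]
  have yi : ∀ i, i ≠ 1 → y i = x i := by
    intro i hi
    simp [hy, e1_ne hi]
  obtain ⟨δ, hf⟩ := flat_side (by rw [y0]; exact hk) (by rw [y0]; exact hk') y1
    (by rw [y1, y0]; linarith)
    (fun i h0 h1 => by rw [yi i h1]; exact hx.2.2.2 i h0 h1)
  have hδ := hf.pos
  set ε := min (δ / 8) (h / 2) with hε
  have hεpos : 0 < ε := by positivity
  have hε1 : ε ≤ δ / 8 := min_le_left _ _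
  have hε2 : ε ≤ h / 2 := min_le_right _ _
  have hyx : y + h • e1 = x := by rw [hy]; abel
  have hl := ell_pos k
  have hl3 := ell_le k
  have hln := inv_pos.2 hl
  have hin : ∀ s : ℝ, ⟪s • e1, nk n k⟫ = (ell k)⁻¹ * s := by
    intro s
    rw [inner_nk]
    simp [e1_one, e1_zero]
  have hmem : ∀ s : ℝ, 0 < s → dist (y + s • e1) y < δ → y + s • e1 ∈ dom n := by
    intro s hs hd
    rw [hf.mem_iff _ hd, add_sub_cancel_left, hin]
    positivity
  have hdist : ∀ s : ℝ, 0 < s → dist (y + s • e1) y = s := by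
    intro s hs
    rw [dist_eq_norm, add_sub_cancel_left, norm_smul, norm_e1, Real.norm_eq_abs, abs_of_pos hs,
      mul_one]
  have hm1 : y + ε • e1 ∈ dom n := hmem ε hεpos (by rw [hdist ε hεpos]; linarith)
  have hm2 : y + (2 * ε) • e1 ∈ dom n :=
    hmem _ (by positivity) (by rw [hdist _ (by positivity)]; linarith)
  -- the intermediate point
  set t' := ε * ell k with ht'
  have ht'pos : 0 < t' := by positivity
  have ht'3 : t' ≤ 3 * ε := by rw [ht']; nlinarith
  have hd2 : dist (y + ε • e1 + t' • nk n k) y < δ := by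
    rw [dist_eq_norm]
    calc ‖y + ε • e1 + t' • nk n k - y‖ = ‖ε • e1 + t' • nk n k‖ := by congr 1; abel
      _ ≤ ‖ε • (e1 : EuclideanSpace ℝ (Fin (n + 1 + 1)))‖ + ‖t' • nk n k‖ := norm_add_le _ _
      _ = ε + t' := by
        rw [norm_smul, norm_smul, norm_e1, norm_nk, Real.norm_eq_abs, Real.norm_eq_abs,
          abs_of_pos hεpos, abs_of_pos ht'pos, mul_one, mul_one]
      _ < δ := by linarith
  have hm3 : y + ε • e1 + t' • nk n k ∈ dom n := by
    rw [hf.mem_iff _ hd2]
    have : y + ε • e1 + t' • nk n k - y = ε • e1 + t' • nk n k := by abel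
    rw [this, inner_add_left, hin, inner_smul_left, real_inner_self_eq_norm_sq, norm_nk]
    simp only [conj_trivial]
    positivity
  have hs1 := normal_slope_le' S.hα.le S.hlam isOpen_dom S.vw S.pos S.conc (norm_nk k) hf hm1
    ht'pos.le (by rw [hdist ε hεpos]; linarith) hd2
  have e3 : y + ε • e1 + t' • nk n k + (2 * ak k * ε) • e0 = y + (2 * ε) • e1 := by
    have : t' • nk n k = ε • e1 - (2 * ak k * ε) • e0 := by
      rw [nk, smul_smul, ht']
      have : ε * ell k * (ell k)⁻¹ = ε := by field_simp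
      rw [this, smul_sub, smul_smul]
      congr 2
      ring
    rw [this]
    module
  have hs2 := slope_e0 S hm3 (t := 2 * ak k * ε) (by have := ak_pos k; positivity)
    (by rw [e3]; exact hm2)
  rw [e3] at hs2
  have hs3 : Real.log (u (y + (2 * ε) • e1)) - Real.log (u (y + ε • e1)) ≤ 5 * α * ε := by
    have h6 := ak_le_one k
    have h7 := S.hα
    have h8 : α * (2 * ak k * ε) ≤ α * (2 * ε) := by
      apply mul_le_mul_of_nonneg_left _ h7.le
      nlinarith
    have h9 : α * t' ≤ α * (3 * ε) := mul_le_mul_of_nonneg_left ht'3 h7.le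
    linarith
  have hyt : y + (h + t) • e1 = x + t • e1 := by
    rw [add_smul, ← add_assoc, hyx]
  have h3 := slope_line S.conc y e1 (a := ε) (b := 2 * ε) (c := h) (d := h + t) hm1
    (by rw [hyt]; exact hxt) (by linarith) (by linarith) (by linarith)
  rw [hyt, hyx, add_sub_cancel_left] at h3
  have h4 : (Real.log (u (y + (2 * ε) • e1)) - Real.log (u (y + ε • e1))) / (2 * ε - ε)
      ≤ 5 * α := by
    rw [div_le_iff₀ (by linarith)]
    calc _ ≤ 5 * α * ε := hs3
      _ = _ := by ring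
  have h5 := h3.trans h4
  rwa [div_le_iff₀ ht] at h5

theorem exists_strip {r : ℝ} (h0 : 0 < r) (h1 : r ≤ 3 / 4) :
    ∃ k, 3 * ak k / 4 < r ∧ r ≤ 3 * ak k / 2 := by
  obtain ⟨k, hk1, hk2⟩ := exists_nat_pow_near_of_lt_one (x := 4 * r / 3) (y := (1 / 2 : ℝ))
    (by positivity) (by linarith) (by norm_num) (by norm_num)
  have e1 : (1 / 2 : ℝ) ^ (k + 1) = ak (k + 1) := rfl
  have e2 : (1 / 2 : ℝ) ^ k = 2 * ak (k + 1) := by
    rw [ak_succ]
    unfold ak
    ring
  rw [e1] at hk1
  rw [e2] at hk2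
  exact ⟨k + 1, by linarith, by linarith⟩

theorem dom_sub_e0 {x : EuclideanSpace ℝ (Fin (n + 1 + 1))} (hx : x ∈ dom n) {s : ℝ} (hs : 0 ≤ s)
    (hs' : s < x 0) : x - s • e0 ∈ dom n := by
  obtain ⟨h0, h1, h2, h3⟩ := mem_dom.1 hx
  have c0 : (x - s • e0 : EuclideanSpace ℝ (Fin (n + 1 + 1))) 0 = x 0 - s := by simp [e0_zero]
  have c1 : (x - s • e0 : EuclideanSpace ℝ (Fin (n + 1 + 1))) 1 = x 1 := by simp [e0_one]
  rw [mem_dom, c0, c1]
  refine ⟨by linarith, h1, fun k => ?_, fun i hi0 hi1 => ?_⟩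
  · have := ak_pos k
    have := h2 k
    nlinarith
  · have : (x - s • e0 : EuclideanSpace ℝ (Fin (n + 1 + 1))) i = x i := by simp [e0_ne hi0]
    rw [this]
    exact h3 i hi0 hi1

theorem continuousOn_log (S : Setup n α lam u) :
    ContinuousOn (fun x => Real.log (u x)) (dom n) := S.conc.continuousOn isOpen_dom

theorem continuousOn_u (S : Setup n α lam u) : ContinuousOn u (dom n) := by
  have h1 : ContinuousOn (fun x => Real.exp (Real.log (u x))) (dom n) :=
    Real.continuous_exp.comp_continuousOn (continuousOn_log S)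
  exact h1.congr fun x hx => (Real.exp_log (S.pos x hx)).symm

theorem slope_e1 (S : Setup n α lam u)
    {x : EuclideanSpace ℝ (Fin (n + 1 + 1))} (hx : x ∈ dom n)
    (hx34 : x 0 ≤ 3 / 4)
    {t : ℝ} (ht : 0 ≤ t) (hxt : x + t • e1 ∈ dom n) :
    Real.log (u (x + t • e1)) - Real.log (u x) ≤ (5 * α) * t := by
  obtain ⟨k, hk1, hk2⟩ := exists_strip hx.1 hx34
  have hx0 : 0 < x 0 := hx.1
  have hkp := ak_pos k
  have hev : ∀ᶠ s in 𝓝[>] (0:ℝ), Real.log (u (x + t • e1 - s • e0)) - Real.log (u (x - s • e0))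
      ≤ (5 * α) * t := by
    have h1 : ∀ᶠ s in 𝓝[>] (0:ℝ), s < x 0 - 3 * ak k / 4 :=
      nhdsWithin_le_nhds (Iio_mem_nhds (by linarith))
    filter_upwards [h1, self_mem_nhdsWithin] with s hs1 hs2
    have hs2 : 0 < s := hs2
    have c0 : (x - s • e0 : EuclideanSpace ℝ (Fin (n + 1 + 1))) 0 = x 0 - s := by simp [e0_zero]
    have e : x + t • e1 - s • e0 = x - s • e0 + t • e1 := by abel
    rw [e]
    apply slope_e1_strip S (k := k) (dom_sub_e0 hx hs2.le (by linarith)) _ _ ht
    · rw [← e]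
      apply dom_sub_e0 hxt hs2.le
      simp only [PiLp.add_apply, PiLp.smul_apply, e1_zero, smul_eq_mul]
      linarith
    · rw [c0]; linarith
    · rw [c0]; linarith
  have ht1 : ∀ z ∈ dom n, Tendsto (fun s : ℝ => Real.log (u (z - s • e0))) (𝓝[>] 0)
      (𝓝 (Real.log (u z))) := by
    intro z hz
    have h2 : ContinuousAt (fun x => Real.log (u x)) z :=
      (continuousOn_log S).continuousAt (isOpen_dom.mem_nhds hz)
    have h3 : Tendsto (fun s : ℝ => z - s • e0) (𝓝[>] 0) (𝓝 z) := by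
      have : Continuous (fun s : ℝ => z - s • (e0 : EuclideanSpace ℝ (Fin (n + 1 + 1)))) := by
        fun_prop
      have h4 := this.tendsto 0
      simp only [zero_smul, sub_zero] at h4
      exact h4.mono_left nhdsWithin_le_nhds
    exact h2.tendsto.comp h3
  exact le_of_tendsto ((ht1 _ hxt).sub (ht1 _ hx)) hev

end Pool.Agent.Helper77.Robin
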