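import Pool.Agent.Helper77.Robin.Bump

set_option autoImplicit false
set_option linter.unusedSectionVars false

open MeasureTheory Filter Topology Set
open scoped RealInnerProductSpace

namespace Pool.Agent.Helper77.Robin

variable {m : ℕ}

/-- Very weak Robin solutions: the information about a Robin eigenfunction used in the sequel. -/
structure IsVeryWeak (Ω : Set (EuclideanSpace ℝ (Fin (m + 1)))) (α lam : ℝ)
    (u : EuclideanSpace ℝ (Fin (m + 1)) → ℝ) : Prop where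
  integrableOn : IntegrableOn u Ω
  interior : ∀ (b : OrthonormalBasis (Unit ⊕ Fin m) ℝ (EuclideanSpace ℝ (Fin (m + 1))))
    (φ : EuclideanSpace ℝ (Fin (m + 1)) → ℝ), ContDiff ℝ 2 φ → HasCompactSupport φ →
    tsupport φ ⊆ Ω → ∫ x in Ω, u x * (lapl b φ x + lam * φ x) = 0
  flat : ∀ (Θ : WithLp 2 (ℝ × EuclideanSpace ℝ (Fin m)) ≃ₗᵢ[ℝ] EuclideanSpace ℝ (Fin (m + 1)))
    (y₀ : EuclideanSpace ℝ (Fin (m + 1))) (δ : ℝ), IsFlat Ω y₀ (nrm Θ) δ →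
    ∀ φ : EuclideanSpace ℝ (Fin (m + 1)) → ℝ, ContDiff ℝ 2 φ → HasCompactSupport φ →
    tsupport φ ⊆ Metric.ball y₀ δ →
    (∀ x, ⟪x - y₀, nrm Θ⟫ = 0 → fderiv ℝ φ x (nrm Θ) = α * φ x) →
    ∫ x in Ω, u x * (lapl (frameBasis Θ) φ x + lam * φ x) = 0

theorem IsFirstRobinEigenfunction.isVeryWeak {Ω : Set (EuclideanSpace ℝ (Fin (m + 1)))}
    (hΩ : IsOpen Ω) (hne : Ω.Nonempty) (hb : Bornology.IsBounded Ω) {α : ℝ} (hα : 0 ≤ α)
    {u : EuclideanSpace ℝ (Fin (m + 1)) → ℝ} (hu : IsFirstRobinEigenfunction Ω α u) :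
    ∃ lam : ℝ, 0 ≤ lam ∧ IsVeryWeak Ω α lam u := by
  obtain ⟨g, t, lam, hlam, hS, hEL⟩ := euler_lagrange hΩ hne hα hu
  refine ⟨lam, hlam, ?_, ?_, ?_⟩
  · have : IsFiniteMeasure (volume.restrict Ω) :=
      ⟨by rw [Measure.restrict_apply_univ]; exact hb.measure_lt_top⟩
    exact hS.memLp_u.integrable (by norm_num)
  · intro b φ hφ hc hs
    exact very_weak_interior hΩ hS hEL b hφ hc hs
  · intro Θ y₀ δ hf φ hφ hc hs hR
    exact very_weak_flat hΩ hS hEL hf hφ hc hs hR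

variable (Θ : WithLp 2 (ℝ × EuclideanSpace ℝ (Fin m)) ≃ₗᵢ[ℝ] EuclideanSpace ℝ (Fin (m + 1)))
  (y₀ : EuclideanSpace ℝ (Fin (m + 1)))

/-- product test function in the coordinates of a frame -/
noncomputable def prodFn (ξ : ℝ → ℝ) (ζ : EuclideanSpace ℝ (Fin m) → ℝ)
    (x : EuclideanSpace ℝ (Fin (m + 1))) : ℝ :=
  ξ (Jinv Θ y₀ x).1 * ζ (Jinv Θ y₀ x).2

theorem prodFn_J (ξ : ℝ → ℝ) (ζ : EuclideanSpace ℝ (Fin m) → ℝ)
    (p : ℝ × EuclideanSpace ℝ (Fin m)) : prodFn Θ y₀ ξ ζ (J Θ y₀ p) = ξ p.1 * ζ p.2 := by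
  rw [prodFn, Jinv_J]

theorem contDiff_Jinv {n : WithTop ℕ∞} : ContDiff ℝ n (Jinv Θ y₀) := by
  have e : Jinv Θ y₀ = fun x =>
      (WithLp.prodContinuousLinearEquiv 2 ℝ ℝ (EuclideanSpace ℝ (Fin m)))
        (Θ.symm (x - y₀)) := rfl
  rw [e]
  apply ContinuousLinearEquiv.contDiff _ |>.comp
  exact Θ.symm.contDiff.comp (contDiff_id.sub contDiff_const)

theorem contDiff_prodFn {n : WithTop ℕ∞} {ξ : ℝ → ℝ} {ζ : EuclideanSpace ℝ (Fin m) → ℝ}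
    (hξ : ContDiff ℝ n ξ) (hζ : ContDiff ℝ n ζ) : ContDiff ℝ n (prodFn Θ y₀ ξ ζ) := by
  unfold prodFn
  exact (hξ.comp (contDiff_Jinv Θ y₀).fst).mul (hζ.comp (contDiff_Jinv Θ y₀).snd)

theorem fderiv_prodFn_nrm {ξ : ℝ → ℝ} {ζ : EuclideanSpace ℝ (Fin m) → ℝ}
    (hξ : ContDiff ℝ 1 ξ) (hζ : ContDiff ℝ 1 ζ) :
    (fun x => fderiv ℝ (prodFn Θ y₀ ξ ζ) x (nrm Θ)) = prodFn Θ y₀ (deriv ξ) ζ := by
  ext x
  obtain ⟨⟨s, τ⟩, rfl⟩ : ∃ p, J Θ y₀ p = x := ⟨_, J_Jinv Θ y₀ x⟩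
  have h1 := hasDerivAt_comp_J Θ y₀ (contDiff_prodFn Θ y₀ hξ hζ) s τ
  simp_rw [prodFn_J] at h1
  have h2 : HasDerivAt (fun s => ξ s * ζ τ) (deriv ξ s * ζ τ) s :=
    ((hξ.differentiable (by norm_num) s).hasDerivAt).mul_const _
  rw [prodFn_J]
  exact h1.unique h2

theorem fderiv_prodFn_tng {ξ : ℝ → ℝ} {ζ : EuclideanSpace ℝ (Fin m) → ℝ}
    (hξ : ContDiff ℝ 1 ξ) (hζ : ContDiff ℝ 1 ζ) (η : EuclideanSpace ℝ (Fin m)) :
    (fun x => fderiv ℝ (prodFn Θ y₀ ξ ζ) x (tng Θ η))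
      = prodFn Θ y₀ ξ (fun τ => fderiv ℝ ζ τ η) := by
  ext x
  obtain ⟨⟨s, τ⟩, rfl⟩ : ∃ p, J Θ y₀ p = x := ⟨_, J_Jinv Θ y₀ x⟩
  have h1 := hasFDerivAt_comp_J Θ y₀ (contDiff_prodFn Θ y₀ hξ hζ) s τ
  simp_rw [prodFn_J] at h1
  have h2 : HasFDerivAt (fun τ => ξ s * ζ τ) (ξ s • fderiv ℝ ζ τ) τ :=
    ((hζ.differentiable (by norm_num) τ).hasFDerivAt).const_mul _
  rw [prodFn_J]
  have h3 := h1.unique h2
  have h4 := congrArg (fun L => L η) h3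
  simpa [tngL_apply] using h4

theorem lapl_prodFn {ξ : ℝ → ℝ} {ζ : EuclideanSpace ℝ (Fin m) → ℝ}
    (hξ : ContDiff ℝ 2 ξ) (hζ : ContDiff ℝ 2 ζ) (p : ℝ × EuclideanSpace ℝ (Fin m)) :
    lapl (frameBasis Θ) (prodFn Θ y₀ ξ ζ) (J Θ y₀ p)
      = deriv (deriv ξ) p.1 * ζ p.2 + ξ p.1 * lapl (EuclideanSpace.basisFun (Fin m) ℝ) ζ p.2 := by
  have hξ1 : ContDiff ℝ 1 ξ := hξ.of_le (by norm_num)
  have hζ1 : ContDiff ℝ 1 ζ := hζ.of_le (by norm_num)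
  have hdξ : ContDiff ℝ 1 (deriv ξ) := by
    have h : ContDiff ℝ (1 + 1) ξ := by simpa [one_add_one_eq_two] using hξ
    exact ((contDiff_succ_iff_deriv).1 h).2.2
  rw [lapl, Fintype.sum_sum_type]
  simp only [Finset.univ_unique, Finset.sum_singleton, frameBasis_inl, frameBasis_inr]
  congr 1
  · rw [fderiv_prodFn_nrm Θ y₀ hξ1 hζ1]
    have := congrFun (fderiv_prodFn_nrm Θ y₀ hdξ hζ1) (J Θ y₀ p)
    rw [prodFn_J] at this
    exact this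
  · rw [lapl, Finset.mul_sum]
    refine Finset.sum_congr rfl fun i _ => ?_
    rw [fderiv_prodFn_tng Θ y₀ hξ1 hζ1]
    have := congrFun (fderiv_prodFn_tng Θ y₀ hξ1 (contDiff_fderiv_apply hζ
      (EuclideanSpace.basisFun (Fin m) ℝ i)) (EuclideanSpace.basisFun (Fin m) ℝ i)) (J Θ y₀ p)
    rw [prodFn_J] at this
    exact this

theorem deriv_deriv_eq_zero {ξ : ℝ → ℝ} (hξ : ContDiff ℝ 2 ξ) {ε : ℝ}
    (h : ∀ s, ε ≤ s → ξ s = 0) {s : ℝ} (hs : ε ≤ s) : deriv (deriv ξ) s = 0 := by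
  have hdξ : ContDiff ℝ 1 (deriv ξ) := by
    have h : ContDiff ℝ (1 + 1) ξ := by simpa [one_add_one_eq_two] using hξ
    exact ((contDiff_succ_iff_deriv).1 h).2.2
  have hc : Continuous (deriv (deriv ξ)) := hdξ.continuous_deriv (by norm_num)
  have h1 : ∀ s ∈ Ioi ε, deriv ξ s = 0 := by
    intro s hs
    have : ξ =ᶠ[𝓝 s] fun _ => 0 := by
      filter_upwards [Ioi_mem_nhds hs] with y hy using h y (le_of_lt hy)
    rw [this.deriv_eq]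
    simp
  have h2 : ∀ s ∈ Ioi ε, deriv (deriv ξ) s = 0 := by
    intro s hs
    have : deriv ξ =ᶠ[𝓝 s] fun _ => 0 := by
      filter_upwards [Ioi_mem_nhds hs] with y hy using h1 y hy
    rw [this.deriv_eq]
    simp
  have hcl : IsClosed {s | deriv (deriv ξ) s = 0} := isClosed_eq hc continuous_const
  have h3 : closure (Ioi ε) ⊆ {s | deriv (deriv ξ) s = 0} := hcl.closure_subset_iff.2 h2
  rw [closure_Ioi] at h3
  exact h3 hs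

variable {Θ} {y₀} {Ω : Set (EuclideanSpace ℝ (Fin (m + 1)))} {δ : ℝ}

theorem flat_identity {α lam : ℝ} {u : EuclideanSpace ℝ (Fin (m + 1)) → ℝ} (hΩ : IsOpen Ω)
    (hW : IsVeryWeak Ω α lam u)
    (hf : IsFlat Ω y₀ (nrm Θ) δ) {ξ : ℝ → ℝ} {ζ : EuclideanSpace ℝ (Fin m) → ℝ}
    (hξ : ContDiff ℝ 2 ξ) (hζ : ContDiff ℝ 2 ζ) {ε r : ℝ} {τ₁ : EuclideanSpace ℝ (Fin m)}
    (hξ0 : ∀ s, ε ≤ |s| → ξ s = 0) (hζ0 : ∀ τ, r ≤ ‖τ - τ₁‖ → ζ τ = 0)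
    (hζ1 : ∀ τ, r ≤ ‖τ - τ₁‖ → lapl (EuclideanSpace.basisFun (Fin m) ℝ) ζ τ = 0)
    (hbox : ε ^ 2 + (‖τ₁‖ + r) ^ 2 < δ ^ 2)
    (hR : deriv ξ 0 = α * ξ 0) :
    ∫ p in Ioo (0:ℝ) ε ×ˢ Metric.ball τ₁ r, u (J Θ y₀ p) *
      (deriv (deriv ξ) p.1 * ζ p.2 + ξ p.1 * lapl (EuclideanSpace.basisFun (Fin m) ℝ) ζ p.2
        + lam * (ξ p.1 * ζ p.2)) = 0 := by
  set φ := prodFn Θ y₀ ξ ζ with hφd
  have hφ : ContDiff ℝ 2 φ := contDiff_prodFn Θ y₀ hξ hζ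
  set R := Real.sqrt (ε ^ 2 + (‖τ₁‖ + r) ^ 2) with hRd
  have hR0 : 0 ≤ R := Real.sqrt_nonneg _
  have hR2 : R ^ 2 = ε ^ 2 + (‖τ₁‖ + r) ^ 2 := Real.sq_sqrt (by positivity)
  have hRδ : R < δ := by
    have := hf.pos
    nlinarith
  have hsupp : ∀ x, φ x ≠ 0 → dist x y₀ ≤ R := by
    intro x hx
    obtain ⟨⟨s, τ⟩, rfl⟩ : ∃ p, J Θ y₀ p = x := ⟨_, J_Jinv Θ y₀ x⟩
    rw [hφd, prodFn_J] at hx
    have h1 : |s| < ε := by
      by_contra h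
      exact hx (by simp [hξ0 s (not_lt.1 h)])
    have h2 : ‖τ - τ₁‖ < r := by
      by_contra h
      exact hx (by simp [hζ0 τ (not_lt.1 h)])
    have h3 : ‖τ‖ ≤ ‖τ₁‖ + r := by
      calc ‖τ‖ = ‖(τ - τ₁) + τ₁‖ := by simp
        _ ≤ ‖τ - τ₁‖ + ‖τ₁‖ := norm_add_le _ _
        _ ≤ ‖τ₁‖ + r := by linarith
    have h4 := norm_J_sub_sq Θ y₀ (s, τ)
    rw [dist_eq_norm]
    have h5 : s ^ 2 ≤ ε ^ 2 := by
      rw [← sq_abs]
      exact pow_le_pow_left₀ (abs_nonneg _) h1.le 2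
    have h6 : ‖τ‖ ^ 2 ≤ (‖τ₁‖ + r) ^ 2 := pow_le_pow_left₀ (norm_nonneg _) h3 2
    simp only at h4
    nlinarith [norm_nonneg (J Θ y₀ (s, τ) - y₀)]
  have hts : tsupport φ ⊆ Metric.closedBall y₀ R :=
    closure_minimal (fun x hx => Metric.mem_closedBall.2 (hsupp x hx)) Metric.isClosed_closedBall
  have hc : HasCompactSupport φ :=
    (isCompact_closedBall y₀ R).of_isClosed_subset (isClosed_tsupport φ) hts
  have hs : tsupport φ ⊆ Metric.ball y₀ δ :=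
    hts.trans (Metric.closedBall_subset_ball hRδ)
  have hRob : ∀ x, ⟪x - y₀, nrm Θ⟫ = 0 → fderiv ℝ φ x (nrm Θ) = α * φ x := by
    intro x hx
    have h1 := congrFun (fderiv_prodFn_nrm Θ y₀ (hξ.of_le (by norm_num) : ContDiff ℝ 1 ξ)
      (hζ.of_le (by norm_num) : ContDiff ℝ 1 ζ)) x
    rw [hφd, h1, prodFn, prodFn, Jinv_fst, hx, hR]
    ring
  have hmain := hW.flat Θ y₀ δ hf φ hφ hc hs hRob
  have hnot : ∀ z, δ ≤ dist z y₀ → z ∉ tsupport φ := by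
    intro z hz h
    have := hs h
    rw [Metric.mem_ball] at this
    linarith
  rw [hf.integral_domain (w := fun x => u x * (lapl (frameBasis Θ) φ x + lam * φ x))
    (fun z hz => by
      simp [lapl_eq_zero_of_notMem_tsupport _ (hnot z hz),
        image_eq_zero_of_notMem_tsupport (hnot z hz)]) hΩ.measurableSet,
    setIntegral_halfspace] at hmain
  simp_rw [hφd, lapl_prodFn Θ y₀ hξ hζ, prodFn_J] at hmain
  refine Eq.trans ?_ hmain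
  symm
  refine setIntegral_eq_of_subset_of_forall_sdiff_eq_zero
    (measurableSet_Ioi.prod MeasurableSet.univ) ?_ ?_
  · exact prod_mono Ioo_subset_Ioi_self (subset_univ _)
  · rintro ⟨s, τ⟩ ⟨⟨h1, -⟩, h2⟩
    simp only [mem_Ioi] at h1
    by_cases hs' : s < ε
    · have h3 : r ≤ ‖τ - τ₁‖ := by
        by_contra h
        apply h2
        refine ⟨⟨h1, hs'⟩, ?_⟩
        rw [Metric.mem_ball, dist_eq_norm]
        exact not_le.1 h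
      simp [hζ0 τ h3, hζ1 τ h3]
    · have h3 : ε ≤ s := not_lt.1 hs'
      have h4 : ξ s = 0 := hξ0 s (h3.trans (le_abs_self s))
      have h5 : deriv (deriv ξ) s = 0 :=
        deriv_deriv_eq_zero hξ (fun s hs => hξ0 s (hs.trans (le_abs_self s))) h3
      simp [h4, h5]

end Pool.Agent.Helper77.Robin
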